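import Pool.Agent.EMCW.NumSt2

/-!
# EMCW: bounds for the coefficients of the cubic
-/

set_option autoImplicit false

namespace Pool.Agent.EMCW

namespace A1cub

/-- numerator of `2 ka` -/
private noncomputable def nu (s K e : ℝ) : ℝ := s * (2 * s * (K * s - 1) - (1 - e))

/-- the common denominator -/
private noncomputable def de (e : ℝ) : ℝ := (1 - e) * (1 - 2 * e)

private noncomputable def M0 (d K : ℝ) : ℝ := 6 * K - 8 - d * (6 * K - 5)

private noncomputable def M1 (d K : ℝ) : ℝ := d ^ 2 * (6 * K - 2) - d - 4 * K + 6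

private noncomputable def M2 (d K : ℝ) : ℝ := -2 * K * d ^ 3

/-- numerator of `C2` -/
private noncomputable def nC (e d K : ℝ) : ℝ :=
  M0 d K + e * M1 d K + e ^ 2 * M2 d K + nu (1 - d * e) K e * (2 * d - 1)

/-- numerator of `ys * C2 - c2` -/
private noncomputable def nQ (e d K : ℝ) : ℝ :=
  (M1 d K + M2 d K * e) * (1 - (3 - 2 * d) * e) + 2 * M0 d K * (d - e) -
    d * (1 - d) * nu (1 - d * e) K e

private theorem uL (e : ℝ) (h0 : 0 ≤ e) (h1 : e ≤ 1 / 4) :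
    0 ≤ nu (1 - (5414 / 10000 - 81 / 1000 * e) * e) (17182 / 10000 + 112 / 1000 * e) e - 352 / 1000 * de e := by
  obtain ⟨x, hx⟩ : ∃ x, x = 1 - 4 * e := ⟨_, rfl⟩
  have hx0 : 0 ≤ x := by linarith
  have h : nu (1 - (5414 / 10000 - 81 / 1000 * e) * e) (17182 / 10000 + 112 / 1000 * e) e - 352 / 1000 * de e =
      (211 / 2500 : ℝ) * x ^ 7 + (22109989 / 12500000 : ℝ) * e * x ^ 6 +
      (959321612277 / 62500000000 : ℝ) * e ^ 2 * x ^ 5 +
      (22057946727845387 / 312500000000000 : ℝ) * e ^ 3 * x ^ 4 +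
      (56733503983867297 / 312500000000000 : ℝ) * e ^ 4 * x ^ 3 +
      (77672297282118237 / 312500000000000 : ℝ) * e ^ 5 * x ^ 2 +
      (45216365941804587 / 312500000000000 : ℝ) * e ^ 6 * x +
      (502604587881123 / 78125000000000 : ℝ) * e ^ 7 := by
    rw [hx]
    unfold nu de
    ring
  rw [h]
  positivity

private theorem uU (e : ℝ) (h0 : 0 ≤ e) (h1 : e ≤ 1 / 4) :
    0 ≤ 438 / 1000 * de e - nu (1 - (5412 / 10000 - 822 / 10000 * e) * e) (17184 / 10000 + 1165 / 10000 * e) e := by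
  obtain ⟨x, hx⟩ : ∃ x, x = 1 - 4 * e := ⟨_, rfl⟩
  have hx0 : 0 ≤ x := by linarith
  have h : 438 / 1000 * de e - nu (1 - (5412 / 10000 - 822 / 10000 * e) * e) (17184 / 10000 + 1165 / 10000 * e) e =
      (3 / 2500 : ℝ) * x ^ 7 + (1126839 / 3125000 : ℝ) * e * x ^ 6 +
      (56061035583 / 7812500000 : ℝ) * e ^ 2 * x ^ 5 +
      (1183648719564567 / 19531250000000 : ℝ) * e ^ 3 * x ^ 4 +
      (21258673149870969 / 78125000000000 : ℝ) * e ^ 4 * x ^ 3 +
      (106428629998664733 / 156250000000000 : ℝ) * e ^ 5 * x ^ 2 +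
      (56134210512033339 / 62500000000000 : ℝ) * e ^ 6 * x +
      (303627887905245297 / 625000000000000 : ℝ) * e ^ 7 := by
    rw [hx]
    unfold nu de
    ring
  rw [h]
  positivity

private theorem uC (e : ℝ) (h0 : 0 ≤ e) (h1 : e ≤ 1 / 4) :
    0 ≤ nC e (5414 / 10000 - 81 / 1000 * e) (17182 / 10000 + 112 / 1000 * e) + 545 / 1000 * de e := by
  obtain ⟨x, hx⟩ : ∃ x, x = 1 - 4 * e := ⟨_, rfl⟩
  have hx0 : 0 ≤ x := by linarith
  have h : nC e (5414 / 10000 - 81 / 1000 * e) (17182 / 10000 + 112 / 1000 * e) + 545 / 1000 * de e =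
      (199163 / 12500000 : ℝ) * x ^ 8 + (26692137723 / 62500000000 : ℝ) * e * x ^ 7 +
      (309378843975613 / 62500000000000 : ℝ) * e ^ 2 * x ^ 6 +
      (25170157154605832609 / 781250000000000000 : ℝ) * e ^ 3 * x ^ 5 +
      (1246295484837451771 / 9765625000000000 : ℝ) * e ^ 4 * x ^ 4 +
      (24234793757414242919 / 78125000000000000 : ℝ) * e ^ 5 * x ^ 3 +
      (1070594829687256293 / 2441406250000000 : ℝ) * e ^ 6 * x ^ 2 +
      (47945712818964446029 / 156250000000000000 : ℝ) * e ^ 7 * x +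
      (12106865255918635029 / 195312500000000000 : ℝ) * e ^ 8 := by
    rw [hx]
    unfold nC M0 M1 M2 nu de
    ring
  rw [h]
  positivity

private theorem uQ1 (e : ℝ) (h0 : 0 ≤ e) (h1 : e ≤ 1 / 4) :
    0 ≤ nQ e (5412 / 10000 - 822 / 10000 * e) (17182 / 10000 + 112 / 1000 * e) - 28 / 100 * de e := by
  obtain ⟨x, hx⟩ : ∃ x, x = 1 - 4 * e := ⟨_, rfl⟩
  have hx0 : 0 ≤ x := by linarith
  have h : nQ e (5412 / 10000 - 822 / 10000 * e) (17182 / 10000 + 112 / 1000 * e) - 28 / 100 * de e =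
      (162188081 / 7812500000 : ℝ) * x ^ 9 + (11964954590157 / 19531250000000 : ℝ) * e * x ^ 8 +
      (770242370450776171 / 97656250000000000 : ℝ) * e ^ 2 * x ^ 7 +
      (14139535558456224495637 / 244140625000000000000 : ℝ) * e ^ 3 * x ^ 6 +
      (129762412160035623994821 / 488281250000000000000 : ℝ) * e ^ 4 * x ^ 5 +
      (15302836967476240864849 / 19531250000000000000 : ℝ) * e ^ 5 * x ^ 4 +
      (17869220535531533432713 / 12207031250000000000 : ℝ) * e ^ 6 * x ^ 3 +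
      (1273873659633413462503989 / 781250000000000000000 : ℝ) * e ^ 7 * x ^ 2 +
      (7284198276099351219660917 / 7812500000000000000000 : ℝ) * e ^ 8 * x +
      (348634460541584919408817 / 1953125000000000000000 : ℝ) * e ^ 9 := by
    rw [hx]
    unfold nQ M0 M1 M2 nu de
    ring
  rw [h]
  positivity

private theorem uQ2 (e : ℝ) (h0 : 0 ≤ e) (h1 : e ≤ 1 / 4) :
    0 ≤ nQ e (5412 / 10000 - 822 / 10000 * e) (17184 / 10000 + 1165 / 10000 * e) - 28 / 100 * de e := by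
  obtain ⟨x, hx⟩ : ∃ x, x = 1 - 4 * e := ⟨_, rfl⟩
  have hx0 : 0 ≤ x := by linarith
  have h : nQ e (5412 / 10000 - 822 / 10000 * e) (17184 / 10000 + 1165 / 10000 * e) - 28 / 100 * de e =
      (81281861 / 3906250000 : ℝ) * x ^ 9 + (3003818713221 / 4882812500000 : ℝ) * e * x ^ 8 +
      (193770292538050513 / 24414062500000000 : ℝ) * e ^ 2 * x ^ 7 +
      (7130107923149372533697 / 122070312500000000000 : ℝ) * e ^ 3 * x ^ 6 +
      (131177146757418574464927 / 488281250000000000000 : ℝ) * e ^ 4 * x ^ 5 +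
      (31009543931685498052991 / 39062500000000000000 : ℝ) * e ^ 5 * x ^ 4 +
      (290163975977150746376971 / 195312500000000000000 : ℝ) * e ^ 6 * x ^ 3 +
      (80766311362623518285673 / 48828125000000000000 : ℝ) * e ^ 7 * x ^ 2 +
      (7331518040123536386022379 / 7812500000000000000000 : ℝ) * e ^ 8 * x +
      (2686159848228860289176007 / 15625000000000000000000 : ℝ) * e ^ 9 := by
    rw [hx]
    unfold nQ M0 M1 M2 nu de
    ring
  rw [h]
  positivity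

private theorem uA (e : ℝ) (h0 : 0 ≤ e) (h1 : e ≤ 1 / 4) :
    0 ≤ 16 / 100 * (1 - (5414 / 10000 - 81 / 1000 * e) * e) * de e -
      nu (1 - (5412 / 10000 - 822 / 10000 * e) * e) (17184 / 10000 + 1165 / 10000 * e) e * ((1 - (5412 / 10000 - 822 / 10000 * e)) - (1 - (5412 / 10000 - 822 / 10000 * e)) ^ 3) := by
  obtain ⟨x, hx⟩ : ∃ x, x = 1 - 4 * e := ⟨_, rfl⟩
  have hx0 : 0 ≤ x := by linarith
  have h : 16 / 100 * (1 - (5414 / 10000 - 81 / 1000 * e) * e) * de e -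
      nu (1 - (5412 / 10000 - 822 / 10000 * e) * e) (17184 / 10000 + 1165 / 10000 * e) e * ((1 - (5412 / 10000 - 822 / 10000 * e)) - (1 - (5412 / 10000 - 822 / 10000 * e)) ^ 3) =
      (17389211779 / 9765625000000 : ℝ) * x ^ 10 +
      (4188281206994953 / 48828125000000000 : ℝ) * e * x ^ 9 +
      (213101489208625314841 / 122070312500000000000 : ℝ) * e ^ 2 * x ^ 8 +
      (6160248640299580561009209 / 305175781250000000000000 : ℝ) * e ^ 3 * x ^ 7 +
      (181299336654776873924632547 / 1220703125000000000000000 : ℝ) * e ^ 4 * x ^ 6 +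
      (892833935332807898173797287 / 1220703125000000000000000 : ℝ) * e ^ 5 * x ^ 5 +
      (2394330598155749725414937559 / 976562500000000000000000 : ℝ) * e ^ 6 * x ^ 4 +
      (216370973141728254353794547 / 39062500000000000000000 : ℝ) * e ^ 7 * x ^ 3 +
      (157922886737651298152804757793 / 19531250000000000000000000 : ℝ) * e ^ 8 * x ^ 2 +
      (134650042796600373707144972501 / 19531250000000000000000000 : ℝ) * e ^ 9 * x +
      (203813731379584328023211639109 / 78125000000000000000000000 : ℝ) * e ^ 10 := by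
    rw [hx]
    unfold nu de
    ring
  rw [h]
  positivity

/-! ### monotonicity -/

private theorem nu_mono (e s t K L : ℝ) (h0 : 0 ≤ e) (hs : 86 / 100 ≤ s) (hst : s ≤ t)
    (hK : 17 / 10 ≤ K) (hKL : K ≤ L) : nu s K e ≤ nu t L e := by
  have h1 : nu t L e - nu s K e = 2 * (L - K) * t ^ 3 +
      (t - s) * (2 * K * (s ^ 2 + s * t + t ^ 2) - 2 * (s + t) - (1 - e)) := by
    unfold nu
    ring
  have ht : 0 ≤ t := by linarith
  have h2 : 0 ≤ 2 * (L - K) * t ^ 3 := by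
    have : 0 ≤ L - K := by linarith
    positivity
  have h3 : 129 / 100 * (s + t) ≤ s ^ 2 + s * t + t ^ 2 := by
    nlinarith [sq_nonneg (s - t)]
  have h4 : 34 / 10 * (129 / 100 * (s + t)) ≤ 2 * K * (s ^ 2 + s * t + t ^ 2) := by
    apply mul_le_mul (by linarith) h3 (by linarith) (by linarith)
  have h5 : 0 ≤ (t - s) * (2 * K * (s ^ 2 + s * t + t ^ 2) - 2 * (s + t) - (1 - e)) := by
    apply mul_nonneg (by linarith)
    linarith
  linarith

private theorem nC_monoK (e d K L : ℝ) (h0 : 0 ≤ e) (h1 : e ≤ 1 / 4) (hd : 52 / 100 ≤ d)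
    (hd' : d ≤ 5415 / 10000) (hKL : K ≤ L) : nC e d K ≤ nC e d L := by
  have h2 : nC e d L - nC e d K = (L - K) * ((4 - 2 * d) + e * (-4 + 6 * d - 6 * d ^ 2) +
      e ^ 2 * (d ^ 2 * (10 * d - 6)) + e ^ 3 * (2 * d ^ 3 * (1 - 2 * d))) := by
    unfold nC nu M0 M1 M2
    ring
  have h3 : -(253 / 100) ≤ -4 + 6 * d - 6 * d ^ 2 := by nlinarith
  have h4 : -(1 / 4) ≤ d ^ 2 * (10 * d - 6) := by nlinarith
  have h5 : -(1 / 4) ≤ 2 * d ^ 3 * (1 - 2 * d) := by
    have h6 : d ^ 3 ≤ 1 := by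
      apply pow_le_one₀ (by linarith) (by linarith)
    have h7 : 0 ≤ d ^ 3 := by positivity
    nlinarith
  have h6 : 0 ≤ e ^ 2 := by positivity
  have h7 : 0 ≤ e ^ 3 := by positivity
  have h8 : e ^ 2 ≤ 1 / 16 := by nlinarith
  have h9 : e ^ 3 ≤ 1 / 16 := by nlinarith
  have h10 : 0 ≤ (4 - 2 * d) + e * (-4 + 6 * d - 6 * d ^ 2) +
      e ^ 2 * (d ^ 2 * (10 * d - 6)) + e ^ 3 * (2 * d ^ 3 * (1 - 2 * d)) := by
    nlinarith [mul_le_mul_of_nonneg_left h3 h0, mul_le_mul_of_nonneg_left h4 h6,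
      mul_le_mul_of_nonneg_left h5 h7]
  nlinarith [mul_nonneg (sub_nonneg.mpr hKL) h10]

private theorem nC_monod (e d D K : ℝ) (h0 : 0 ≤ e) (h1 : e ≤ 1 / 4) (hd : 52 / 100 ≤ d)
    (hdD : d ≤ D) (hD : D ≤ 5415 / 10000) (hK : 1718 / 1000 ≤ K) (hK' : K ≤ 1748 / 1000) :
    nC e D K ≤ nC e d K := by
  obtain ⟨p, hp⟩ : ∃ p, p = d + D := ⟨_, rfl⟩
  obtain ⟨r, hr⟩ : ∃ r, r = D ^ 2 + d * D + d ^ 2 := ⟨_, rfl⟩
  obtain ⟨q, hq⟩ : ∃ q, q = D ^ 3 + d * D ^ 2 + d ^ 2 * D + d ^ 3 := ⟨_, rfl⟩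
  have h2 : nC e d K - nC e D K = (D - d) * (1 + 2 * K - e * (-4 + 6 * K + (8 - 6 * K) * p) -
      e ^ 2 * (1 - 6 * K * p + (10 * K - 4) * r) + e ^ 3 * (2 * K * (2 * q - r))) := by
    rw [hp, hr, hq]
    unfold nC nu M0 M1 M2
    ring
  have p1 : 104 / 100 ≤ p := by linarith
  have p2 : p ≤ 1083 / 1000 := by linarith
  have r2 : r ≤ 88 / 100 := by rw [hr]; nlinarith
  have h3 : -4 + 6 * K + (8 - 6 * K) * p ≤ 4 := by nlinarith
  have h4 : 1 - 6 * K * p + (10 * K - 4) * r ≤ 3 := by nlinarith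
  have h5 : 0 ≤ 2 * q - r := by
    rw [hq, hr]
    nlinarith [mul_nonneg (sub_nonneg.mpr hd) (sub_nonneg.mpr hd), mul_nonneg (mul_nonneg (sub_nonneg.mpr hd) (sub_nonneg.mpr hd)) (sub_nonneg.mpr hd), sq_nonneg (D - d)]
  have h6 : 0 ≤ e ^ 3 * (2 * K * (2 * q - r)) := by
    apply mul_nonneg (by positivity)
    apply mul_nonneg (by linarith) h5
  have h7 : 0 ≤ e ^ 2 := by positivity
  have h8 : e ^ 2 ≤ 1 / 16 := by nlinarith
  have h9 : 0 ≤ 1 + 2 * K - e * (-4 + 6 * K + (8 - 6 * K) * p) -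
      e ^ 2 * (1 - 6 * K * p + (10 * K - 4) * r) + e ^ 3 * (2 * K * (2 * q - r)) := by
    nlinarith [mul_le_mul_of_nonneg_left h3 h0, mul_le_mul_of_nonneg_left h4 h7]
  nlinarith [mul_nonneg (sub_nonneg.mpr hdD) h9]

private theorem nQ_h1 (p r K : ℝ) (p1 : 10412 / 10000 ≤ p) (p2 : p ≤ 10828 / 10000)
    (r1 : 3 / 4 * p ^ 2 ≤ r) (hK : 17182 / 10000 ≤ K) (hK' : K ≤ 1748 / 1000) :
    -(47 / 10) ≤ 4 + 4 * K - 12 * K * p + (1 + 4 * K) * r := by
  have h5 : (1 + 4 * K) * (3 / 4 * p ^ 2) ≤ (1 + 4 * K) * r :=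
    mul_le_mul_of_nonneg_left r1 (by linarith)
  obtain ⟨u, hu⟩ : ∃ u, u = 10828 / 10000 - p := ⟨_, rfl⟩
  have u0 : 0 ≤ u := by linarith
  have u1 : u ≤ 42 / 1000 := by linarith
  have hp : p = 10828 / 10000 - u := by linarith
  have h6 : -(54763 / 10000) + 55 / 10 * u ≤ 4 - 12 * p + 3 * p ^ 2 := by
    rw [hp]
    nlinarith [mul_nonneg u0 u0]
  have h7 : K * (-(54763 / 10000) + 55 / 10 * u) ≤ K * (4 - 12 * p + 3 * p ^ 2) :=
    mul_le_mul_of_nonneg_left h6 (by linarith)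
  have h8 : 1748 / 1000 * (-(54763 / 10000) + 55 / 10 * u) ≤
      K * (-(54763 / 10000) + 55 / 10 * u) :=
    mul_le_mul_of_nonpos_right hK' (by linarith)
  have h9 : 8793 / 10000 - 17 / 10 * u ≤ 3 / 4 * p ^ 2 := by
    rw [hp]
    nlinarith [mul_nonneg u0 u0]
  have h10 : (1 + 4 * K) * (3 / 4 * p ^ 2) + (4 + 4 * K - 12 * K * p) =
      4 + 3 / 4 * p ^ 2 + K * (4 - 12 * p + 3 * p ^ 2) := by ring
  linarith

private theorem nQ_h2 (d D p r q : ℝ) (hD : 5206 / 10000 ≤ D)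
    (hdD : D ≤ d) (hd : d ≤ 5414 / 10000) (hp : p = d + D) (hr : r = D ^ 2 + d * D + d ^ 2)
    (hq : q = D ^ 3 + d * D ^ 2 + d ^ 2 * D + d ^ 3) :
    3 / 4 * p ^ 2 ≤ r ∧ 81 / 100 ≤ r ∧ 56 / 100 ≤ q ∧ 0 ≤ q - D * q - d ^ 4 := by
  have a1 : (52 / 100 : ℝ) ^ 3 ≤ D ^ 3 := pow_le_pow_left₀ (by norm_num) (by linarith) 3
  have a2 : (52 / 100 : ℝ) ^ 3 ≤ d ^ 3 := pow_le_pow_left₀ (by norm_num) (by linarith) 3
  have a3 : (52 / 100 : ℝ) ^ 2 ≤ D ^ 2 := pow_le_pow_left₀ (by norm_num) (by linarith) 2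
  have a4 : (52 / 100 : ℝ) ^ 2 ≤ d ^ 2 := pow_le_pow_left₀ (by norm_num) (by linarith) 2
  have a5 : (52 / 100 : ℝ) * (52 / 100) ^ 2 ≤ d * D ^ 2 :=
    mul_le_mul (by linarith) a3 (by norm_num) (by linarith)
  have a6 : (52 / 100 : ℝ) ^ 2 * (52 / 100) ≤ d ^ 2 * D :=
    mul_le_mul a4 (by linarith) (by norm_num) (by positivity)
  have a7 : (52 / 100 : ℝ) * (52 / 100) ≤ d * D :=
    mul_le_mul (by linarith) (by linarith) (by norm_num) (by linarith)
  have a8 : d ^ 4 ≤ (5414 / 10000 : ℝ) ^ 4 := pow_le_pow_left₀ (by linarith) hd 4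
  have hq1 : 56 / 100 ≤ q := by
    rw [hq]
    norm_num at a1 a2 a5 a6
    linarith
  refine ⟨?_, ?_, hq1, ?_⟩
  · rw [hp, hr]
    nlinarith [sq_nonneg (D - d)]
  · rw [hr]
    norm_num at a3 a4 a7
    linarith
  · have a9 : 45 / 100 * q ≤ (1 - D) * q := mul_le_mul_of_nonneg_right (by linarith) (by linarith)
    norm_num at a8
    linarith

private theorem nQ_monod (e d D K : ℝ) (h0 : 0 ≤ e) (h1 : e ≤ 1 / 4) (hD : 5206 / 10000 ≤ D)
    (hdD : D ≤ d) (hd : d ≤ 5414 / 10000) (hK : 17182 / 10000 ≤ K) (hK' : K ≤ 1748 / 1000) :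
    nQ e D K ≤ nQ e d K := by
  obtain ⟨p, hp⟩ : ∃ p, p = d + D := ⟨_, rfl⟩
  obtain ⟨r, hr⟩ : ∃ r, r = D ^ 2 + d * D + d ^ 2 := ⟨_, rfl⟩
  obtain ⟨q, hq⟩ : ∃ q, q = D ^ 3 + d * D ^ 2 + d ^ 2 * D + d ^ 3 := ⟨_, rfl⟩
  have h2 : nQ e d K - nQ e D K = (d - D) * ((-14 + 10 * K + (5 - 4 * K) * p) +
      e * (4 + 4 * K - 12 * K * p + (1 + 4 * K) * r) +
      e ^ 2 * (p + r + 2 * (K - 1) * q) + e ^ 3 * (2 * K * (q - D * q - d ^ 4))) := by
    rw [hp, hr, hq]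
    unfold nQ nu M0 M1 M2
    ring
  have p1 : 10412 / 10000 ≤ p := by linarith
  have p2 : p ≤ 10828 / 10000 := by linarith
  obtain ⟨r1, r2, q1, q2⟩ := nQ_h2 d D p r q hD hdD hd hp hr hq
  have h3 : 1154 / 1000 ≤ -14 + 10 * K + (5 - 4 * K) * p := by
    have h4 : (5 - 4 * K) * (10828 / 10000) ≤ (5 - 4 * K) * p :=
      mul_le_mul_of_nonpos_left p2 (by linarith)
    linarith
  have h4 := nQ_h1 p r K p1 p2 r1 hK hK'
  have h5 : 26 / 10 ≤ p + r + 2 * (K - 1) * q := by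
    have h6 : 14364 / 10000 * (56 / 100) ≤ 2 * (K - 1) * q :=
      mul_le_mul (by linarith) q1 (by norm_num) (by linarith)
    linarith
  have h7 : 0 ≤ e ^ 3 * (2 * K * (q - D * q - d ^ 4)) := by
    apply mul_nonneg (by positivity)
    apply mul_nonneg (by linarith) q2
  have h8 : 0 ≤ e ^ 2 := by positivity
  have h9 : 0 ≤ (-14 + 10 * K + (5 - 4 * K) * p) +
      e * (4 + 4 * K - 12 * K * p + (1 + 4 * K) * r) +
      e ^ 2 * (p + r + 2 * (K - 1) * q) + e ^ 3 * (2 * K * (q - D * q - d ^ 4)) := by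
    have b1 := mul_le_mul_of_nonneg_left h4 h0
    have b2 := mul_le_mul_of_nonneg_left h5 h8
    nlinarith
  have h10 := mul_nonneg (sub_nonneg.mpr hdD) h9
  linarith

/-! ### the identities -/

private theorem id_C (e d K : ℝ) : nu (1 - d * e) K e - (2 * K - 3) * de e =
    e * (M0 d K + e * M1 d K + e ^ 2 * M2 d K) := by
  unfold nu de M0 M1 M2
  ring

private theorem id_Q (e d K : ℝ) : (1 - d * e) * nC e d K -
    (-(2 * d) * de e + nu (1 - d * e) K e * (2 - d) -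
      (2 * d - 1) * (de e + nu (1 - d * e) K e * d * e) + nu (1 - d * e) K e * (1 - d) * d * e) =
    e * nQ e d K := by
  unfold nC nQ nu de M0 M1 M2
  ring

private theorem id_k (r e g K : ℝ) (hr : 4 ≤ r) (he : e = 1 / r) :
    2 * (((r + g - 1) * (K * (r + g - 1) - r) / (r * (r - 1)) - 1 / 2) * (r + g - 1) / (r - 2)) *
      de e = nu (1 - (1 - g) * e) K e := by
  have h1 : r ≠ 0 := by linarith
  have h2 : r - 1 ≠ 0 := by linarith
  have h3 : r - 2 ≠ 0 := by linarith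
  rw [he]
  unfold nu de
  field_simp
  ring

private theorem nQ_aff (e D K L : ℝ) : nQ e D K - nQ e D L = (K - L) * (-4 + 10 * D - 4 * D ^ 2 +
    e * (4 * D - 12 * D ^ 2 + 4 * D ^ 3) + 2 * e ^ 2 * D ^ 4 + e ^ 3 * (2 * D ^ 4 - 2 * D ^ 5)) := by
  unfold nQ nu M0 M1 M2
  ring

private theorem bnd_Q (e d K : ℝ) (he0 : 0 ≤ e) (he1 : e ≤ 1 / 4)
    (d1 : 5412 / 10000 - 822 / 10000 * e ≤ d) (d2 : d ≤ 5414 / 10000)
    (K1 : 17182 / 10000 + 112 / 1000 * e ≤ K) (K2 : K ≤ 17184 / 10000 + 1165 / 10000 * e) :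
    28 / 100 * de e ≤ nQ e d K := by
  have h1 := nQ_monod e d _ K he0 he1 (by linarith) d1 d2 (by linarith) (by linarith)
  have h2 := uQ1 e he0 he1
  have h3 := uQ2 e he0 he1
  obtain ⟨D, hD⟩ : ∃ D, D = 5412 / 10000 - 822 / 10000 * e := ⟨_, rfl⟩
  rw [← hD] at h1 h2 h3
  have h4 := fun K L => nQ_aff e D K L
  obtain ⟨B, hB⟩ : ∃ B, B = -4 + 10 * D - 4 * D ^ 2 + e * (4 * D - 12 * D ^ 2 + 4 * D ^ 3) +
    2 * e ^ 2 * D ^ 4 + e ^ 3 * (2 * D ^ 4 - 2 * D ^ 5) := ⟨_, rfl⟩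
  rw [← hB] at h4
  rcases le_total 0 B with hB0 | hB0
  · have h6 := h4 K (17182 / 10000 + 112 / 1000 * e)
    have h7 := mul_nonneg (sub_nonneg.mpr K1) hB0
    linarith
  · have h6 := h4 (17184 / 10000 + 1165 / 10000 * e) K
    have h7 := mul_nonpos_of_nonneg_of_nonpos (sub_nonneg.mpr K2) hB0
    linarith

private theorem bnd_nu (e d K : ℝ) (he0 : 0 ≤ e) (he1 : e ≤ 1 / 4)
    (d1 : 5412 / 10000 - 822 / 10000 * e ≤ d) (d2 : d ≤ 5414 / 10000 - 81 / 1000 * e)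
    (K1 : 17182 / 10000 + 112 / 1000 * e ≤ K) (K2 : K ≤ 17184 / 10000 + 1165 / 10000 * e) :
    1 - (5414 / 10000 - 81 / 1000 * e) * e ≤ 1 - d * e ∧
    nu (1 - (5414 / 10000 - 81 / 1000 * e) * e) (17182 / 10000 + 112 / 1000 * e) e ≤
      nu (1 - d * e) K e ∧
    nu (1 - d * e) K e ≤
      nu (1 - (5412 / 10000 - 822 / 10000 * e) * e) (17184 / 10000 + 1165 / 10000 * e) e := by
  have s1 : 86 / 100 ≤ 1 - (5414 / 10000 - 81 / 1000 * e) * e := by nlinarith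
  have s2 : 1 - (5414 / 10000 - 81 / 1000 * e) * e ≤ 1 - d * e := by
    have := mul_le_mul_of_nonneg_right d2 he0
    linarith
  have s3 : 1 - d * e ≤ 1 - (5412 / 10000 - 822 / 10000 * e) * e := by
    have := mul_le_mul_of_nonneg_right d1 he0
    linarith
  exact ⟨s2, nu_mono e _ _ _ _ he0 s1 s2 (by linarith) K1,
    nu_mono e _ _ _ _ he0 (by linarith) s3 (by linarith) K2⟩

private theorem bnd_A (e d K : ℝ) (he0 : 0 ≤ e) (he1 : e ≤ 1 / 4) (hde : 0 < de e)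
    (d1 : 5412 / 10000 - 822 / 10000 * e ≤ d) (d2 : d ≤ 5414 / 10000 - 81 / 1000 * e)
    (K1 : 17182 / 10000 + 112 / 1000 * e ≤ K) (K2 : K ≤ 17184 / 10000 + 1165 / 10000 * e) :
    nu (1 - d * e) K e * ((1 - d) - (1 - d) ^ 3) ≤ 16 / 100 * (1 - d * e) * de e := by
  obtain ⟨s2, hlo, hhi⟩ := bnd_nu e d K he0 he1 d1 d2 K1 K2
  have b1 := uL e he0 he1
  have h1 := uA e he0 he1
  obtain ⟨D, hD⟩ : ∃ D, D = 5412 / 10000 - 822 / 10000 * e := ⟨_, rfl⟩
  rw [← hD] at h1 hhi d1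
  have hD1 : 52 / 100 ≤ D := by linarith
  have h2 : (1 - d) - (1 - d) ^ 3 ≤ (1 - D) - (1 - D) ^ 3 := by
    have h3 : (1 - D) - (1 - D) ^ 3 - ((1 - d) - (1 - d) ^ 3) =
        (d - D) * (1 - ((1 - D) ^ 2 + (1 - D) * (1 - d) + (1 - d) ^ 2)) := by ring
    have h4 : (1 - D) ^ 2 + (1 - D) * (1 - d) + (1 - d) ^ 2 ≤ 1 := by nlinarith
    have h5 := mul_nonneg (sub_nonneg.mpr d1) (sub_nonneg.mpr h4)
    linarith
  have h3 : 0 ≤ (1 - d) - (1 - d) ^ 3 := by
    have h4 : (1 - d) - (1 - d) ^ 3 = (1 - d) * (1 - (1 - d) ^ 2) := by ring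
    rw [h4]
    apply mul_nonneg (by linarith)
    nlinarith
  have h4 : 0 ≤ nu (1 - d * e) K e := by linarith
  have h5 : nu (1 - d * e) K e * ((1 - d) - (1 - d) ^ 3) ≤
      nu (1 - D * e) (17184 / 10000 + 1165 / 10000 * e) e * ((1 - D) - (1 - D) ^ 3) :=
    mul_le_mul hhi h2 h3 (by linarith)
  have h6 : 16 / 100 * (1 - (5414 / 10000 - 81 / 1000 * e) * e) * de e ≤
      16 / 100 * (1 - d * e) * de e :=
    mul_le_mul_of_nonneg_right (by linarith) hde.le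
  linarith

private theorem bnd_C (e d K : ℝ) (he0 : 0 ≤ e) (he1 : e ≤ 1 / 4)
    (d1 : 5412 / 10000 - 822 / 10000 * e ≤ d) (d2 : d ≤ 5414 / 10000 - 81 / 1000 * e)
    (K1 : 17182 / 10000 + 112 / 1000 * e ≤ K) : -(545 / 1000) * de e ≤ nC e d K := by
  have h1 := nC_monoK e d _ K he0 he1 (by linarith) (by linarith) K1
  have h2 := nC_monod e d _ (17182 / 10000 + 112 / 1000 * e) he0 he1 (by linarith) d2
    (by linarith) (by linarith) (by linarith)
  have h3 := uC e he0 he1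
  linarith

private theorem eq_C (e r g d K ka C2 : ℝ) (her : e * r = 1) (hg : g = 1 - d)
    (hC2 : C2 = 2 * ka * (r + 1 - 2 * g) - r * (2 * K - 3))
    (hk : 2 * ka * de e = nu (1 - d * e) K e) : C2 * de e = nC e d K := by
  have h1 := id_C e d K
  have h2 : C2 * de e = (2 * ka * de e) * (r + 1 - 2 * g) - r * (2 * K - 3) * de e := by
    rw [hC2]
    ring
  rw [h2, hk, hg]
  have h3 : nu (1 - d * e) K e * (r + 1 - 2 * (1 - d)) - r * (2 * K - 3) * de e =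
      r * (nu (1 - d * e) K e - (2 * K - 3) * de e) + nu (1 - d * e) K e * (2 * d - 1) := by
    ring
  rw [h3, h1]
  have h4 : r * (e * (M0 d K + e * M1 d K + e ^ 2 * M2 d K)) =
      (e * r) * (M0 d K + e * M1 d K + e ^ 2 * M2 d K) := by ring
  rw [h4, her]
  unfold nC
  ring

private theorem eq_Q (e r g d K ys ka C2 c2 : ℝ) (he0 : 0 < e) (her : e * r = 1)
    (hg : g = 1 - d) (hys : ys = r + g - 1)
    (hc2 : c2 = -(2 * r * (1 - g)) + 2 * ka * r * (1 + g) - (1 - 2 * g) *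
      (r + 2 * ka * (1 - g)) + 2 * ka * g * (1 - g))
    (hk : 2 * ka * de e = nu (1 - d * e) K e) (hC : C2 * de e = nC e d K) :
    (ys * C2 - c2) * de e = nQ e d K := by
  have h1 := id_Q e d K
  have h2 : e * ((ys * C2 - c2) * de e) = (1 - d * e) * nC e d K -
      (-(2 * d) * de e + nu (1 - d * e) K e * (2 - d) -
      (2 * d - 1) * (de e + nu (1 - d * e) K e * d * e) +
        nu (1 - d * e) K e * (1 - d) * d * e) := by
    rw [← hC, ← hk]
    have h3 : e * ys = 1 - d * e := by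
      rw [hys, hg]
      linear_combination her
    have h4 : e * c2 = -(2 * d) + 2 * ka * (2 - d) - (2 * d - 1) * (1 + 2 * ka * d * e) +
        2 * ka * (1 - d) * d * e := by
      rw [hc2, hg]
      linear_combination (-(2 * d) + 2 * ka * (2 - d) - (2 * d - 1)) * her
    have h5 : e * ((ys * C2 - c2) * de e) = ((e * ys) * C2 - e * c2) * de e := by ring
    rw [h5, h3, h4]
    ring
  rw [h1] at h2
  exact mul_left_cancel₀ he0.ne' h2

private theorem fin_A (e r g d K ys ka : ℝ) (he0 : 0 < e) (hde : 0 < de e) (her : e * r = 1)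
    (hg : g = 1 - d) (hys : ys = r + g - 1) (hys0 : 0 < ys)
    (hk : 2 * ka * de e = nu (1 - d * e) K e)
    (h7 : nu (1 - d * e) K e * ((1 - d) - (1 - d) ^ 3) ≤ 16 / 100 * (1 - d * e) * de e) :
    2 * ka * r * (1 + g) * g * (1 - g) / ys ≤ 16 / 100 := by
  rw [div_le_iff₀ hys0]
  have h8 : e * ys = 1 - d * e := by
    rw [hys, hg]
    linear_combination her
  have h9 : (2 * ka * r * (1 + g) * g * (1 - g)) * (e * de e) ≤
      (16 / 100 * ys) * (e * de e) := by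
    have h10 : (2 * ka * r * (1 + g) * g * (1 - g)) * (e * de e) =
        (2 * ka * de e) * ((1 - d) - (1 - d) ^ 3) := by
      rw [hg]
      linear_combination (2 * ka * de e * ((1 - d) - (1 - d) ^ 3)) * her
    have h11 : (16 / 100 * ys) * (e * de e) = 16 / 100 * (e * ys) * de e := by ring
    rw [h10, h11, hk, h8]
    exact h7
  exact le_of_mul_le_mul_right h9 (mul_pos he0 hde)

end A1cub

open A1cub in
theorem thm_A1cub (hn : St_GKnum) : St_A1cub := by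
  intro R g K hGK ys ka C2 c2 hys hka hC2 hc2
  obtain ⟨g1, g2, K1, K2⟩ := hn R g K hGK
  have hR : (4 : ℝ) ≤ R := by exact_mod_cast hGK.hR
  obtain ⟨r, hr⟩ : ∃ r : ℝ, r = R := ⟨_, rfl⟩
  rw [← hr] at hys hka hC2 hc2 g1 g2 K1 K2 hR ⊢
  obtain ⟨e, he⟩ : ∃ e : ℝ, e = 1 / r := ⟨_, rfl⟩
  have hr0 : 0 < r := by linarith
  have he0 : 0 < e := by rw [he]; positivity
  have he1 : e ≤ 1 / 4 := by
    rw [he]
    exact one_div_le_one_div_of_le (by norm_num) hR
  have her : e * r = 1 := by rw [he]; field_simp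
  have hdiv : ∀ x : ℝ, x / r = x * e := fun x => by rw [he]; ring
  rw [hdiv] at g1 g2 K1 K2
  obtain ⟨d, hd⟩ : ∃ d : ℝ, d = 1 - g := ⟨_, rfl⟩
  have d1 : 5412 / 10000 - 822 / 10000 * e ≤ d := by linarith
  have d2 : d ≤ 5414 / 10000 - 81 / 1000 * e := by linarith
  have hde : 0 < de e := by
    unfold de
    apply mul_pos <;> linarith
  have hg : g = 1 - d := by linarith
  have hk : 2 * ka * de e = nu (1 - d * e) K e := by
    rw [hka, hys, hd]
    exact id_k r e g K hR he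
  have hC := eq_C e r g d K ka C2 her hg hC2 hk
  have hQ := eq_Q e r g d K ys ka C2 c2 he0 her hg hys hc2 hk hC
  obtain ⟨s2, hlo, hhi⟩ := bnd_nu e d K he0.le he1 d1 d2 K1 K2
  have b1 := uL e he0.le he1
  have b2 := uU e he0.le he1
  refine ⟨?_, ?_, ?_, ?_, ?_⟩
  · have h1 : 352 / 1000 * de e ≤ 2 * ka * de e := by rw [hk]; linarith
    exact le_of_mul_le_mul_right h1 hde
  · have h1 : 2 * ka * de e ≤ 438 / 1000 * de e := by rw [hk]; linarith
    exact le_of_mul_le_mul_right h1 hde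
  · have h4 : -(545 / 1000) * de e ≤ C2 * de e := by
      rw [hC]
      exact bnd_C e d K he0.le he1 d1 d2 K1
    exact le_of_mul_le_mul_right h4 hde
  · have h6 : 28 / 100 * de e ≤ (ys * C2 - c2) * de e := by
      rw [hQ]
      exact bnd_Q e d K he0.le he1 d1 (by linarith) K1 K2
    exact le_of_mul_le_mul_right h6 hde
  · exact fin_A e r g d K ys ka he0 hde her hg hys (by rw [hys]; linarith) hk
      (bnd_A e d K he0.le he1 hde d1 d2 K1 K2)

end Pool.Agent.EMCW
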