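import Pool.Agent.EMCW.NumSt2

/-!
# The end `al = 1` of the curve, `v ≤ 0`, `R ≥ 17`
-/

set_option autoImplicit false

namespace Pool.Agent.EMCW

/-- the polynomial inequality at the least values of `g` and `K` -/
private lemma A1negL_poly0 (e t : ℝ) (he0 : 0 ≤ e) (he1 : e ≤ 1 / 17) (ht0 : 0 ≤ t)
    (ht1 : t ≤ 51 / 50) :
    ((37 / 25 + t) - (4586 / 10000 + 81 / 1000 * e)) *
      ((37 / 25 + t) + 1 - (4586 / 10000 + 81 / 1000 * e)) *
      ((37 / 25 + t) / 2 + 1321 / 10000 * (((37 / 25 + t) + 1 - (4586 / 10000 + 81 / 1000 * e)) * e *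
        (37 / 25 + t) - (1 + (4586 / 10000 + 81 / 1000 * e)))) <
      (37 / 25 + t) * ((37 / 25 + t) * (((17182 / 10000 + 112 / 1000 * e) - 1) * (37 / 25 + t) -
        (1 - (4586 / 10000 + 81 / 1000 * e)))) := by
  have he2 : e ^ 2 ≤ e / 17 := by nlinarith
  have he3 : 0 ≤ e ^ 2 := sq_nonneg e
  have he4 : 0 ≤ e ^ 3 := by positivity
  have he5 : e ^ 3 ≤ e / 289 := by
    have h1 : e ^ 3 = e * e ^ 2 := by ring
    nlinarith
  have he6 : 0 ≤ e ^ 4 := by positivity
  have hc0 : 0 < (15432560337797 / 1250000000000000 : ℝ) +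
      (-(462740084004167 / 3906250000000000)) * e + (387099055209357 / 3125000000000000) * e ^ 2 +
      (-(251007332841 / 39062500000000)) * e ^ 3 + (25975241757 / 250000000000000) * e ^ 4 := by
    linarith
  have hc1 : 0 ≤ (52397598671 / 125000000000 : ℝ) +
      (-(1171623601470603 / 1250000000000000)) * e + (60821561814147 / 250000000000000) * e ^ 2 +
      (-(411868356201 / 50000000000000)) * e ^ 3 + (702033561 / 10000000000000) * e ^ 4 := by
    linarith
  have hc2 : 0 ≤ (28934453 / 50000000 : ℝ) + (-(351340600787 / 250000000000)) * e +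
      (3897083421 / 25000000000) * e ^ 2 + (-(26001243 / 10000000000)) * e ^ 3 := by
    linarith
  have het : e * t ≤ e * (51 / 50) := mul_le_mul_of_nonneg_left ht1 he0
  have hc3 : 0 ≤ (1091 / 5000 : ℝ) + (-(37624441 / 50000000)) * e + (321003 / 10000000) * e ^ 2 +
      (-(1321 / 10000)) * (e * t) := by
    linarith
  have h1 := mul_nonneg hc1 ht0
  have h2 := mul_nonneg hc2 (pow_nonneg ht0 2)
  have h3 := mul_nonneg hc3 (pow_nonneg ht0 3)
  have h4 := add_pos_of_pos_of_nonneg hc0 (add_nonneg h1 (add_nonneg h2 h3))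
  rw [← sub_pos]
  refine lt_of_lt_of_eq h4 ?_
  ring

/-- the polynomial inequality -/
private lemma A1negL_poly (g K y e : ℝ) (he0 : 0 ≤ e) (he1 : e ≤ 1 / 17) (hy1 : 37 / 25 ≤ y)
    (hy2 : y ≤ 5 / 2) (hg : 4586 / 10000 + 81 / 1000 * e ≤ g) (hg2 : g ≤ 12 / 25)
    (hK : 17182 / 10000 + 112 / 1000 * e ≤ K) :
    (y - g) * (y + 1 - g) * (y / 2 + 1321 / 10000 * ((y + 1 - g) * e * y - (1 + g))) <
      y * (y * ((K - 1) * y - (1 - g))) := by
  have h0 := A1negL_poly0 e (y - 37 / 25) he0 he1 (by linarith) (by linarith)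
  rw [show (37 / 25 : ℝ) + (y - 37 / 25) = y by ring] at h0
  set gl : ℝ := 4586 / 10000 + 81 / 1000 * e with hgl
  set Kl : ℝ := 17182 / 10000 + 112 / 1000 * e with hKl
  have hy0 : 0 < y := by linarith
  have hey : 0 ≤ e * y := mul_nonneg he0 hy0.le
  have hQ0 : 0 ≤ y / 2 + 1321 / 10000 * ((y + 1 - g) * e * y - (1 + g)) := by
    have h1 : 0 ≤ (y + 1 - g) * e * y := by
      rw [mul_assoc]
      exact mul_nonneg (by linarith) hey
    linarith
  have hQ : y / 2 + 1321 / 10000 * ((y + 1 - g) * e * y - (1 + g)) ≤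
      y / 2 + 1321 / 10000 * ((y + 1 - gl) * e * y - (1 + gl)) := by
    have h1 : (y + 1 - g) * e * y ≤ (y + 1 - gl) * e * y := by
      rw [mul_assoc, mul_assoc]
      exact mul_le_mul_of_nonneg_right (by linarith) hey
    linarith
  have hA : (y - g) * (y + 1 - g) ≤ (y - gl) * (y + 1 - gl) :=
    mul_le_mul (by linarith) (by linarith) (by linarith) (by linarith)
  have hA0 : 0 ≤ (y - gl) * (y + 1 - gl) := mul_nonneg (by linarith) (by linarith)
  have h1 := mul_le_mul hA hQ hQ0 hA0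
  refine lt_of_le_of_lt h1 (lt_of_lt_of_le h0 ?_)
  refine mul_le_mul_of_nonneg_left (mul_le_mul_of_nonneg_left ?_ hy0.le) hy0.le
  have h2 : (Kl - 1) * y ≤ (K - 1) * y := mul_le_mul_of_nonneg_right (by linarith) hy0.le
  linarith

theorem thm_A1negL (hE : St_E2neg) (hG : St_GKnum) : St_A1negL := by
  intro R g K y hGK hR hy h3 hv
  obtain ⟨g1, g2, K1, -⟩ := hG R g K hGK
  have hR' : (17 : ℝ) ≤ R := by exact_mod_cast hR
  have hR0 : (0 : ℝ) < R := by linarith
  obtain ⟨e, he⟩ : ∃ e : ℝ, e = 1 / (R : ℝ) := ⟨_, rfl⟩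
  have he0 : 0 < e := by rw [he]; positivity
  have he1 : e ≤ 1 / 17 := by
    rw [he]
    exact one_div_le_one_div_of_le (by norm_num) hR'
  have e1 : 81 / 1000 / (R : ℝ) = 81 / 1000 * e := by rw [he]; ring
  have e2 : 822 / 10000 / (R : ℝ) = 822 / 10000 * e := by rw [he]; ring
  have e3 : 112 / 1000 / (R : ℝ) = 112 / 1000 * e := by rw [he]; ring
  have e4 : (y + 1 - g) / (R : ℝ) = (y + 1 - g) * e := by rw [he]; ring
  rw [e1] at g1
  rw [e2] at g2
  rw [e3] at K1
  rw [e4] at hv ⊢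
  have hg : g ≤ 12 / 25 := by linarith
  have hg' : 4586 / 10000 ≤ g := by linarith
  have hy1 : 37 / 25 ≤ y := by
    by_contra hcon
    push Not at hcon
    have h4 : y * (y + 1 - g) ≤ 37 / 25 * (37 / 25 + 1 - g) :=
      mul_le_mul hcon.le (by linarith) (by linarith) (by norm_num)
    linarith
  obtain ⟨v, hvd⟩ : ∃ v : ℝ, v = (y + 1 - g) * e - (1 + g) / y := ⟨_, rfl⟩
  rw [← hvd] at hv ⊢
  have hv1 : -1 ≤ v := by
    have h4 : (1 + g) / y ≤ 1 := by
      rw [div_le_one hy]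
      linarith
    have h5 : 0 ≤ (y + 1 - g) * e := mul_nonneg (by linarith) he0.le
    linarith
  have hE1 := hE.1 R v (by omega) hv1 hv
  have hA0 : 0 < (y - g) * (y + 1 - g) := mul_pos (by linarith) (by linarith)
  refine lt_of_le_of_lt (mul_le_mul_of_nonneg_left hE1 hA0.le) ?_
  rcases le_total y (5 / 2) with h5 | h5
  · have h6 := A1negL_poly g K y e he0.le he1 hy1 h5 g1 hg K1
    have h7 : v * y = (y + 1 - g) * e * y - (1 + g) := by
      rw [hvd]
      field_simp
    rw [← h7] at h6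
    refine lt_of_mul_lt_mul_left ?_ hy.le
    refine lt_of_le_of_lt (le_of_eq ?_) h6
    ring
  · have h6 : (y - g) * (y + 1 - g) * (1 / 2 + 1321 / 10000 * v) ≤
        (y - g) * (y + 1 - g) * (1 / 2) := mul_le_mul_of_nonneg_left (by linarith) hA0.le
    refine lt_of_le_of_lt h6 ?_
    have h7 : 17182 / 10000 * y ≤ K * y := mul_le_mul_of_nonneg_right (by linarith) hy.le
    have h8 : 0 < y * ((K - 1) * y - (1 - g)) - (y - g) * (y + 1 - g) * (1 / 2) := by
      nlinarith
    linarith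

end Pool.Agent.EMCW
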