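import Pool.Agent.EMCW.NumSt2

/-!
The inequality at the end `al = 1` of the curve, for `v ≤ 0` and `9 ≤ R ≤ 16`.
-/

open Finset

namespace Pool.Agent.EMCW

private lemma A1negM_low (r g y : ℝ) (hr : 0 < r) (hg : g ≤ 1 / 2)
    (hy : 148 / 100 ≤ y) : -2 ≤ (y + 1 - g) / r - (1 + g) / y := by
  have h1 : 0 ≤ (y + 1 - g) / r := div_nonneg (by linarith) hr.le
  have h2 : (1 + g) / y ≤ 2 := by
    rw [div_le_iff₀ (by linarith)]
    linarith
  linarith

private lemma A1negM_lo (g y gl Y : ℝ) (h : gl ≤ g) (hy : 0 < y) (hY : 0 < Y)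
    (h0 : Y * (Y + 1 - gl) ≤ 3) (h3 : 3 ≤ y * (y + 1 - g)) : Y ≤ y := by
  by_contra hc
  push Not at hc
  have h1 : y * (y + 1 - g) ≤ y * (y + 1 - gl) :=
    mul_le_mul_of_nonneg_left (by linarith) hy.le
  have h2 : 0 < y + 1 - gl := by
    by_contra hn
    push Not at hn
    have := mul_nonpos_of_nonneg_of_nonpos hy.le hn
    linarith
  have h4 : y * (y + 1 - gl) < Y * (Y + 1 - gl) :=
    mul_lt_mul hc (by linarith) h2 hY.le
  linarith

private lemma A1negM_hi (r g y gu Y : ℝ) (h : g ≤ gu) (hy : 0 < y) (hr : 0 < r)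
    (hY2 : 0 < Y + 1 - gu) (h0 : r * (1 + gu) ≤ Y * (Y + 1 - gu))
    (hv : (y + 1 - g) / r - (1 + g) / y ≤ 0) : y ≤ Y := by
  have h1 : (y + 1 - g) / r ≤ (1 + g) / y := by linarith
  rw [div_le_div_iff₀ hr hy] at h1
  by_contra hc
  push Not at hc
  have h2 : Y * (Y + 1 - gu) < y * (y + 1 - gu) := mul_lt_mul hc (by linarith) hY2 hy.le
  have h3 : y * (y + 1 - gu) ≤ y * (y + 1 - g) := mul_le_mul_of_nonneg_left (by linarith) hy.le
  have h4 : (1 + g) * r ≤ (1 + gu) * r := mul_le_mul_of_nonneg_right (by linarith) hr.le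
  linarith

private lemma A1negM_red (r g K y gl Kl c E : ℝ) (hr : 0 < r) (hy : 148 / 100 ≤ y)
    (hgl : gl ≤ g) (hg : g ≤ 1 / 2) (hK : Kl ≤ K) (hc0 : 0 ≤ c) (hc1 : c ≤ 1)
    (hE : E ≤ 1 / 2 + ((y + 1 - g) / r - (1 + g) / y) / 6 +
      c * ((y + 1 - g) / r - (1 + g) / y) ^ 2 / 24)
    (hP : (y - gl) * (y + 1 - gl) * (y ^ 2 / 2 + y * (y * (y + 1 - gl) / r - (1 + gl)) / 6 +
      c * (y * (y + 1 - gl) / r - (1 + gl)) ^ 2 / 24) < y ^ 3 * ((Kl - 1) * y - (1 - gl))) :
    (y - g) * (y + 1 - g) * E < y * ((K - 1) * y - (1 - g)) := by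
  have hy0 : 0 < y := by linarith
  have hlow := A1negM_low r g y hr hg hy
  have hlow' := A1negM_low r gl y hr (by linarith) hy
  have hvv : (y + 1 - g) / r - (1 + g) / y ≤ (y + 1 - gl) / r - (1 + gl) / y := by
    have a : (y + 1 - g) / r ≤ (y + 1 - gl) / r :=
      div_le_div_of_nonneg_right (by linarith) hr.le
    have b : (1 + gl) / y ≤ (1 + g) / y := div_le_div_of_nonneg_right (by linarith) hy0.le
    linarith
  have hvl : y * ((y + 1 - gl) / r - (1 + gl) / y) = y * (y + 1 - gl) / r - (1 + gl) := by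
    field_simp
  rw [← hvl] at hP
  generalize (y + 1 - g) / r - (1 + g) / y = v at hE hlow hvv
  generalize (y + 1 - gl) / r - (1 + gl) / y = u at hP hlow' hvv
  have hS : 1 / 2 + v / 6 + c * v ^ 2 / 24 ≤ 1 / 2 + u / 6 + c * u ^ 2 / 24 := by
    have e : 1 / 2 + u / 6 + c * u ^ 2 / 24 - (1 / 2 + v / 6 + c * v ^ 2 / 24) =
        (u - v) * (1 / 6 + c * (u + v) / 24) := by ring
    have a : -4 * c ≤ c * (u + v) := by
      have : 0 ≤ c * (u + v + 4) := mul_nonneg hc0 (by linarith)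
      linarith
    have b : 0 ≤ (u - v) * (1 / 6 + c * (u + v) / 24) :=
      mul_nonneg (by linarith) (by linarith)
    linarith
  have hS0 : 0 ≤ 1 / 2 + u / 6 + c * u ^ 2 / 24 := by
    have : 0 ≤ c * u ^ 2 := mul_nonneg hc0 (sq_nonneg _)
    linarith
  have h1 : (y - g) * (y + 1 - g) * E ≤
      (y - g) * (y + 1 - g) * (1 / 2 + u / 6 + c * u ^ 2 / 24) :=
    mul_le_mul_of_nonneg_left (by linarith) (mul_nonneg (by linarith) (by linarith))
  have h2 : (y - g) * (y + 1 - g) * (1 / 2 + u / 6 + c * u ^ 2 / 24) ≤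
      (y - gl) * (y + 1 - gl) * (1 / 2 + u / 6 + c * u ^ 2 / 24) := by
    apply mul_le_mul_of_nonneg_right _ hS0
    exact mul_le_mul (by linarith) (by linarith) (by linarith) (by linarith)
  have h3 : (y - gl) * (y + 1 - gl) * (1 / 2 + u / 6 + c * u ^ 2 / 24) <
      y * ((Kl - 1) * y - (1 - gl)) := by
    have a : y ^ 2 * ((y - gl) * (y + 1 - gl) * (1 / 2 + u / 6 + c * u ^ 2 / 24)) <
        y ^ 2 * (y * ((Kl - 1) * y - (1 - gl))) := by
      calc y ^ 2 * ((y - gl) * (y + 1 - gl) * (1 / 2 + u / 6 + c * u ^ 2 / 24))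
          = (y - gl) * (y + 1 - gl) * (y ^ 2 / 2 + y * (y * u) / 6 + c * (y * u) ^ 2 / 24) := by
            ring
        _ < y ^ 3 * ((Kl - 1) * y - (1 - gl)) := hP
        _ = y ^ 2 * (y * ((Kl - 1) * y - (1 - gl))) := by ring
    exact lt_of_mul_lt_mul_left a (by positivity)
  have h4 : y * ((Kl - 1) * y - (1 - gl)) ≤ y * ((K - 1) * y - (1 - g)) := by
    apply mul_le_mul_of_nonneg_left _ hy0.le
    have : (Kl - 1) * y ≤ (K - 1) * y := mul_le_mul_of_nonneg_right (by linarith) hy0.le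
    linarith
  linarith

private lemma A1negM_9 (y : ℝ) (h0 : 743 / 500 ≤ y) (h1 : y ≤ 17 / 5) :
    (y - 1169 / 2500) * (y + 1 - 1169 / 2500) *
      (y ^ 2 / 2 + y * (y * (y + 1 - 1169 / 2500) / 9 - (1 + 1169 / 2500)) / 6 +
      6 / 7 * (y * (y + 1 - 1169 / 2500) / 9 - (1 + 1169 / 2500)) ^ 2 / 24) <
      y ^ 3 * ((77879 / 45000 - 1) * y - (1 - 1169 / 2500)) := by
  obtain ⟨t, rfl⟩ : ∃ t : ℝ, y = 743 / 500 + t := ⟨y - 743 / 500, by ring⟩
  have ht : 0 ≤ t := by linarith
  have ht1 : t ≤ 957 / 500 := by linarith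
  have hq2 : 0 ≤ 1067228959 / 14175000000 - 65057 / 2835000 * t - 1 / 2268 * t ^ 2 := by
    have : t ^ 2 ≤ t * (957 / 500) := by rw [sq]; exact mul_le_mul_of_nonneg_left ht1 ht
    linarith
  have h4 : 0 ≤ t ^ 4 * (1067228959 / 14175000000 - 65057 / 2835000 * t - 1 / 2268 * t ^ 2) :=
    mul_nonneg (pow_nonneg ht 4) hq2
  have h3 : 0 < 1283754330973097789 / 43945312500000000000 + 9148452361461421 / 14648437500000000 * t +
      251920191177211 / 230712890625000 * t ^ 2 + 5458729919119 / 8859375000000 * t ^ 3 := by positivity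
  rw [← sub_pos]
  refine lt_of_lt_of_eq (add_pos_of_pos_of_nonneg h3 h4) ?_
  ring

private lemma A1negM_10 (y : ℝ) (h0 : 297 / 200 ≤ y) (h1 : y ≤ 18 / 5) :
    (y - 4667 / 10000) * (y + 1 - 4667 / 10000) *
      (y ^ 2 / 2 + y * (y * (y + 1 - 4667 / 10000) / 10 - (1 + 4667 / 10000)) / 6 +
      7 / 8 * (y * (y + 1 - 4667 / 10000) / 10 - (1 + 4667 / 10000)) ^ 2 / 24) <
      y ^ 3 * ((8647 / 5000 - 1) * y - (1 - 4667 / 10000)) := by
  obtain ⟨t, rfl⟩ : ∃ t : ℝ, y = 297 / 200 + t := ⟨y - 297 / 200, by ring⟩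
  have ht : 0 ≤ t := by linarith
  have ht1 : t ≤ 423 / 200 := by linarith
  have hq2 : 0 ≤ 87532871581 / 960000000000 - 81313 / 4000000 * t - 7 / 19200 * t ^ 2 := by
    have : t ^ 2 ≤ t * (423 / 200) := by rw [sq]; exact mul_le_mul_of_nonneg_left ht1 ht
    linarith
  have h4 : 0 ≤ t ^ 4 * (87532871581 / 960000000000 - 81313 / 4000000 * t - 7 / 19200 * t ^ 2) :=
    mul_nonneg (pow_nonneg ht 4) hq2
  have h3 : 0 < 66800462814031212820659 / 2560000000000000000000000 + 4065082295632489806447 / 6400000000000000000000 * t +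
      216951133465105083953 / 192000000000000000000 * t ^ 2 + 1046282698158647 / 1600000000000000 * t ^ 3 := by positivity
  rw [← sub_pos]
  refine lt_of_lt_of_eq (add_pos_of_pos_of_nonneg h3 h4) ?_
  ring

private lemma A1negM_11 (y : ℝ) (h0 : 297 / 200 ≤ y) (h1 : y ≤ 19 / 5) :
    (y - 6407 / 13750) * (y + 1 - 6407 / 13750) *
      (y ^ 2 / 2 + y * (y * (y + 1 - 6407 / 13750) / 11 - (1 + 6407 / 13750)) / 6 +
      8 / 9 * (y * (y + 1 - 6407 / 13750) / 11 - (1 + 6407 / 13750)) ^ 2 / 24) <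
      y ^ 3 * ((95061 / 55000 - 1) * y - (1 - 6407 / 13750)) := by
  obtain ⟨t, rfl⟩ : ∃ t : ℝ, y = 297 / 200 + t := ⟨y - 297 / 200, by ring⟩
  have ht : 0 ≤ t := by linarith
  have ht1 : t ≤ 463 / 200 := by linarith
  have hq2 : 0 ≤ 342237796607 / 3294225000000 - 1637519 / 89842500 * t - 1 / 3267 * t ^ 2 := by
    have : t ^ 2 ≤ t * (463 / 200) := by rw [sq]; exact mul_le_mul_of_nonneg_left ht1 ht
    linarith
  have h4 : 0 ≤ t ^ 4 * (342237796607 / 3294225000000 - 1637519 / 89842500 * t - 1 / 3267 * t ^ 2) :=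
    mul_nonneg (pow_nonneg ht 4) hq2
  have h3 : 0 < 26218930137482887299139 / 1098075000000000000000000 + 58428539393813722384771 / 90591187500000000000000 * t +
      34727471969363884051369 / 29895091875000000000000 * t ^ 2 + 93013188445385827 / 135886781250000000 * t ^ 3 := by positivity
  rw [← sub_pos]
  refine lt_of_lt_of_eq (add_pos_of_pos_of_nonneg h3 h4) ?_
  ring

private lemma A1negM_12 (y : ℝ) (h0 : 297 / 200 ≤ y) (h1 : y ≤ 4) :
    (y - 9307 / 20000) * (y + 1 - 9307 / 20000) *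
      (y ^ 2 / 2 + y * (y * (y + 1 - 9307 / 20000) / 12 - (1 + 9307 / 20000)) / 6 +
      9 / 10 * (y * (y + 1 - 9307 / 20000) / 12 - (1 + 9307 / 20000)) ^ 2 / 24) <
      y ^ 3 * ((25913 / 15000 - 1) * y - (1 - 9307 / 20000)) := by
  obtain ⟨t, rfl⟩ : ∃ t : ℝ, y = 297 / 200 + t := ⟨y - 297 / 200, by ring⟩
  have ht : 0 ≤ t := by linarith
  have ht1 : t ≤ 503 / 200 := by linarith
  have hq2 : 0 ≤ 263425259759 / 2304000000000 - 950729 / 57600000 * t - 1 / 3840 * t ^ 2 := by
    have : t ^ 2 ≤ t * (503 / 200) := by rw [sq]; exact mul_le_mul_of_nonneg_left ht1 ht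
    linarith
  have h4 : 0 ≤ t ^ 4 * (263425259759 / 2304000000000 - 950729 / 57600000 * t - 1 / 3840 * t ^ 2) :=
    mul_nonneg (pow_nonneg ht 4) hq2
  have h3 : 0 < 179475653017454483274597 / 8192000000000000000000000 + 13366524291956267158501 / 20480000000000000000000 * t +
      2188610448922180409597 / 1843200000000000000000 * t ^ 2 + 16347723294621929 / 23040000000000000 * t ^ 3 := by positivity
  rw [← sub_pos]
  refine lt_of_lt_of_eq (add_pos_of_pos_of_nonneg h3 h4) ?_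
  ring

private lemma A1negM_13 (y : ℝ) (h0 : 297 / 200 ≤ y) (h1 : y ≤ 21 / 5) :
    (y - 15107 / 32500) * (y + 1 - 15107 / 32500) *
      (y ^ 2 / 2 + y * (y * (y + 1 - 15107 / 32500) / 13 - (1 + 15107 / 32500)) / 6 +
      10 / 11 * (y * (y + 1 - 15107 / 32500) / 13 - (1 + 15107 / 32500)) ^ 2 / 24) <
      y ^ 3 * ((112243 / 65000 - 1) * y - (1 - 15107 / 32500)) := by
  obtain ⟨t, rfl⟩ : ∃ t : ℝ, y = 297 / 200 + t := ⟨y - 297 / 200, by ring⟩
  have ht : 0 ≤ t := by linarith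
  have ht1 : t ≤ 543 / 200 := by linarith
  have hq2 : 0 ≤ 2319690830849 / 18850260000000 - 728549 / 48334000 * t - 5 / 22308 * t ^ 2 := by
    have : t ^ 2 ≤ t * (543 / 200) := by rw [sq]; exact mul_le_mul_of_nonneg_left ht1 ht
    linarith
  have h4 : 0 ≤ t ^ 4 * (2319690830849 / 18850260000000 - 728549 / 48334000 * t - 5 / 22308 * t ^ 2) :=
    mul_nonneg (pow_nonneg ht 4) hq2
  have h3 : 0 < 21404093678418504640361277 / 1061897980000000000000000000 + 1749036177477586825884591 / 2654744950000000000000000 * t +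
      8751360029783987094019 / 7240213500000000000000 * t ^ 2 + 74579821849051773 / 102105575000000000 * t ^ 3 := by positivity
  rw [← sub_pos]
  refine lt_of_lt_of_eq (add_pos_of_pos_of_nonneg h3 h4) ?_
  ring

private lemma A1negM_14 (y : ℝ) (h0 : 371 / 250 ≤ y) (h1 : y ≤ 43 / 10) :
    (y - 32507 / 70000) * (y + 1 - 32507 / 70000) *
      (y ^ 2 / 2 + y * (y * (y + 1 - 32507 / 70000) / 14 - (1 + 32507 / 70000)) / 6 +
      11 / 12 * (y * (y + 1 - 32507 / 70000) / 14 - (1 + 32507 / 70000)) ^ 2 / 24) <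
      y ^ 3 * ((8631 / 5000 - 1) * y - (1 - 32507 / 70000)) := by
  obtain ⟨t, rfl⟩ : ∃ t : ℝ, y = 371 / 250 + t := ⟨y - 371 / 250, by ring⟩
  have ht : 0 ≤ t := by linarith
  have ht1 : t ≤ 352 / 125 := by linarith
  have hq2 : 0 ≤ 18050745987983 / 138297600000000 - 13693943 / 987840000 * t - 11 / 56448 * t ^ 2 := by
    have : t ^ 2 ≤ t * (352 / 125) := by rw [sq]; exact mul_le_mul_of_nonneg_left ht1 ht
    linarith
  have h4 : 0 ≤ t ^ 4 * (18050745987983 / 138297600000000 - 13693943 / 987840000 * t - 11 / 56448 * t ^ 2) :=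
    mul_nonneg (pow_nonneg ht 4) hq2
  have h3 : 0 < 210839355909662345452903 / 11760000000000000000000000 + 2286839683237564674216491 / 3457440000000000000000000 * t +
      1659446020559122758926869 / 1355316480000000000000000 * t ^ 2 + 3618515708292243853 / 4840416000000000000 * t ^ 3 := by positivity
  rw [← sub_pos]
  refine lt_of_lt_of_eq (add_pos_of_pos_of_nonneg h3 h4) ?_
  ring

private lemma A1negM_15 (y : ℝ) (h0 : 371 / 250 ≤ y) (h1 : y ≤ 9 / 2) :
    (y - 58 / 125) * (y + 1 - 58 / 125) *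
      (y ^ 2 / 2 + y * (y * (y + 1 - 58 / 125) / 15 - (1 + 58 / 125)) / 6 +
      12 / 13 * (y * (y + 1 - 58 / 125) / 15 - (1 + 58 / 125)) ^ 2 / 24) <
      y ^ 3 * ((5177 / 3000 - 1) * y - (1 - 58 / 125)) := by
  obtain ⟨t, rfl⟩ : ∃ t : ℝ, y = 371 / 250 + t := ⟨y - 371 / 250, by ring⟩
  have ht : 0 ≤ t := by linarith
  have ht1 : t ≤ 377 / 125 := by linarith
  have hq2 : 0 ≤ 12509561 / 91406250 - 3127 / 243750 * t - 1 / 5850 * t ^ 2 := by
    have : t ^ 2 ≤ t * (377 / 125) := by rw [sq]; exact mul_le_mul_of_nonneg_left ht1 ht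
    linarith
  have h4 : 0 ≤ t ^ 4 * (12509561 / 91406250 - 3127 / 243750 * t - 1 / 5850 * t ^ 2) :=
    mul_nonneg (pow_nonneg ht 4) hq2
  have h3 : 0 < 483991912583 / 29296875000000 + 389988566567 / 585937500000 * t +
      1133094997739 / 914062500000 * t ^ 2 + 580940749 / 761718750 * t ^ 3 := by positivity
  rw [← sub_pos]
  refine lt_of_lt_of_eq (add_pos_of_pos_of_nonneg h3 h4) ?_
  ring

private lemma A1negM_16 (y : ℝ) (h0 : 371 / 250 ≤ y) (h1 : y ≤ 23 / 5) :
    (y - 37093 / 80000) * (y + 1 - 37093 / 80000) *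
      (y ^ 2 / 2 + y * (y * (y + 1 - 37093 / 80000) / 16 - (1 + 37093 / 80000)) / 6 +
      13 / 14 * (y * (y + 1 - 37093 / 80000) / 16 - (1 + 37093 / 80000)) ^ 2 / 24) <
      y ^ 3 * ((4313 / 2500 - 1) * y - (1 - 37093 / 80000)) := by
  obtain ⟨t, rfl⟩ : ∃ t : ℝ, y = 371 / 250 + t := ⟨y - 371 / 250, by ring⟩
  have ht : 0 ≤ t := by linarith
  have ht1 : t ≤ 779 / 250 := by linarith
  have hq2 : 0 ≤ 39181603405489 / 275251200000000 - 6844277 / 573440000 * t - 13 / 86016 * t ^ 2 := by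
    have : t ^ 2 ≤ t * (779 / 250) := by rw [sq]; exact mul_le_mul_of_nonneg_left ht1 ht
    linarith
  have h4 : 0 ≤ t ^ 4 * (39181603405489 / 275251200000000 - 6844277 / 573440000 * t - 13 / 86016 * t ^ 2) :=
    mul_nonneg (pow_nonneg ht 4) hq2
  have h3 : 0 < 159927411762095641437379407 / 10485760000000000000000000000 + 98220635944139768057388499 / 146800640000000000000000000 * t +
      630529321832827717004261 / 503316480000000000000000 * t ^ 2 + 406718109593872181 / 524288000000000000 * t ^ 3 := by positivity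
  rw [← sub_pos]
  refine lt_of_lt_of_eq (add_pos_of_pos_of_nonneg h3 h4) ?_
  ring

theorem thm_A1negM (hE2 : St_E2neg) (hnum : St_GKnum) : St_A1negM := by
  intro R g K y hGK hR9 hR16 hy0 h3 hv
  interval_cases R
  · obtain ⟨n1, n2, n3, -⟩ := hnum _ g K hGK
    norm_num at n1 n2 n3
    have hy1 : 743 / 500 ≤ y := A1negM_lo g y (1169 / 2500) (743 / 500) n1 hy0 (by norm_num) (by norm_num) h3
    have hy2 : y ≤ 17 / 5 := A1negM_hi 9 g y (7019 / 15000) (17 / 5) n2 hy0 (by norm_num)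
      (by norm_num) (by norm_num) (by exact_mod_cast hv)
    have hlow := A1negM_low 9 g y (by norm_num) (by linarith) (by linarith)
    have hE := hE2.2 9 _ (by norm_num) (le_trans (by norm_num) hlow) (by exact_mod_cast hv)
    refine A1negM_red 9 g K y (1169 / 2500) (77879 / 45000) (6 / 7) _ (by norm_num) (by linarith)
      n1 (by linarith) n3 (by norm_num) (by norm_num) ?_ (A1negM_9 y hy1 hy2)
    norm_num at hE ⊢
    exact hE
  · obtain ⟨n1, n2, n3, -⟩ := hnum _ g K hGK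
    norm_num at n1 n2 n3
    have hy1 : 297 / 200 ≤ y := A1negM_lo g y (4667 / 10000) (297 / 200) n1 hy0 (by norm_num) (by norm_num) h3
    have hy2 : y ≤ 18 / 5 := A1negM_hi 10 g y (23351 / 50000) (18 / 5) n2 hy0 (by norm_num)
      (by norm_num) (by norm_num) (by exact_mod_cast hv)
    have hlow := A1negM_low 10 g y (by norm_num) (by linarith) (by linarith)
    have hE := hE2.2 10 _ (by norm_num) (le_trans (by norm_num) hlow) (by exact_mod_cast hv)
    refine A1negM_red 10 g K y (4667 / 10000) (8647 / 5000) (7 / 8) _ (by norm_num) (by linarith)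
      n1 (by linarith) n3 (by norm_num) (by norm_num) ?_ (A1negM_10 y hy1 hy2)
    norm_num at hE ⊢
    exact hE
  · obtain ⟨n1, n2, n3, -⟩ := hnum _ g K hGK
    norm_num at n1 n2 n3
    have hy1 : 297 / 200 ≤ y := A1negM_lo g y (6407 / 13750) (297 / 200) n1 hy0 (by norm_num) (by norm_num) h3
    have hy2 : y ≤ 19 / 5 := A1negM_hi 11 g y (5129 / 11000) (19 / 5) n2 hy0 (by norm_num)
      (by norm_num) (by norm_num) (by exact_mod_cast hv)
    have hlow := A1negM_low 11 g y (by norm_num) (by linarith) (by linarith)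
    have hE := hE2.2 11 _ (by norm_num) (le_trans (by norm_num) hlow) (by exact_mod_cast hv)
    refine A1negM_red 11 g K y (6407 / 13750) (95061 / 55000) (8 / 9) _ (by norm_num) (by linarith)
      n1 (by linarith) n3 (by norm_num) (by norm_num) ?_ (A1negM_11 y hy1 hy2)
    norm_num at hE ⊢
    exact hE
  · obtain ⟨n1, n2, n3, -⟩ := hnum _ g K hGK
    norm_num at n1 n2 n3
    have hy1 : 297 / 200 ≤ y := A1negM_lo g y (9307 / 20000) (297 / 200) n1 hy0 (by norm_num) (by norm_num) h3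
    have hy2 : y ≤ 4 := A1negM_hi 12 g y (9313 / 20000) (4) n2 hy0 (by norm_num)
      (by norm_num) (by norm_num) (by exact_mod_cast hv)
    have hlow := A1negM_low 12 g y (by norm_num) (by linarith) (by linarith)
    have hE := hE2.2 12 _ (by norm_num) (le_trans (by norm_num) hlow) (by exact_mod_cast hv)
    refine A1negM_red 12 g K y (9307 / 20000) (25913 / 15000) (9 / 10) _ (by norm_num) (by linarith)
      n1 (by linarith) n3 (by norm_num) (by norm_num) ?_ (A1negM_12 y hy1 hy2)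
    norm_num at hE ⊢
    exact hE
  · obtain ⟨n1, n2, n3, -⟩ := hnum _ g K hGK
    norm_num at n1 n2 n3
    have hy1 : 297 / 200 ≤ y := A1negM_lo g y (15107 / 32500) (297 / 200) n1 hy0 (by norm_num) (by norm_num) h3
    have hy2 : y ≤ 21 / 5 := A1negM_hi 13 g y (30233 / 65000) (21 / 5) n2 hy0 (by norm_num)
      (by norm_num) (by norm_num) (by exact_mod_cast hv)
    have hlow := A1negM_low 13 g y (by norm_num) (by linarith) (by linarith)
    have hE := hE2.2 13 _ (by norm_num) (le_trans (by norm_num) hlow) (by exact_mod_cast hv)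
    refine A1negM_red 13 g K y (15107 / 32500) (112243 / 65000) (10 / 11) _ (by norm_num) (by linarith)
      n1 (by linarith) n3 (by norm_num) (by norm_num) ?_ (A1negM_13 y hy1 hy2)
    norm_num at hE ⊢
    exact hE
  · obtain ⟨n1, n2, n3, -⟩ := hnum _ g K hGK
    norm_num at n1 n2 n3
    have hy1 : 371 / 250 ≤ y := A1negM_lo g y (32507 / 70000) (371 / 250) n1 hy0 (by norm_num) (by norm_num) h3
    have hy2 : y ≤ 43 / 10 := A1negM_hi 14 g y (32527 / 70000) (43 / 10) n2 hy0 (by norm_num)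
      (by norm_num) (by norm_num) (by exact_mod_cast hv)
    have hlow := A1negM_low 14 g y (by norm_num) (by linarith) (by linarith)
    have hE := hE2.2 14 _ (by norm_num) (le_trans (by norm_num) hlow) (by exact_mod_cast hv)
    refine A1negM_red 14 g K y (32507 / 70000) (8631 / 5000) (11 / 12) _ (by norm_num) (by linarith)
      n1 (by linarith) n3 (by norm_num) (by norm_num) ?_ (A1negM_14 y hy1 hy2)
    norm_num at hE ⊢
    exact hE
  · obtain ⟨n1, n2, n3, -⟩ := hnum _ g K hGK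
    norm_num at n1 n2 n3
    have hy1 : 371 / 250 ≤ y := A1negM_lo g y (58 / 125) (371 / 250) n1 hy0 (by norm_num) (by norm_num) h3
    have hy2 : y ≤ 9 / 2 := A1negM_hi 15 g y (11607 / 25000) (9 / 2) n2 hy0 (by norm_num)
      (by norm_num) (by norm_num) (by exact_mod_cast hv)
    have hlow := A1negM_low 15 g y (by norm_num) (by linarith) (by linarith)
    have hE := hE2.2 15 _ (by norm_num) (le_trans (by norm_num) hlow) (by exact_mod_cast hv)
    refine A1negM_red 15 g K y (58 / 125) (5177 / 3000) (12 / 13) _ (by norm_num) (by linarith)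
      n1 (by linarith) n3 (by norm_num) (by norm_num) ?_ (A1negM_15 y hy1 hy2)
    norm_num at hE ⊢
    exact hE
  · obtain ⟨n1, n2, n3, -⟩ := hnum _ g K hGK
    norm_num at n1 n2 n3
    have hy1 : 371 / 250 ≤ y := A1negM_lo g y (37093 / 80000) (371 / 250) n1 hy0 (by norm_num) (by norm_num) h3
    have hy2 : y ≤ 23 / 5 := A1negM_hi 16 g y (7423 / 16000) (23 / 5) n2 hy0 (by norm_num)
      (by norm_num) (by norm_num) (by exact_mod_cast hv)
    have hlow := A1negM_low 16 g y (by norm_num) (by linarith) (by linarith)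
    have hE := hE2.2 16 _ (by norm_num) (le_trans (by norm_num) hlow) (by exact_mod_cast hv)
    refine A1negM_red 16 g K y (37093 / 80000) (4313 / 2500) (13 / 14) _ (by norm_num) (by linarith)
      n1 (by linarith) n3 (by norm_num) (by norm_num) ?_ (A1negM_16 y hy1 hy2)
    norm_num at hE ⊢
    exact hE

end Pool.Agent.EMCW
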