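import Pool.Agent.EMCW.NumSt2

/-!
Numerical part, the end `al = 1` of the curve, `v ≤ 0`, `4 ≤ R ≤ 8`.
-/

open Finset

namespace Pool.Agent.EMCW

/-- reduction to the lower ends of the intervals for `g` and `K` -/
private theorem A1negS_mono (r c g gl K Kl y E v w : ℝ) (hr : 4 ≤ r) (hc0 : 0 ≤ c) (hc1 : c ≤ 1)
    (hgl : 0 ≤ gl) (h1 : gl ≤ g) (hg : g ≤ 1 / 2) (hK : Kl ≤ K) (hy : 143 / 100 ≤ y)
    (hv : v = (y + 1 - g) / r - (1 + g) / y) (hw : w = y * (y + 1 - gl) / r - (1 + gl))
    (hE : E ≤ 1 / 2 + v / 6 + c * v ^ 2 / 24)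
    (hpoly : (y - gl) * (y + 1 - gl) * (y ^ 2 / 2 + y * w / 6 + c * w ^ 2 / 24) <
      y ^ 3 * ((Kl - 1) * y - (1 - gl))) :
    (y - g) * (y + 1 - g) * E < y * ((K - 1) * y - (1 - g)) := by
  have hy0 : 0 < y := by linarith
  have hr0 : 0 < r := by linarith
  obtain ⟨v', hv'⟩ : ∃ v' : ℝ, v' = w / y := ⟨_, rfl⟩
  have hwv : w = y * v' := by rw [hv']; field_simp
  have hv'2 : v' = (y + 1 - gl) / r - (1 + gl) / y := by
    rw [hv', hw]; field_simp
  have hvv : v ≤ v' := by
    rw [hv, hv'2]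
    have h2 : (y + 1 - g) / r ≤ (y + 1 - gl) / r := by
      apply div_le_div_of_nonneg_right _ hr0.le; linarith
    have h3 : (1 + gl) / y ≤ (1 + g) / y := by
      apply div_le_div_of_nonneg_right _ hy0.le; linarith
    linarith
  have hvl : -(11 / 10) ≤ v := by
    rw [hv]
    have h2 : 0 ≤ (y + 1 - g) / r := div_nonneg (by linarith) hr0.le
    have h3 : (1 + g) / y ≤ 11 / 10 := by
      rw [div_le_iff₀ hy0]; linarith
    linarith
  have hB : 1 / 2 + v / 6 + c * v ^ 2 / 24 ≤ 1 / 2 + v' / 6 + c * v' ^ 2 / 24 := by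
    have h2 : 0 ≤ (v' - v) * (4 + c * (v + v')) := by
      apply mul_nonneg (by linarith)
      have h3 : -(22 / 10) ≤ v + v' := by linarith
      nlinarith
    nlinarith
  have hB0 : 0 ≤ 1 / 2 + v' / 6 + c * v' ^ 2 / 24 := by
    have : 0 ≤ c * v' ^ 2 := mul_nonneg hc0 (sq_nonneg _)
    linarith
  have hA0 : 0 ≤ (y - g) * (y + 1 - g) := mul_nonneg (by linarith) (by linarith)
  have hA : (y - g) * (y + 1 - g) ≤ (y - gl) * (y + 1 - gl) := by
    apply mul_le_mul <;> linarith
  have hpoly2 : (y - gl) * (y + 1 - gl) * (1 / 2 + v' / 6 + c * v' ^ 2 / 24) <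
      y * ((Kl - 1) * y - (1 - gl)) := by
    have h2 : 0 < y ^ 2 := by positivity
    rw [hwv] at hpoly
    have h3 : y ^ 2 * ((y - gl) * (y + 1 - gl) * (1 / 2 + v' / 6 + c * v' ^ 2 / 24)) <
        y ^ 2 * (y * ((Kl - 1) * y - (1 - gl))) := by
      calc _ = (y - gl) * (y + 1 - gl) * (y ^ 2 / 2 + y * (y * v') / 6 +
            c * (y * v') ^ 2 / 24) := by ring
        _ < _ := hpoly
        _ = _ := by ring
    exact lt_of_mul_lt_mul_left h3 h2.le
  have hR : y * ((Kl - 1) * y - (1 - gl)) ≤ y * ((K - 1) * y - (1 - g)) := by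
    apply mul_le_mul_of_nonneg_left _ hy0.le
    have h2 : (Kl - 1) * y ≤ (K - 1) * y := by
      apply mul_le_mul_of_nonneg_right _ hy0.le; linarith
    linarith
  calc (y - g) * (y + 1 - g) * E ≤ (y - g) * (y + 1 - g) * (1 / 2 + v / 6 + c * v ^ 2 / 24) :=
        mul_le_mul_of_nonneg_left hE hA0
    _ ≤ (y - g) * (y + 1 - g) * (1 / 2 + v' / 6 + c * v' ^ 2 / 24) :=
        mul_le_mul_of_nonneg_left hB hA0
    _ ≤ (y - gl) * (y + 1 - gl) * (1 / 2 + v' / 6 + c * v' ^ 2 / 24) :=
        mul_le_mul_of_nonneg_right hA hB0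
    _ < _ := hpoly2
    _ ≤ _ := hR

private theorem A1negS_p4 (y : ℝ) (h0 : (3619 / 2500) ≤ y) (h1 : y ≤ (2187 / 1000)) :
    (y - (9577 / 20000)) * (y + 1 - (9577 / 20000)) * (y ^ 2 / 2 + y * (y * (y + 1 - (9577 / 20000)) / 4 -
      (1 + (9577 / 20000))) / 6 + (1 / 2) * (y * (y + 1 - (9577 / 20000)) / 4 - (1 + (9577 / 20000))) ^ 2 / 24) <
      y ^ 3 * (((8731 / 5000) - 1) * y - (1 - (9577 / 20000))) := by
  have hs : 0 ≤ y - (3619 / 2500) := by linarith
  have ht : 0 ≤ (2187 / 1000) - y := by linarith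
  have hst : 0 < (y - (3619 / 2500)) + ((2187 / 1000) - y) := by norm_num
  have e0 := mul_nonneg (pow_nonneg hs 0) (pow_nonneg ht 6)
  have e1 := mul_nonneg (pow_nonneg hs 1) (pow_nonneg ht 5)
  have e2 := mul_nonneg (pow_nonneg hs 2) (pow_nonneg ht 4)
  have e3 := mul_nonneg (pow_nonneg hs 3) (pow_nonneg ht 3)
  have e4 := mul_nonneg (pow_nonneg hs 4) (pow_nonneg ht 2)
  have e5 := mul_nonneg (pow_nonneg hs 5) (pow_nonneg ht 1)
  have e6 := mul_nonneg (pow_nonneg hs 6) (pow_nonneg ht 0)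
  linarith

private theorem A1negS_p5 (y : ℝ) (h0 : (7229 / 5000) ≤ y) (h1 : y ≤ (2467 / 1000)) :
    (y - (1187 / 2500)) * (y + 1 - (1187 / 2500)) * (y ^ 2 / 2 + y * (y * (y + 1 - (1187 / 2500)) / 5 -
      (1 + (1187 / 2500))) / 6 + (2 / 3) * (y * (y + 1 - (1187 / 2500)) / 5 - (1 + (1187 / 2500))) ^ 2 / 24) <
      y ^ 3 * (((8703 / 5000) - 1) * y - (1 - (1187 / 2500))) := by
  have hs : 0 ≤ y - (7229 / 5000) := by linarith
  have ht : 0 ≤ (2467 / 1000) - y := by linarith
  have hst : 0 < (y - (7229 / 5000)) + ((2467 / 1000) - y) := by norm_num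
  have e0 := mul_nonneg (pow_nonneg hs 0) (pow_nonneg ht 6)
  have e1 := mul_nonneg (pow_nonneg hs 1) (pow_nonneg ht 5)
  have e2 := mul_nonneg (pow_nonneg hs 2) (pow_nonneg ht 4)
  have e3 := mul_nonneg (pow_nonneg hs 3) (pow_nonneg ht 3)
  have e4 := mul_nonneg (pow_nonneg hs 4) (pow_nonneg ht 2)
  have e5 := mul_nonneg (pow_nonneg hs 5) (pow_nonneg ht 1)
  have e6 := mul_nonneg (pow_nonneg hs 6) (pow_nonneg ht 0)
  linarith

private theorem A1negS_p6 (y : ℝ) (h0 : (14447 / 10000) ≤ y) (h1 : y ≤ (2721 / 1000)) :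
    (y - (4721 / 10000)) * (y + 1 - (4721 / 10000)) * (y ^ 2 / 2 + y * (y * (y + 1 - (4721 / 10000)) / 6 -
      (1 + (4721 / 10000))) / 6 + (3 / 4) * (y * (y + 1 - (4721 / 10000)) / 6 - (1 + (4721 / 10000))) ^ 2 / 24) <
      y ^ 3 * (((26053 / 15000) - 1) * y - (1 - (4721 / 10000))) := by
  have hs : 0 ≤ y - (14447 / 10000) := by linarith
  have ht : 0 ≤ (2721 / 1000) - y := by linarith
  have hst : 0 < (y - (14447 / 10000)) + ((2721 / 1000) - y) := by norm_num
  have e0 := mul_nonneg (pow_nonneg hs 0) (pow_nonneg ht 6)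
  have e1 := mul_nonneg (pow_nonneg hs 1) (pow_nonneg ht 5)
  have e2 := mul_nonneg (pow_nonneg hs 2) (pow_nonneg ht 4)
  have e3 := mul_nonneg (pow_nonneg hs 3) (pow_nonneg ht 3)
  have e4 := mul_nonneg (pow_nonneg hs 4) (pow_nonneg ht 2)
  have e5 := mul_nonneg (pow_nonneg hs 5) (pow_nonneg ht 1)
  have e6 := mul_nonneg (pow_nonneg hs 6) (pow_nonneg ht 0)
  linarith

private theorem A1negS_p7 (y : ℝ) (h0 : (14439 / 10000) ≤ y) (h1 : y ≤ (591 / 200)) :
    (y - (2057 / 4375)) * (y + 1 - (2057 / 4375)) * (y ^ 2 / 2 + y * (y * (y + 1 - (2057 / 4375)) / 7 -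
      (1 + (2057 / 4375))) / 6 + (4 / 5) * (y * (y + 1 - (2057 / 4375)) / 7 - (1 + (2057 / 4375))) ^ 2 / 24) <
      y ^ 3 * (((8671 / 5000) - 1) * y - (1 - (2057 / 4375))) := by
  have hs : 0 ≤ y - (14439 / 10000) := by linarith
  have ht : 0 ≤ (591 / 200) - y := by linarith
  have hst : 0 < (y - (14439 / 10000)) + ((591 / 200) - y) := by norm_num
  have e0 := mul_nonneg (pow_nonneg hs 0) (pow_nonneg ht 6)
  have e1 := mul_nonneg (pow_nonneg hs 1) (pow_nonneg ht 5)
  have e2 := mul_nonneg (pow_nonneg hs 2) (pow_nonneg ht 4)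
  have e3 := mul_nonneg (pow_nonneg hs 3) (pow_nonneg ht 3)
  have e4 := mul_nonneg (pow_nonneg hs 4) (pow_nonneg ht 2)
  have e5 := mul_nonneg (pow_nonneg hs 5) (pow_nonneg ht 1)
  have e6 := mul_nonneg (pow_nonneg hs 6) (pow_nonneg ht 0)
  linarith

private theorem A1negS_p8 (y : ℝ) (h0 : (14433 / 10000) ≤ y) (h1 : y ≤ (1587 / 500)) :
    (y - (18749 / 40000)) * (y + 1 - (18749 / 40000)) * (y ^ 2 / 2 + y * (y * (y + 1 - (18749 / 40000)) / 8 -
      (1 + (18749 / 40000))) / 6 + (5 / 6) * (y * (y + 1 - (18749 / 40000)) / 8 - (1 + (18749 / 40000))) ^ 2 / 24) <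
      y ^ 3 * (((8661 / 5000) - 1) * y - (1 - (18749 / 40000))) := by
  have hs : 0 ≤ y - (14433 / 10000) := by linarith
  have ht : 0 ≤ (1587 / 500) - y := by linarith
  have hst : 0 < (y - (14433 / 10000)) + ((1587 / 500) - y) := by norm_num
  have e0 := mul_nonneg (pow_nonneg hs 0) (pow_nonneg ht 6)
  have e1 := mul_nonneg (pow_nonneg hs 1) (pow_nonneg ht 5)
  have e2 := mul_nonneg (pow_nonneg hs 2) (pow_nonneg ht 4)
  have e3 := mul_nonneg (pow_nonneg hs 3) (pow_nonneg ht 3)
  have e4 := mul_nonneg (pow_nonneg hs 4) (pow_nonneg ht 2)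
  have e5 := mul_nonneg (pow_nonneg hs 5) (pow_nonneg ht 1)
  have e6 := mul_nonneg (pow_nonneg hs 6) (pow_nonneg ht 0)
  linarith

theorem thm_A1negS (h1 : St_E2neg) (h2 : St_GKnum) : St_A1negS := by
  intro R g K y hGK hR8 hy0 hyl hv
  obtain ⟨hg1, hg2, hK1, -⟩ := h2 R g K hGK
  have hR4 := hGK.hR
  have hg0 := hGK.g0
  have hR4' : 4 ≤ R := hR4
  interval_cases R
  · have hgl : (9577 / 20000) ≤ g := by norm_num at hg1 ⊢; linarith
    have hgu : g ≤ (9587 / 20000) := by norm_num at hg2 ⊢; linarith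
    have hKl : (8731 / 5000) ≤ K := by norm_num at hK1 ⊢; linarith
    have hyl2 : (3619 / 2500) ≤ y := by
      by_contra hcon
      push Not at hcon
      have e1 : y * (y + 1 - g) ≤ (3619 / 2500) * ((3619 / 2500) + 1 - (9577 / 20000)) := by
        apply mul_le_mul hcon.le (by linarith) (by linarith) (by norm_num)
      norm_num at e1
      linarith
    have hyu : y ≤ (2187 / 1000) := by
      by_contra hcon
      push Not at hcon
      have e1 : (2187 / 1000) * ((2187 / 1000) + 1 - (9587 / 20000)) ≤ y * (y + 1 - g) := by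
        apply mul_le_mul hcon.le (by linarith) (by norm_num) hy0.le
      have e2 : y * (y + 1 - g) ≤ 4 * (1 + g) := by
        have e3 : (y + 1 - g) / 4 ≤ (1 + g) / y := by
          push_cast at hv
          linarith
        rw [div_le_div_iff₀ (by norm_num) hy0] at e3
        linarith
      norm_num at e1
      linarith
    have hE := h1.2 4 ((y + 1 - g) / ((4 : ℕ) : ℝ) - (1 + g) / y) (by norm_num) (by
      have e3 : (1 + g) / y ≤ 2 := by rw [div_le_iff₀ hy0]; linarith
      have e4 : 0 ≤ (y + 1 - g) / ((4 : ℕ) : ℝ) := div_nonneg (by linarith) (by norm_num)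
      push_cast at e4 ⊢
      linarith) hv
    refine A1negS_mono 4 (1 / 2) g (9577 / 20000) K (8731 / 5000) y _ ((y + 1 - g) / 4 - (1 + g) / y)
      (y * (y + 1 - (9577 / 20000)) / 4 - (1 + (9577 / 20000))) (by norm_num) (by norm_num) (by norm_num)
      (by norm_num) hgl (by linarith) hKl (by linarith) rfl rfl ?_ (A1negS_p4 y hyl2 hyu)
    push_cast at hE ⊢
    norm_num at hE ⊢
    linarith
  · have hgl : (1187 / 2500) ≤ g := by norm_num at hg1 ⊢; linarith
    have hgu : g ≤ (11881 / 25000) := by norm_num at hg2 ⊢; linarith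
    have hKl : (8703 / 5000) ≤ K := by norm_num at hK1 ⊢; linarith
    have hyl2 : (7229 / 5000) ≤ y := by
      by_contra hcon
      push Not at hcon
      have e1 : y * (y + 1 - g) ≤ (7229 / 5000) * ((7229 / 5000) + 1 - (1187 / 2500)) := by
        apply mul_le_mul hcon.le (by linarith) (by linarith) (by norm_num)
      norm_num at e1
      linarith
    have hyu : y ≤ (2467 / 1000) := by
      by_contra hcon
      push Not at hcon
      have e1 : (2467 / 1000) * ((2467 / 1000) + 1 - (11881 / 25000)) ≤ y * (y + 1 - g) := by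
        apply mul_le_mul hcon.le (by linarith) (by norm_num) hy0.le
      have e2 : y * (y + 1 - g) ≤ 5 * (1 + g) := by
        have e3 : (y + 1 - g) / 5 ≤ (1 + g) / y := by
          push_cast at hv
          linarith
        rw [div_le_div_iff₀ (by norm_num) hy0] at e3
        linarith
      norm_num at e1
      linarith
    have hE := h1.2 5 ((y + 1 - g) / ((5 : ℕ) : ℝ) - (1 + g) / y) (by norm_num) (by
      have e3 : (1 + g) / y ≤ 2 := by rw [div_le_iff₀ hy0]; linarith
      have e4 : 0 ≤ (y + 1 - g) / ((5 : ℕ) : ℝ) := div_nonneg (by linarith) (by norm_num)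
      push_cast at e4 ⊢
      linarith) hv
    refine A1negS_mono 5 (2 / 3) g (1187 / 2500) K (8703 / 5000) y _ ((y + 1 - g) / 5 - (1 + g) / y)
      (y * (y + 1 - (1187 / 2500)) / 5 - (1 + (1187 / 2500))) (by norm_num) (by norm_num) (by norm_num)
      (by norm_num) hgl (by linarith) hKl (by linarith) rfl rfl ?_ (A1negS_p5 y hyl2 hyu)
    push_cast at hE ⊢
    norm_num at hE ⊢
    linarith
  · have hgl : (4721 / 10000) ≤ g := by norm_num at hg1 ⊢; linarith
    have hgu : g ≤ (189 / 400) := by norm_num at hg2 ⊢; linarith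
    have hKl : (26053 / 15000) ≤ K := by norm_num at hK1 ⊢; linarith
    have hyl2 : (14447 / 10000) ≤ y := by
      by_contra hcon
      push Not at hcon
      have e1 : y * (y + 1 - g) ≤ (14447 / 10000) * ((14447 / 10000) + 1 - (4721 / 10000)) := by
        apply mul_le_mul hcon.le (by linarith) (by linarith) (by norm_num)
      norm_num at e1
      linarith
    have hyu : y ≤ (2721 / 1000) := by
      by_contra hcon
      push Not at hcon
      have e1 : (2721 / 1000) * ((2721 / 1000) + 1 - (189 / 400)) ≤ y * (y + 1 - g) := by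
        apply mul_le_mul hcon.le (by linarith) (by norm_num) hy0.le
      have e2 : y * (y + 1 - g) ≤ 6 * (1 + g) := by
        have e3 : (y + 1 - g) / 6 ≤ (1 + g) / y := by
          push_cast at hv
          linarith
        rw [div_le_div_iff₀ (by norm_num) hy0] at e3
        linarith
      norm_num at e1
      linarith
    have hE := h1.2 6 ((y + 1 - g) / ((6 : ℕ) : ℝ) - (1 + g) / y) (by norm_num) (by
      have e3 : (1 + g) / y ≤ 2 := by rw [div_le_iff₀ hy0]; linarith
      have e4 : 0 ≤ (y + 1 - g) / ((6 : ℕ) : ℝ) := div_nonneg (by linarith) (by norm_num)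
      push_cast at e4 ⊢
      linarith) hv
    refine A1negS_mono 6 (3 / 4) g (4721 / 10000) K (26053 / 15000) y _ ((y + 1 - g) / 6 - (1 + g) / y)
      (y * (y + 1 - (4721 / 10000)) / 6 - (1 + (4721 / 10000))) (by norm_num) (by norm_num) (by norm_num)
      (by norm_num) hgl (by linarith) hKl (by linarith) rfl rfl ?_ (A1negS_p6 y hyl2 hyu)
    push_cast at hE ⊢
    norm_num at hE ⊢
    linarith
  · have hgl : (2057 / 4375) ≤ g := by norm_num at hg1 ⊢; linarith
    have hgu : g ≤ (16469 / 35000) := by norm_num at hg2 ⊢; linarith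
    have hKl : (8671 / 5000) ≤ K := by norm_num at hK1 ⊢; linarith
    have hyl2 : (14439 / 10000) ≤ y := by
      by_contra hcon
      push Not at hcon
      have e1 : y * (y + 1 - g) ≤ (14439 / 10000) * ((14439 / 10000) + 1 - (2057 / 4375)) := by
        apply mul_le_mul hcon.le (by linarith) (by linarith) (by norm_num)
      norm_num at e1
      linarith
    have hyu : y ≤ (591 / 200) := by
      by_contra hcon
      push Not at hcon
      have e1 : (591 / 200) * ((591 / 200) + 1 - (16469 / 35000)) ≤ y * (y + 1 - g) := by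
        apply mul_le_mul hcon.le (by linarith) (by norm_num) hy0.le
      have e2 : y * (y + 1 - g) ≤ 7 * (1 + g) := by
        have e3 : (y + 1 - g) / 7 ≤ (1 + g) / y := by
          push_cast at hv
          linarith
        rw [div_le_div_iff₀ (by norm_num) hy0] at e3
        linarith
      norm_num at e1
      linarith
    have hE := h1.2 7 ((y + 1 - g) / ((7 : ℕ) : ℝ) - (1 + g) / y) (by norm_num) (by
      have e3 : (1 + g) / y ≤ 2 := by rw [div_le_iff₀ hy0]; linarith
      have e4 : 0 ≤ (y + 1 - g) / ((7 : ℕ) : ℝ) := div_nonneg (by linarith) (by norm_num)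
      push_cast at e4 ⊢
      linarith) hv
    refine A1negS_mono 7 (4 / 5) g (2057 / 4375) K (8671 / 5000) y _ ((y + 1 - g) / 7 - (1 + g) / y)
      (y * (y + 1 - (2057 / 4375)) / 7 - (1 + (2057 / 4375))) (by norm_num) (by norm_num) (by norm_num)
      (by norm_num) hgl (by linarith) hKl (by linarith) rfl rfl ?_ (A1negS_p7 y hyl2 hyu)
    push_cast at hE ⊢
    norm_num at hE ⊢
    linarith
  · have hgl : (18749 / 40000) ≤ g := by norm_num at hg1 ⊢; linarith
    have hgu : g ≤ (18763 / 40000) := by norm_num at hg2 ⊢; linarith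
    have hKl : (8661 / 5000) ≤ K := by norm_num at hK1 ⊢; linarith
    have hyl2 : (14433 / 10000) ≤ y := by
      by_contra hcon
      push Not at hcon
      have e1 : y * (y + 1 - g) ≤ (14433 / 10000) * ((14433 / 10000) + 1 - (18749 / 40000)) := by
        apply mul_le_mul hcon.le (by linarith) (by linarith) (by norm_num)
      norm_num at e1
      linarith
    have hyu : y ≤ (1587 / 500) := by
      by_contra hcon
      push Not at hcon
      have e1 : (1587 / 500) * ((1587 / 500) + 1 - (18763 / 40000)) ≤ y * (y + 1 - g) := by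
        apply mul_le_mul hcon.le (by linarith) (by norm_num) hy0.le
      have e2 : y * (y + 1 - g) ≤ 8 * (1 + g) := by
        have e3 : (y + 1 - g) / 8 ≤ (1 + g) / y := by
          push_cast at hv
          linarith
        rw [div_le_div_iff₀ (by norm_num) hy0] at e3
        linarith
      norm_num at e1
      linarith
    have hE := h1.2 8 ((y + 1 - g) / ((8 : ℕ) : ℝ) - (1 + g) / y) (by norm_num) (by
      have e3 : (1 + g) / y ≤ 2 := by rw [div_le_iff₀ hy0]; linarith
      have e4 : 0 ≤ (y + 1 - g) / ((8 : ℕ) : ℝ) := div_nonneg (by linarith) (by norm_num)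
      push_cast at e4 ⊢
      linarith) hv
    refine A1negS_mono 8 (5 / 6) g (18749 / 40000) K (8661 / 5000) y _ ((y + 1 - g) / 8 - (1 + g) / y)
      (y * (y + 1 - (18749 / 40000)) / 8 - (1 + (18749 / 40000))) (by norm_num) (by norm_num) (by norm_num)
      (by norm_num) hgl (by linarith) hKl (by linarith) rfl rfl ?_ (A1negS_p8 y hyl2 hyu)
    push_cast at hE ⊢
    norm_num at hE ⊢
    linarith

end Pool.Agent.EMCW
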