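import Pool.Agent.EMCW.NumSt2

/-!
The end `al = 1` of the curve, the case `v ≥ 0`.
-/

open Finset

namespace Pool.Agent.EMCW

theorem A1pos_pow (R : ℕ) (g K ys : ℝ) (h : GK R g K) (hys : ys = R + g - 1) (hys0 : 0 < ys) :
    (1 + 1 / ys) ^ R = K + 1 := by
  have hR : (0 : ℝ) < R := by
    have := h.hR
    exact_mod_cast (by omega : 0 < R)
  have hK := h.K0
  have h1 : (1 + 1 / ys) * (1 - (1 - g) / R) = 1 + g / R := by
    have hys' : (R : ℝ) + g - 1 ≠ 0 := by rw [← hys]; exact hys0.ne'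
    rw [hys]
    field_simp
    ring
  have h2 : (1 + 1 / ys) ^ R * (1 / K) = 1 + 1 / K := by
    rw [← h.e1, ← h.e2, ← mul_pow, h1]
  have h3 : (1 + 1 / ys) ^ R = (1 + 1 / K) * K := by
    rw [← h2]
    field_simp
  rw [h3]
  field_simp

/-- the value at the end of the chord -/
theorem A1pos_end (h3 : St_E2cf) (R : ℕ) (g K ys : ℝ) (h : GK R g K) (hys : ys = R + g - 1)
    (hys0 : 0 < ys) :
    E2 R (((R : ℝ) - 2) * (1 / ys)) = ys * (K * ys - R) / (R * (R - 1)) := by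
  have hR : (4 : ℝ) ≤ R := by
    have := h.hR
    exact_mod_cast this
  have h4 := h3 R (1 / ys) (by have := h.hR; omega)
  rw [A1pos_pow R g K ys h hys hys0] at h4
  have h5 : (R : ℝ) * (R - 1) ≠ 0 := by
    apply mul_ne_zero <;> linarith
  rw [eq_div_iff h5]
  have h6 : E2 R (((R : ℝ) - 2) * (1 / ys)) * (R * (R - 1)) =
      (E2 R (((R : ℝ) - 2) * (1 / ys)) * (R * (R - 1) * (1 / ys) ^ 2)) * ys ^ 2 := by
    field_simp
  rw [h6, h4]
  field_simp
  ring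

/-- the chord -/
theorem A1pos_chord (h1 : St_E2conv) (h2 : St_E2mono) (R : ℕ) (v w E ka : ℝ) (hR : 4 ≤ R)
    (hv : 0 ≤ v) (hw : 0 < w) (hvw : v ≤ w) (hE : E2 R w = E) (hka : ka * w = E - 1 / 2) :
    E2 R v ≤ 1 / 2 + ka * v := by
  have hR' : (4 : ℝ) ≤ R := by exact_mod_cast hR
  have ha : 0 ≤ 1 - v / w := by
    rw [sub_nonneg, div_le_one hw]
    exact hvw
  have hb : 0 ≤ v / w := by positivity
  have hab : 1 - v / w + v / w = 1 := by ring
  have hx0 : (0 : ℝ) ∈ Set.Ici (-((R : ℝ) - 2)) := Set.mem_Ici.mpr (by linarith)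
  have hy0 : w ∈ Set.Ici (-((R : ℝ) - 2)) := Set.mem_Ici.mpr (by linarith)
  have h3 := (h1 R (by omega)).2 hx0 hy0 ha hb hab
  have h4 : (1 - v / w) • (0 : ℝ) + (v / w) • w = v := by
    rw [smul_eq_mul, smul_eq_mul]
    field_simp
    ring
  rw [h4, (h2.1 R (by omega)), hE] at h3
  refine h3.trans (le_of_eq ?_)
  rw [smul_eq_mul, smul_eq_mul]
  have h5 : E = ka * w + 1 / 2 := by linarith
  rw [h5]
  field_simp
  ring

/-- the identity -/
theorem A1pos_id (r g K y ys ka C2 c2 : ℝ) (hr : 4 ≤ r) (hys : ys = r + g - 1) (hys0 : 0 < ys)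
    (hk : ka = (ys * (K * ys - r) / (r * (r - 1)) - 1 / 2) * ys / (r - 2))
    (hC2 : C2 = 2 * ka * (r + 1 - 2 * g) - r * (2 * K - 3))
    (hc2 : c2 = -(2 * r * (1 - g)) + 2 * ka * r * (1 + g) -
      (1 - 2 * g) * (r + 2 * ka * (1 - g)) + 2 * ka * g * (1 - g)) :
    2 * r * y ^ 2 * ((K - 1) * y - (1 - g)) - (y - g) * (y + 1 - g) * (r * y + 2 * ka *
      (y * (y + 1 - g) - r * (1 + g))) =
    (ys - y) * (2 * ka * y ^ 3 + C2 * y ^ 2 + (ys * C2 - c2) * y -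
      2 * ka * r * (1 + g) * g * (1 - g) / ys) := by
  have hk2 : 2 * ka * (r - 2) * r * (r - 1) = ys * (2 * ys * (K * ys - r) - r * (r - 1)) := by
    have h1 : r - 2 ≠ 0 := by linarith
    have h2 : r - 1 ≠ 0 := by linarith
    have h3 : r ≠ 0 := by linarith
    rw [hk]
    field_simp
  have h0 : ys * (2 * r * y ^ 2 * ((K - 1) * y - (1 - g)) - (y - g) * (y + 1 - g) * (r * y +
      2 * ka * (y * (y + 1 - g) - r * (1 + g)))) =
      (ys - y) * (ys * (2 * ka * y ^ 3 + C2 * y ^ 2 + (ys * C2 - c2) * y) -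
        2 * ka * r * (1 + g) * g * (1 - g)) := by
    rw [hC2, hc2]
    subst hys
    linear_combination (-(y * r)) * hk2
  have h4 : (ys - y) * (2 * ka * y ^ 3 + C2 * y ^ 2 + (ys * C2 - c2) * y -
      2 * ka * r * (1 + g) * g * (1 - g) / ys) = ((ys - y) * (ys * (2 * ka * y ^ 3 + C2 * y ^ 2 +
      (ys * C2 - c2) * y) - 2 * ka * r * (1 + g) * g * (1 - g))) / ys := by
    field_simp
  rw [h4, ← h0]
  field_simp

/-- the cubic is positive -/
theorem A1pos_cubic (a b c q y : ℝ) (hy : 13 / 10 ≤ y) (ha : 352 / 1000 ≤ a)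
    (hb : -(545 / 1000) ≤ b) (hc : 28 / 100 ≤ c) (hq : q ≤ 16 / 100) :
    0 < a * y ^ 3 + b * y ^ 2 + c * y - q := by
  have h1 : 352 / 1000 * y ^ 3 ≤ a * y ^ 3 := by
    have : 0 ≤ y ^ 3 := by positivity
    nlinarith
  have h2 : -(545 / 1000) * y ^ 2 ≤ b * y ^ 2 := by
    have : 0 ≤ y ^ 2 := by positivity
    nlinarith
  have h3 : 28 / 100 * y ≤ c * y := by nlinarith
  have h4 : 0 < 352 / 1000 * y ^ 3 + -(545 / 1000) * y ^ 2 + 28 / 100 * y - 16 / 100 := by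
    nlinarith [mul_nonneg (sub_nonneg.mpr hy) (sub_nonneg.mpr hy),
      mul_nonneg (mul_nonneg (sub_nonneg.mpr hy) (sub_nonneg.mpr hy)) (sub_nonneg.mpr hy)]
  linarith

/-- the inequality for `v ≥ 0` -/
theorem thm_A1pos (h1 : St_E2conv) (h2 : St_E2mono) (h3 : St_E2cf) (h4 : St_A1cub) :
    St_A1pos := by
  intro R g K y hGK hy hyR hv
  have hR4 := hGK.hR
  have hR : (4 : ℝ) ≤ R := by exact_mod_cast hR4
  have hg0 := hGK.g0
  have hg1 := hGK.g1
  obtain ⟨ys, hys⟩ : ∃ ys : ℝ, ys = R + g - 1 := ⟨_, rfl⟩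
  have hys0 : 0 < ys := by linarith
  have hyys : y < ys := by linarith
  obtain ⟨E, hE⟩ : ∃ E : ℝ, E = ys * (K * ys - R) / (R * (R - 1)) := ⟨_, rfl⟩
  obtain ⟨ka, hka⟩ : ∃ ka : ℝ, ka = (ys * (K * ys - R) / (R * (R - 1)) - 1 / 2) * ys / (R - 2) :=
    ⟨_, rfl⟩
  obtain ⟨C2, hC2⟩ : ∃ C2 : ℝ, C2 = 2 * ka * (R + 1 - 2 * g) - R * (2 * K - 3) := ⟨_, rfl⟩
  obtain ⟨c2, hc2⟩ : ∃ c2 : ℝ, c2 = -(2 * R * (1 - g)) + 2 * ka * R * (1 + g) -
      (1 - 2 * g) * (R + 2 * ka * (1 - g)) + 2 * ka * g * (1 - g) := ⟨_, rfl⟩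
  obtain ⟨hb1, _, hb2, hb3, hb4⟩ := h4 R g K hGK ys ka C2 c2 hys hka hC2 hc2
  have hend := A1pos_end h3 R g K ys hGK hys hys0
  have hw0 : 0 < ((R : ℝ) - 2) * (1 / ys) := by
    have : (0 : ℝ) < R - 2 := by linarith
    positivity
  have hy0 : 0 < y := by linarith
  have hvw : (y + 1 - g) / R - (1 + g) / y ≤ ((R : ℝ) - 2) * (1 / ys) := by
    have e1 : (y + 1 - g) / R ≤ 1 := by
      rw [div_le_one (by linarith)]
      linarith
    have e2 : (1 + g) / ys ≤ (1 + g) / y := by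
      apply div_le_div_of_nonneg_left (by linarith) hy0 hyys.le
    have e3 : ((R : ℝ) - 2) * (1 / ys) = 1 - (1 + g) / ys := by
      field_simp
      linarith
    rw [e3]
    linarith
  have hch := A1pos_chord h1 h2 R ((y + 1 - g) / R - (1 + g) / y) (((R : ℝ) - 2) * (1 / ys)) E ka
    hR4 hv hw0 hvw (by rw [hend, hE]) (by
      have : (R : ℝ) - 2 ≠ 0 := by linarith
      rw [hka, hE]
      field_simp)
  have hid := A1pos_id R g K y ys ka C2 c2 hR hys hys0 hka hC2 hc2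
  have hcub := A1pos_cubic (2 * ka) C2 (ys * C2 - c2) (2 * ka * R * (1 + g) * g * (1 - g) / ys) y
    hy hb1 hb2 hb3 hb4
  have hpos : 0 < 2 * R * y ^ 2 * ((K - 1) * y - (1 - g)) - (y - g) * (y + 1 - g) * (R * y +
      2 * ka * (y * (y + 1 - g) - R * (1 + g))) := by
    rw [hid]
    exact mul_pos (by linarith) hcub
  have hP : 0 < (y - g) * (y + 1 - g) := mul_pos (by linarith) (by linarith)
  have h6 : (y - g) * (y + 1 - g) * E2 R ((y + 1 - g) / R - (1 + g) / y) ≤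
      (y - g) * (y + 1 - g) * (1 / 2 + ka * ((y + 1 - g) / R - (1 + g) / y)) :=
    mul_le_mul_of_nonneg_left hch hP.le
  refine lt_of_le_of_lt h6 ?_
  have h7 : 2 * R * y * (y * ((K - 1) * y - (1 - g)) -
      (y - g) * (y + 1 - g) * (1 / 2 + ka * ((y + 1 - g) / R - (1 + g) / y))) =
      2 * R * y ^ 2 * ((K - 1) * y - (1 - g)) - (y - g) * (y + 1 - g) * (R * y +
      2 * ka * (y * (y + 1 - g) - R * (1 + g))) := by
    have : (R : ℝ) ≠ 0 := by linarith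
    field_simp
  rw [← h7] at hpos
  have h8 : 0 < 2 * R * y := by positivity
  have h9 := (pos_iff_pos_of_mul_pos hpos).mp h8
  linarith

end Pool.Agent.EMCW
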