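import Pool.Agent.EMCW.NumSt2

/-!
Zone 3, the curve.
-/

open Finset

namespace Pool.Agent.EMCW

/-- The interpolation between the two ends of the curve, in the variable `1 / W`. -/
private lemma Curve_interp (g Om W W0 W1 E E0 E1 T : ℝ) (hW1 : 0 < W1) (h1 : W1 ≤ W) (h0 : W ≤ W0)
    (h10 : W1 < W0) (hg : g ≤ W)
    (hE : E ≤ (1 - W1 * (W0 - W) / (W * (W0 - W1))) * E0 + W1 * (W0 - W) / (W * (W0 - W1)) * E1)
    (hT0 : (W0 - g) * (1 + Om ^ 2 / W0 * E0) < T) (hT1 : (W1 - g) * (1 + Om ^ 2 / W1 * E1) < T)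
    (hs : g * Om ^ 2 * (E1 - E0) ≤ W1 * (W0 - W1)) :
    (W - g) * (1 + Om ^ 2 / W * E) < T := by
  have hW : 0 < W := lt_of_lt_of_le hW1 h1
  have hW0 : 0 < W0 := lt_of_lt_of_le hW h0
  have hd : 0 < W0 - W1 := sub_pos.mpr h10
  set t : ℝ := W1 * (W0 - W) / (W * (W0 - W1)) with ht
  have ht0 : 0 ≤ t := by
    rw [ht]
    exact div_nonneg (mul_nonneg hW1.le (sub_nonneg.mpr h0)) (mul_pos hW hd).le
  have h1t : 1 - t = W0 * (W - W1) / (W * (W0 - W1)) := by
    rw [ht]
    field_simp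
    ring
  have ht1 : 0 ≤ 1 - t := by
    rw [h1t]
    exact div_nonneg (mul_nonneg hW0.le (sub_nonneg.mpr h1)) (mul_pos hW hd).le
  have e1 : (W - g) * (1 + Om ^ 2 / W * E) ≤
      (W - g) * (1 + Om ^ 2 / W * ((1 - t) * E0 + t * E1)) := by
    apply mul_le_mul_of_nonneg_left _ (sub_nonneg.mpr hg)
    have : 0 ≤ Om ^ 2 / W := div_nonneg (sq_nonneg _) hW.le
    nlinarith [mul_le_mul_of_nonneg_left hE this]
  have e2 : (1 - t) * ((W0 - g) * (1 + Om ^ 2 / W0 * E0)) +
      t * ((W1 - g) * (1 + Om ^ 2 / W1 * E1)) -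
      (W - g) * (1 + Om ^ 2 / W * ((1 - t) * E0 + t * E1)) =
      (W0 - W) * (W - W1) / (W ^ 2 * (W0 - W1)) * (W * (W0 - W1) - g * Om ^ 2 * (E1 - E0)) := by
    rw [h1t, ht]
    field_simp
    ring
  have e3 : 0 ≤ (W0 - W) * (W - W1) / (W ^ 2 * (W0 - W1)) *
      (W * (W0 - W1) - g * Om ^ 2 * (E1 - E0)) := by
    apply mul_nonneg
    · exact div_nonneg (mul_nonneg (sub_nonneg.mpr h0) (sub_nonneg.mpr h1))
        (mul_pos (pow_pos hW 2) hd).le
    · nlinarith [mul_le_mul_of_nonneg_right h1 hd.le]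
  have e4 : (1 - t) * ((W0 - g) * (1 + Om ^ 2 / W0 * E0)) +
      t * ((W1 - g) * (1 + Om ^ 2 / W1 * E1)) < T := by
    rcases ht0.eq_or_lt with h | h
    · rw [← h]; simpa using hT0
    · have a1 := mul_lt_mul_of_pos_left hT1 h
      have a2 := mul_le_mul_of_nonneg_left hT0.le ht1
      nlinarith
  linarith

private lemma Curve_poly (g y : ℝ) (hg : g ≤ 4794 / 10000)
    (hy : 143 / 100 ≤ y) :
    43 / 100 * g * (y + 1 - g) ^ 2 * (y + 2) ≤ y ^ 3 * (y - g) := by
  have h1 : g * (y + 1 - g) ^ 2 ≤ 4794 / 10000 * (y + 5206 / 10000) ^ 2 := by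
    have e : 4794 / 10000 * (y + 5206 / 10000) ^ 2 - g * (y + 1 - g) ^ 2 =
        (4794 / 10000 - g) * ((y + 5206 / 10000) ^ 2 - g * ((y + 5206 / 10000) + (y + 1 - g))) := by
      ring
    have : 0 ≤ (y + 5206 / 10000) ^ 2 - g * ((y + 5206 / 10000) + (y + 1 - g)) := by nlinarith
    have := mul_nonneg (sub_nonneg.mpr hg) this
    linarith
  have h2 : y ^ 3 * (y - 4794 / 10000) ≤ y ^ 3 * (y - g) :=
    mul_le_mul_of_nonneg_left (by linarith) (by positivity)
  have h3 : 43 / 100 * g * (y + 1 - g) ^ 2 * (y + 2) ≤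
      43 / 100 * (4794 / 10000 * (y + 5206 / 10000) ^ 2) * (y + 2) := by
    have : (0 : ℝ) ≤ 43 / 100 * (y + 2) := by linarith
    nlinarith [mul_le_mul_of_nonneg_left h1 this]
  refine le_trans h3 (le_trans ?_ h2)
  obtain ⟨t, rfl⟩ : ∃ t : ℝ, y = 143 / 100 + t := ⟨y - 143 / 100, by ring⟩
  have ht : 0 ≤ t := by linarith
  have : 0 ≤ (143 / 100 + t) ^ 3 * (143 / 100 + t - 4794 / 10000) -
      43 / 100 * (4794 / 10000 * (143 / 100 + t + 5206 / 10000) ^ 2) * (143 / 100 + t + 2) := by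
    ring_nf
    positivity
  linarith

/-- `W / R - 1 - g` against `-(R - 2) W / Om`: the argument of `E2` is at least `-(R-2)`. -/
private lemma Curve_arg (R g y W j : ℝ) (hR : 4 ≤ R) (hg : g ≤ 4794 / 10000)
    (hy : 143 / 100 ≤ y) (hW : R * ((y - g) / (R - 1)) * y ≤ W)
    (hj : W / R - 1 ≤ j) : -(R - 2) ≤ (j - g) * (y + 1 - g) / W := by
  have hR1 : 0 < R - 1 := by linarith
  have hW1 : 0 < R * ((y - g) / (R - 1)) * y := by
    have : 0 < (y - g) / (R - 1) := div_pos (by linarith) hR1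
    have : 0 < y := by linarith
    positivity
  have hW0 : 0 < W := lt_of_lt_of_le hW1 hW
  rw [le_div_iff₀ hW0]
  have h1 : 0 ≤ W / R := div_nonneg hW0.le (by linarith)
  have h2 : -(1 + g) * (y + 1 - g) ≤ (j - g) * (y + 1 - g) :=
    mul_le_mul_of_nonneg_right (by linarith) (by linarith)
  have h3 : 8 / 3 * (y * (y - g)) ≤ (R - 2) * W := by
    have a : 8 / 3 * (y * (y - g)) ≤ (R - 2) * (R * ((y - g) / (R - 1)) * y) := by
      have e : (R - 2) * (R * ((y - g) / (R - 1)) * y) - 8 / 3 * (y * (y - g)) =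
          (3 * R - 2) * (R - 4) * (y * (y - g)) / (3 * (R - 1)) := by
        field_simp
        ring
      have : 0 ≤ (3 * R - 2) * (R - 4) * (y * (y - g)) / (3 * (R - 1)) := by
        apply div_nonneg _ (by linarith)
        apply mul_nonneg (mul_nonneg (by linarith) (by linarith))
        exact mul_nonneg (by linarith) (by linarith)
      linarith
    have b : (R - 2) * (R * ((y - g) / (R - 1)) * y) ≤ (R - 2) * W :=
      mul_le_mul_of_nonneg_left hW (by linarith)
    linarith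
  have h4 : (1 + g) * (y + 1 - g) ≤ 8 / 3 * (y * (y - g)) := by
    nlinarith [mul_nonneg (sub_nonneg.mpr hg) (sub_nonneg.mpr hy),
      mul_nonneg (sub_nonneg.mpr hy) (sub_nonneg.mpr hy), sq_nonneg (g - 4794 / 10000)]
  linarith

theorem thm_Curve (hA1 : St_Alpha1) (hRi : St_Ridge) (hconv : St_E2conv) (hmono : St_E2mono)
    (hlip : St_E2lip) (hnum : St_GKnum) : St_Curve := by
  intro R g K y W j hGK hW2 hyS hy0 hWl hWu hjl hju
  obtain ⟨n1, n2, -, -⟩ := hnum R g K hGK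
  have hR4 : (4 : ℝ) ≤ R := by exact_mod_cast hGK.hR
  have hR0 : (0 : ℝ) < R := by linarith
  have hR1 : (0 : ℝ) < (R : ℝ) - 1 := by linarith
  have hRi1 : (1 : ℝ) / R ≤ 1 / 4 := one_div_le_one_div_of_le (by norm_num) hR4
  have hRi0 : 0 ≤ (1 : ℝ) / R := by positivity
  have hg1 : 4586 / 10000 ≤ g := by
    have : (81 / 1000 : ℝ) / R = 81 / 1000 * (1 / R) := by ring
    rw [this] at n1
    nlinarith
  have hg2 : g ≤ 4794 / 10000 := by
    have : (822 / 10000 : ℝ) / R = 822 / 10000 * (1 / R) := by ring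
    rw [this] at n2
    nlinarith
  have hW2' : (57 / 20 : ℝ) ≤ y * (y + 1 - g) := by
    refine le_trans ?_ hW2
    unfold W2
    split_ifs <;> norm_num
  have hy : 143 / 100 ≤ y := by
    by_contra hc
    push Not at hc
    nlinarith
  set Om : ℝ := y + 1 - g with hOm
  have hOm0 : 0 < Om := by rw [hOm]; linarith
  have hyg : 0 < y - g := by linarith
  set W0 : ℝ := y * Om with hW0d
  set W1 : ℝ := (R : ℝ) * ((y - g) / (R - 1)) * y with hW1d
  have hW1e : W1 = (R : ℝ) * (y * (y - g)) / (R - 1) := by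
    rw [hW1d]; field_simp
  have hW1p : 0 < W1 := by
    rw [hW1e]
    exact div_pos (mul_pos hR0 (mul_pos hy0 hyg)) hR1
  have hWp : 0 < W := lt_of_lt_of_le hW1p hWl
  have hW0p : 0 < W0 := mul_pos hy0 hOm0
  have hdiff : W0 - W1 = y * ((R : ℝ) + g - 1 - y) / (R - 1) := by
    rw [hW1e, hW0d, hOm]
    field_simp
    ring
  have h10 : W1 < W0 := by
    have : 0 < y * ((R : ℝ) + g - 1 - y) / (R - 1) :=
      div_pos (mul_pos hy0 (by linarith)) hR1
    linarith
  have hgW : g ≤ W := by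
    have a : y * (y - g) ≤ W1 := by
      rw [hW1e, le_div_iff₀ hR1]
      have h1 : 0 < y * (y - g) := mul_pos hy0 hyg
      have h2 : y * (y - g) * ((R : ℝ) - 1) = R * (y * (y - g)) - y * (y - g) := by ring
      rw [h2]
      linarith
    have b : g ≤ y * (y - g) := by
      have h1 : (143 / 100 : ℝ) * (95 / 100) ≤ y * (y - g) :=
        mul_le_mul hy (by linarith) (by norm_num) hy0.le
      linarith
    linarith
  -- the two ends
  have hT0 : (W0 - g) * (1 + Om ^ 2 / W0 * E2 R ((W0 / R - 1 - g) * Om / W0)) <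
      (K * y - 1) * (y + 1) := by
    have h := hA1 R g K y hGK hW2 hyS hy0
    unfold Pb at h
    have h' : (W0 - g) * (1 + Om ^ 2 / W0 * E2 R ((W0 / R - 1 - g) * Om / W0)) / (g + Om) <
      K * y - 1 := by linarith
    have e : g + Om = y + 1 := by rw [hOm]; ring
    rwa [e, div_lt_iff₀ (by linarith)] at h'
  have hT1 : (W1 - g) * (1 + Om ^ 2 / W1 * E2 R ((y - (y - g) / (R - 1) - g) * Om / W1)) <
      (K * y - 1) * (y + 1) := by
    have h := hRi R g K y hGK (by linarith) hyS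
    unfold Pb at h
    have h' : (W1 - g) * (1 + Om ^ 2 / W1 * E2 R ((y - (y - g) / (R - 1) - g) * Om / W1)) /
      (g + Om) < K * y - 1 := by linarith
    have e : g + Om = y + 1 := by rw [hOm]; ring
    rwa [e, div_lt_iff₀ (by linarith)] at h'
  -- the arguments
  set v : ℝ := (j - g) * Om / W with hv
  set v0 : ℝ := (W0 / R - 1 - g) * Om / W0 with hv0
  set v1 : ℝ := (y - (y - g) / (R - 1) - g) * Om / W1 with hv1
  have hvl : -((R : ℝ) - 2) ≤ v := Curve_arg R g y W j hR4 hg2 hy hWl hjl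
  have hv0l : -((R : ℝ) - 2) ≤ v0 :=
    Curve_arg R g y W0 (W0 / R - 1) hR4 hg2 hy h10.le le_rfl
  have hv1e : v1 = ((R : ℝ) - 2) * Om / (R * y) := by
    rw [hv1, hW1d]
    field_simp
    ring
  have hv1l : -((R : ℝ) - 2) ≤ v1 := by
    have : 0 ≤ v1 := by
      rw [hv1e]
      exact div_nonneg (mul_nonneg (by linarith) hOm0.le) (by positivity)
    linarith
  have hv1u : v1 ≤ 7 / 5 := by
    rw [hv1e, div_le_iff₀ (by positivity)]
    have a : Om ≤ 7 / 5 * y := by rw [hOm]; linarith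
    have b : ((R : ℝ) - 2) * Om ≤ (R : ℝ) * Om := mul_le_mul_of_nonneg_right (by linarith) hOm0.le
    have c : (R : ℝ) * Om ≤ R * (7 / 5 * y) := mul_le_mul_of_nonneg_left a hR0.le
    linarith
  have hv10 : v1 - v0 = Om * ((y - g) * (y + 2)) * (W0 - W1) / (W0 * W1) := by
    rw [hv1e, hv0, hdiff, hW1e, hW0d, hOm]
    have : y + 1 - g ≠ 0 := by rw [← hOm]; exact hOm0.ne'
    field_simp
    ring
  have hv01 : v0 ≤ v1 := by
    have : 0 ≤ Om * ((y - g) * (y + 2)) * (W0 - W1) / (W0 * W1) := by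
      apply div_nonneg _ (mul_pos hW0p hW1p).le
      apply mul_nonneg _ (sub_nonneg.mpr h10.le)
      exact mul_nonneg hOm0.le (mul_nonneg hyg.le (by linarith))
    linarith
  -- E at v
  set t : ℝ := W1 * (W0 - W) / (W * (W0 - W1)) with ht
  have hd : 0 < W0 - W1 := sub_pos.mpr h10
  have ht0 : 0 ≤ t := by
    rw [ht]
    exact div_nonneg (mul_nonneg hW1p.le (sub_nonneg.mpr hWu)) (mul_pos hWp hd).le
  have h1t : 1 - t = W0 * (W - W1) / (W * (W0 - W1)) := by
    rw [ht]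
    field_simp
    ring
  have ht1 : 0 ≤ 1 - t := by
    rw [h1t]
    exact div_nonneg (mul_nonneg hW0p.le (sub_nonneg.mpr hWl)) (mul_pos hWp hd).le
  have hvD : v ≤ (1 - t) * v0 + t * v1 := by
    have a : v ≤ ((1 + y) * Om - 1 - W * ((1 + y) / y - 1 / R) - g) * Om / W := by
      rw [hv]
      apply div_le_div_of_nonneg_right _ hWp.le
      exact mul_le_mul_of_nonneg_right (by linarith) hOm0.le
    have b : ((1 + y) * Om - 1 - W * ((1 + y) / y - 1 / R) - g) * Om / W =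
        (1 - t) * v0 + t * v1 := by
      have e1 : (1 - t) * v0 + t * v1 = v0 + t * (v1 - v0) := by ring
      rw [e1, hv10, ht, hv0]
      have e2 : W1 * (W0 - W) / (W * (W0 - W1)) *
          (Om * ((y - g) * (y + 2)) * (W0 - W1) / (W0 * W1)) =
          Om * ((y - g) * (y + 2)) * (W0 - W) / (W * W0) := by
        field_simp
      rw [e2, hW0d, hOm]
      have : y + 1 - g ≠ 0 := by rw [← hOm]; exact hOm0.ne'
      field_simp
      ring
    linarith
  have hEc : E2 R ((1 - t) * v0 + t * v1) ≤ (1 - t) * E2 R v0 + t * E2 R v1 := by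
    have h := (hconv R (by have := hGK.hR; omega)).2 (Set.mem_Ici.mpr hv0l)
      (Set.mem_Ici.mpr hv1l) ht1 ht0 (by ring)
    simpa [smul_eq_mul] using h
  have hE : E2 R v ≤ (1 - t) * E2 R v0 + t * E2 R v1 :=
    le_trans ((hmono.2 R v _ (by have := hGK.hR; omega) hvl hvD).2) hEc
  -- the Lipschitz bound
  have hs : g * Om ^ 2 * (E2 R v1 - E2 R v0) ≤ W1 * (W0 - W1) := by
    have a := hlip R v0 v1 hGK.hR hv0l hv01 hv1u
    rw [hv10] at a
    have b : g * Om ^ 2 * (E2 R v1 - E2 R v0) ≤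
        g * Om ^ 2 * (43 / 100 * (Om * ((y - g) * (y + 2)) * (W0 - W1) / (W0 * W1))) :=
      mul_le_mul_of_nonneg_left a (by positivity)
    refine le_trans b ?_
    have c : g * Om ^ 2 * (43 / 100 * (Om * ((y - g) * (y + 2)) * (W0 - W1) / (W0 * W1))) =
        (43 / 100 * g * Om ^ 2 * (y + 2)) * ((y - g) * (W0 - W1) / (y * W1)) := by
      rw [hW0d]
      field_simp
    rw [c]
    have d := Curve_poly g y hg2 hy
    rw [← hOm] at d
    have e : 0 ≤ (y - g) * (W0 - W1) / (y * W1) :=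
      div_nonneg (mul_nonneg hyg.le hd.le) (mul_pos hy0 hW1p).le
    refine le_trans (mul_le_mul_of_nonneg_right d e) ?_
    have f : y ^ 3 * (y - g) * ((y - g) * (W0 - W1) / (y * W1)) =
        (y * (y - g)) ^ 2 / W1 * (W0 - W1) := by
      field_simp
    rw [f]
    apply mul_le_mul_of_nonneg_right _ hd.le
    rw [div_le_iff₀ hW1p]
    have k : y * (y - g) ≤ W1 := by
      rw [hW1e, le_div_iff₀ hR1]
      have h1 : 0 < y * (y - g) := mul_pos hy0 hyg
      have h2 : y * (y - g) * ((R : ℝ) - 1) = R * (y * (y - g)) - y * (y - g) := by ring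
      rw [h2]
      linarith
    have k0 : 0 ≤ y * (y - g) := (mul_pos hy0 hyg).le
    rw [sq]
    exact mul_le_mul k k k0 hW1p.le
  have hfin := Curve_interp g Om W W0 W1 (E2 R v) (E2 R v0) (E2 R v1) ((K * y - 1) * (y + 1))
    hW1p hWl hWu h10 hgW hE hT0 hT1 hs
  unfold Pb
  have e : g + Om = y + 1 := by rw [hOm]; ring
  rw [e]
  have : (W - g) * (1 + Om ^ 2 / W * E2 R v) / (y + 1) < K * y - 1 := by
    rw [div_lt_iff₀ (by linarith)]
    exact hfin
  linarith

end Pool.Agent.EMCW
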