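import Pool.Agent.EMCW.NumSt2

/-!
Closed form of the integral `E2`.
-/

namespace Pool.Agent.EMCW

theorem thm_E2cf : St_E2cf := by
  intro R u hR
  obtain ⟨n, rfl⟩ : ∃ n, R = n + 2 := ⟨R - 2, by omega⟩
  have hn : (n : ℝ) ≠ 0 := by
    have : n ≠ 0 := by omega
    exact_mod_cast this
  have hc : ((n + 2 : ℕ) : ℝ) - 2 = n := by
    push_cast
    ring
  have h1 : E2 (n + 2) ((((n + 2 : ℕ) : ℝ) - 2) * u) =
      ∫ t in (0 : ℝ)..1, (1 - t) * (1 + u * t) ^ n := by
    unfold E2
    rw [hc]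
    have h2 : n + 2 - 2 = n := by omega
    rw [h2]
    refine intervalIntegral.integral_congr fun t _ => ?_
    have h3 : (n : ℝ) * u * t / n = u * t := by
      field_simp
    show (1 - t) * (1 + (n : ℝ) * u * t / n) ^ n = (1 - t) * (1 + u * t) ^ n
    rw [h3]
  rw [h1, ← intervalIntegral.integral_mul_const]
  have h4 : ∀ t ∈ Set.uIcc (0 : ℝ) 1, HasDerivAt
      (fun t : ℝ => ((n + 2 : ℕ) : ℝ) * u * ((1 - t) * (1 + u * t) ^ (n + 1)) +
        (1 + u * t) ^ (n + 2))
      ((1 - t) * (1 + u * t) ^ n * (((n + 2 : ℕ) : ℝ) * (((n + 2 : ℕ) : ℝ) - 1) * u ^ 2)) t := by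
    intro t _
    have d0 : HasDerivAt (fun t : ℝ => 1 + u * t) u t := by
      simpa using ((hasDerivAt_id t).const_mul u).const_add 1
    have d1 : HasDerivAt (fun t : ℝ => (1 + u * t) ^ (n + 1))
        (((n + 1 : ℕ) : ℝ) * (1 + u * t) ^ n * u) t := by
      exact (d0.fun_pow (n + 1)).congr_deriv (by rw [Nat.add_sub_cancel])
    have d2 : HasDerivAt (fun t : ℝ => (1 + u * t) ^ (n + 2))
        (((n + 2 : ℕ) : ℝ) * (1 + u * t) ^ (n + 1) * u) t := by
      exact (d0.fun_pow (n + 2)).congr_deriv (by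
        rw [show n + 2 - 1 = n + 1 by omega])
    have d3 : HasDerivAt (fun t : ℝ => 1 - t) (-1) t := by
      simpa using (hasDerivAt_id t).const_sub 1
    have d4 := ((d3.mul d1).const_mul (((n + 2 : ℕ) : ℝ) * u)).add d2
    refine d4.congr_deriv ?_
    push_cast
    ring
  have h5 := intervalIntegral.integral_eq_sub_of_hasDerivAt h4 (by
    apply Continuous.intervalIntegrable
    fun_prop)
  rw [h5]
  simp only [sub_self, zero_mul, mul_zero, add_zero, one_pow, mul_one, sub_zero, zero_add]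
  ring

end Pool.Agent.EMCW
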