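import Pool.Agent.EMCW.NumSt2

/-!
Convexity of the function `E2 R` on `[-(R-2), oo)`.
-/

open Finset

namespace Pool.Agent.EMCW

private lemma E2conv_cont (R : ℕ) (v : ℝ) :
    Continuous fun t : ℝ => (1 - t) * (1 + v * t / ((R : ℝ) - 2)) ^ (R - 2) := by
  fun_prop

private lemma E2conv_nonneg (R : ℕ) (hR : 3 ≤ R) (v t : ℝ) (hv : -((R : ℝ) - 2) ≤ v)
    (h0 : 0 ≤ t) (h1 : t ≤ 1) : 0 ≤ 1 + v * t / ((R : ℝ) - 2) := by
  have hRr : (3 : ℝ) ≤ R := by exact_mod_cast hR
  have hp : 0 < (R : ℝ) - 2 := by linarith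
  have h2 : -((R : ℝ) - 2) ≤ v * t := by
    have h3 : 0 ≤ (v + ((R : ℝ) - 2)) * t := mul_nonneg (by linarith) h0
    have h4 : 0 ≤ ((R : ℝ) - 2) * (1 - t) := mul_nonneg hp.le (by linarith)
    nlinarith
  have h5 : -1 ≤ v * t / ((R : ℝ) - 2) := by
    rw [le_div_iff₀ hp]
    linarith
  linarith

theorem thm_E2conv : St_E2conv := by
  intro R hR
  refine ⟨convex_Ici _, ?_⟩
  intro x hx y hy a b ha hb hab
  simp only [Set.mem_Ici] at hx hy
  simp only [smul_eq_mul]
  unfold E2
  rw [← intervalIntegral.integral_const_mul, ← intervalIntegral.integral_const_mul,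
    ← intervalIntegral.integral_add]
  · apply intervalIntegral.integral_mono_on (by norm_num)
    · exact (E2conv_cont R _).intervalIntegrable _ _
    · exact (((E2conv_cont R x).const_mul a).add
        ((E2conv_cont R y).const_mul b)).intervalIntegrable _ _
    · intro t ht
      have hx0 := E2conv_nonneg R hR x t hx ht.1 ht.2
      have hy0 := E2conv_nonneg R hR y t hy ht.1 ht.2
      have hc := (convexOn_pow (𝕜 := ℝ) (R - 2)).2 (Set.mem_Ici.2 hx0) (Set.mem_Ici.2 hy0)
        ha hb hab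
      simp only [smul_eq_mul] at hc
      have he : 1 + (a * x + b * y) * t / ((R : ℝ) - 2) =
          a * (1 + x * t / ((R : ℝ) - 2)) + b * (1 + y * t / ((R : ℝ) - 2)) := by
        have : (1 : ℝ) = a + b := hab.symm
        calc 1 + (a * x + b * y) * t / ((R : ℝ) - 2)
            = (a + b) + (a * x + b * y) * t / ((R : ℝ) - 2) := by rw [hab]
          _ = _ := by ring
      rw [he]
      have h1 : 0 ≤ 1 - t := by linarith [ht.2]
      calc (1 - t) * (a * (1 + x * t / ((R : ℝ) - 2)) + b * (1 + y * t / ((R : ℝ) - 2))) ^ (R - 2)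
          ≤ (1 - t) * (a * (1 + x * t / ((R : ℝ) - 2)) ^ (R - 2) +
              b * (1 + y * t / ((R : ℝ) - 2)) ^ (R - 2)) :=
            mul_le_mul_of_nonneg_left hc h1
        _ = _ := by ring
  · exact ((E2conv_cont R x).const_mul a).intervalIntegrable _ _
  · exact ((E2conv_cont R y).const_mul b).intervalIntegrable _ _

end Pool.Agent.EMCW
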