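import Pool.Agent.EMCW.NumSt2

/-!
# EMCW, module E2lip: the Lipschitz bound for `E2`
-/

open Finset

namespace Pool.Agent.EMCW

private lemma E2lip_exp : Real.exp (7 / 5) ≤ 406 / 100 := by
  have h1 := Real.exp_one_lt_d9
  have h2 : Real.exp (7 / 5) ^ 5 = Real.exp 1 ^ 7 := by
    rw [← Real.exp_nat_mul, ← Real.exp_nat_mul]
    norm_num
  have h3 : Real.exp 1 ^ 7 ≤ (2.7182818286 : ℝ) ^ 7 :=
    pow_le_pow_left₀ (Real.exp_pos 1).le h1.le 7
  have h4 : ((2.7182818286 : ℝ)) ^ 7 ≤ (406 / 100) ^ 5 := by norm_num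
  exact le_of_pow_le_pow_left₀ (by norm_num) (by norm_num) ((h2.le.trans h3).trans h4)

private lemma E2lip_exp_lin {t : ℝ} (h0 : 0 ≤ t) (h1 : t ≤ 1) :
    Real.exp (7 / 5 * t) ≤ 1 + 153 / 50 * t := by
  have h2 := convexOn_exp.2 (Set.mem_univ (0 : ℝ)) (Set.mem_univ (7 / 5 : ℝ))
    (show (0 : ℝ) ≤ 1 - t by linarith) h0 (by ring)
  have h3 : (1 - t) • (0 : ℝ) + t • (7 / 5 : ℝ) = 7 / 5 * t := by
    simp only [smul_eq_mul]
    ring
  rw [h3] at h2
  simp only [smul_eq_mul, Real.exp_zero, mul_one] at h2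
  have h4 := mul_le_mul_of_nonneg_left E2lip_exp h0
  linarith

private lemma E2lip_pow {a b : ℝ} (hb : 0 ≤ b) (hab : b ≤ a) (m : ℕ) :
    a ^ (m + 1) - b ^ (m + 1) ≤ ((m : ℝ) + 1) * (a - b) * a ^ m := by
  have ha : 0 ≤ a := hb.trans hab
  induction m with
  | zero => simp
  | succ m ih =>
    have h1 : b ^ (m + 1) ≤ a ^ (m + 1) := pow_le_pow_left₀ hb hab _
    have h2 : a ^ (m + 1 + 1) - b ^ (m + 1 + 1) =
        a * (a ^ (m + 1) - b ^ (m + 1)) + (a - b) * b ^ (m + 1) := by ring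
    have h3 : a * (a ^ (m + 1) - b ^ (m + 1)) ≤ a * (((m : ℝ) + 1) * (a - b) * a ^ m) :=
      mul_le_mul_of_nonneg_left ih ha
    have h4 : (a - b) * b ^ (m + 1) ≤ (a - b) * a ^ (m + 1) :=
      mul_le_mul_of_nonneg_left h1 (by linarith)
    rw [h2]
    push_cast
    calc a * (a ^ (m + 1) - b ^ (m + 1)) + (a - b) * b ^ (m + 1) ≤
        a * (((m : ℝ) + 1) * (a - b) * a ^ m) + (a - b) * a ^ (m + 1) := by linarith
      _ = _ := by ring

private lemma E2lip_point (R : ℕ) (v w t : ℝ) (hR : 4 ≤ R) (hv : -((R : ℝ) - 2) ≤ v)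
    (hvw : v ≤ w) (hw : w ≤ 7 / 5) (h0 : 0 ≤ t) (h1 : t ≤ 1) :
    (1 + w * t / ((R : ℝ) - 2)) ^ (R - 2) - (1 + v * t / ((R : ℝ) - 2)) ^ (R - 2) ≤
      (w - v) * (t * (1 + 153 / 50 * t)) := by
  have hRr : (4 : ℝ) ≤ R := by exact_mod_cast hR
  have hm : (0 : ℝ) < (R : ℝ) - 2 := by linarith
  obtain ⟨m, rfl⟩ : ∃ m : ℕ, R = m + 3 := ⟨R - 3, by omega⟩
  have e1 : m + 3 - 2 = m + 1 := by omega
  have e2 : ((m + 3 : ℕ) : ℝ) - 2 = (m : ℝ) + 1 := by
    push_cast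
    ring
  rw [e2] at hm hv ⊢
  rw [e1]
  have hb : 0 ≤ 1 + v * t / ((m : ℝ) + 1) := by
    have h2 : -1 ≤ v * t / ((m : ℝ) + 1) := by
      rw [le_div_iff₀ hm]
      nlinarith
    linarith
  have hab : 1 + v * t / ((m : ℝ) + 1) ≤ 1 + w * t / ((m : ℝ) + 1) := by
    have : v * t ≤ w * t := mul_le_mul_of_nonneg_right hvw h0
    have := div_le_div_of_nonneg_right this hm.le
    linarith
  have ha : 0 ≤ 1 + w * t / ((m : ℝ) + 1) := hb.trans hab
  refine (E2lip_pow hb hab m).trans ?_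
  have h3 : ((m : ℝ) + 1) * (1 + w * t / ((m : ℝ) + 1) - (1 + v * t / ((m : ℝ) + 1))) =
      (w - v) * t := by
    field_simp
    ring
  rw [h3]
  have h4 : (1 + w * t / ((m : ℝ) + 1)) ^ m ≤ 1 + 153 / 50 * t := by
    have h5 : 1 + w * t / ((m : ℝ) + 1) ≤ 1 + 7 / 5 * t / ((m : ℝ) + 1) := by
      have : w * t ≤ 7 / 5 * t := mul_le_mul_of_nonneg_right hw h0
      have := div_le_div_of_nonneg_right this hm.le
      linarith
    have h6 : 1 ≤ 1 + 7 / 5 * t / ((m : ℝ) + 1) := by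
      have : 0 ≤ 7 / 5 * t / ((m : ℝ) + 1) := by positivity
      linarith
    calc (1 + w * t / ((m : ℝ) + 1)) ^ m ≤ (1 + 7 / 5 * t / ((m : ℝ) + 1)) ^ m :=
          pow_le_pow_left₀ ha h5 m
      _ ≤ (1 + 7 / 5 * t / ((m : ℝ) + 1)) ^ (m + 1) := pow_le_pow_right₀ h6 (Nat.le_succ m)
      _ ≤ (Real.exp (7 / 5 * t / ((m : ℝ) + 1))) ^ (m + 1) := by
          apply pow_le_pow_left₀ (by linarith)
          have := Real.add_one_le_exp (7 / 5 * t / ((m : ℝ) + 1))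
          linarith
      _ = Real.exp (7 / 5 * t) := by
          rw [← Real.exp_nat_mul]
          congr 1
          push_cast
          field_simp
      _ ≤ _ := E2lip_exp_lin h0 h1
  have h7 : 0 ≤ (w - v) * t := mul_nonneg (by linarith) h0
  calc (w - v) * t * (1 + w * t / ((m : ℝ) + 1)) ^ m ≤ (w - v) * t * (1 + 153 / 50 * t) :=
        mul_le_mul_of_nonneg_left h4 h7
    _ = _ := by ring

private lemma E2lip_int : ∫ t in (0 : ℝ)..1, (1 - t) * (t * (1 + 153 / 50 * t)) = 253 / 600 := by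
  have h : ∀ t ∈ Set.uIcc (0 : ℝ) 1, HasDerivAt
      (fun t : ℝ => t ^ 2 / 2 + 103 / 150 * t ^ 3 - 153 / 200 * t ^ 4)
      ((1 - t) * (t * (1 + 153 / 50 * t))) t := by
    intro t _
    have h1 := ((hasDerivAt_pow 2 t).div_const 2).add ((hasDerivAt_pow 3 t).const_mul (103 / 150))
    have h2 := h1.sub ((hasDerivAt_pow 4 t).const_mul (153 / 200))
    refine h2.congr_deriv ?_
    push_cast
    ring
  rw [intervalIntegral.integral_eq_sub_of_hasDerivAt h]
  · norm_num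
  · apply Continuous.intervalIntegrable
    fun_prop

theorem thm_E2lip : St_E2lip := by
  intro R v w hR hv hvw hw
  unfold E2
  have hc : ∀ x : ℝ, Continuous fun t : ℝ =>
      (1 - t) * (1 + x * t / ((R : ℝ) - 2)) ^ (R - 2) := fun x => by fun_prop
  rw [← intervalIntegral.integral_sub ((hc w).intervalIntegrable _ _)
    ((hc v).intervalIntegrable _ _)]
  have h1 : ∫ t in (0 : ℝ)..1, ((1 - t) * (1 + w * t / ((R : ℝ) - 2)) ^ (R - 2) -
      (1 - t) * (1 + v * t / ((R : ℝ) - 2)) ^ (R - 2)) ≤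
      ∫ t in (0 : ℝ)..1, (w - v) * ((1 - t) * (t * (1 + 153 / 50 * t))) := by
    apply intervalIntegral.integral_mono_on zero_le_one
    · exact ((hc w).sub (hc v)).intervalIntegrable _ _
    · apply Continuous.intervalIntegrable
      fun_prop
    · intro t ht
      have h2 := E2lip_point R v w t hR hv hvw hw ht.1 ht.2
      have h3 := mul_le_mul_of_nonneg_left h2 (show (0 : ℝ) ≤ 1 - t by linarith [ht.2])
      calc _ = (1 - t) * ((1 + w * t / ((R : ℝ) - 2)) ^ (R - 2) -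
            (1 + v * t / ((R : ℝ) - 2)) ^ (R - 2)) := by ring
        _ ≤ _ := h3
        _ = _ := by ring
  rw [intervalIntegral.integral_const_mul, E2lip_int] at h1
  refine h1.trans ?_
  have : 0 ≤ w - v := by linarith
  nlinarith

end Pool.Agent.EMCW
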