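import Pool.Agent.EMCW.NumSt2

/-!
# EMCW, module E2mono: value at `0`, nonnegativity and monotonicity of `E2`
-/

open Finset

namespace Pool.Agent.EMCW

private lemma E2mono_cont (R : ℕ) (x : ℝ) : Continuous fun t : ℝ =>
    (1 - t) * (1 + x * t / ((R : ℝ) - 2)) ^ (R - 2) := by fun_prop

private lemma E2mono_base {R : ℕ} {v t : ℝ} (hR : 3 ≤ R) (hv : -((R : ℝ) - 2) ≤ v)
    (h0 : 0 ≤ t) (h1 : t ≤ 1) : 0 ≤ 1 + v * t / ((R : ℝ) - 2) := by
  have hr : (3 : ℝ) ≤ R := by exact_mod_cast hR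
  have hm : (0 : ℝ) < (R : ℝ) - 2 := by linarith
  have h2 : -1 ≤ v * t / ((R : ℝ) - 2) := by
    rw [le_div_iff₀ hm]
    nlinarith
  linarith

theorem thm_E2mono : St_E2mono := by
  refine ⟨?_, ?_⟩
  · intro R _
    unfold E2
    have h : ∀ t ∈ Set.uIcc (0 : ℝ) 1, HasDerivAt (fun t : ℝ => t - t ^ 2 / 2)
        ((1 - t) * (1 + 0 * t / ((R : ℝ) - 2)) ^ (R - 2)) t := by
      intro t _
      have h1 := (hasDerivAt_id t).sub ((hasDerivAt_pow 2 t).div_const 2)
      refine h1.congr_deriv ?_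
      simp
    rw [intervalIntegral.integral_eq_sub_of_hasDerivAt h
      ((E2mono_cont R 0).intervalIntegrable _ _)]
    norm_num
  · intro R v w hR hv hvw
    have hr : (3 : ℝ) ≤ R := by exact_mod_cast hR
    have hm : (0 : ℝ) < (R : ℝ) - 2 := by linarith
    unfold E2
    refine ⟨?_, ?_⟩
    · refine intervalIntegral.integral_nonneg zero_le_one fun t ht => ?_
      exact mul_nonneg (by linarith [ht.2]) (pow_nonneg (E2mono_base hR hv ht.1 ht.2) _)
    · refine intervalIntegral.integral_mono_on zero_le_one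
        ((E2mono_cont R v).intervalIntegrable _ _) ((E2mono_cont R w).intervalIntegrable _ _)
        fun t ht => ?_
      refine mul_le_mul_of_nonneg_left ?_ (by linarith [ht.2])
      refine pow_le_pow_left₀ (E2mono_base hR hv ht.1 ht.2) ?_ _
      have h1 : v * t ≤ w * t := mul_le_mul_of_nonneg_right hvw ht.1
      have := div_le_div_of_nonneg_right h1 hm.le
      linarith

end Pool.Agent.EMCW
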