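import Pool.Agent.EMCW.NumSt2

/-!
Two upper bounds of `E2` for negative arguments.
-/

open Finset

namespace Pool.Agent.EMCW

/-- the second Bonferroni bound -/
theorem E2neg_bonf (m : ℕ) (s : ℝ) (h0 : 0 ≤ s) (h1 : s ≤ 1) :
    (1 - s) ^ m ≤ 1 - m * s + (m : ℝ) * (m - 1) / 2 * s ^ 2 := by
  induction m with
  | zero => simp
  | succ m ih =>
    have h2 : (1 - s) ^ (m + 1) ≤ (1 - m * s + (m : ℝ) * (m - 1) / 2 * s ^ 2) * (1 - s) := by
      rw [pow_succ]
      exact mul_le_mul_of_nonneg_right ih (by linarith)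
    have h3 : (0 : ℝ) ≤ (m : ℝ) * (m - 1) := by
      rcases Nat.eq_zero_or_pos m with h | h
      · rw [h]; simp
      · have : (1 : ℝ) ≤ m := by exact_mod_cast h
        exact mul_nonneg (by linarith) (by linarith)
    have h4 : 0 ≤ (m : ℝ) * (m - 1) * s ^ 3 := mul_nonneg h3 (pow_nonneg h0 3)
    push_cast
    nlinarith

theorem E2neg_int_one : ∫ t in (0 : ℝ)..1, (1 - t) * Real.exp (-t) = Real.exp (-1) := by
  have h := intervalIntegral.integral_eq_sub_of_hasDerivAt (a := 0) (b := 1)
    (f := fun t : ℝ => t * Real.exp (-t)) (f' := fun t : ℝ => (1 - t) * Real.exp (-t)) ?_ ?_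
  · rw [h]; simp
  · intro t _
    have h1 : HasDerivAt (fun t : ℝ => Real.exp (-t)) (Real.exp (-t) * (-1)) t :=
      (hasDerivAt_neg t).exp
    have h2 := (hasDerivAt_id t).mul h1
    have h3 : (1 - t) * Real.exp (-t) = 1 * Real.exp (-t) + id t * (Real.exp (-t) * (-1)) := by
      simp only [id]
      ring
    rw [h3]
    exact h2
  · apply Continuous.intervalIntegrable
    fun_prop

theorem E2neg_int (c0 c1 c2 : ℝ) : ∫ t in (0 : ℝ)..1, (1 - t) * (c0 + c1 * t + c2 * t ^ 2) =
    c0 / 2 + c1 / 6 + c2 / 12 := by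
  have h := intervalIntegral.integral_eq_sub_of_hasDerivAt (a := 0) (b := 1)
    (f := fun t : ℝ => c0 * (t - t ^ 2 / 2) + c1 * (t ^ 2 / 2 - t ^ 3 / 3) +
      c2 * (t ^ 3 / 3 - t ^ 4 / 4))
    (f' := fun t : ℝ => (1 - t) * (c0 + c1 * t + c2 * t ^ 2)) ?_ ?_
  · rw [h]; ring
  · intro t _
    have e1 : HasDerivAt (fun t : ℝ => t - t ^ 2 / 2) (1 - t) t := by
      have := (hasDerivAt_id t).sub ((hasDerivAt_pow 2 t).div_const 2)
      have e : (1 : ℝ) - t = 1 - ((2 : ℕ) : ℝ) * t ^ (2 - 1) / 2 := by norm_num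
      rw [e]; exact this
    have e2 : HasDerivAt (fun t : ℝ => t ^ 2 / 2 - t ^ 3 / 3) (t - t ^ 2) t := by
      have := ((hasDerivAt_pow 2 t).div_const 2).sub ((hasDerivAt_pow 3 t).div_const 3)
      have e : t - t ^ 2 = ((2 : ℕ) : ℝ) * t ^ (2 - 1) / 2 - ((3 : ℕ) : ℝ) * t ^ (3 - 1) / 3 := by
        norm_num
      rw [e]; exact this
    have e3 : HasDerivAt (fun t : ℝ => t ^ 3 / 3 - t ^ 4 / 4) (t ^ 2 - t ^ 3) t := by
      have := ((hasDerivAt_pow 3 t).div_const 3).sub ((hasDerivAt_pow 4 t).div_const 4)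
      have e : t ^ 2 - t ^ 3 = ((3 : ℕ) : ℝ) * t ^ (3 - 1) / 3 -
          ((4 : ℕ) : ℝ) * t ^ (4 - 1) / 4 := by
        norm_num
      rw [e]; exact this
    have h3 := ((e1.const_mul c0).add (e2.const_mul c1)).add (e3.const_mul c2)
    have e : (1 - t) * (c0 + c1 * t + c2 * t ^ 2) =
        c0 * (1 - t) + c1 * (t - t ^ 2) + c2 * (t ^ 2 - t ^ 3) := by ring
    rw [e]
    exact h3
  · apply Continuous.intervalIntegrable
    fun_prop

theorem thm_E2neg : St_E2neg := by
  constructor
  · intro R v hR h1 h0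
    have hm : (2 : ℝ) ≤ (R : ℝ) - 2 := by
      have : (4 : ℝ) ≤ R := by exact_mod_cast hR
      linarith
    have hcast : (((R - 2 : ℕ) : ℕ) : ℝ) = (R : ℝ) - 2 := by
      rw [Nat.cast_sub (by omega)]; norm_num
    have key : E2 R v ≤ ∫ t in (0 : ℝ)..1, ((1 + v) * (1 - t) - v * ((1 - t) * Real.exp (-t))) := by
      unfold E2
      apply intervalIntegral.integral_mono_on zero_le_one
      · apply Continuous.intervalIntegrable
        fun_prop
      · apply Continuous.intervalIntegrable
        fun_prop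
      · intro t ht
        have ht0 : 0 ≤ t := ht.1
        have ht1 : 0 ≤ 1 - t := by linarith [ht.2]
        have hb : 0 ≤ 1 + v * t / ((R : ℝ) - 2) := by
          have : -1 ≤ v * t / ((R : ℝ) - 2) := by
            rw [le_div_iff₀ (by linarith)]
            nlinarith [ht.2]
          linarith
        have h2 : (1 + v * t / ((R : ℝ) - 2)) ^ (R - 2) ≤ Real.exp (v * t) := by
          have h3 : 1 + v * t / ((R : ℝ) - 2) ≤ Real.exp (v * t / ((R : ℝ) - 2)) := by
            have := Real.add_one_le_exp (v * t / ((R : ℝ) - 2))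
            linarith
          have h4 := pow_le_pow_left₀ hb h3 (R - 2)
          rw [← Real.exp_nat_mul, hcast] at h4
          have h5 : ((R : ℝ) - 2) * (v * t / ((R : ℝ) - 2)) = v * t := by
            field_simp
          rwa [h5] at h4
        have h6 : Real.exp (v * t) ≤ (1 + v) - v * Real.exp (-t) := by
          have hc := convexOn_exp.2 (Set.mem_univ (-t)) (Set.mem_univ (0 : ℝ))
            (by linarith : 0 ≤ -v) (by linarith : 0 ≤ 1 + v) (by ring)
          simp only [smul_eq_mul, mul_zero, add_zero, Real.exp_zero, mul_one] at hc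
          have e : -v * -t = v * t := by ring
          rw [e] at hc
          linarith
        calc (1 - t) * (1 + v * t / ((R : ℝ) - 2)) ^ (R - 2)
            ≤ (1 - t) * ((1 + v) - v * Real.exp (-t)) :=
              mul_le_mul_of_nonneg_left (h2.trans h6) ht1
          _ = (1 + v) * (1 - t) - v * ((1 - t) * Real.exp (-t)) := by ring
    have hint : ∫ t in (0 : ℝ)..1, ((1 + v) * (1 - t) - v * ((1 - t) * Real.exp (-t))) =
        (1 + v) * (1 / 2) - v * Real.exp (-1) := by
      rw [intervalIntegral.integral_sub, intervalIntegral.integral_const_mul,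
        intervalIntegral.integral_const_mul, E2neg_int_one]
      · have h7 := E2neg_int 1 0 0
        have h8 : (fun t : ℝ => (1 - t) * (1 + 0 * t + 0 * t ^ 2)) = fun t : ℝ => 1 - t := by
          funext t; ring
        rw [h8] at h7
        rw [h7]
        norm_num
      · apply Continuous.intervalIntegrable
        fun_prop
      · apply Continuous.intervalIntegrable
        fun_prop
    rw [hint] at key
    have h9 : Real.exp (-1) < 0.3678794412 := Real.exp_neg_one_lt_d9
    nlinarith
  · intro R v hR h1 h0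
    have hm : (2 : ℝ) ≤ (R : ℝ) - 2 := by
      have : (4 : ℝ) ≤ R := by exact_mod_cast hR
      linarith
    have hcast : (((R - 2 : ℕ) : ℕ) : ℝ) = (R : ℝ) - 2 := by
      rw [Nat.cast_sub (by omega)]; norm_num
    have key : E2 R v ≤ ∫ t in (0 : ℝ)..1, (1 - t) *
        (1 + v * t + (((R : ℝ) - 3) / (R - 2) * v ^ 2 / 2) * t ^ 2) := by
      unfold E2
      apply intervalIntegral.integral_mono_on zero_le_one
      · apply Continuous.intervalIntegrable
        fun_prop
      · apply Continuous.intervalIntegrable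
        fun_prop
      · intro t ht
        have ht0 : 0 ≤ t := ht.1
        have ht1 : 0 ≤ 1 - t := by linarith [ht.2]
        refine mul_le_mul_of_nonneg_left ?_ ht1
        have hs0 : 0 ≤ -(v * t / ((R : ℝ) - 2)) := by
          rw [← neg_div]
          apply div_nonneg _ (by linarith)
          nlinarith
        have hs1 : -(v * t / ((R : ℝ) - 2)) ≤ 1 := by
          rw [← neg_div, div_le_one (by linarith)]
          nlinarith [ht.2]
        have h2 := E2neg_bonf (R - 2) _ hs0 hs1
        rw [hcast, sub_neg_eq_add] at h2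
        refine h2.trans (le_of_eq ?_)
        field_simp
        ring
    rw [E2neg_int] at key
    refine key.trans (le_of_eq ?_)
    ring

end Pool.Agent.EMCW
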