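import Pool.Agent.EMCW.St

/-!
The inequality `V_0(s) ≤ V + 1 - m_s`.
-/

open Finset

namespace Pool.Agent.EMCW

theorem thm_Chi : St_Chi := by
  intro M s ι _ m a hl hs
  obtain ⟨e, he⟩ : ∃ e : ι → ℝ, e = fun i => Real.exp (-s * a i) := ⟨_, rfl⟩
  have hei : ∀ i, Real.exp (-s * a i) = e i := fun i => by rw [he]
  -- the difference of the two sides
  have h1 : ∀ j, ∑ i, m i * (a i ^ 2 - a j - (if a j < a i then (a i - a j) ^ 2 else 0)) =
      ∑ i, m i * ((a i - a j) * min (a i) (a j)) := by
    intro j
    have e1 : ∑ i, m i * (a j * (a i - 1)) = 0 := by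
      have e2 : ∑ i, m i * (a j * (a i - 1)) = a j * (∑ i, m i * a i - ∑ i, m i) := by
        rw [← sum_sub_distrib, mul_sum]
        exact sum_congr rfl fun i _ => by ring
      rw [e2, hl.mean, hl.m1]
      ring
    have e3 : ∑ i, m i * (a i ^ 2 - a j - (if a j < a i then (a i - a j) ^ 2 else 0)) -
        ∑ i, m i * ((a i - a j) * min (a i) (a j)) = ∑ i, m i * (a j * (a i - 1)) := by
      rw [← sum_sub_distrib]
      refine sum_congr rfl fun i _ => ?_
      split_ifs with h
      · rw [min_eq_right h.le]
        ring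
      · push Not at h
        rw [min_eq_left h]
        ring
    linarith
  have h2 : m2 m a * ph m a s - ∑ i, m i * a i * Real.exp (-s * a i) -
      ∑ i, ∑ j, m i * m j * (if a j < a i then (a i - a j) ^ 2 * Real.exp (-s * a j) else 0) =
      ∑ j, ∑ i, m j * e j * (m i * ((a i - a j) * min (a i) (a j))) := by
    have e1 : m2 m a * ph m a s = ∑ j, ∑ i, m j * e j * (m i * a i ^ 2) := by
      unfold m2 ph
      rw [mul_comm, sum_mul]
      refine sum_congr rfl fun j _ => ?_
      rw [mul_sum]
      exact sum_congr rfl fun i _ => by rw [hei]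
    have e2 : ∑ j, m j * a j * Real.exp (-s * a j) = ∑ j, ∑ i, m j * e j * (m i * a j) := by
      refine sum_congr rfl fun j _ => ?_
      rw [← mul_sum, ← sum_mul, hl.m1, hei]
      ring
    have e3 : ∑ i, ∑ j, m i * m j * (if a j < a i then (a i - a j) ^ 2 * Real.exp (-s * a j) else 0) =
        ∑ j, ∑ i, m j * e j * (m i * (if a j < a i then (a i - a j) ^ 2 else 0)) := by
      rw [sum_comm]
      refine sum_congr rfl fun j _ => sum_congr rfl fun i _ => ?_
      split_ifs
      · rw [hei]
        ring
      · ring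
    rw [e1, e2, e3, ← sum_sub_distrib, ← sum_sub_distrib]
    refine sum_congr rfl fun j _ => ?_
    rw [← mul_sum _ _ (m j * e j), ← mul_sum _ _ (m j * e j), ← mul_sum _ _ (m j * e j),
      ← mul_sum _ _ (m j * e j), ← h1 j, ← mul_sub, ← mul_sub, ← sum_sub_distrib, ← sum_sub_distrib]
    congr 1
    exact sum_congr rfl fun i _ => by ring
  have h3 : 0 ≤ ∑ j, ∑ i, m j * e j * (m i * ((a i - a j) * min (a i) (a j))) := by
    have e1 : ∑ j, ∑ i, m j * e j * (m i * ((a i - a j) * min (a i) (a j))) =
        ∑ j, ∑ i, m i * e i * (m j * ((a j - a i) * min (a i) (a j))) := by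
      rw [sum_comm]
      refine sum_congr rfl fun j _ => sum_congr rfl fun i _ => ?_
      rw [min_comm]
    have e2 : 0 ≤ ∑ j, ∑ i, m j * e j * (m i * ((a i - a j) * min (a i) (a j))) +
        ∑ j, ∑ i, m i * e i * (m j * ((a j - a i) * min (a i) (a j))) := by
      rw [← sum_add_distrib]
      refine sum_nonneg fun j _ => ?_
      rw [← sum_add_distrib]
      refine sum_nonneg fun i _ => ?_
      have e3 : m j * e j * (m i * ((a i - a j) * min (a i) (a j))) +
          m i * e i * (m j * ((a j - a i) * min (a i) (a j))) =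
          m i * m j * (((a i - a j) * (e j - e i)) * min (a i) (a j)) := by ring
      rw [e3]
      refine mul_nonneg (mul_nonneg (hl.m0 i) (hl.m0 j)) (mul_nonneg ?_ (le_min (hl.a0 i) (hl.a0 j)))
      rcases le_total (a i) (a j) with h | h
      · have h4 : e j ≤ e i := by
          rw [he]
          exact Real.exp_le_exp.2 (by nlinarith)
        exact mul_nonneg_of_nonpos_of_nonpos (by linarith) (by linarith)
      · have h4 : e i ≤ e j := by
          rw [he]
          exact Real.exp_le_exp.2 (by nlinarith)
        exact mul_nonneg (by linarith) (by linarith)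
    rw [← e1] at e2
    linarith
  linarith

end Pool.Agent.EMCW
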