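import Pool.Agent.EMCW.St

/-!
Module ConA: the first constraints for critical laws.
-/

open Finset

namespace Pool.Agent.EMCW

theorem thm_ConA : St_ConA := by
  intro R g K c s ι _ m a hG hC
  have hR : 1 ≤ R := by
    have := hG.hR
    omega
  obtain ⟨law, s0, s1, c0, H1, H2, H3, H4, H5⟩ := hC
  have hq := qq_eq (m := m) (a := a) hR law.m1 (R + g)
  have hh1 : ∀ x, hh R (R + g) m a x ≤ 1 := fun x => hh_le_one law.m0 law.m1 R (R + g) x
  constructor
  · rw [hq]
    have h1 : ∀ i ∈ (univ : Finset ι), m i * (1 - hh R (R + g) m a (a i)) ≤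
        m i * (c * (1 + s) * (R + g - a i)) := by
      intro i _
      rcases (law.m0 i).lt_or_eq with h | h
      · exact mul_le_mul_of_nonneg_left (H2 i h) h.le
      · rw [← h]; simp
    refine (Finset.sum_le_sum h1).trans (le_of_eq ?_)
    have e : ∀ i, m i * (c * (1 + s) * (R + g - a i)) =
        c * (1 + s) * (R + g) * m i - c * (1 + s) * (m i * a i) := fun i => by ring
    simp only [e, Finset.sum_sub_distrib, ← Finset.mul_sum, law.m1, law.mean]
    ring
  · intro i hi
    have hne : (univ.filter fun j => 0 < m j).Nonempty := ⟨i, by simp [hi]⟩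
    obtain ⟨j, hj, hmax⟩ := Finset.exists_max_image (univ.filter fun j => 0 < m j) a hne
    have hj' : 0 < m j := (Finset.mem_filter.mp hj).2
    have hc : 0 < c * (1 - s) := mul_pos c0 (by linarith)
    have hij : a i ≤ a j := hmax i (by simp [hi])
    have h1 : ∀ k ∈ (univ : Finset ι), m k * (c * (1 - s) * (a j - a k)) ≤
        m k * (1 - hh R (R + g) m a (a k)) := by
      intro k _
      rcases (law.m0 k).lt_or_eq with h | h
      · refine mul_le_mul_of_nonneg_left ?_ h.le
        have h2 := (H1 k j h hj' (hmax k (by simp [h]))).1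
        have h3 := hh1 (a j)
        linarith
      · rw [← h]; simp
    have h2 := Finset.sum_le_sum h1
    rw [← hq] at h2
    have e : ∀ k, m k * (c * (1 - s) * (a j - a k)) =
        c * (1 - s) * a j * m k - c * (1 - s) * (m k * a k) := fun k => by ring
    simp only [e, Finset.sum_sub_distrib, ← Finset.mul_sum, law.m1, law.mean] at h2
    have h3 : c * (1 - s) * a i ≤ c * (1 - s) * a j := mul_le_mul_of_nonneg_left hij hc.le
    linarith

end Pool.Agent.EMCW
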