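import Pool.Agent.EMCW.St

/-!
Module ConB: the constraint (b) for critical laws.
-/

open Finset

namespace Pool.Agent.EMCW

namespace MConB

variable {ι : Type} [Fintype ι] {m a : ι → ℝ}

/-- the covariance bound -/
lemma cov_le (m a h : ι → ℝ) (C p : ℝ) (m0 : ∀ i, 0 ≤ m i) (m1 : ∑ i, m i = 1)
    (mean : ∑ i, m i * a i = 1) (hp : p = ∑ i, m i * h i)
    (H : ∀ i j, 0 < m i → 0 < m j → (a i - a j) * (h i - h j) ≤ C * (a i - a j) ^ 2) :
    ∑ i, m i * a i * h i ≤ p + C * (∑ i, m i * a i ^ 2 - 1) := by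
  have e1 : ∑ i, ∑ j, m i * m j * ((a i - a j) * (h i - h j)) =
      2 * ∑ i, m i * a i * h i - 2 * p := by
    have h1 : ∀ i, ∑ j, m i * m j * ((a i - a j) * (h i - h j)) =
        m i * a i * h i * (∑ j, m j) - m i * a i * (∑ j, m j * h j) -
          m i * h i * (∑ j, m j * a j) + m i * (∑ j, m j * a j * h j) := by
      intro i
      rw [Finset.mul_sum, Finset.mul_sum, Finset.mul_sum, Finset.mul_sum,
        ← Finset.sum_sub_distrib, ← Finset.sum_sub_distrib, ← Finset.sum_add_distrib]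
      exact Finset.sum_congr rfl fun j _ => by ring
    rw [Finset.sum_congr rfl fun i _ => h1 i, m1, mean, ← hp]
    rw [Finset.sum_add_distrib, Finset.sum_sub_distrib, Finset.sum_sub_distrib]
    rw [← Finset.sum_mul, ← Finset.sum_mul, ← Finset.sum_mul, ← Finset.sum_mul, m1, mean, ← hp]
    ring
  have e2 : ∑ i, ∑ j, m i * m j * (C * (a i - a j) ^ 2) =
      2 * (C * (∑ i, m i * a i ^ 2 - 1)) := by
    have h1 : ∀ i, ∑ j, m i * m j * (C * (a i - a j) ^ 2) =
        C * (m i * a i ^ 2 * (∑ j, m j) - 2 * (m i * a i) * (∑ j, m j * a j) +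
          m i * (∑ j, m j * a j ^ 2)) := by
      intro i
      rw [Finset.mul_sum, Finset.mul_sum, Finset.mul_sum,
        ← Finset.sum_sub_distrib, ← Finset.sum_add_distrib, Finset.mul_sum]
      exact Finset.sum_congr rfl fun j _ => by ring
    rw [Finset.sum_congr rfl fun i _ => h1 i, m1, mean]
    rw [← Finset.mul_sum, Finset.sum_add_distrib, Finset.sum_sub_distrib]
    rw [← Finset.sum_mul, ← Finset.sum_mul, ← Finset.sum_mul, ← Finset.mul_sum, m1, mean]
    ring
  have e3 : ∑ i, ∑ j, m i * m j * ((a i - a j) * (h i - h j)) ≤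
      ∑ i, ∑ j, m i * m j * (C * (a i - a j) ^ 2) := by
    refine Finset.sum_le_sum fun i _ => Finset.sum_le_sum fun j _ => ?_
    rcases (m0 i).eq_or_lt with hi | hi
    · rw [← hi]
      simp
    · rcases (m0 j).eq_or_lt with hj | hj
      · rw [← hj]
        simp
      · exact mul_le_mul_of_nonneg_left (H i j hi hj) (mul_nonneg hi.le hj.le)
  rw [e1, e2] at e3
  linarith

/-- there is a lowest atom -/
lemma exists_min (m a : ι → ℝ) (s : ℝ) (H : ∃ i, 0 < m i ∧ a i ≤ s) :
    ∃ i₀, 0 < m i₀ ∧ a i₀ ≤ s ∧ ∀ i, 0 < m i → a i₀ ≤ a i := by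
  classical
  obtain ⟨i₁, h₁, h₂⟩ := H
  have hne : (Finset.univ.filter fun i => 0 < m i).Nonempty := ⟨i₁, by simp [h₁]⟩
  obtain ⟨i₀, hi₀, hmin⟩ := Finset.exists_min_image _ a hne
  rw [Finset.mem_filter] at hi₀
  have hm : ∀ i, 0 < m i → a i₀ ≤ a i := fun i hi => hmin i (by simp [hi])
  exact ⟨i₀, hi₀.2, (hm i₁ h₁).trans h₂, hm⟩

end MConB

open MConB in
theorem thm_ConB : St_ConB := by
  intro R g K c s ι _ m a hG hC
  obtain ⟨r, rfl⟩ : ∃ r, R = r + 1 := ⟨R - 1, by have := hG.hR; omega⟩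
  have m0 := hC.law.m0
  have m1 := hC.law.m1
  have mean := hC.law.mean
  set M : ℝ := ((r + 1 : ℕ) : ℝ) + g with hM
  set p := pp (r + 1) M m a with hp
  set h : ι → ℝ := fun i => hh (r + 1) M m a (a i) with hh_def
  have hpsum : p = ∑ i, m i * h i := pp_eq (by omega) M
  have hcs : 0 < c * (1 + s) := mul_pos hC.c0 (by linarith [hC.s0])
  -- covariance
  have hcov : ∑ i, m i * a i * h i ≤ p + c * (1 + s) * (∑ i, m i * a i ^ 2 - 1) := by
    refine cov_le m a h (c * (1 + s)) p m0 m1 mean hpsum ?_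
    intro i j hi hj
    rcases le_total (a i) (a j) with hij | hij
    · have h2 := (hC.H1 i j hi hj hij).2
      have h3 : h j - h i ≤ c * (1 + s) * (a j - a i) := h2
      nlinarith [mul_le_mul_of_nonneg_left h3 (sub_nonneg.mpr hij)]
    · have h2 := (hC.H1 j i hj hi hij).2
      have h3 : h i - h j ≤ c * (1 + s) * (a i - a j) := h2
      nlinarith [mul_le_mul_of_nonneg_left h3 (sub_nonneg.mpr hij)]
  -- the first moment on the event
  have hid : Tk m a (r + 1) (fun v => v * ind M v) 0 = ((r : ℝ) + 1) * ∑ i, m i * a i * h i := by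
    rw [Tk_id_mul, zero_mul, zero_add]
    simp only [zero_add]
    rfl
  have hpos : Tk m a (r + 1) (fun v => (v - M) * ind M v) 0 =
      ((r : ℝ) + 1) * ∑ i, m i * a i * h i - M * p := by
    have e1 : (fun v => (v - M) * ind M v) = fun v => v * ind M v - M * ind M v := by
      funext v
      ring
    rw [e1, Tk_sub, hid, Tk_smul]
    rfl
  obtain ⟨i₀, hi₀, hs₀, hmin⟩ := exists_min m a s hC.H3
  have ha₀ : 0 ≤ a i₀ := hC.law.a0 i₀
  have hs1 := hC.s1
  -- lower bound for the excess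
  have hlow : (1 - a i₀) * h i₀ ≤ Tk m a (r + 1) (fun v => (v - M) * ind M v) 0 := by
    rw [Tk_succ]
    have e1 : (1 - a i₀) * h i₀ = ∑ i, m i * ((a i - a i₀) * h i₀) := by
      have : ∀ i, m i * ((a i - a i₀) * h i₀) = (m i * a i) * h i₀ - m i * (a i₀ * h i₀) := by
        intro i
        ring
      rw [Finset.sum_congr rfl fun i _ => this i, Finset.sum_sub_distrib, ← Finset.sum_mul,
        ← Finset.sum_mul, m1, mean]
      ring
    rw [e1]
    refine Finset.sum_le_sum fun i _ => ?_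
    rcases (m0 i).eq_or_lt with hi | hi
    · rw [← hi]
      simp
    · refine mul_le_mul_of_nonneg_left ?_ hi.le
      have hle : a i₀ ≤ a i := hmin i hi
      have e2 : (a i - a i₀) * h i₀ =
          Tk m a r (fun v => (a i - a i₀) * ind M (v + a i₀)) 0 := by
        rw [Tk_smul, Tk_shift, zero_add]
        rfl
      have e3 : Tk m a r (fun v => (v - M) * ind M v) (0 + a i) =
          Tk m a r (fun v => (v + a i - M) * ind M (v + a i)) 0 := by
        rw [← Tk_shift r (fun v => (v - M) * ind M v) (a i) 0]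
      rw [e2, e3]
      refine Tk_mono m0 r (fun v => ?_) 0
      unfold ind
      by_cases h1 : M ≤ v + a i₀
      · have h2 : M ≤ v + a i := by linarith
        rw [if_pos h1, if_pos h2]
        linarith
      · rw [if_neg h1]
        by_cases h2 : M ≤ v + a i
        · rw [if_pos h2]
          linarith
        · rw [if_neg h2]
          simp
  -- lower bound for `h (a i₀)`
  have hh0 : p - c * (1 + s) * (1 - a i₀) ≤ h i₀ := by
    have e1 : p - h i₀ = ∑ i, m i * (h i - h i₀) := by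
      have : ∀ i, m i * (h i - h i₀) = m i * h i - m i * h i₀ := fun i => by ring
      rw [Finset.sum_congr rfl fun i _ => this i, Finset.sum_sub_distrib, ← Finset.sum_mul, m1,
        ← hpsum]
      ring
    have e2 : c * (1 + s) * (1 - a i₀) = ∑ i, m i * (c * (1 + s) * (a i - a i₀)) := by
      have : ∀ i, m i * (c * (1 + s) * (a i - a i₀)) =
          (m i * a i) * (c * (1 + s)) - m i * (c * (1 + s) * a i₀) := fun i => by ring
      rw [Finset.sum_congr rfl fun i _ => this i, Finset.sum_sub_distrib, ← Finset.sum_mul,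
        ← Finset.sum_mul, m1, mean]
      ring
    have e3 : ∑ i, m i * (h i - h i₀) ≤ ∑ i, m i * (c * (1 + s) * (a i - a i₀)) := by
      refine Finset.sum_le_sum fun i _ => ?_
      rcases (m0 i).eq_or_lt with hi | hi
      · rw [← hi]
        simp
      · exact mul_le_mul_of_nonneg_left (hC.H1 i₀ i hi₀ hi (hmin i hi)).2 hi.le
    linarith
  have hR1 : ((r + 1 : ℕ) : ℝ) = (r : ℝ) + 1 := by push_cast; ring
  have hW : WW (r + 1) m a = ((r : ℝ) + 1) * (∑ i, m i * a i ^ 2 - 1) := by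
    unfold WW m2
    rw [hR1]
  have hMr : M = (r : ℝ) + 1 + g := by rw [hM, hR1]
  have hp0 : 0 ≤ p := pp_nonneg m0 _ _
  have hr : (0 : ℝ) ≤ (r : ℝ) + 1 := by positivity
  have h1 : ((r : ℝ) + 1) * ∑ i, m i * a i * h i ≤
      ((r : ℝ) + 1) * (p + c * (1 + s) * (∑ i, m i * a i ^ 2 - 1)) :=
    mul_le_mul_of_nonneg_left hcov hr
  have h2 : (1 - a i₀) * (p - c * (1 + s) * (1 - a i₀)) ≤ (1 - a i₀) * h i₀ :=
    mul_le_mul_of_nonneg_left hh0 (by linarith)
  rw [hpos] at hlow
  have h3 : p * (1 + g - a i₀) ≤ c * (1 + s) * (WW (r + 1) m a + (1 - a i₀) ^ 2) := by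
    rw [hW]
    rw [hMr] at hlow
    nlinarith [h1, h2, hlow]
  have h4 : (1 - a i₀) ^ 2 ≤ 1 := by nlinarith
  have h5 : c * (1 + s) * (WW (r + 1) m a + (1 - a i₀) ^ 2) ≤
      c * (1 + s) * (1 + WW (r + 1) m a) :=
    mul_le_mul_of_nonneg_left (by linarith) hcs.le
  have h6 : (1 + g - s) * p ≤ p * (1 + g - a i₀) := by nlinarith
  linarith

end Pool.Agent.EMCW
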