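import Pool.Agent.EMCW.St

/-!
All constraints for critical laws, with tolerance.
-/

open Finset

namespace Pool.Agent.EMCW

section

variable {ι : Type} [Fintype ι] {m a : ι → ℝ} {M x : ℝ}

lemma MConS_ph_pos (h : IsLaw M x m a) (u : ℝ) : 0 < ph m a u := by
  unfold ph
  obtain ⟨i, hi⟩ : ∃ i, 0 < m i := by
    by_contra hcon
    push Not at hcon
    have h1 : ∑ i, m i ≤ 0 := Finset.sum_nonpos fun i _ => hcon i
    rw [h.m1] at h1
    linarith
  exact Finset.sum_pos' (fun i _ => mul_nonneg (h.m0 i) (Real.exp_pos _).le)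
    ⟨i, Finset.mem_univ i, mul_pos hi (Real.exp_pos _)⟩

lemma MConS_ph_cont : Continuous (ph m a) := by
  unfold ph
  fun_prop

lemma MConS_Ph_cont (h : IsLaw M x m a) (R : ℕ) (g : ℝ) : Continuous (Ph R g m a) := by
  unfold Ph
  exact Continuous.div (by fun_prop) (MConS_ph_cont.pow R)
    fun u => pow_ne_zero _ (MConS_ph_pos h u).ne'

end

lemma MConS_ph2_pos {al be : ℝ} (hal : 0 < al) (hbe : 0 < be) (u : ℝ) : 0 < ph2 al be u := by
  unfold ph2
  have := Real.exp_pos (-u * (1 - al))
  have := Real.exp_pos (-u * (1 + be))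
  positivity

lemma MConS_Ph2_cont {al be : ℝ} (hal : 0 < al) (hbe : 0 < be) (R : ℕ) (g : ℝ) :
    Continuous (Ph2 R g al be) := by
  unfold Ph2
  refine Continuous.div (by fun_prop) ?_ fun u => pow_ne_zero _ (MConS_ph2_pos hal hbe u).ne'
  refine Continuous.pow ?_ R
  unfold ph2
  fun_prop

lemma MConS_int {ι : Type} [Fintype ι] {m a : ι → ℝ} {M x al be : ℝ} (h : IsLaw M x m a)
    (hal : 0 < al) (hbe : 0 < be) (hph : ∀ u : ℝ, 0 ≤ u → ph2 al be u ≤ ph m a u) (R : ℕ)
    (g T : ℝ) (hT : 0 ≤ T) :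
    ∫ u in (0 : ℝ)..T, Ph R g m a u ≤ ∫ u in (0 : ℝ)..T, Ph2 R g al be u := by
  refine intervalIntegral.integral_mono_on hT ((MConS_Ph_cont h R g).intervalIntegrable _ _)
    ((MConS_Ph2_cont hal hbe R g).intervalIntegrable _ _) ?_
  intro u hu
  unfold Ph Ph2
  exact div_le_div_of_nonneg_left (Real.exp_pos _).le (pow_pos (MConS_ph2_pos hal hbe u) R)
    (pow_le_pow_left₀ (MConS_ph2_pos hal hbe u).le (hph u hu.1) R)

/-- All constraints with tolerance. -/
theorem thm_ConS (hA : St_ConA) (hB : St_ConB) (hD : St_D) (hTP : St_TP) (hSm : St_Sm)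
    (hSJ : St_SJ) (hNG : St_NG) (hG : St_Gap) (hM : St_Match) (hJP : St_JP) (hJQ : St_JQ) :
    St_ConS := by
  intro R g K c s ι _ m a hGK hC hsg
  have hR4 := hGK.hR
  have hRr : (4 : ℝ) ≤ R := by exact_mod_cast hR4
  have hg0 := hGK.g0
  have hg1 := hGK.g1
  have hs0 := hC.s0
  have hs1 := hC.s1
  have hc0 := hC.c0
  have hK0 := hGK.K0
  have hlaw := hC.law
  have h1s : 0 < 1 - s := by linarith
  obtain ⟨hA1, hA2⟩ := hA R g K c s ι m a hGK hC
  have hB1 := hB R g K c s ι m a hGK hC
  have hW0 : g - s ≤ WW R m a := hC.H5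
  set W : ℝ := WW R m a with hWdef
  have hWpos : 0 < W := by linarith
  have hWm : W = R * (m2 m a - 1) := rfl
  have hRpos : (0 : ℝ) < R := by linarith
  have hV : 0 < m2 m a - 1 := by
    rw [hWm] at hWpos
    exact (mul_pos_iff_of_pos_left hRpos).1 hWpos
  set p : ℝ := pp R (R + g) m a with hp
  set q : ℝ := 1 - p with hq
  -- an atom above the mean
  have hqpos : 0 < q := by
    by_contra hcon
    push Not at hcon
    have h1 : ∀ i, 0 < m i → a i ≤ 1 := by
      intro i hi
      have h2 := hA2 i hi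
      by_contra h3
      push Not at h3
      have : 0 < c * (1 - s) * (a i - 1) := by
        have : 0 < a i - 1 := by linarith
        positivity
      linarith
    have h2 : m2 m a ≤ 1 := by
      rw [← hlaw.mean]
      unfold m2
      refine Finset.sum_le_sum fun i _ => ?_
      rcases (hlaw.m0 i).eq_or_lt with h3 | h3
      · rw [← h3]
        simp
      · have h4 := h1 i h3
        have h5 := hlaw.a0 i
        refine mul_le_mul_of_nonneg_left ?_ h3.le
        nlinarith
    linarith
  set y : ℝ := q / c with hy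
  have hypos : 0 < y := by positivity
  have hqy : q = c * y := by
    rw [hy]
    field_simp
  have hatom : ∀ i, 0 < m i → a i - 1 ≤ y / (1 - s) := by
    intro i hi
    have h2 := hA2 i hi
    rw [le_div_iff₀ h1s]
    rw [hqy] at h2
    have h3 : c * ((a i - 1) * (1 - s)) ≤ c * y := by linarith
    exact le_of_mul_le_mul_left h3 hc0
  obtain ⟨al, be, hal0, hal1, hbe0, hab, -, hm3, hBle, hph⟩ := hM (R + g) ι m a hlaw hV
  have habW : al * be = W / R := by
    rw [hab, hWm]
    field_simp
  have hRab : R * al * be = W := by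
    rw [mul_assoc, habW]
    field_simp
  have hYpos : 0 < y / (1 - s) := by positivity
  have hBpos : 0 < 1 + y / (1 - s) := by linarith
  -- the bound for the gaps
  have hgap : ∀ th : ℝ, 0 ≤ th →
      y / (1 - s) + W / (R * (y / (1 - s))) ≤ (1 + W / R) * (1 + th) →
      ∀ i j, 0 < m i → 0 < m j → a i < a j → (∀ k, 0 < m k → ¬ (a i < a k ∧ a k < a j)) →
        a j - a i ≤ (1 + W / R) * (1 + th) := by
    intro th hth hle i j hi hj hij hk
    have hVW : m2 m a - 1 = W / R := by
      rw [hWm]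
      field_simp
    have h1 := hG (W / R) (y / (1 - s)) (R + g) ι m a hlaw hVW.symm (by positivity) hYpos
      hatom i j hi hj hij hk
    refine h1.trans (max_le ?_ ?_)
    · have : 0 ≤ (1 + W / R) * th := by positivity
      linarith
    · have : W / R / (y / (1 - s)) = W / (R * (y / (1 - s))) := by
        rw [div_div]
      rw [this]
      exact hle
  have hyle : ∀ X : ℝ, c * (1 - s) * X ≤ q → (1 - s) * X ≤ y := by
    intro X hX
    rw [hqy] at hX
    have h3 : c * ((1 - s) * X) ≤ c * y := by linarith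
    exact le_of_mul_le_mul_left h3 hc0
  -- the dual bound
  have hdual : ∀ J : ℝ, (∀ T : ℝ, 0 ≤ T → ∫ u in (0 : ℝ)..T, Ph2 R g al be u ≤ J) →
      K * (1 - s) * y ≤ (1 + s) * (1 + max (W - g) 0 * J) := by
    intro J hJ
    have h1 := hTP R g K c s J ι m a hGK hC fun T hT =>
      (MConS_int hlaw hal0 hbe0 hph R g T hT).trans (hJ T hT)
    have h2 := hC.H4
    have h3 : K * (1 - s) * q ≤ c * (1 + s) * (1 + max (W - g) 0 * J) := h2.trans h1
    rw [hqy] at h3
    have h4 : c * (K * (1 - s) * y) ≤ c * ((1 + s) * (1 + max (W - g) 0 * J)) := by linarith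
    exact le_of_mul_le_mul_left h4 hc0
  refine ⟨al, be, ?_⟩
  refine ⟨hW0, ?_, hal0, hal1, hbe0, ?_, habW, ?_, ?_, ?_, ?_, ?_, ?_, ?_⟩
  · -- hW2
    rw [hWm]
    refine mul_le_mul_of_nonneg_left ?_ hRpos.le
    have h1 : m2 m a ≤ (R + g) * 1 := by
      rw [← hlaw.mean]
      unfold m2
      rw [Finset.mul_sum]
      refine Finset.sum_le_sum fun i _ => ?_
      have h2 := hlaw.m0 i
      have h3 := hlaw.a0 i
      have h4 := hlaw.aM i
      have h5 : 0 ≤ m i * (a i * (R + g - a i)) :=
        mul_nonneg h2 (mul_nonneg h3 (by linarith))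
      linarith
    linarith
  · -- hbe
    have h1 := hBle (1 + y / (1 - s)) fun i hi => by
      have := hatom i hi
      linarith
    linarith
  · -- hy
    have h1 : c * y ≤ c * ((1 + s) * (R + g - 1)) := by
      rw [← hqy]
      linarith
    exact le_of_mul_le_mul_left h1 hc0
  · -- cb
    have h2 := hC.H4
    have h3 : (1 + g - s) * (K * (1 - s) * q) ≤ (1 + g - s) * p :=
      mul_le_mul_of_nonneg_left h2 (by linarith)
    have h4 := h3.trans hB1
    rw [hqy] at h4
    have h5 : c * ((1 + g - s) * (K * (1 - s) * y)) ≤ c * ((1 + s) * (1 + W)) := by linarith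
    exact le_of_mul_le_mul_left h5 hc0
  · -- cD
    have h1 := hD R g K c s (1 + y / (1 - s)) ι m a hGK hC hqpos hWpos
      (fun i hi => by
        have := hatom i hi
        linarith) hBpos y rfl
    rw [← hm3] at h1
    have h2 : (1 - al) * (1 + be) * (m2 m a - 1) / ((m2 m a - 1) * (1 + y / (1 - s))) =
        (1 - al) * (1 + be) / (1 + y / (1 - s)) := by
      field_simp
    rw [h2] at h1
    exact h1
  · -- cJ0
    intro th hth0 hth1 hle hpos
    obtain ⟨S, S', hS1, hS2, hS3, hS4⟩ := hSJ R g W th (by omega) hg0 hg1 hWpos hth0 hth1 hpos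
    have h1 := hNG R g K c s W th S S' ι m a hGK hC rfl hWpos hth0 hth1 (hgap th hth0 hle)
      hS1 hS2 hS4
    rw [hS3] at h1
    exact hyle _ h1
  · -- cN
    intro th hth0 hth1 hle k
    have hpos : 0 < (W - g) / (1 + W / R) + th + 1 := by
      have h1 : -1 < (W - g) / (1 + W / R) := by
        have h2 : 0 < W / R := by positivity
        rw [lt_div_iff₀ (by positivity)]
        linarith
      linarith
    obtain ⟨S, S', hS1, hS2, hS3, hS4⟩ := hSm R g W th k (by omega) hg0 hg1 hWpos hth0 hth1 hpos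
    have h1 := hNG R g K c s W th S S' ι m a hGK hC rfl hWpos hth0 hth1 (hgap th hth0 hle)
      hS1 hS2 hS4
    rw [hS3] at h1
    exact hyle _ h1
  · -- cP
    intro h1 h2 Om hOm h3
    refine hdual _ fun T hT => ?_
    have h4 := hJP R g al be Om T (by omega) hg0 hal0 hbe0 h1 h2 hOm (by
      rw [hRab]
      exact h3) hT
    rw [hRab] at h4
    exact h4
  · -- cQ
    intro h1 Om hOm
    refine hdual _ fun T hT => ?_
    have hR1 : 0 < (R : ℝ) - 1 := by linarith
    set al1 : ℝ := (be - g) / (R - 1) with hal1'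
    have e1 : (R - 1) * al1 = be - g := by
      rw [hal1']
      field_simp
    have h2 : al ≤ al1 := by
      rw [hal1', le_div_iff₀ hR1]
      linarith
    have hal1pos : 0 < al1 := by linarith
    have h3 := hJQ R g al al1 be T (by omega) hg0 hal0 h2 hbe0 hT
    refine h3.trans (mul_le_mul_of_nonneg_left ?_ (by positivity))
    have e2 : be - al1 - g = ((R : ℝ) - 2) * al1 := by linarith
    have h4 := hJP R g al1 be Om (al * T / al1) (by omega) hg0 hal1pos hbe0 (by linarith) (by
      have h5 : ((R : ℝ) - 1) * be - al1 - g =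
          (((R : ℝ) - 1) ^ 2 - 1) * al1 + ((R : ℝ) - 2) * g := by
        have : be = (R - 1) * al1 + g := by linarith
        rw [this]
        ring
      have h6 : 0 ≤ (((R : ℝ) - 1) ^ 2 - 1) * al1 := mul_nonneg (by nlinarith) hal1pos.le
      have h7 : 0 ≤ ((R : ℝ) - 2) * g := mul_nonneg (by linarith) hg0.le
      linarith) hOm (by
      rw [e2]
      have h7 : 0 ≤ ((R : ℝ) - 2) := by linarith
      positivity) (by positivity)
    rw [e2] at h4
    exact h4

end Pool.Agent.EMCW
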