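import Pool.Agent.EMCW.St

/-!
Nearly optimal laws satisfying a perturbed line condition are critical.
-/

open Finset

namespace Pool.Agent.EMCW

namespace Crit

variable {ι : Type} [Fintype ι] {m a : ι → ℝ}

lemma exists_min_atom (h0 : ∀ i, 0 ≤ m i) (h1 : ∑ i, m i = 1) :
    ∃ i, 0 < m i ∧ ∀ j, 0 < m j → a i ≤ a j := by
  have hne : (Finset.univ.filter (fun i => 0 < m i)).Nonempty := by
    by_contra hcon
    rw [Finset.not_nonempty_iff_eq_empty, Finset.filter_eq_empty_iff] at hcon
    have : ∑ i, m i = 0 := Finset.sum_eq_zero fun i hi =>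
      le_antisymm (not_lt.mp (hcon hi)) (h0 i)
    rw [h1] at this
    exact one_ne_zero this
  obtain ⟨i, hi, hmin⟩ := Finset.exists_min_image _ a hne
  rw [Finset.mem_filter] at hi
  exact ⟨i, hi.2, fun j hj => hmin j (Finset.mem_filter.mpr ⟨Finset.mem_univ _, hj⟩)⟩

/-- The second moment bound. -/
lemma m2_bound {M t P : ℝ} (hl : IsLaw M 1 m a) (ht0 : 0 < t) (ht1 : t < 1)
    (hP : ∑ i, m i * min (a i) t ≤ t * P) : (1 - t) ^ 2 ≤ m2 m a * P := by
  classical
  obtain ⟨Pt, hPt⟩ : ∃ z : ℝ, z = ∑ i, (if t ≤ a i then m i else 0) := ⟨_, rfl⟩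
  obtain ⟨Et, hEt⟩ : ∃ z : ℝ, z = ∑ i, (if t ≤ a i then m i * a i else 0) := ⟨_, rfl⟩
  have hPtP : Pt ≤ P := by
    have h1 : t * Pt ≤ ∑ i, m i * min (a i) t := by
      rw [hPt, Finset.mul_sum]
      refine Finset.sum_le_sum fun i _ => ?_
      split_ifs with h
      · rw [min_eq_right h, mul_comm]
      · rw [mul_zero]
        exact mul_nonneg (hl.m0 i) (le_min (hl.a0 i) ht0.le)
    exact le_of_mul_le_mul_left (h1.trans hP) ht0
  have hPt0 : 0 ≤ Pt := by
    rw [hPt]
    exact Finset.sum_nonneg fun i _ => by split_ifs <;> first | exact hl.m0 i | exact le_rfl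
  have hE : 1 - t ≤ Et := by
    have h2 : ∑ i, m i * a i ≤ Et + t * ∑ i, m i := by
      rw [hEt, Finset.mul_sum, ← Finset.sum_add_distrib]
      refine Finset.sum_le_sum fun i _ => ?_
      have h0 := hl.m0 i
      split_ifs with h
      · nlinarith
      · push Not at h
        nlinarith
    rw [hl.mean, hl.m1] at h2
    linarith
  -- Cauchy-Schwarz
  have hCS : Et ^ 2 ≤ m2 m a * Pt := by
    have hq : ∀ l : ℝ, 0 ≤ m2 m a - 2 * l * Et + l ^ 2 * Pt := by
      intro l
      have : ∑ i, (if t ≤ a i then m i * (a i - l) ^ 2 else 0) ≤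
          m2 m a - 2 * l * Et + l ^ 2 * Pt := by
        rw [m2, hEt, hPt, Finset.mul_sum, Finset.mul_sum, ← Finset.sum_sub_distrib,
          ← Finset.sum_add_distrib]
        refine Finset.sum_le_sum fun i _ => ?_
        split_ifs with h
        · exact le_of_eq (by ring)
        · have := mul_nonneg (hl.m0 i) (sq_nonneg (a i))
          linarith
      refine le_trans (Finset.sum_nonneg fun i _ => ?_) this
      split_ifs
      · exact mul_nonneg (hl.m0 i) (sq_nonneg _)
      · exact le_rfl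
    rcases hPt0.eq_or_lt with h | h
    · -- Pt = 0
      have hEt0 : Et = 0 := by
        have hz : ∀ i, (if t ≤ a i then m i else 0) = 0 := by
          have := (Finset.sum_eq_zero_iff_of_nonneg (s := Finset.univ)
            (f := fun i => if t ≤ a i then m i else 0) (fun i _ => by
              split_ifs <;> first | exact hl.m0 i | exact le_rfl)).mp (by rw [← hPt, ← h])
          exact fun i => this i (Finset.mem_univ i)
        rw [hEt]
        refine Finset.sum_eq_zero fun i _ => ?_
        have := hz i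
        split_ifs with h3
        · rw [if_pos h3] at this
          rw [this, zero_mul]
        · rfl
      rw [hEt0, ← h]
      simp
    · have h3 := hq (Et / Pt)
      have h4 : m2 m a - 2 * (Et / Pt) * Et + (Et / Pt) ^ 2 * Pt = m2 m a - Et ^ 2 / Pt := by
        field_simp
        ring
      rw [h4] at h3
      have : Et ^ 2 / Pt ≤ m2 m a := by linarith
      rwa [div_le_iff₀ h] at this
  have hm2 : 0 ≤ m2 m a := Finset.sum_nonneg fun i _ => mul_nonneg (hl.m0 i) (sq_nonneg _)
  calc (1 - t) ^ 2 ≤ Et ^ 2 := pow_le_pow_left₀ (by linarith) hE 2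
    _ ≤ m2 m a * Pt := hCS
    _ ≤ m2 m a * P := mul_le_mul_of_nonneg_left hPtP hm2

end Crit

theorem thm_Crit (hV : St_Vh) (hT : St_Trunc) : St_Crit := by
  intro R g K s hGK hs0 hs1
  obtain ⟨hV1, hV2, hV3, hV4, hV5⟩ := hV R g K hGK
  have hR : (4 : ℝ) ≤ R := by exact_mod_cast hGK.hR
  have hg0 := hGK.g0
  have hg1 := hGK.g1
  have hK0 := hGK.K0
  obtain ⟨M, hM⟩ : ∃ M : ℝ, M = R + g := ⟨_, rfl⟩
  rw [← hM] at hV1 hV2 hV3 hV4 hV5
  have hM4 : 4 ≤ M := by linarith
  obtain ⟨D, hD⟩ : ∃ D : ℝ, D = 1 - Vh R M := ⟨_, rfl⟩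
  have hD0 : 0 < D := by rw [hD]; linarith
  obtain ⟨ps, hps⟩ : ∃ z : ℝ, z = ((R : ℝ) / M) ^ R := ⟨_, rfl⟩
  have hps0 : 0 < ps := by rw [hps]; positivity
  rw [← hps] at hV5
  -- p* = K q*
  have hpK : ps = K * (1 - 1 / M) ^ R := by
    have h1 : (1 - 1 / M) ^ R = (1 - (1 - g) / R) ^ R * ((R : ℝ) / M) ^ R := by
      rw [← mul_pow]
      congr 1
      rw [hM]
      field_simp
      ring
    rw [h1, hGK.e2, ← hps]
    field_simp
  have hps1 : ps ≤ 1 := by
    rw [hps]
    exact pow_le_one₀ (by positivity) (by rw [div_le_one (by linarith)]; linarith)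
  obtain ⟨et, het⟩ : ∃ et : ℝ, et = min (s * D / (4 * M ^ 2)) (min (s * g * D / M ^ 2)
    (min (s * ps / (K + 1)) (s ^ 2 * D * R / (8 * M ^ 4)))) := ⟨_, rfl⟩
  have het1 : et ≤ s * D / (4 * M ^ 2) := by rw [het]; exact min_le_left _ _
  have het2 : et ≤ s * g * D / M ^ 2 := by
    rw [het]; exact (min_le_right _ _).trans (min_le_left _ _)
  have het3 : et ≤ s * ps / (K + 1) := by
    rw [het]; exact (min_le_right _ _).trans ((min_le_right _ _).trans (min_le_left _ _))
  have het4 : et ≤ s ^ 2 * D * R / (8 * M ^ 4) := by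
    rw [het]; exact (min_le_right _ _).trans ((min_le_right _ _).trans (min_le_right _ _))
  have hM0 : 0 < M := by linarith
  have hR0 : (0 : ℝ) < R := by linarith
  have het0 : 0 < et := by
    rw [het]
    refine lt_min (by positivity) (lt_min (by positivity) (lt_min (by positivity) (by positivity)))
  refine ⟨et, het0, ?_⟩
  intro ι _ m a c0 c1 e hl hp he hat hend
  rw [← hM] at hl hp hat hend
  have het1' : et * (4 * M ^ 2) ≤ s * D := by rwa [le_div_iff₀ (by positivity)] at het1
  have het2' : et * M ^ 2 ≤ s * g * D := by rwa [le_div_iff₀ (by positivity)] at het2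
  have het3' : et * (K + 1) ≤ s * ps := by rwa [le_div_iff₀ (by positivity)] at het3
  have het4' : et * (8 * M ^ 4) ≤ s ^ 2 * D * R := by rwa [le_div_iff₀ (by positivity)] at het4
  have hR1 : 1 ≤ R := by have := hGK.hR; omega
  have hqD : D ≤ 1 - pp R M m a := by
    rw [hD]; linarith [hV1 ι m a hl]
  have hm2M : m2 m a ≤ M := by
    have : m2 m a ≤ ∑ i, M * (m i * a i) := by
      refine Finset.sum_le_sum fun i _ => ?_
      have h1 := mul_nonneg (hl.m0 i) (hl.a0 i)
      nlinarith [hl.aM i]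
    rw [← Finset.mul_sum, hl.mean, mul_one] at this
    exact this
  have hm20 : 0 ≤ m2 m a := Finset.sum_nonneg fun i _ => mul_nonneg (hl.m0 i) (sq_nonneg _)
  have hpE : pp R M m a = c0 + c1 + e * m2 m a := by
    rw [pp_eq hR1]
    have h1 : ∀ i, m i * hh R M m a (a i) = c0 * m i + c1 * (m i * a i) + e * (m i * a i ^ 2) := by
      intro i
      rcases (hl.m0 i).eq_or_lt with h | h
      · rw [← h]; ring
      · rw [hat i h]; ring
    rw [Finset.sum_congr rfl fun i _ => h1 i, Finset.sum_add_distrib, Finset.sum_add_distrib,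
      ← Finset.mul_sum, ← Finset.mul_sum, ← Finset.mul_sum, hl.m1, hl.mean]
    unfold m2
    ring
  have heab := abs_le.mp he
  have hc1 : D / 2 ≤ c1 * (M - 1) := by
    have h1 : 1 - pp R M m a ≤ c1 * (M - 1) + e * (M ^ 2 - m2 m a) := by
      rw [hpE]; linarith
    have h2 : e * (M ^ 2 - m2 m a) ≤ et * M ^ 2 := by
      have h3 : 0 ≤ M ^ 2 - m2 m a := by nlinarith
      calc e * (M ^ 2 - m2 m a) ≤ et * (M ^ 2 - m2 m a) :=
            mul_le_mul_of_nonneg_right heab.2 h3
        _ ≤ et * M ^ 2 := mul_le_mul_of_nonneg_left (by linarith) het0.le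
    have h4 : s * D ≤ 1 * D := mul_le_mul_of_nonneg_right hs1.le hD0.le
    have h3 : et * M ^ 2 ≤ D / 4 := by linarith
    linarith
  have hc10 : 0 < c1 := by
    by_contra hcon
    push Not at hcon
    have : c1 * (M - 1) ≤ 0 := mul_nonpos_of_nonpos_of_nonneg hcon (by linarith)
    linarith
  have hec : 2 * M * et ≤ s * c1 := by
    have h1 : D / (2 * M) ≤ c1 := by
      rw [div_le_iff₀ (by positivity)]
      linarith
    have h2 : 2 * M * et ≤ s * (D / (2 * M)) := by
      rw [← mul_div_assoc, le_div_iff₀ (by positivity)]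
      linarith
    exact h2.trans (mul_le_mul_of_nonneg_left h1 hs0.le)
  have heb : ∀ x y : ℝ, 0 ≤ x → x ≤ M → 0 ≤ y → y ≤ M → |e * (x + y)| ≤ s * c1 := by
    intro x y hx hx' hy hy'
    rw [abs_mul, abs_of_nonneg (by linarith : 0 ≤ x + y)]
    calc |e| * (x + y) ≤ et * (2 * M) := mul_le_mul he (by linarith) (by linarith) het0.le
      _ ≤ s * c1 := by linarith
  refine ⟨by rwa [← hM], hs0.le, hs1, hc10, ?_, ?_, ?_, ?_, ?_⟩
  · intro i j hi hj hij
    rw [← hM, hat i hi, hat j hj]
    have h1 := abs_le.mp (heb (a i) (a j) (hl.a0 i) (hl.aM i) (hl.a0 j) (hl.aM j))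
    have h2 : c0 + c1 * a j + e * a j ^ 2 - (c0 + c1 * a i + e * a i ^ 2) =
        (a j - a i) * (c1 + e * (a i + a j)) := by ring
    rw [h2]
    have h3 : 0 ≤ a j - a i := by linarith
    constructor
    · calc c1 * (1 - s) * (a j - a i) = (a j - a i) * (c1 - s * c1) := by ring
        _ ≤ _ := mul_le_mul_of_nonneg_left (by linarith) h3
    · calc (a j - a i) * (c1 + e * (a i + a j)) ≤ (a j - a i) * (c1 + s * c1) :=
            mul_le_mul_of_nonneg_left (by linarith) h3
        _ = _ := by ring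
  · intro i hi
    rw [← hM, hat i hi]
    have h1 := abs_le.mp (heb (a i) M (hl.a0 i) (hl.aM i) hM0.le le_rfl)
    have h3 : 0 ≤ M - a i := by linarith [hl.aM i]
    calc 1 - (c0 + c1 * a i + e * a i ^ 2) ≤
          c0 + c1 * M + e * M ^ 2 - (c0 + c1 * a i + e * a i ^ 2) := by linarith
      _ = (M - a i) * (c1 + e * (a i + M)) := by ring
      _ ≤ (M - a i) * (c1 + s * c1) := mul_le_mul_of_nonneg_left (by linarith) h3
      _ = _ := by ring
  · obtain ⟨i, hi, hmin⟩ := Crit.exists_min_atom (a := a) hl.m0 hl.m1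
    refine ⟨i, hi, ?_⟩
    have hai1 : a i ≤ 1 := by
      have h1 : ∑ j, m j * a i ≤ ∑ j, m j * a j := by
        refine Finset.sum_le_sum fun j _ => ?_
        rcases (hl.m0 j).eq_or_lt with h | h
        · rw [← h]; simp
        · exact mul_le_mul_of_nonneg_left (hmin j h) h.le
      rw [← Finset.sum_mul, hl.m1, one_mul, hl.mean] at h1
      exact h1
    have hlt : a i < (R + g) / R := by
      rw [lt_div_iff₀ hR0]
      nlinarith
    have h1 := hT R g K et (a i) ι m a hGK (by rwa [← hM]) het0.le (by rwa [← hM]) (hl.a0 i) hlt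
    rw [← hM, ← hD] at h1
    have h2 : ∑ j, m j * min (a j) (a i) = a i := by
      have h3 : ∀ j, m j * min (a j) (a i) = m j * a i := by
        intro j
        rcases (hl.m0 j).eq_or_lt with h | h
        · rw [← h]; simp
        · rw [min_eq_right (hmin j h)]
      rw [Finset.sum_congr rfl fun j _ => h3 j, ← Finset.sum_mul, hl.m1, one_mul]
    rw [h2] at h1
    have h4 : a i * g ≤ et * M ^ 2 / D := by
      have h5 : a i * (1 - R / M) ≤ et * M / D := by
        have : R * a i / M = a i * (R / M) := by ring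
        rw [this] at h1
        linarith
      have h6 : 1 - R / M = g / M := by
        rw [hM]; field_simp; ring
      rw [h6] at h5
      have h7 := mul_le_mul_of_nonneg_right h5 hM0.le
      calc a i * g = a i * (g / M) * M := by field_simp
        _ ≤ _ := h7
        _ = _ := by ring
    have h8 : et * M ^ 2 / D ≤ s * g := by
      rw [div_le_iff₀ hD0]; linarith
    have h9 : a i * g ≤ s * g := h4.trans h8
    exact le_of_mul_le_mul_right h9 hg0
  · rw [← hM]
    have h1 : ps - et ≤ pp R M m a := by linarith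
    have h2 : 1 - pp R M m a ≤ (1 - 1 / M) ^ R + et := by linarith
    have hq0 : 0 ≤ (1 - 1 / M) ^ R := by
      apply pow_nonneg
      have : 1 / M ≤ 1 := by rw [div_le_one hM0]; linarith
      linarith
    calc K * (1 - s) * (1 - pp R M m a) ≤ K * (1 - s) * ((1 - 1 / M) ^ R + et) :=
          mul_le_mul_of_nonneg_left h2 (mul_nonneg hK0.le (by linarith))
      _ = (1 - s) * ps + K * (1 - s) * et := by rw [hpK]; ring
      _ ≤ ps - et := by nlinarith [mul_nonneg (mul_nonneg hK0.le hs0.le) het0.le]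
      _ ≤ _ := h1
  · -- H5
    obtain ⟨t, ht⟩ : ∃ t : ℝ, t = s / (4 * M) := ⟨_, rfl⟩
    have ht0 : 0 < t := by rw [ht]; positivity
    have ht1 : t < 1 := by
      rw [ht, div_lt_one (by positivity)]; linarith
    have hlt : t < (R + g) / R := by
      refine ht1.trans ?_
      rw [lt_div_iff₀ hR0]; linarith
    have h1 := hT R g K et t ι m a hGK (by rwa [← hM]) het0.le (by rwa [← hM]) ht0.le hlt
    rw [← hM, ← hD] at h1
    obtain ⟨P, hP⟩ : ∃ P : ℝ, P = R / M + et * M / (t * D) := ⟨_, rfl⟩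
    have hP0 : 0 < P := by rw [hP]; positivity
    have h2 : ∑ i, m i * min (a i) t ≤ t * P := by
      refine h1.trans (le_of_eq ?_)
      rw [hP]
      field_simp
    have h3 := Crit.m2_bound hl ht0 ht1 h2
    -- P bound
    have h4 : et * M / (t * D) ≤ s * R / (2 * M ^ 2) := by
      rw [ht, div_le_div_iff₀ (by positivity) (by positivity)]
      have : et * M * (2 * M ^ 2) * 4 * M = et * (8 * M ^ 4) := by ring
      have h5 : et * M * (2 * M ^ 2) ≤ s * R * (s / (4 * M) * D) := by
        have h6 : s * R * (s / (4 * M) * D) = (s ^ 2 * D * R) / (4 * M) := by ring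
        rw [h6, le_div_iff₀ (by positivity)]
        linarith
      exact h5
    have h5 : P ≤ R / M * (1 + s / (2 * M)) := by
      rw [hP]
      have : R / M * (1 + s / (2 * M)) = R / M + s * R / (2 * M ^ 2) := by ring
      rw [this]
      linarith
    have h6 : (1 - t) ^ 2 ≤ m2 m a * (R / M * (1 + s / (2 * M))) :=
      h3.trans (mul_le_mul_of_nonneg_left h5 hm20)
    have h7 : 1 - s / (2 * M) ≤ (1 - t) ^ 2 := by
      have : s / (2 * M) = 2 * t := by rw [ht]; ring
      rw [this]
      nlinarith [sq_nonneg t]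
    obtain ⟨x, hx⟩ : ∃ x : ℝ, x = s / (2 * M) := ⟨_, rfl⟩
    have hx0 : 0 < x := by rw [hx]; positivity
    rw [← hx] at h6 h7
    have h8 : (1 - 2 * x) * (1 + x) ≤ m2 m a * (R / M) * (1 + x) := by
      have : (1 - 2 * x) * (1 + x) ≤ 1 - x := by nlinarith
      calc (1 - 2 * x) * (1 + x) ≤ 1 - x := this
        _ ≤ (1 - t) ^ 2 := h7
        _ ≤ m2 m a * (R / M * (1 + x)) := h6
        _ = _ := by ring
    have h9 : 1 - 2 * x ≤ m2 m a * (R / M) := le_of_mul_le_mul_right h8 (by linarith)
    have h10 : M - s ≤ m2 m a * R := by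
      have h11 := mul_le_mul_of_nonneg_right h9 hM0.le
      have h12 : (1 - 2 * x) * M = M - s := by
        rw [hx]; field_simp
      have h13 : m2 m a * (R / M) * M = m2 m a * R := by field_simp
      rw [h12, h13] at h11
      exact h11
    unfold WW
    rw [hM] at h10
    linarith

end Pool.Agent.EMCW
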