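import Pool.Agent.EMCW.St

/-!
The cut kernel.
-/

open Finset

namespace Pool.Agent.EMCW

private lemma Cut_phi {ι : Type} [Fintype ι] (R : ℕ) (M t x : ℝ) (m a : ι → ℝ) :
    Real.exp (-t * x) * Gs R M m a (-t) x =
      Tk m a (R - 1) (fun u => if u + x < M then Real.exp (t * u) else 0) 0 := by
  have h1 := Tk_shift (m := m) (a := a) (R - 1)
    (fun v => if v < M then Real.exp (-(-t) * v) else 0) x 0
  rw [zero_add] at h1
  unfold Gs
  rw [← h1, ← Tk_smul]
  congr 1
  funext u
  split_ifs with h
  · rw [← Real.exp_add]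
    congr 1
    ring
  · exact mul_zero _

private lemma Cut_hh {ι : Type} [Fintype ι] (R : ℕ) (M x : ℝ) (m a : ι → ℝ) :
    hh R M m a x = Tk m a (R - 1) (fun u => ind M (u + x)) 0 := by
  have h1 := Tk_shift (m := m) (a := a) (R - 1) (ind M) x 0
  rw [zero_add] at h1
  exact h1.symm

private lemma Cut_step {ι : Type} [Fintype ι] (R : ℕ) (M t x y : ℝ) (m a : ι → ℝ)
    (h0 : ∀ i, 0 ≤ m i) (ht : 0 < t) (hxy : x ≤ y) :
    Real.exp (t * (M - y)) * (hh R M m a y - hh R M m a x) ≤
      Real.exp (-t * x) * Gs R M m a (-t) x - Real.exp (-t * y) * Gs R M m a (-t) y := by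
  rw [Cut_phi, Cut_phi, Cut_hh, Cut_hh, ← Tk_sub, ← Tk_sub, ← Tk_smul]
  refine Tk_mono h0 _ (fun u => ?_) 0
  unfold ind
  by_cases h1 : u + y < M
  · have h2 : u + x < M := by linarith
    rw [if_neg (not_le.2 h1), if_neg (not_le.2 h2), if_pos h1, if_pos h2]
    simp
  · rw [if_pos (not_lt.1 h1), if_neg h1]
    by_cases h2 : u + x < M
    · rw [if_neg (not_le.2 h2), if_pos h2]
      simp only [sub_zero, mul_one]
      refine Real.exp_le_exp.2 (mul_le_mul_of_nonneg_left ?_ ht.le)
      linarith [not_lt.1 h1]
    · rw [if_pos (not_lt.1 h2), if_neg h2]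
      simp

private lemma Cut_conv {t z de : ℝ} (hz : 0 ≤ z) (hzd : z ≤ de) (hd : 0 < de) (ht : 0 < t) :
    de / (Real.exp (de * t) - 1) * (Real.exp (t * z) - 1) ≤ z := by
  have hpos : 0 < Real.exp (de * t) - 1 := by
    have := Real.add_one_lt_exp (mul_pos hd ht).ne'
    have := mul_pos hd ht
    linarith
  have h1 : Real.exp (t * z) ≤ (z / de) * Real.exp (de * t) + (1 - z / de) * Real.exp 0 := by
    have h2 := convexOn_exp.2 (Set.mem_univ (de * t)) (Set.mem_univ 0)
      (div_nonneg hz hd.le) (sub_nonneg.2 ((div_le_one hd).2 hzd)) (by ring)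
    simp only [smul_eq_mul, mul_zero, add_zero] at h2
    have h3 : z / de * (de * t) = t * z := by
      field_simp
    rw [h3] at h2
    exact h2
  rw [Real.exp_zero] at h1
  have h2 : Real.exp (t * z) - 1 ≤ z / de * (Real.exp (de * t) - 1) := by linarith
  calc de / (Real.exp (de * t) - 1) * (Real.exp (t * z) - 1)
      ≤ de / (Real.exp (de * t) - 1) * (z / de * (Real.exp (de * t) - 1)) :=
        mul_le_mul_of_nonneg_left h2 (by positivity)
    _ = z := by
        field_simp

theorem thm_Cut : St_Cut := by
  classical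
  intro R g K c s de t ι _ m a hGK hC hde ht hgap
  have hcs : 0 < c * (1 - s) := mul_pos hC.c0 (sub_pos.2 hC.s1)
  have key : ∀ n : ℕ, ∀ i j : ι, 0 < m i → 0 < m j → a i ≤ a j →
      (Finset.univ.filter fun k => 0 < m k ∧ a i < a k ∧ a k < a j).card ≤ n →
      c * (1 - s) * (de / (Real.exp (de * t) - 1)) * Real.exp (t * (R + g)) *
      (Real.exp (-t * a i) - Real.exp (-t * a j)) ≤
    Real.exp (-t * a i) * Gs R (R + g) m a (-t) (a i) -
      Real.exp (-t * a j) * Gs R (R + g) m a (-t) (a j) := by
    intro n
    induction n using Nat.strong_induction_on with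
    | _ n ih =>
      intro i j hi hj hij hn
      rcases eq_or_lt_of_le hij with he | hlt
      · rw [he, sub_self, sub_self, mul_zero]
      by_cases hex : ∃ k, 0 < m k ∧ a i < a k ∧ a k < a j
      · obtain ⟨k, hk, hik, hkj⟩ := hex
        have hmem : k ∈ Finset.univ.filter fun k => 0 < m k ∧ a i < a k ∧ a k < a j :=
          Finset.mem_filter.2 ⟨Finset.mem_univ _, hk, hik, hkj⟩
        have c1 : (Finset.univ.filter fun k' => 0 < m k' ∧ a i < a k' ∧ a k' < a k).card <
            (Finset.univ.filter fun k => 0 < m k ∧ a i < a k ∧ a k < a j).card := by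
          refine Finset.card_lt_card (Finset.ssubset_iff_of_subset ?_ |>.2 ⟨k, hmem, ?_⟩)
          · intro k' hk'
            have h := (Finset.mem_filter.1 hk').2
            exact Finset.mem_filter.2 ⟨Finset.mem_univ _, h.1, h.2.1, h.2.2.trans hkj⟩
          · intro h
            exact lt_irrefl _ (Finset.mem_filter.1 h).2.2.2
        have c2 : (Finset.univ.filter fun k' => 0 < m k' ∧ a k < a k' ∧ a k' < a j).card <
            (Finset.univ.filter fun k => 0 < m k ∧ a i < a k ∧ a k < a j).card := by
          refine Finset.card_lt_card (Finset.ssubset_iff_of_subset ?_ |>.2 ⟨k, hmem, ?_⟩)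
          · intro k' hk'
            have h := (Finset.mem_filter.1 hk').2
            exact Finset.mem_filter.2 ⟨Finset.mem_univ _, h.1, hik.trans h.2.1, h.2.2⟩
          · intro h
            exact lt_irrefl _ (Finset.mem_filter.1 h).2.2.1
        have h1 := ih _ (c1.trans_le hn) i k hi hk hik.le le_rfl
        have h2 := ih _ (c2.trans_le hn) k j hk hj hkj.le le_rfl
        have h3 : c * (1 - s) * (de / (Real.exp (de * t) - 1)) * Real.exp (t * (R + g)) *
            (Real.exp (-t * a i) - Real.exp (-t * a j)) =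
            c * (1 - s) * (de / (Real.exp (de * t) - 1)) * Real.exp (t * (R + g)) *
            (Real.exp (-t * a i) - Real.exp (-t * a k)) +
            c * (1 - s) * (de / (Real.exp (de * t) - 1)) * Real.exp (t * (R + g)) *
            (Real.exp (-t * a k) - Real.exp (-t * a j)) := by ring
        linarith
      · have hgapij := hgap i j hi hj hlt fun k hk h => hex ⟨k, hk, h⟩
        have h1 := Cut_step R (R + g) t (a i) (a j) m a hC.law.m0 ht hij
        have h2 := (hC.H1 i j hi hj hij).1
        refine le_trans ?_ h1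
        refine le_trans ?_ (mul_le_mul_of_nonneg_left h2 (Real.exp_pos _).le)
        have h3 := Cut_conv (sub_nonneg.2 hij) hgapij hde ht
        have e1 : Real.exp (t * (R + g)) * (Real.exp (-t * a i) - Real.exp (-t * a j)) =
            Real.exp (t * (R + g - a j)) * (Real.exp (t * (a j - a i)) - 1) := by
          rw [mul_sub, mul_sub, ← Real.exp_add, ← Real.exp_add, ← Real.exp_add, mul_one]
          congr 2 <;> ring
        calc c * (1 - s) * (de / (Real.exp (de * t) - 1)) * Real.exp (t * (R + g)) *
              (Real.exp (-t * a i) - Real.exp (-t * a j))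
            = c * (1 - s) * Real.exp (t * (R + g - a j)) *
              (de / (Real.exp (de * t) - 1) * (Real.exp (t * (a j - a i)) - 1)) := by
              rw [mul_assoc _ (Real.exp (t * (R + g))), e1]
              ring
          _ ≤ c * (1 - s) * Real.exp (t * (R + g - a j)) * (a j - a i) :=
              mul_le_mul_of_nonneg_left h3 (mul_pos hcs (Real.exp_pos _)).le
          _ = Real.exp (t * (R + g - a j)) * (c * (1 - s) * (a j - a i)) := by ring
  exact fun i j hi hj hij => key _ i j hi hj hij le_rfl

end Pool.Agent.EMCW
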