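import Pool.Agent.EMCW.St

/-!
MODULE D: the constraint (D).
-/

open Finset

namespace Pool.Agent.EMCW

section

variable {ι : Type} [Fintype ι] {m a : ι → ℝ}

/-- a symmetric double sum -/
theorem D_sym (F : ι → ι → ℝ) (hs : ∀ i j, F i j = F j i) (hz : ∀ i j, a i = a j → F i j = 0) :
    ∑ i, ∑ j, F i j = 2 * ∑ i, ∑ j, (if a j < a i then F i j else 0) := by
  have h1 : ∀ i j, F i j = (if a j < a i then F i j else 0) + (if a i < a j then F j i else 0) := by
    intro i j
    rcases lt_trichotomy (a j) (a i) with h | h | h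
    · rw [if_pos h, if_neg (not_lt.mpr h.le), add_zero]
    · rw [hz i j h.symm, if_neg (by rw [h]; exact lt_irrefl _),
        if_neg (by rw [h]; exact lt_irrefl _), add_zero]
    · rw [if_neg (not_lt.mpr h.le), if_pos h, zero_add, hs]
  have h2 : ∑ i, ∑ j, (if a i < a j then F j i else 0) =
      ∑ i, ∑ j, (if a j < a i then F i j else 0) := by
    rw [Finset.sum_comm]
  calc ∑ i, ∑ j, F i j = ∑ i, ∑ j, ((if a j < a i then F i j else 0) +
        (if a i < a j then F j i else 0)) :=
        Finset.sum_congr rfl fun i _ => Finset.sum_congr rfl fun j _ => h1 i j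
    _ = ∑ i, ∑ j, (if a j < a i then F i j else 0) +
        ∑ i, ∑ j, (if a i < a j then F j i else 0) := by
        rw [← Finset.sum_add_distrib]
        exact Finset.sum_congr rfl fun i _ => Finset.sum_add_distrib
    _ = _ := by
        rw [h2]
        ring

/-- double sums of products -/
theorem D_dbl (u v : ι → ℝ) : ∑ i, ∑ j, u i * v j = (∑ i, u i) * ∑ j, v j := by
  rw [Finset.sum_mul_sum]

/-- the covariance with the position -/
theorem D_cov (h1 : ∑ i, m i = 1) (ha : ∑ i, m i * a i = 1) (f : ι → ℝ) :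
    ∑ i, ∑ j, m i * m j * (if a j < a i then (a i - a j) * (f i - f j) else 0) =
      ∑ i, m i * a i * f i - ∑ i, m i * f i := by
  have e := D_sym (a := a) (fun i j => m i * m j * ((a i - a j) * (f i - f j)))
    (fun i j => by ring) (fun i j hij => by rw [hij]; ring)
  have e1 : ∑ i, ∑ j, m i * m j * ((a i - a j) * (f i - f j)) =
      2 * (∑ i, m i * a i * f i - ∑ i, m i * f i) := by
    have e2 : ∀ i j, m i * m j * ((a i - a j) * (f i - f j)) =
        (m i * a i * f i) * m j - (m i * a i) * (m j * f j) - (m i * f i) * (m j * a j) +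
          m i * (m j * a j * f j) := fun i j => by ring
    calc ∑ i, ∑ j, m i * m j * ((a i - a j) * (f i - f j))
        = ∑ i, ∑ j, ((m i * a i * f i) * m j - (m i * a i) * (m j * f j) -
          (m i * f i) * (m j * a j) + m i * (m j * a j * f j)) :=
          Finset.sum_congr rfl fun i _ => Finset.sum_congr rfl fun j _ => e2 i j
      _ = ∑ i, ∑ j, (m i * a i * f i) * m j - ∑ i, ∑ j, (m i * a i) * (m j * f j) -
          ∑ i, ∑ j, (m i * f i) * (m j * a j) + ∑ i, ∑ j, m i * (m j * a j * f j) := by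
          simp only [Finset.sum_add_distrib, Finset.sum_sub_distrib]
      _ = _ := by
          rw [D_dbl, D_dbl, D_dbl, D_dbl, h1, ha]
          ring
  have e3 : ∑ i, ∑ j, m i * m j * (if a j < a i then (a i - a j) * (f i - f j) else 0) =
      ∑ i, ∑ j, (if a j < a i then m i * m j * ((a i - a j) * (f i - f j)) else 0) := by
    refine Finset.sum_congr rfl fun i _ => Finset.sum_congr rfl fun j _ => ?_
    rw [mul_ite, mul_zero]
  rw [e3]
  linarith

/-- the third moment -/
theorem D_third (h1 : ∑ i, m i = 1) (ha : ∑ i, m i * a i = 1) :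
    ∑ i, ∑ j, m i * m j * (if a j < a i then (a i - a j) ^ 2 * (a i * a j) else 0) =
      m3 m a - m2 m a ^ 2 := by
  have e := D_sym (a := a) (fun i j => m i * m j * ((a i - a j) ^ 2 * (a i * a j)))
    (fun i j => by ring) (fun i j hij => by rw [hij]; ring)
  have e1 : ∑ i, ∑ j, m i * m j * ((a i - a j) ^ 2 * (a i * a j)) =
      2 * (m3 m a - m2 m a ^ 2) := by
    have e2 : ∀ i j, m i * m j * ((a i - a j) ^ 2 * (a i * a j)) =
        (m i * a i ^ 3) * (m j * a j) - 2 * ((m i * a i ^ 2) * (m j * a j ^ 2)) +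
          (m i * a i) * (m j * a j ^ 3) := fun i j => by ring
    calc ∑ i, ∑ j, m i * m j * ((a i - a j) ^ 2 * (a i * a j))
        = ∑ i, ∑ j, ((m i * a i ^ 3) * (m j * a j) - 2 * ((m i * a i ^ 2) * (m j * a j ^ 2)) +
          (m i * a i) * (m j * a j ^ 3)) :=
          Finset.sum_congr rfl fun i _ => Finset.sum_congr rfl fun j _ => e2 i j
      _ = ∑ i, ∑ j, (m i * a i ^ 3) * (m j * a j) -
          2 * ∑ i, ∑ j, (m i * a i ^ 2) * (m j * a j ^ 2) +
          ∑ i, ∑ j, (m i * a i) * (m j * a j ^ 3) := by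
          simp only [Finset.sum_add_distrib, Finset.sum_sub_distrib, ← Finset.mul_sum]
      _ = _ := by
          rw [D_dbl, D_dbl, D_dbl, ha]
          unfold m3 m2
          ring
  have e3 : ∑ i, ∑ j, m i * m j * (if a j < a i then (a i - a j) ^ 2 * (a i * a j) else 0) =
      ∑ i, ∑ j, (if a j < a i then m i * m j * ((a i - a j) ^ 2 * (a i * a j)) else 0) := by
    refine Finset.sum_congr rfl fun i _ => Finset.sum_congr rfl fun j _ => ?_
    rw [mul_ite, mul_zero]
  rw [e3]
  linarith

end

/-- the final computation -/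
theorem D_alg {R g c s q V W y A B N C mq M T : ℝ} (hR : 0 < R) (hg : 0 < g) (hc : 0 < c)
    (hs1 : s < 1) (hq : 0 < q) (hV : 0 < V) (hB : 0 < B) (hW : W = R * V) (hM : M = R + g)
    (hy : y = q / c) (hC : c * (1 - s) * V ≤ C) (hmq : mq = R * (q - C))
    (hN : (M * q - mq) * (R * q - mq) ≤ R * N * q)
    (hN2 : N ≤ V * (q + c * (1 + s)) - c * (1 - s) * A) (hA : T ≤ A * B) :
    (1 - s) ^ 2 * W + (1 - s) * g * y + (1 - s) * y * (T / (V * B)) ≤ y ^ 2 + (1 + s) * y := by
  have hqy : q = c * y := by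
    rw [hy]
    field_simp
  have hy0 : 0 < y := by
    rw [hy]
    positivity
  have e1 : M * q - mq = g * q + R * C := by
    rw [hM, hmq]
    ring
  have e2 : R * q - mq = R * C := by
    rw [hmq]
    ring
  have hs0 : 0 < 1 - s := by linarith
  have hW0 : 0 < W := by
    rw [hW]
    positivity
  have hRC : c * (1 - s) * W ≤ R * C := by
    have h := mul_le_mul_of_nonneg_left hC hR.le
    have e : R * (c * (1 - s) * V) = c * (1 - s) * W := by rw [hW]; ring
    rw [e] at h
    exact h
  have h0 : 0 ≤ c * (1 - s) * W := by positivity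
  have h1 : (g * q + c * (1 - s) * W) * (c * (1 - s) * W) ≤ R * N * q := by
    refine le_trans ?_ hN
    rw [e1, e2]
    have hgq : 0 ≤ g * q := by positivity
    exact mul_le_mul (by linarith) hRC h0 (by linarith)
  have h2 : R * N * q ≤ R * (V * (q + c * (1 + s)) - c * (1 - s) * A) * q := by
    have := mul_le_mul_of_nonneg_left hN2 hR.le
    exact mul_le_mul_of_nonneg_right this hq.le
  have h3 := h1.trans h2
  have e3 : (g * q + c * (1 - s) * W) * (c * (1 - s) * W) =
      (c ^ 2 * W) * ((1 - s) * (g * y + (1 - s) * W)) := by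
    rw [hqy]
    ring
  have e4 : R * (V * (q + c * (1 + s)) - c * (1 - s) * A) * q =
      (c ^ 2 * W) * (y * (y + (1 + s)) - (1 - s) * y * (A / V)) := by
    rw [hqy, hW]
    field_simp
  rw [e3, e4] at h3
  have h4 := le_of_mul_le_mul_left h3 (by positivity)
  have h5 : T / (V * B) ≤ A / V := by
    rw [div_le_div_iff₀ (by positivity) hV]
    have h6 := mul_le_mul_of_nonneg_right hA hV.le
    have e5 : A * B * V = A * (V * B) := by ring
    linarith
  have h6 : (1 - s) * y * (T / (V * B)) ≤ (1 - s) * y * (A / V) :=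
    mul_le_mul_of_nonneg_left h5 (by positivity)
  have e6 : (1 - s) * (g * y + (1 - s) * W) = (1 - s) ^ 2 * W + (1 - s) * g * y := by ring
  have e7 : y * (y + (1 + s)) = y ^ 2 + (1 + s) * y := by ring
  rw [e6, e7] at h4
  linarith

theorem thm_D (_hA : St_ConA) (h1 : St_DA) (h2 : St_DB) : St_D := by
  intro R g K c s B ι _ m a hG hC hq hW hB hB0 y hy
  have hR : 1 ≤ R := le_trans (by norm_num) hG.hR
  have hR0 : (0 : ℝ) < R := by exact_mod_cast hR
  have hL := hC.law
  obtain ⟨hDA1, hDA2⟩ := h1 R (R + g) ι m a hR hL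
  have hDB := h2 R g K c s ι m a hG hC
  have hp := pp_eq (m := m) (a := a) hR (R + g)
  have hV : 0 < m2 m a - 1 := by
    unfold WW at hW
    exact pos_of_mul_pos_right hW hR0.le
  -- the covariance
  have hcov := D_cov hL.m1 hL.mean (fun i => hh R (R + g) m a (a i))
  have hvar := D_cov hL.m1 hL.mean a
  have hvar2 : ∑ i, ∑ j, m i * m j * (if a j < a i then (a i - a j) * (a i - a j) else 0) =
      m2 m a - 1 := by
    rw [hvar, hL.mean]
    unfold m2
    congr 1
    exact Finset.sum_congr rfl fun i _ => by ring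
  have hClow : c * (1 - s) * (m2 m a - 1) ≤
      ∑ i, ∑ j, m i * m j * (if a j < a i then (a i - a j) *
        (hh R (R + g) m a (a i) - hh R (R + g) m a (a j)) else 0) := by
    rw [← hvar2, Finset.mul_sum]
    refine Finset.sum_le_sum fun i _ => ?_
    rw [Finset.mul_sum]
    refine Finset.sum_le_sum fun j _ => ?_
    rcases (hL.m0 i).eq_or_lt with hi | hi
    · rw [← hi]
      simp
    rcases (hL.m0 j).eq_or_lt with hj | hj
    · rw [← hj]
      simp
    split_ifs with hij
    · have h3 := (hC.H1 j i hj hi hij.le).1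
      have h4 : 0 ≤ a i - a j := by linarith
      have h5 := mul_le_mul_of_nonneg_left h3 h4
      have h6 : 0 ≤ m i * m j := by positivity
      have h7 := mul_le_mul_of_nonneg_left h5 h6
      calc c * (1 - s) * (m i * m j * ((a i - a j) * (a i - a j)))
          = m i * m j * ((a i - a j) * (c * (1 - s) * (a i - a j))) := by ring
        _ ≤ _ := h7
    · simp
  obtain ⟨C, hCdef⟩ : ∃ C, C = ∑ i, m i * a i * hh R (R + g) m a (a i) -
      ∑ i, m i * hh R (R + g) m a (a i) := ⟨_, rfl⟩
  rw [hcov, ← hCdef] at hClow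
  have hmq : mq R (R + g) m a = R * ((1 - pp R (R + g) m a) - C) := by
    unfold mq
    rw [hCdef, ← hp]
    congr 1
    have e : ∑ i, m i * a i * (1 - hh R (R + g) m a (a i)) =
        ∑ i, m i * a i - ∑ i, m i * a i * hh R (R + g) m a (a i) := by
      rw [← Finset.sum_sub_distrib]
      exact Finset.sum_congr rfl fun i _ => by ring
    rw [e, hL.mean]
    ring
  obtain ⟨N, hN⟩ : ∃ N, N = ∑ i, m i * HH R (R + g) m a (a i) -
      ∑ i, m i * a i * HH R (R + g) m a (a i) := ⟨_, rfl⟩
  rw [← hN] at hDB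
  have hNq : ((R + g) * (1 - pp R (R + g) m a) - mq R (R + g) m a) *
      (R * (1 - pp R (R + g) m a) - mq R (R + g) m a) ≤ R * N * (1 - pp R (R + g) m a) := by
    have e1 : R * ∑ i, m i * a i * ((R + g) * (1 - hh R (R + g) m a (a i)) -
        HH R (R + g) m a (a i)) = (R + g) * mq R (R + g) m a -
        R * ∑ i, m i * a i * HH R (R + g) m a (a i) := by
      unfold mq
      have e2 : ∑ i, m i * a i * ((R + g) * (1 - hh R (R + g) m a (a i)) -
          HH R (R + g) m a (a i)) = (R + g) * ∑ i, m i * a i * (1 - hh R (R + g) m a (a i)) -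
          ∑ i, m i * a i * HH R (R + g) m a (a i) := by
        rw [Finset.mul_sum, ← Finset.sum_sub_distrib]
        exact Finset.sum_congr rfl fun i _ => by ring
      rw [e2]
      ring
    rw [e1] at hDA2
    have e3 : ∑ i, m i * a i * HH R (R + g) m a (a i) =
        (R + g) * (1 - pp R (R + g) m a) - mq R (R + g) m a - N := by
      rw [hN, hDA1]
      ring
    rw [e3] at hDA2
    nlinarith [hDA2]
  have hAB : m3 m a - m2 m a ^ 2 ≤
      (∑ i, ∑ j, m i * m j * (if a j < a i then (a i - a j) ^ 2 * a j else 0)) * B := by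
    rw [← D_third hL.m1 hL.mean, Finset.sum_mul]
    refine Finset.sum_le_sum fun i _ => ?_
    rw [Finset.sum_mul]
    refine Finset.sum_le_sum fun j _ => ?_
    rcases (hL.m0 i).eq_or_lt with hi | hi
    · rw [← hi]
      simp
    split_ifs with hij
    · have h3 : 0 ≤ m i * m j * ((a i - a j) ^ 2 * a j) :=
        mul_nonneg (mul_nonneg hi.le (hL.m0 j)) (mul_nonneg (sq_nonneg _) (hL.a0 j))
      have h4 := mul_le_mul_of_nonneg_left (hB i hi) h3
      calc m i * m j * ((a i - a j) ^ 2 * (a i * a j))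
          = m i * m j * ((a i - a j) ^ 2 * a j) * a i := by ring
        _ ≤ _ := h4
    · simp
  exact D_alg hR0 hG.g0 hC.c0 hC.s1 hq hV hB0 rfl rfl hy hClow hmq hNq hDB hAB

end Pool.Agent.EMCW
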