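import Pool.Agent.EMCW.St

/-!
Identities and the inequality of Cauchy and Schwarz for (D).
-/

open Finset

namespace Pool.Agent.EMCW

theorem thm_DA : St_DA := by
  intro R M ι _ m a hR hl
  obtain ⟨r, rfl⟩ : ∃ r, R = r + 1 := ⟨R - 1, by omega⟩
  obtain ⟨lo, hlo⟩ : ∃ lo : ℝ → ℝ, lo = fun s => 1 - ind M s := ⟨_, rfl⟩
  have hlo0 : ∀ s, 0 ≤ lo s := by
    intro s
    rw [hlo]
    have := ind_le_one M s
    linarith
  have hpos : ∀ s, s * lo s = M * lo s - max (M - s) 0 := by
    intro s
    rw [hlo]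
    unfold ind
    simp only
    split_ifs with h
    · rw [max_eq_right (by linarith)]
      ring
    · push Not at h
      rw [max_eq_left (by linarith)]
      ring
  have hTlo : ∀ k t, Tk m a k lo t = 1 - Tk m a k (ind M) t := by
    intro k t
    rw [hlo, Tk_sub, Tk_const hl.m1]
  have hTs : ∀ k t, Tk m a k (fun s => s * lo s) t =
      M * Tk m a k lo t - Tk m a k (fun s => max (M - s) 0) t := by
    intro k t
    have e1 : (fun s => s * lo s) = fun s => M * lo s - max (M - s) 0 := funext hpos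
    rw [e1, Tk_sub, Tk_smul]
  have hmq : mq (r + 1) M m a = Tk m a (r + 1) (fun s => s * lo s) 0 := by
    rw [Tk_id_mul, zero_mul, zero_add]
    unfold mq hh
    push_cast
    congr 1
    refine sum_congr rfl fun i _ => ?_
    rw [hTlo, zero_add]
  have hE2 : ((r + 1 : ℕ) : ℝ) * ∑ i, m i * a i * (M * (1 - hh (r + 1) M m a (a i)) -
      HH (r + 1) M m a (a i)) = Tk m a (r + 1) (fun s => s * (s * lo s)) 0 := by
    rw [Tk_id_mul r (fun s => s * lo s), zero_mul, zero_add]
    unfold HH hh
    push_cast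
    congr 1
    refine sum_congr rfl fun i _ => ?_
    rw [hTs, hTlo, zero_add]
  have hq : 1 - pp (r + 1) M m a = Tk m a (r + 1) lo 0 := by
    rw [hTlo]
    rfl
  constructor
  · rw [hmq, hTs, hq]
    have e1 : ∑ i, m i * HH (r + 1) M m a (a i) = Tk m a (r + 1) (fun s => max (M - s) 0) 0 := by
      rw [Tk_succ]
      refine sum_congr rfl fun i _ => ?_
      rw [zero_add]
      rfl
    rw [e1]
    ring
  · rw [hE2, hmq, hq]
    have h1 : ∀ l : ℝ, 0 ≤ Tk m a (r + 1) lo 0 * (l * l) +
        (-2 * Tk m a (r + 1) (fun s => s * lo s) 0) * l +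
        Tk m a (r + 1) (fun s => s * (s * lo s)) 0 := by
      intro l
      have h2 : 0 ≤ Tk m a (r + 1) (fun s => (s - l) ^ 2 * lo s) 0 :=
        Tk_nonneg hl.m0 _ (fun s => mul_nonneg (sq_nonneg _) (hlo0 s)) _
      have e1 : (fun s => (s - l) ^ 2 * lo s) =
          fun s => (s * (s * lo s) - (2 * l) * (s * lo s)) + (l * l) * lo s := by
        funext s
        ring
      rw [e1, Tk_add, Tk_sub, Tk_smul, Tk_smul] at h2
      linarith
    have h2 := discrim_le_zero h1
    unfold discrim at h2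
    nlinarith

end Pool.Agent.EMCW
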