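import Pool.Agent.EMCW.St

/-!
The upper bound for the covariance in (D).
-/

open Finset

namespace Pool.Agent.EMCW

section MDB

variable {ι : Type} [Fintype ι] {m a : ι → ℝ} {M x : ℝ}

theorem MDB_symm (G : ι → ι → ℝ) (hs : ∀ i j, G i j = G j i) (h0 : ∀ i j, a i = a j → G i j = 0) :
    ∑ i, ∑ j, G i j = 2 * ∑ i, ∑ j, (if a j < a i then G i j else 0) := by
  have h1 : ∀ i j, G i j = (if a j < a i then G i j else 0) + (if a i < a j then G j i else 0) := by
    intro i j
    rcases lt_trichotomy (a i) (a j) with h | h | h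
    · rw [if_neg (not_lt.mpr h.le), if_pos h, hs i j, zero_add]
    · rw [if_neg (by rw [h]; exact lt_irrefl _), if_neg (by rw [h]; exact lt_irrefl _), h0 i j h,
        add_zero]
    · rw [if_pos h, if_neg (not_lt.mpr h.le), add_zero]
  have h2 : ∑ i, ∑ j, G i j = ∑ i, ∑ j, (if a j < a i then G i j else 0) +
      ∑ i, ∑ j, (if a i < a j then G j i else 0) := by
    rw [← Finset.sum_add_distrib]
    refine Finset.sum_congr rfl fun i _ => ?_
    rw [← Finset.sum_add_distrib]
    exact Finset.sum_congr rfl fun j _ => h1 i j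
  have h3 : ∑ i, ∑ j, (if a i < a j then G j i else 0) =
      ∑ i, ∑ j, (if a j < a i then G i j else 0) := by
    rw [Finset.sum_comm]
  rw [h2, h3]
  ring

/-- the covariance as a sum over ordered pairs -/
theorem MDB_cov (h1 : ∑ i, m i = 1) (h2 : ∑ i, m i * a i = 1) (f : ι → ℝ) :
    ∑ i, m i * f i - ∑ i, m i * a i * f i =
      ∑ i, ∑ j, (if a j < a i then m i * m j * ((a i - a j) * (f j - f i)) else 0) := by
  have h3 := MDB_symm (a := a) (fun i j => m i * m j * ((a i - a j) * (f j - f i)))
    (fun i j => by ring) (fun i j h => by rw [h]; ring)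
  have h4 : ∑ i, ∑ j, m i * m j * ((a i - a j) * (f j - f i)) =
      2 * (∑ i, m i * f i - ∑ i, m i * a i * f i) := by
    have h5 : ∀ i, ∑ j, m i * m j * ((a i - a j) * (f j - f i)) =
        m i * a i * (∑ j, m j * f j) - m i * a i * f i * (∑ j, m j) -
          m i * (∑ j, m j * a j * f j) + m i * f i * (∑ j, m j * a j) := by
      intro i
      rw [Finset.mul_sum, Finset.mul_sum, Finset.mul_sum, Finset.mul_sum,
        ← Finset.sum_sub_distrib, ← Finset.sum_sub_distrib, ← Finset.sum_add_distrib]
      exact Finset.sum_congr rfl fun j _ => by ring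
    simp only [h5, h1, h2, mul_one]
    rw [Finset.sum_add_distrib, Finset.sum_sub_distrib, Finset.sum_sub_distrib,
      ← Finset.sum_mul, ← Finset.sum_mul, h1, h2]
    ring
  rw [h3] at h4
  linarith

theorem MDB_HH (h0 : ∀ i, 0 ≤ m i) (h1 : ∑ i, m i = 1) (R : ℕ) (M : ℝ) {x y : ℝ} (h : x ≤ y) :
    HH R M m a x - HH R M m a y ≤ (y - x) * (1 - hh R M m a x) := by
  unfold HH hh
  have e1 := Tk_shift (m := m) (a := a) (R - 1) (fun s => max (M - s) 0) x 0
  have e2 := Tk_shift (m := m) (a := a) (R - 1) (fun s => max (M - s) 0) y 0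
  have e3 := Tk_shift (m := m) (a := a) (R - 1) (ind M) x 0
  rw [zero_add] at e1 e2 e3
  rw [← e1, ← e2, ← e3, ← Tk_sub]
  have e4 : (y - x) * (1 - Tk m a (R - 1) (fun s => ind M (s + x)) 0) =
      Tk m a (R - 1) (fun s => (y - x) * (1 - ind M (s + x))) 0 := by
    rw [Tk_smul (m := m) (a := a) (R - 1) (y - x) (fun s => 1 - ind M (s + x)),
      Tk_sub (m := m) (a := a) (R - 1) (fun _ => 1) (fun s => ind M (s + x)), Tk_const h1]
  rw [e4]
  refine Tk_mono h0 _ (fun s => ?_) _
  unfold ind
  split_ifs with h2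
  · rw [max_eq_right (by linarith), max_eq_right (by linarith)]
    linarith
  · push Not at h2
    rw [max_eq_left (by linarith)]
    have := le_max_left (M - (s + y)) 0
    linarith

theorem thm_DB : St_DB := by
  intro R g K c s ι _ m a hGK hC
  have h0 := hC.law.m0
  have h1 := hC.law.m1
  have hmean := hC.law.mean
  have ha0 := hC.law.a0
  have hR : 1 ≤ R := by have := hGK.hR; omega
  set M : ℝ := R + g with hM
  set q := 1 - pp R M m a with hq
  set cc := c * (1 - s) with hcc
  have hs0 := hC.s0
  have hc0 := hC.c0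
  -- the bound for `1 - h` at an atom
  have hb : ∀ j, 0 < m j → 1 - hh R M m a (a j) ≤ q + c * (1 + s) - cc * a j := by
    intro j hj
    have e1 : 1 - hh R M m a (a j) = q + ∑ i, m i * (hh R M m a (a i) - hh R M m a (a j)) := by
      rw [hq, pp_eq hR]
      simp only [mul_sub, Finset.sum_sub_distrib, ← Finset.sum_mul, h1]
      ring
    have e2 : ∑ i, m i * (hh R M m a (a i) - hh R M m a (a j)) ≤
        ∑ i, m i * (c * (a i - a j) + c * s * (a i + a j)) := by
      refine Finset.sum_le_sum fun i _ => ?_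
      rcases (h0 i).eq_or_lt with hi | hi
      · rw [← hi]; simp
      · refine mul_le_mul_of_nonneg_left ?_ hi.le
        have hai := ha0 i
        have haj := ha0 j
        have hcs : 0 ≤ c * s := mul_nonneg hc0.le hs0
        rcases le_total (a j) (a i) with hij | hij
        · have := (hC.H1 j i hj hi hij).2
          nlinarith [mul_nonneg hcs haj]
        · have := (hC.H1 i j hi hj hij).1
          nlinarith [mul_nonneg hcs hai]
    have e3 : ∑ i, m i * (c * (a i - a j) + c * s * (a i + a j)) =
        c * (1 - a j) + c * s * (1 + a j) := by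
      have e4 : ∀ i, m i * (c * (a i - a j) + c * s * (a i + a j)) =
          (c + c * s) * (m i * a i) + (c * s * a j - c * a j) * m i := fun i => by ring
      simp only [e4, Finset.sum_add_distrib, ← Finset.mul_sum, h1, hmean]
      ring
    rw [e1, hcc]
    rw [e3] at e2
    linarith
  rw [MDB_cov h1 hmean (fun i => HH R M m a (a i))]
  have hV := MDB_cov h1 hmean (fun i => - a i)
  have hV2 : ∑ i, m i * -a i - ∑ i, m i * a i * -a i = m2 m a - 1 := by
    have e1 : ∑ i, m i * -a i = -∑ i, m i * a i := by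
      rw [← Finset.sum_neg_distrib]
      exact Finset.sum_congr rfl fun i _ => by ring
    have e2 : ∑ i, m i * a i * -a i = -m2 m a := by
      unfold m2
      rw [← Finset.sum_neg_distrib]
      exact Finset.sum_congr rfl fun i _ => by ring
    rw [e1, e2, hmean]
    ring
  rw [hV2] at hV
  rw [hV, Finset.sum_mul, Finset.mul_sum, ← Finset.sum_sub_distrib]
  refine Finset.sum_le_sum fun i _ => ?_
  rw [Finset.sum_mul, Finset.mul_sum, ← Finset.sum_sub_distrib]
  refine Finset.sum_le_sum fun j _ => ?_
  split_ifs with hij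
  · rcases (h0 i).eq_or_lt with hi | hi
    · rw [← hi]; simp
    rcases (h0 j).eq_or_lt with hj | hj
    · rw [← hj]; simp
    have e1 := MDB_HH (a := a) h0 h1 R M hij.le
    have e2 := hb j hj
    have e3 : HH R M m a (a j) - HH R M m a (a i) ≤
        (a i - a j) * (q + c * (1 + s) - cc * a j) :=
      e1.trans (mul_le_mul_of_nonneg_left e2 (by linarith))
    have e4 := mul_le_mul_of_nonneg_left e3
      (mul_nonneg (mul_nonneg hi.le hj.le) (sub_nonneg.mpr hij.le))
    have e5 : m i * m j * ((a i - a j) * (HH R M m a (a j) - HH R M m a (a i))) =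
        m i * m j * (a i - a j) * (HH R M m a (a j) - HH R M m a (a i)) := by ring
    rw [e5]
    refine e4.trans (le_of_eq ?_)
    ring
  · simp

end MDB

end Pool.Agent.EMCW
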