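import Pool.Agent.EMCW.St

/-!
# Exponential tilts: the derivative of `q(s)`
-/

set_option autoImplicit false

open Finset

namespace Pool.Agent.EMCW

namespace MDer

variable {ι : Type} [Fintype ι]

/-- the integrand -/
noncomputable def FF (M s v : ℝ) : ℝ := if v < M then Real.exp (-s * v) else 0

lemma FF_nonneg (M s v : ℝ) : 0 ≤ FF M s v := by
  unfold FF
  split_ifs
  · exact (Real.exp_pos _).le
  · exact le_rfl

lemma FF_le (M s v : ℝ) : FF M s v ≤ Real.exp (-s * v) := by
  unfold FF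
  split_ifs
  · exact le_rfl
  · exact (Real.exp_pos _).le

lemma hasDerivAt_exp (s b : ℝ) :
    HasDerivAt (fun u : ℝ => Real.exp (-u * b)) (-(b * Real.exp (-s * b))) s := by
  have h1 : HasDerivAt (fun u : ℝ => -u * b) (-1 * b) s := (hasDerivAt_neg s).mul_const b
  have h2 := h1.exp
  have h3 : Real.exp (-s * b) * (-1 * b) = -(b * Real.exp (-s * b)) := by ring
  rw [h3] at h2
  exact h2

lemma hasDerivAt_FF (M s v : ℝ) :
    HasDerivAt (fun u => FF M u v) (-(v * FF M s v)) s := by
  unfold FF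
  by_cases h : v < M
  · simp only [if_pos h]
    exact hasDerivAt_exp s v
  · simp only [if_neg h, mul_zero, neg_zero]
    exact hasDerivAt_const s (0 : ℝ)

lemma hasDerivAt_Tk (m a : ι → ℝ) (M s : ℝ) (k : ℕ) (t : ℝ) :
    HasDerivAt (fun u => Tk m a k (FF M u) t) (-(Tk m a k (fun v => v * FF M s v) t)) s := by
  induction k generalizing t with
  | zero => exact hasDerivAt_FF M s t
  | succ k ih =>
    simp only [Tk_succ]
    rw [← Finset.sum_neg_distrib]
    have h1 : ∀ i ∈ (univ : Finset ι), HasDerivAt (fun u => m i * Tk m a k (FF M u) (t + a i))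
        (-(m i * Tk m a k (fun v => v * FF M s v) (t + a i))) s := by
      intro i _
      have h2 := (ih (t + a i)).const_mul (m i)
      rw [mul_neg] at h2
      exact h2
    exact HasDerivAt.fun_sum h1

lemma Gs_eq (R : ℕ) (M : ℝ) (m a : ι → ℝ) (s x : ℝ) :
    Gs R M m a s x = Tk m a (R - 1) (FF M s) x := rfl

lemma N_eq (r : ℕ) (M : ℝ) (m a : ι → ℝ) (s : ℝ) :
    ∑ i, m i * Gs (r + 1) M m a s (a i) = Tk m a (r + 1) (FF M s) 0 := by
  rw [Tk_succ]
  refine sum_congr rfl fun i _ => ?_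
  rw [Gs_eq, zero_add, Nat.add_sub_cancel]

lemma hasDerivAt_N (r : ℕ) (M : ℝ) (m a : ι → ℝ) (s : ℝ) :
    HasDerivAt (fun u => ∑ i, m i * Gs (r + 1) M m a u (a i))
      (-(((r : ℝ) + 1) * ∑ i, m i * a i * Gs (r + 1) M m a s (a i))) s := by
  have h1 := hasDerivAt_Tk m a M s (r + 1) 0
  rw [Tk_id_mul, zero_mul, zero_add] at h1
  simp only [N_eq]
  refine h1.congr_deriv ?_
  congr 2
  refine sum_congr rfl fun i _ => ?_
  rw [Gs_eq, zero_add, Nat.add_sub_cancel]

lemma hasDerivAt_ph (m a : ι → ℝ) (s : ℝ) :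
    HasDerivAt (ph m a) (-(∑ i, m i * a i * Real.exp (-s * a i))) s := by
  unfold ph
  rw [← Finset.sum_neg_distrib]
  refine HasDerivAt.fun_sum fun i _ => ?_
  have h2 := (hasDerivAt_exp s (a i)).const_mul (m i)
  have h3 : m i * -(a i * Real.exp (-s * a i)) = -(m i * a i * Real.exp (-s * a i)) := by ring
  rw [h3] at h2
  exact h2

lemma ph_pos {m a : ι → ℝ} (h0 : ∀ i, 0 ≤ m i) (h1 : ∑ i, m i = 1) (s : ℝ) : 0 < ph m a s := by
  unfold ph
  have h2 : ∃ i ∈ (univ : Finset ι), 0 < m i := by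
    by_contra hcon
    push Not at hcon
    have h3 : ∑ i, m i ≤ 0 := sum_nonpos hcon
    linarith
  obtain ⟨i, hi, h2⟩ := h2
  exact sum_pos' (fun j _ => mul_nonneg (h0 j) (Real.exp_pos _).le)
    ⟨i, hi, mul_pos h2 (Real.exp_pos _)⟩

lemma Tk_exp (m a : ι → ℝ) (s : ℝ) (k : ℕ) (t : ℝ) :
    Tk m a k (fun v => Real.exp (-s * v)) t = Real.exp (-s * t) * ph m a s ^ k := by
  induction k generalizing t with
  | zero => simp [Tk_zero]
  | succ k ih =>
    rw [Tk_succ]
    simp only [ih]
    have h1 : ∀ i, m i * (Real.exp (-s * (t + a i)) * ph m a s ^ k) =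
        Real.exp (-s * t) * ph m a s ^ k * (m i * Real.exp (-s * a i)) := by
      intro i
      rw [mul_add, Real.exp_add]
      ring
    simp only [h1]
    rw [← mul_sum, pow_succ, ← mul_assoc]
    rfl

/-- antisymmetrisation -/
lemma antisymm (m a E G : ι → ℝ) :
    ∑ i, ∑ j, m i * m j * (if a j < a i then (a i - a j) * (E i * G j - E j * G i) else 0) =
      (∑ i, m i * G i) * (∑ i, m i * a i * E i) - (∑ i, m i * a i * G i) * ∑ i, m i * E i := by
  have h1 : ∑ i, ∑ j, m i * m j * (if a j < a i then (a i - a j) * (E i * G j - E j * G i) else 0) =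
      ∑ i, ∑ j, m i * m j * (if a j < a i then (a i - a j) * (E i * G j) else 0) -
      ∑ i, ∑ j, m i * m j * (if a j < a i then (a i - a j) * (E j * G i) else 0) := by
    rw [← sum_sub_distrib]
    refine sum_congr rfl fun i _ => ?_
    rw [← sum_sub_distrib]
    refine sum_congr rfl fun j _ => ?_
    split_ifs <;> ring
  have h2 : ∑ i, ∑ j, m i * m j * (if a j < a i then (a i - a j) * (E i * G j) else 0) =
      ∑ i, ∑ j, m i * m j * (if a i < a j then (a j - a i) * (E j * G i) else 0) := by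
    rw [sum_comm]
    refine sum_congr rfl fun i _ => sum_congr rfl fun j _ => ?_
    rw [mul_comm (m j)]
  rw [h1, h2, ← sum_sub_distrib, sum_mul_sum, sum_mul_sum, ← sum_sub_distrib]
  refine sum_congr rfl fun i _ => ?_
  rw [← sum_sub_distrib, ← sum_sub_distrib]
  refine sum_congr rfl fun j _ => ?_
  rcases lt_trichotomy (a i) (a j) with h | h | h
  · rw [if_pos h, if_neg (not_lt.2 h.le)]
    ring
  · rw [if_neg (not_lt.2 h.ge), if_neg (not_lt.2 h.le), h]
    ring
  · rw [if_neg (not_lt.2 h.le), if_pos h]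
    ring

end MDer

open MDer

theorem thm_Der : St_Der := by
  intro R M s ι _ m a hR hL
  obtain ⟨r, rfl⟩ : ∃ r, R = r + 1 := ⟨R - 1, by omega⟩
  have hp := ph_pos (a := a) hL.m0 hL.m1 s
  refine ⟨?_, ?_, ?_, ?_⟩
  · have h1 := hasDerivAt_N r M m a s
    have h2 := (hasDerivAt_ph m a s).fun_pow (r + 1)
    have h3 := h1.fun_div h2 (pow_pos hp _).ne'
    refine h3.congr_deriv ?_
    rw [antisymm m a (fun i => Real.exp (-s * a i)) (fun i => Gs (r + 1) M m a s (a i))]
    have h4 : ∑ i, m i * Real.exp (-s * a i) = ph m a s := rfl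
    rw [h4, Nat.add_sub_cancel]
    generalize ∑ i, m i * Gs (r + 1) M m a s (a i) = A
    generalize ∑ i, m i * a i * Gs (r + 1) M m a s (a i) = B
    generalize ∑ i, m i * a i * Real.exp (-s * a i) = C
    push_cast
    field_simp
    ring
  · unfold qs
    rw [N_eq]
    have h1 : ph m a 0 = 1 := by
      unfold ph
      simp [hL.m1]
    have h2 : FF M 0 = fun v => 1 - ind M v := by
      funext v
      unfold FF ind
      by_cases h : v < M
      · rw [if_pos h, if_neg (not_le.2 h)]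
        simp
      · rw [if_neg h, if_pos (not_lt.1 h)]
        simp
    rw [h1, one_pow, div_one, h2, Tk_sub, Tk_const hL.m1, pp]
  · unfold qs
    rw [N_eq]
    exact div_nonneg (Tk_nonneg hL.m0 _ (FF_nonneg M s) _) (pow_pos hp _).le
  · unfold qs
    rw [N_eq, div_le_one (pow_pos hp _)]
    refine (Tk_mono hL.m0 (r + 1) (FF_le M s) 0).trans ?_
    rw [Tk_exp, mul_zero, Real.exp_zero, one_mul]

end Pool.Agent.EMCW
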