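import Pool.Agent.EMCW.StFS

/-!
Stability for identically distributed variables, every mean (module FS).
-/

open Finset

namespace Pool.Agent.EMCW

open Pool.Agent.EMC

section

variable {ι : Type} [Fintype ι]

/-- masses with an additional point -/
noncomputable def FS_m (t : ℝ) (m : ι → ℝ) : Option ι → ℝ := fun o => o.elim t fun i => (1 - t) * m i

/-- positions with an additional point -/
noncomputable def FS_a (z : ℝ) (a : ι → ℝ) : Option ι → ℝ := fun o => o.elim z a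

theorem FS_sum (t z : ℝ) (m a : ι → ℝ) (G : ℝ → ℝ) :
    ∑ o, FS_m t m o * G (FS_a z a o) = t * G z + (1 - t) * ∑ i, m i * G (a i) := by
  rw [Fintype.sum_option, Finset.mul_sum]
  congr 1
  exact Finset.sum_congr rfl fun i _ => mul_assoc _ _ _

theorem FS_law {M x : ℝ} {m a : ι → ℝ} (h : IsLaw M x m a) {t z y : ℝ} (ht0 : 0 ≤ t)
    (ht1 : t ≤ 1) (hz0 : 0 ≤ z) (hzM : z ≤ M) (hy : t * z + (1 - t) * x = y) :
    IsLaw M y (FS_m t m) (FS_a z a) where
  m0 := by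
    rintro (_ | i)
    · exact ht0
    · exact mul_nonneg (by linarith) (h.m0 i)
  m1 := by
    have h1 := FS_sum t z m a (fun _ => 1)
    simp only [mul_one] at h1
    rw [h1, h.m1]
    ring
  a0 := by
    rintro (_ | i)
    · exact hz0
    · exact h.a0 i
  aM := by
    rintro (_ | i)
    · exact hzM
    · exact h.aM i
  mean := by
    have h1 := FS_sum t z m a (fun s => s)
    rw [h1, h.mean]
    exact hy

/-- the walk with an additional step `M` below the level `M` -/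
theorem FS_Tk_M {M : ℝ} {m a : ι → ℝ} (hM : 0 ≤ M) (ha : ∀ i, 0 ≤ a i) (t : ℝ) (F : ℝ → ℝ)
    (hF : ∀ s, M ≤ s → F s = 0) (k : ℕ) (s : ℝ) (hs : 0 ≤ s) :
    Tk (FS_m t m) (FS_a M a) k F s = (1 - t) ^ k * Tk m a k F s := by
  have h0 : ∀ (k : ℕ) (s : ℝ), M ≤ s → Tk (FS_m t m) (FS_a M a) k F s = 0 := by
    intro k
    induction k with
    | zero => exact fun s hs => hF s hs
    | succ k ih =>
      intro s hs
      rw [Tk_succ]
      refine Finset.sum_eq_zero fun o _ => ?_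
      rw [ih, mul_zero]
      rcases o with _ | i
      · show M ≤ s + M
        linarith
      · have := ha i
        show M ≤ s + a i
        linarith
  induction k generalizing s with
  | zero => rw [Tk_zero, Tk_zero, pow_zero, one_mul]
  | succ k ih =>
    rw [Tk_succ, Tk_succ, Fintype.sum_option]
    have h1 : Tk (FS_m t m) (FS_a M a) k F (s + FS_a M a none) = 0 := by
      apply h0
      show M ≤ s + M
      linarith
    rw [h1, mul_zero, zero_add, Finset.mul_sum]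
    refine Finset.sum_congr rfl fun i _ => ?_
    have h2 : Tk (FS_m t m) (FS_a M a) k F (s + FS_a M a (some i)) =
        (1 - t) ^ k * Tk m a k F (s + a i) := ih (s + a i) (by have := ha i; linarith)
    rw [h2]
    show (1 - t) * m i * ((1 - t) ^ k * Tk m a k F (s + a i)) =
      (1 - t) ^ (k + 1) * (m i * Tk m a k F (s + a i))
    ring

theorem FS_qq (R : ℕ) {M : ℝ} {m a : ι → ℝ} (h1 : ∑ i, m i = 1) :
    1 - pp R M m a = Tk m a R (fun s => 1 - ind M s) 0 := by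
  have h2 := Tk_sub (m := m) (a := a) R (fun _ => 1) (ind M) 0
  rw [Tk_const h1] at h2
  exact h2.symm

theorem FS_star {M x y : ℝ} {m a : ι → ℝ} (h : IsLaw M x m a) (R : ℕ) (hM : 0 ≤ M) {t : ℝ}
    (ht0 : 0 ≤ t) (ht1 : t ≤ 1) (hy : t * M + (1 - t) * x = y) :
    1 - pp R M (FS_m t m) (FS_a M a) = (1 - t) ^ R * (1 - pp R M m a) := by
  have h' := FS_law h ht0 ht1 hM le_rfl hy
  rw [FS_qq R h'.m1, FS_qq R h.m1]
  refine FS_Tk_M hM h.a0 t _ (fun s hs => ?_) R 0 le_rfl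
  unfold ind
  rw [if_pos hs, sub_self]

/-- the walk with an additional step `0` -/
theorem FS_Tk_0 {m a : ι → ℝ} (hm : ∀ i, 0 ≤ m i) {t : ℝ} (ht0 : 0 ≤ t) (ht1 : t ≤ 1) (F : ℝ → ℝ)
    (hF : ∀ s, 0 ≤ F s) (k : ℕ) (s : ℝ) :
    (1 - t) ^ k * Tk m a k F s ≤ Tk (FS_m t m) (FS_a 0 a) k F s := by
  induction k generalizing s with
  | zero => rw [Tk_zero, Tk_zero, pow_zero, one_mul]
  | succ k ih =>
    rw [Tk_succ (m := FS_m t m), Fintype.sum_option]
    have h1 : 0 ≤ FS_m t m none * Tk (FS_m t m) (FS_a 0 a) k F (s + FS_a 0 a none) := by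
      refine mul_nonneg ht0 (Tk_nonneg ?_ _ hF _)
      rintro (_ | i)
      · exact ht0
      · exact mul_nonneg (by linarith) (hm i)
    have h2 : (1 - t) ^ (k + 1) * Tk m a (k + 1) F s ≤
        ∑ i, FS_m t m (some i) * Tk (FS_m t m) (FS_a 0 a) k F (s + FS_a 0 a (some i)) := by
      rw [Tk_succ, Finset.mul_sum]
      refine Finset.sum_le_sum fun i _ => ?_
      have h3 := ih (s + a i)
      have h4 : 0 ≤ (1 - t) * m i := mul_nonneg (by linarith) (hm i)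
      calc (1 - t) ^ (k + 1) * (m i * Tk m a k F (s + a i))
          = ((1 - t) * m i) * ((1 - t) ^ k * Tk m a k F (s + a i)) := by ring
        _ ≤ ((1 - t) * m i) * Tk (FS_m t m) (FS_a 0 a) k F (s + a i) :=
            mul_le_mul_of_nonneg_left h3 h4
    linarith

end

theorem FS_lawY {M x : ℝ} (hM : 0 < M) (Y : Finset ℕ) (w : ℕ → ℝ) (hY : Y.Nonempty)
    (h0 : ∀ v ∈ Y, 0 ≤ w v) (h1 : ∀ v ∈ Y, w v ≤ 1) (hx : ∑ v ∈ Y, w v = x * Y.card) :
    IsLaw M (M * x) (fun _ : Y => 1 / (Y.card : ℝ)) (fun v : Y => M * w v) where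
  m0 := fun _ => by positivity
  m1 := by
    have hN : (Y.card : ℝ) ≠ 0 := by
      have := hY.card_pos
      positivity
    rw [Finset.sum_const, Finset.card_univ, Fintype.card_coe, nsmul_eq_mul]
    field_simp
  a0 := fun v => mul_nonneg hM.le (h0 v v.2)
  aM := fun v => by
    have := h1 v v.2
    nlinarith
  mean := by
    have hN : (Y.card : ℝ) ≠ 0 := by
      have := hY.card_pos
      positivity
    rw [← Finset.mul_sum, ← Finset.mul_sum, Finset.sum_coe_sort Y (fun v => w v), hx]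
    field_simp

theorem FS_sumC {M : ℝ} (hM : 0 < M) (R : ℕ) (Y : Finset ℕ) (w : ℕ → ℝ) :
    ∑ v : Y, 1 / (Y.card : ℝ) * (M * w v * |M * w v - M / R|) =
      M ^ 2 * (∑ v ∈ Y, w v * |w v - 1 / R|) / Y.card := by
  have h1 : ∀ v : Y, 1 / (Y.card : ℝ) * (M * w v * |M * w v - M / R|) =
      M ^ 2 / Y.card * (w v * |w v - 1 / R|) := by
    intro v
    have h2 : M * w v - M / R = M * (w v - 1 / R) := by ring
    rw [h2, abs_mul, abs_of_pos hM]
    ring
  rw [Finset.sum_congr rfl fun v _ => h1 v, ← Finset.mul_sum,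
    Finset.sum_coe_sort Y (fun v => w v * |w v - 1 / R|)]
  ring

theorem FS_sumS {M : ℝ} (Y : Finset ℕ) (w : ℕ → ℝ) :
    ∑ v : Y, 1 / (Y.card : ℝ) * (M * w v * (M - M * w v)) =
      M ^ 2 * (∑ v ∈ Y, w v * (1 - w v)) / Y.card := by
  have h1 : ∀ v : Y, 1 / (Y.card : ℝ) * (M * w v * (M - M * w v)) =
      M ^ 2 / Y.card * (w v * (1 - w v)) := by
    intro v
    ring
  rw [Finset.sum_congr rfl fun v _ => h1 v, ← Finset.mul_sum,
    Finset.sum_coe_sort Y (fun v => w v * (1 - w v))]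
  ring

/-- `θ M^2 S / N ≤ tau` with `θ M^2 ≥ 1` gives `S ≤ tau N` -/
theorem FS_div {A S N tau : ℝ} (hA : 1 ≤ A) (hS : 0 ≤ S) (hN : 0 < N)
    (h : A * S / N ≤ tau) : S ≤ tau * N := by
  rw [div_le_iff₀ hN] at h
  nlinarith

/-- the conclusion near the clique -/
theorem FS_conC {M : ℝ} (hM0 : 0 < M) (R : ℕ) (Y : Finset ℕ) (w : ℕ → ℝ) {t z tau : ℝ}
    (hN : (0 : ℝ) < Y.card) (hw0 : ∀ v ∈ Y, 0 ≤ w v) (ht0 : 0 ≤ t) (ht1 : 0 ≤ 1 - t)
    (hz : 0 ≤ z) (hA : 1 ≤ (1 - t) * M ^ 2)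
    (h : ∑ o, FS_m t (fun _ : Y => 1 / (Y.card : ℝ)) o *
          FS_a z (fun v : Y => M * w v) o * |FS_a z (fun v : Y => M * w v) o - M / R| ≤ tau) :
    ∑ v ∈ Y, w v * |w v - 1 / R| ≤ tau * Y.card ∧ t * (z * |z - M / R|) ≤ tau := by
  have hC0 : 0 ≤ ∑ v ∈ Y, w v * |w v - 1 / R| :=
    Finset.sum_nonneg fun v hv => mul_nonneg (hw0 v hv) (abs_nonneg _)
  have h1 := FS_sum t z (fun _ : Y => 1 / (Y.card : ℝ)) (fun v : Y => M * w v)
    (fun s => s * |s - M / R|)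
  have h2 : ∑ o, FS_m t (fun _ : Y => 1 / (Y.card : ℝ)) o *
      FS_a z (fun v : Y => M * w v) o * |FS_a z (fun v : Y => M * w v) o - M / R| =
      t * (z * |z - M / R|) + (1 - t) * (M ^ 2 * (∑ v ∈ Y, w v * |w v - 1 / R|) / Y.card) := by
    rw [← FS_sumC hM0 R Y w, ← h1]
    exact Finset.sum_congr rfl fun o _ => mul_assoc _ _ _
  rw [h2] at h
  have hP1 : 0 ≤ t * (z * |z - M / R|) := by positivity
  have hP2 : 0 ≤ (1 - t) * (M ^ 2 * (∑ v ∈ Y, w v * |w v - 1 / R|) / Y.card) := by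
    positivity
  refine ⟨FS_div hA hC0 hN ?_, by linarith⟩
  have h7 : (1 - t) * M ^ 2 * (∑ v ∈ Y, w v * |w v - 1 / R|) / Y.card =
      (1 - t) * (M ^ 2 * (∑ v ∈ Y, w v * |w v - 1 / R|) / Y.card) := by ring
  rw [h7]
  linarith

/-- the conclusion near the star -/
theorem FS_conS {M : ℝ} (Y : Finset ℕ) (w : ℕ → ℝ) {t z tau : ℝ}
    (hN : (0 : ℝ) < Y.card) (hw0 : ∀ v ∈ Y, 0 ≤ w v) (hw1 : ∀ v ∈ Y, w v ≤ 1)
    (hz : z * (M - z) = 0) (hA : 1 ≤ (1 - t) * M ^ 2)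
    (h : ∑ o, FS_m t (fun _ : Y => 1 / (Y.card : ℝ)) o *
          FS_a z (fun v : Y => M * w v) o * (M - FS_a z (fun v : Y => M * w v) o) ≤ tau) :
    ∑ v ∈ Y, w v * (1 - w v) ≤ tau * Y.card := by
  have hS0 : 0 ≤ ∑ v ∈ Y, w v * (1 - w v) :=
    Finset.sum_nonneg fun v hv => mul_nonneg (hw0 v hv) (by have := hw1 v hv; linarith)
  have h1 := FS_sum t z (fun _ : Y => 1 / (Y.card : ℝ)) (fun v : Y => M * w v)
    (fun s => s * (M - s))
  have h2 : ∑ o, FS_m t (fun _ : Y => 1 / (Y.card : ℝ)) o *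
      FS_a z (fun v : Y => M * w v) o * (M - FS_a z (fun v : Y => M * w v) o) =
      t * (z * (M - z)) + (1 - t) * (M ^ 2 * (∑ v ∈ Y, w v * (1 - w v)) / Y.card) := by
    rw [← FS_sumS Y w, ← h1]
    exact Finset.sum_congr rfl fun o _ => mul_assoc _ _ _
  rw [h2, hz, mul_zero, zero_add] at h
  refine FS_div hA hS0 hN ?_
  have h7 : (1 - t) * M ^ 2 * (∑ v ∈ Y, w v * (1 - w v)) / Y.card =
      (1 - t) * (M ^ 2 * (∑ v ∈ Y, w v * (1 - w v)) / Y.card) := by ring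
  rw [h7]
  exact h

theorem FS_MR {M : ℝ} {R : ℕ} (hM : 4 < M) (hR : (4 : ℝ) ≤ R) : 1 ≤ M * |M - M / R| := by
  have h5 : M / R ≤ M / 4 := div_le_div_of_nonneg_left (by linarith) (by norm_num) hR
  have h6 : M - M / R ≤ |M - M / R| := le_abs_self _
  have h7 : 1 ≤ |M - M / R| := by linarith
  nlinarith

/-- numbers for small means -/
theorem FS_numA {M x t : ℝ} (hM : 4 < M) (hxM : x ≤ 1 / M)
    (ht : t = 1 - (1 - 1 / M) / (1 - x)) :
    (1 - t) * (1 - x) = 1 - 1 / M ∧ 0 ≤ 1 - t ∧ 0 ≤ t ∧ t * M + (1 - t) * (M * x) = 1 := by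
  have hM0 : 0 < M := by linarith
  have hM1 : 1 / M < 1 / 4 := one_div_lt_one_div_of_lt (by norm_num) hM
  have hx4 : 0 < 1 - x := by linarith
  have ht' : (1 - t) * (1 - x) = 1 - 1 / M := by
    rw [ht]
    field_simp
    ring
  refine ⟨ht', ?_, ?_, ?_⟩
  · rw [ht]
    have : 0 ≤ (1 - 1 / M) / (1 - x) := div_nonneg (by linarith) hx4.le
    linarith
  · rw [ht, sub_nonneg, div_le_one hx4]
    linarith
  · have h1 : t * M + (1 - t) * (M * x) = M - M * ((1 - t) * (1 - x)) := by ring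
    rw [h1, ht']
    field_simp
    ring

theorem FS_numA2 {M x t : ℝ} (hM : 4 < M) (hx0 : 0 ≤ x)
    (ht' : (1 - t) * (1 - x) = 1 - 1 / M) (ht1 : 0 ≤ 1 - t) : 1 ≤ (1 - t) * M ^ 2 := by
  have hM1 : 1 / M < 1 / 4 := one_div_lt_one_div_of_lt (by norm_num) hM
  have h1 : (1 - t) * (1 - x) ≤ (1 - t) * 1 := mul_le_mul_of_nonneg_left (by linarith) ht1
  have h2 : 3 / 4 ≤ 1 - t := by linarith
  have h3 : 16 ≤ M ^ 2 := by nlinarith
  nlinarith

theorem FS_numA3 {M x t tau : ℝ} (hx0 : 0 ≤ x) (ht0 : 0 ≤ t)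
    (ht' : (1 - t) * (1 - x) = 1 - 1 / M) {B : ℝ} (hB1 : 1 ≤ B)
    (h : t * B ≤ tau) : 1 / M - tau ≤ x := by
  have h8 : t ≤ t * B := le_mul_of_one_le_right ht0 hB1
  have h9 : 1 / M - x = t * (1 - x) := by
    have : (1 - t) * (1 - x) = 1 - x - t * (1 - x) := by ring
    linarith
  have h10 : t * (1 - x) ≤ t := by
    have : t * (1 - x) = t - t * x := by ring
    have : 0 ≤ t * x := mul_nonneg ht0 hx0
    linarith
  linarith

theorem FS_powle {s et : ℝ} (R : ℕ) (h0 : 0 ≤ s) (h1 : s ≤ 1) (het : 0 < et) :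
    s ^ R * et ≤ et := by
  have : s ^ R ≤ 1 := pow_le_one₀ h0 h1
  calc s ^ R * et ≤ 1 * et := mul_le_mul_of_nonneg_right this het.le
    _ = et := one_mul _

/-- the probability for small means -/
theorem FS_ppA {R : ℕ} {M x t q p' et : ℝ} (ht' : (1 - t) * (1 - x) = 1 - 1 / M)
    (ht0 : 0 ≤ t) (ht1 : 0 ≤ 1 - t) (het : 0 < et) (hq : q ≤ (1 - x) ^ R + et)
    (hstar : 1 - p' = (1 - t) ^ R * q) : 1 - (1 - 1 / M) ^ R - et ≤ p' := by
  have h2 : (1 - t) ^ R * q ≤ (1 - t) ^ R * ((1 - x) ^ R + et) :=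
    mul_le_mul_of_nonneg_left hq (pow_nonneg ht1 _)
  have h3 : (1 - t) ^ R * ((1 - x) ^ R + et) = (1 - 1 / M) ^ R + (1 - t) ^ R * et := by
    rw [mul_add, ← mul_pow, ht']
  have h4 := FS_powle R ht1 (by linarith) het
  linarith

/-- numbers for large means -/
theorem FS_numB {M x t : ℝ} (hM : 4 < M) (hxM : 1 / M < x) (hx1 : x ≤ 1)
    (ht : t = 1 - 1 / (M * x)) :
    0 ≤ 1 - t ∧ 0 ≤ t ∧ (1 - t) * (M * x) = 1 ∧ 1 ≤ (1 - t) * M ^ 2 := by
  have hM0 : 0 < M := by linarith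
  have hxpos : 0 < x := lt_trans (by positivity) hxM
  have hMx : 1 < M * x := by
    rw [div_lt_iff₀ hM0] at hxM
    linarith
  have htx : (1 - t) * (M * x) = 1 := by
    rw [ht]
    field_simp
    ring
  have ht1 : 0 ≤ 1 - t := by
    rw [ht, sub_sub_cancel]
    positivity
  refine ⟨ht1, ?_, htx, ?_⟩
  · rw [ht, sub_nonneg, div_le_one (by linarith)]
    exact hMx.le
  · have h1 : (1 - t) * M ^ 2 * x = M := by
      have : (1 - t) * M ^ 2 * x = ((1 - t) * (M * x)) * M := by ring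
      rw [this, htx, one_mul]
    have h2 : 0 ≤ (1 - t) * M ^ 2 := by positivity
    have h3 : (1 - t) * M ^ 2 * x ≤ (1 - t) * M ^ 2 * 1 := mul_le_mul_of_nonneg_left hx1 h2
    linarith

/-- the probability for large means -/
theorem FS_ppB {R : ℕ} {M x t p p' et : ℝ} (hM : 0 < M) (htx : (1 - t) * (M * x) = 1)
    (ht0 : 0 ≤ t) (ht1 : 0 ≤ 1 - t) (het : 0 < et) (hp : (R * x) ^ R - et ≤ p)
    (hid : (R / M) ^ R = 1 - (1 - 1 / M) ^ R)
    (h2 : (1 - t) ^ R * p ≤ p') : 1 - (1 - 1 / M) ^ R - et ≤ p' := by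
  have h3 : (1 - t) ^ R * ((R * x) ^ R - et) ≤ (1 - t) ^ R * p :=
    mul_le_mul_of_nonneg_left hp (pow_nonneg ht1 _)
  have h4 : (1 - t) ^ R * ((R * x) ^ R - et) = (R / M) ^ R - (1 - t) ^ R * et := by
    rw [mul_sub, ← mul_pow]
    congr 2
    have : (1 - t) * (R * x) = R / M * ((1 - t) * (M * x)) := by
      field_simp
    rw [this, htx, mul_one]
  have h5 := FS_powle R ht1 (by linarith) het
  linarith

/-- Stability for identically distributed variables, every mean. -/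
theorem thm_FS (hV : St_Vh) (hS : St_S) (hB : St_Brg) : St_FS := by
  intro R g K tau hGK htau
  obtain ⟨et, het, hS'⟩ := hS R g K tau hGK htau
  refine ⟨et, het, fun Y w x hY hw0 hw1 hx hq1 hq2 => ?_⟩
  have hR : (4 : ℝ) ≤ R := by exact_mod_cast hGK.hR
  obtain ⟨M, hMdef⟩ : ∃ M : ℝ, M = R + g := ⟨_, rfl⟩
  have hM4 : 4 < M := by have := hGK.g0; linarith
  have hM0 : 0 < M := by linarith
  have hN : (0 : ℝ) < Y.card := by exact_mod_cast hY.card_pos
  have hid := (hV R g K hGK).2.2.2.2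
  rw [← hMdef] at hid hS'
  have hlaw := FS_lawY hM0 Y w hY hw0 hw1 hx
  have hq := hB R M Y w hM0 hY
  have hx0 : 0 ≤ x := by
    have h1 : 0 ≤ x * Y.card := by
      rw [← hx]
      exact Finset.sum_nonneg hw0
    exact nonneg_of_mul_nonneg_left h1 hN
  have hx1 : x ≤ 1 := by
    have h1 : x * Y.card ≤ 1 * Y.card := by
      rw [← hx, one_mul]
      calc ∑ v ∈ Y, w v ≤ ∑ v ∈ Y, (1 : ℝ) := Finset.sum_le_sum hw1
        _ = Y.card := by simp
    exact le_of_mul_le_mul_right h1 hN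
  rw [← hMdef]
  by_cases hxM : x ≤ 1 / M
  · obtain ⟨t, ht⟩ : ∃ t : ℝ, t = 1 - (1 - 1 / M) / (1 - x) := ⟨_, rfl⟩
    obtain ⟨ht', ht1, ht0, hmean⟩ := FS_numA hM4 hxM ht
    have hA := FS_numA2 hM4 hx0 ht' ht1
    have hlaw' := FS_law hlaw ht0 (by linarith) hM0.le le_rfl hmean
    have hstar := FS_star hlaw R hM0.le ht0 (by linarith) hmean
    rw [← hq] at hstar
    have hpp := FS_ppA ht' ht0 ht1 het hq1 hstar
    rcases hS' _ _ _ hlaw' hpp with h | h
    · obtain ⟨h1, h2⟩ := FS_conC hM0 R Y w hN hw0 ht0 ht1 hM0.le hA h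
      exact Or.inr ⟨h1, FS_numA3 hx0 ht0 ht' (FS_MR hM4 hR) h2⟩
    · exact Or.inl (FS_conS Y w hN hw0 hw1 (by rw [sub_self, mul_zero]) hA h)
  · push Not at hxM
    obtain ⟨t, ht⟩ : ∃ t : ℝ, t = 1 - 1 / (M * x) := ⟨_, rfl⟩
    obtain ⟨ht1, ht0, htx, hA⟩ := FS_numB hM4 hxM hx1 ht
    have hmean : t * 0 + (1 - t) * (M * x) = 1 := by rw [htx, mul_zero, zero_add]
    have hlaw' := FS_law hlaw ht0 (by linarith) le_rfl hM0.le hmean
    have h2 := FS_Tk_0 hlaw.m0 ht0 (by linarith) (ind M) (ind_nonneg M) (a := fun v : Y => M * w v)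
      R 0
    have h1 : (R * x) ^ R - et ≤
        pp R M (fun _ : Y => 1 / (Y.card : ℝ)) (fun v : Y => M * w v) := by
      rw [hq] at hq2
      linarith
    have hpp := FS_ppB (p' := pp R M (FS_m t fun _ : Y => 1 / (Y.card : ℝ))
        (FS_a 0 fun v : Y => M * w v)) hM0 htx ht0 ht1 het h1 hid h2
    rcases hS' _ _ _ hlaw' hpp with h | h
    · obtain ⟨h1, h2⟩ := FS_conC hM0 R Y w hN hw0 ht0 ht1 le_rfl hA h
      exact Or.inr ⟨h1, by linarith⟩
    · exact Or.inl (FS_conS Y w hN hw0 hw1 (by rw [zero_mul]) hA h)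

end Pool.Agent.EMCW
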