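import Pool.Agent.EMCW.St

/-!
Module Gap: the gap between neighbouring atoms.
-/

open Finset

namespace Pool.Agent.EMCW

theorem Gap_arith {V Y al be : ℝ} (hV : 0 < V) (hY : 0 < Y) (hal : 0 < al) (hal1 : al ≤ 1)
    (hbe : 0 < be) (hbY : be ≤ Y) (h : al * be ≤ V) : al + be ≤ max (1 + V) (Y + V / Y) := by
  rcases le_or_gt be V with h1 | h1
  · exact le_max_of_le_left (by linarith)
  · have h2 : al ≤ V / be := by
      rw [le_div_iff₀ hbe]
      exact h
    by_contra hc
    rw [not_le, max_lt_iff] at hc
    obtain ⟨c1, c2⟩ := hc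
    have c3 : 1 + V < V / be + be := by linarith
    have c4 : Y + V / Y < V / be + be := by linarith
    have e1 : V / be * be = V := div_mul_cancel₀ V hbe.ne'
    have e2 : V / Y * Y = V := div_mul_cancel₀ V hY.ne'
    have c5 : (1 + V) * be < V + be * be := by
      have := mul_lt_mul_of_pos_right c3 hbe
      rw [add_mul (V / be) be be, e1] at this
      exact this
    have c6 : 0 < (be - 1) * (be - V) := by nlinarith
    have c7 : 1 < be := by
      by_contra h3
      rw [not_lt] at h3
      have := mul_nonneg (sub_nonneg.mpr h3) (sub_nonneg.mpr h1.le)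
      nlinarith
    have c8 : (Y + V / Y) * (be * Y) < (V / be + be) * (be * Y) :=
      mul_lt_mul_of_pos_right c4 (mul_pos hbe hY)
    have e3 : (Y + V / Y) * (be * Y) = Y * Y * be + V * be := by
      have : (Y + V / Y) * (be * Y) = Y * Y * be + (V / Y * Y) * be := by ring
      rw [this, e2]
    have e4 : (V / be + be) * (be * Y) = V * Y + be * be * Y := by
      have : (V / be + be) * (be * Y) = (V / be * be) * Y + be * be * Y := by ring
      rw [this, e1]
    rw [e3, e4] at c8
    have c9 : (Y - be) * (Y * be - V) < 0 := by nlinarith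
    have c10 : V < Y * be := by nlinarith
    have := mul_nonneg (sub_nonneg.mpr hbY) (sub_nonneg.mpr c10.le)
    linarith

theorem thm_Gap : St_Gap := by
  intro V Y M ι _ m a hl hV hV0 hY hat i j hi hj hij hno
  have h1 : 0 ≤ ∑ k, m k * ((a k - a i) * (a k - a j)) := by
    refine Finset.sum_nonneg fun k _ => ?_
    rcases (hl.m0 k).eq_or_lt with h | h
    · rw [← h, zero_mul]
    · refine mul_nonneg h.le ?_
      have h2 := hno k h
      rcases le_or_gt (a k) (a i) with h3 | h3
      · exact mul_nonneg_of_nonpos_of_nonpos (by linarith) (by linarith)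
      · have h4 : a j ≤ a k := by
          by_contra h5
          exact h2 ⟨h3, not_le.mp h5⟩
        exact mul_nonneg (by linarith) (by linarith)
  have h2 : ∑ k, m k * ((a k - a i) * (a k - a j)) = V - (1 - a i) * (a j - 1) := by
    have e1 : ∀ k, m k * ((a k - a i) * (a k - a j)) =
        m k * a k ^ 2 - (a i + a j) * (m k * a k) + a i * a j * m k := fun k => by ring
    rw [Finset.sum_congr rfl fun k _ => e1 k, Finset.sum_add_distrib, Finset.sum_sub_distrib,
      ← Finset.mul_sum, ← Finset.mul_sum, hl.mean, hl.m1]
    have e2 : ∑ k, m k * a k ^ 2 = V + 1 := by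
      have : m2 m a = ∑ k, m k * a k ^ 2 := rfl
      rw [← this]
      linarith
    rw [e2]
    ring
  rw [h2] at h1
  have hai : 0 ≤ a i := hl.a0 i
  have hYV : 0 < V / Y := div_pos hV0 hY
  have hjY := hat j hj
  rcases le_or_gt 1 (a i) with h3 | h3
  · exact le_max_of_le_right (by linarith)
  · rcases le_or_gt (a j) 1 with h4 | h4
    · exact le_max_of_le_left (by linarith)
    · have h5 := Gap_arith hV0 hY (al := 1 - a i) (be := a j - 1) (by linarith) (by linarith)
        (by linarith) hjY (by linarith)
      have h6 : 1 - a i + (a j - 1) = a j - a i := by ring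
      rwa [h6] at h5

end Pool.Agent.EMCW
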