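import Pool.Agent.EMCW.St

/-!
The duality bound for the integral of `Ph2` (module JP of the window theorem).
-/

open Finset

namespace Pool.Agent.EMCW

namespace JP

/-- `z(u) = e^{-(al+be)u}`. -/
noncomputable def z (al be u : ℝ) : ℝ := Real.exp (-((al + be) * u))

/-- `D(u) = 1 - rho w`. -/
noncomputable def D (al be u : ℝ) : ℝ := (be + al * z al be u) / (al + be)

/-- `Om(u) = R (1 - m_u)`. -/
noncomputable def Omf (R : ℕ) (al be u : ℝ) : ℝ :=
  R * al * be * (1 - z al be u) / (be + al * z al be u)

lemma z_pos (al be u : ℝ) : 0 < z al be u := Real.exp_pos _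

lemma D_pos {al be : ℝ} (ha : 0 < al) (hb : 0 < be) (u : ℝ) : 0 < D al be u := by
  unfold D
  have := z_pos al be u
  positivity

lemma ph2_eq {al be : ℝ} (u : ℝ) :
    ph2 al be u = Real.exp (-u * (1 - al)) * D al be u := by
  unfold ph2 D z
  have h : Real.exp (-u * (1 + be)) =
      Real.exp (-u * (1 - al)) * Real.exp (-((al + be) * u)) := by
    rw [← Real.exp_add]; congr 1; ring
  rw [h]; ring

lemma Ph2_eq (R : ℕ) (g : ℝ) {al be : ℝ} (ha : 0 < al) (hb : 0 < be) (u : ℝ) :
    Ph2 R g al be u = Real.exp (-((g + R * al) * u)) / D al be u ^ R := by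
  unfold Ph2
  have hD := D_pos ha hb u
  rw [ph2_eq, mul_pow, ← Real.exp_nat_mul]
  have h : Real.exp (-((R : ℝ) + g) * u) =
      Real.exp (-((g + R * al) * u)) * Real.exp ((R : ℝ) * (-u * (1 - al))) := by
    rw [← Real.exp_add]; congr 1; ring
  rw [h]
  have h1 : Real.exp ((R : ℝ) * (-u * (1 - al))) ≠ 0 := (Real.exp_pos _).ne'
  have h2 : D al be u ^ R ≠ 0 := (pow_pos hD R).ne'
  field_simp

lemma z_der (al be u : ℝ) : HasDerivAt (z al be) (-(al + be) * z al be u) u := by
  unfold z
  have h1 : HasDerivAt (fun v : ℝ => -((al + be) * v)) (-((al + be) * 1)) u :=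
    ((hasDerivAt_id u).const_mul (al + be)).neg
  have h2 := h1.exp
  have e : Real.exp (-((al + be) * u)) * -((al + be) * 1) =
      -(al + be) * Real.exp (-((al + be) * u)) := by ring
  rw [e] at h2
  exact h2

lemma Omf_der (R : ℕ) {al be : ℝ} (ha : 0 < al) (hb : 0 < be) (u : ℝ) :
    HasDerivAt (Omf R al be) (R * al * be * (z al be u / D al be u ^ 2)) u := by
  have hz := z_der al be u
  have hzp := z_pos al be u
  have h1 : HasDerivAt (fun v => R * al * be * (1 - z al be v))
      (R * al * be * (0 - (-(al + be) * z al be u))) u :=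
    ((hasDerivAt_const u (1 : ℝ)).sub hz).const_mul (R * al * be)
  have h2 : HasDerivAt (fun v => be + al * z al be v)
      (al * (-(al + be) * z al be u)) u := by
    have := (hz.const_mul al).const_add be
    exact this
  have hne : be + al * z al be u ≠ 0 := by positivity
  have h3 := h1.div h2 hne
  have hd : al + be ≠ 0 := by positivity
  have e : (R * al * be * (0 - (-(al + be) * z al be u)) * (be + al * z al be u) -
      R * al * be * (1 - z al be u) * (al * (-(al + be) * z al be u))) /
      (be + al * z al be u) ^ 2 = R * al * be * (z al be u / D al be u ^ 2) := by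
    unfold D
    field_simp
    ring
  rw [e] at h3
  exact h3

lemma D_der (al be u : ℝ) (hd : al + be ≠ 0) : HasDerivAt (D al be) (-al * z al be u) u := by
  have hz := z_der al be u
  have h2 : HasDerivAt (fun v => (be + al * z al be v) / (al + be))
      (al * (-(al + be) * z al be u) / (al + be)) u := by
    have := ((hz.const_mul al).const_add be).div_const (al + be)
    exact this
  have e : al * (-(al + be) * z al be u) / (al + be) = -al * z al be u := by
    field_simp
  rw [e] at h2
  exact h2

lemma Ph2_der (R : ℕ) (g : ℝ) (hR : 1 ≤ R) {al be : ℝ} (ha : 0 < al) (hb : 0 < be) (u : ℝ) :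
    HasDerivAt (Ph2 R g al be) (-(g + Omf R al be u) * Ph2 R g al be u) u := by
  have hf : Ph2 R g al be = fun v => Real.exp (-((g + R * al) * v)) / D al be v ^ R := by
    funext v; exact Ph2_eq R g ha hb v
  rw [Ph2_eq R g ha hb u, hf]
  have hd : al + be ≠ 0 := by positivity
  have hD := D_pos ha hb u
  have hzp := z_pos al be u
  have h1 : HasDerivAt (fun v : ℝ => Real.exp (-((g + R * al) * v)))
      (Real.exp (-((g + R * al) * u)) * -((g + R * al) * 1)) u :=
    (((hasDerivAt_id u).const_mul (g + R * al)).neg).exp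
  have h2 : HasDerivAt (fun v => D al be v ^ R)
      (R * D al be u ^ (R - 1) * (-al * z al be u)) u := (D_der al be u hd).pow R
  have h3 := h1.div h2 (pow_pos hD R).ne'
  have hDR : D al be u ^ R = D al be u ^ (R - 1) * D al be u := by
    rw [← pow_succ]; congr 1; omega
  have hO : Omf R al be u = R * al * (1 - z al be u / D al be u) := by
    unfold Omf D
    have hne : be + al * z al be u ≠ 0 := by positivity
    field_simp
    ring
  have e : (Real.exp (-((g + R * al) * u)) * -((g + R * al) * 1) * D al be u ^ R -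
      Real.exp (-((g + R * al) * u)) * (R * D al be u ^ (R - 1) * (-al * z al be u))) /
      (D al be u ^ R) ^ 2 =
      -(g + Omf R al be u) * (Real.exp (-((g + R * al) * u)) / D al be u ^ R) := by
    rw [hO, hDR]
    have h4 : D al be u ^ (R - 1) ≠ 0 := (pow_pos hD _).ne'
    have h5 : D al be u ≠ 0 := hD.ne'
    field_simp
    ring
  rw [e] at h3
  exact h3

/-- The weighted AM-GM bound. -/
lemma amgm (R : ℕ) (g : ℝ) (hR : 3 ≤ R) {al be : ℝ} (ha : 0 < al) (hb : 0 < be)
    (h1 : al + be ≤ g + R * al) (h2 : al + g ≤ (R - 1) * be) (u : ℝ) (hu : 0 ≤ u) :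
    0 ≤ 1 + (be - al - g) / ((R - 2) * (R * al * be)) * Omf R al be u ∧
    Ph2 R g al be u ≤ z al be u / D al be u ^ 2 *
      (1 + (be - al - g) / ((R - 2) * (R * al * be)) * Omf R al be u) ^ (R - 2) := by
  have hd : 0 < al + be := by positivity
  have hD := D_pos ha hb u
  have hzp := z_pos al be u
  have hR3 : (3 : ℝ) ≤ R := by exact_mod_cast hR
  have hR2 : (0 : ℝ) < R - 2 := by linarith
  set la : ℝ := (g + R * al) / (al + be) with hla
  have hla1 : 1 ≤ la := by rw [hla, le_div_iff₀ hd]; linarith
  have hla2 : la ≤ R - 1 := by rw [hla, div_le_iff₀ hd]; linarith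
  set X : ℝ := z al be u / D al be u with hX
  set Y : ℝ := 1 / D al be u with hY
  have hX0 : 0 < X := by positivity
  have hY0 : 0 < Y := by positivity
  have hw1 : 0 ≤ (la - 1) / (R - 2) := by apply div_nonneg <;> linarith
  have hw2 : 0 ≤ (R - la - 1) / (R - 2) := by apply div_nonneg <;> linarith
  have hw : (la - 1) / (R - 2) + (R - la - 1) / (R - 2) = (1 : ℝ) := by
    rw [← add_div, div_eq_one_iff_eq hR2.ne']; ring
  have hAG := Real.geom_mean_le_arith_mean2_weighted hw1 hw2 hX0.le hY0.le hw
  have hmean : (la - 1) / (R - 2) * X + (R - la - 1) / (R - 2) * Y =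
      1 + (be - al - g) / ((R - 2) * (R * al * be)) * Omf R al be u := by
    rw [hX, hY, hla]
    unfold Omf D
    have hne : be + al * z al be u ≠ 0 := by positivity
    have hR0 : (R : ℝ) ≠ 0 := by positivity
    have hR2' : (R : ℝ) - 2 ≠ 0 := hR2.ne'
    field_simp
    ring
  rw [hmean] at hAG
  have hgm0 : 0 ≤ X ^ ((la - 1) / ((R : ℝ) - 2)) * Y ^ ((R - la - 1) / ((R : ℝ) - 2)) := by
    positivity
  refine ⟨hgm0.trans hAG, ?_⟩
  have hpow := pow_le_pow_left₀ hgm0 hAG (R - 2)
  have hcast : ((R - 2 : ℕ) : ℝ) = (R : ℝ) - 2 := by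
    rw [Nat.cast_sub (by omega)]; norm_num
  have hXe : X = Real.exp (Real.log X) := (Real.exp_log hX0).symm
  have hlogX : Real.log X = -((al + be) * u) - Real.log (D al be u) := by
    rw [hX, Real.log_div hzp.ne' hD.ne']
    unfold z
    rw [Real.log_exp]
  have hlogY : Real.log Y = - Real.log (D al be u) := by
    rw [hY, one_div, Real.log_inv]
  have hlhs : (X ^ ((la - 1) / ((R : ℝ) - 2)) * Y ^ ((R - la - 1) / ((R : ℝ) - 2))) ^ (R - 2) =
      Real.exp (Real.log X * (la - 1) + Real.log Y * (R - la - 1)) := by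
    rw [Real.rpow_def_of_pos hX0, Real.rpow_def_of_pos hY0, ← Real.exp_add, ← Real.exp_nat_mul,
      hcast]
    congr 1
    field_simp
  rw [hlhs] at hpow
  have hPh : Ph2 R g al be u = z al be u / D al be u ^ 2 *
      Real.exp (Real.log X * (la - 1) + Real.log Y * (R - la - 1)) := by
    rw [Ph2_eq R g ha hb u, hlogX, hlogY]
    have e1 : D al be u ^ R = Real.exp (Real.log (D al be u) * R) := by
      rw [mul_comm, Real.exp_nat_mul, Real.exp_log hD]
    have e2 : D al be u ^ 2 = Real.exp (Real.log (D al be u) * 2) := by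
      rw [show Real.log (D al be u) * 2 = (2 : ℕ) * Real.log (D al be u) by push_cast; ring,
        Real.exp_nat_mul, Real.exp_log hD]
    have e3 : (g + R * al) = la * (al + be) := by rw [hla]; field_simp
    rw [e1, e2, e3]
    unfold z
    rw [← Real.exp_sub, ← Real.exp_sub, ← Real.exp_add]
    congr 1
    ring
  rw [hPh]
  exact mul_le_mul_of_nonneg_left hpow (by positivity)

/-- The integrand of `N`. -/
noncomputable def nf (R : ℕ) (k Om v : ℝ) : ℝ := max (Om - v) 0 * (1 + k * v) ^ (R - 2)

lemma nf_cont (R : ℕ) (k Om : ℝ) : Continuous (nf R k Om) := by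
  unfold nf
  fun_prop

lemma Omf_nonneg (R : ℕ) {al be : ℝ} (ha : 0 < al) (hb : 0 < be) {u : ℝ} (hu : 0 ≤ u) :
    0 ≤ Omf R al be u := by
  unfold Omf
  have hzp := z_pos al be u
  have hz1 : z al be u ≤ 1 := by
    unfold z
    rw [Real.exp_le_one_iff]
    have : 0 ≤ (al + be) * u := by positivity
    linarith
  have : 0 ≤ 1 - z al be u := by linarith
  positivity

lemma Omf_zero (R : ℕ) (al be : ℝ) : Omf R al be 0 = 0 := by
  unfold Omf z
  simp

lemma Ph2_zero (R : ℕ) (g : ℝ) {al be : ℝ} (ha : 0 < al) (hb : 0 < be) :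
    Ph2 R g al be 0 = 1 := by
  rw [Ph2_eq R g ha hb]
  unfold D z
  have hd : al + be ≠ 0 := by positivity
  simp [add_comm be al, div_self hd]

lemma Ph2_pos (R : ℕ) (g : ℝ) {al be : ℝ} (ha : 0 < al) (hb : 0 < be) (u : ℝ) :
    0 < Ph2 R g al be u := by
  rw [Ph2_eq R g ha hb]
  have := D_pos ha hb u
  positivity

/-- The value of the integral of `nf`. -/
lemma nf_int (R : ℕ) (hR : 3 ≤ R) (k Om V : ℝ) (hOm : 0 < Om)
    (hk : k * Om = V / ((R : ℝ) - 2)) :
    ∫ v in (0 : ℝ)..Om, nf R k Om v = Om ^ 2 * E2 R V := by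
  have h := intervalIntegral.integral_comp_mul_left (a := 0) (b := 1) (nf R k Om) hOm.ne'
  rw [mul_zero, mul_one, smul_eq_mul] at h
  have h2 : ∫ v in (0 : ℝ)..Om, nf R k Om v = Om * ∫ t in (0 : ℝ)..1, nf R k Om (Om * t) := by
    rw [h]; field_simp
  rw [h2]
  unfold E2
  rw [pow_two, mul_assoc]
  congr 1
  rw [← intervalIntegral.integral_const_mul]
  apply intervalIntegral.integral_congr
  intro t ht
  rw [Set.uIcc_of_le zero_le_one] at ht
  have hm : max (Om - Om * t) 0 = Om * (1 - t) := by
    rw [max_eq_left]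
    · ring
    · nlinarith [ht.2]
  show nf R k Om (Om * t) = Om * ((1 - t) * (1 + V * t / ((R : ℝ) - 2)) ^ (R - 2))
  unfold nf
  rw [hm]
  have : k * (Om * t) = V * t / ((R : ℝ) - 2) := by
    rw [← mul_assoc, hk]; ring
  rw [this]
  ring

/-- The integral of `nf` is at most its value at `Om`. -/
lemma nf_le (R : ℕ) (k Om o : ℝ) (hOm : 0 < Om) (ho : 0 ≤ o) (hk : 0 ≤ 1 + k * Om) :
    ∫ v in (0 : ℝ)..o, nf R k Om v ≤ ∫ v in (0 : ℝ)..Om, nf R k Om v := by
  have hint : ∀ a b : ℝ, IntervalIntegrable (nf R k Om) MeasureTheory.volume a b :=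
    fun a b => (nf_cont R k Om).intervalIntegrable a b
  have hadd := intervalIntegral.integral_add_adjacent_intervals (hint 0 o) (hint o Om)
  rw [← hadd]
  rcases le_total o Om with h | h
  · have : 0 ≤ ∫ v in o..Om, nf R k Om v := by
      apply intervalIntegral.integral_nonneg h
      intro v hv
      unfold nf
      have h1 : 0 ≤ 1 + k * v := by
        rcases le_total 0 k with h2 | h2
        · have : 0 ≤ v := ho.trans hv.1
          positivity
        · nlinarith [hv.2]
      positivity
    linarith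
  · have : ∫ v in o..Om, nf R k Om v = 0 := by
      have h0 : ∫ v in o..Om, nf R k Om v = ∫ v in o..Om, (0 : ℝ) := by
        apply intervalIntegral.integral_congr
        intro v hv
        rw [Set.uIcc_of_ge h] at hv
        show nf R k Om v = 0
        unfold nf
        rw [max_eq_right (by linarith [hv.1]), zero_mul]
      rw [h0]
      simp
    linarith

end JP

open JP in
/-- The duality bound. -/
theorem thm_JP : St_JP := by
  intro R g al be Om T hR hg hal hbe h1 h2 hOm hk hT
  have hR3 : (3 : ℝ) ≤ R := by exact_mod_cast hR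
  have hR2 : (0 : ℝ) < R - 2 := by linarith
  have hR0 : (0 : ℝ) < R := by linarith
  set k : ℝ := (be - al - g) / ((R - 2) * (R * al * be)) with hkd
  have hW : (0 : ℝ) < R * al * be := by positivity
  have hkO : k * Om = (be - al - g) * Om / (R * al * be) / ((R : ℝ) - 2) := by
    rw [hkd]; field_simp
  have hPc : Continuous (Ph2 R g al be) := by
    rw [continuous_iff_continuousAt]
    exact fun u => (Ph2_der R g (by omega) hal hbe u).continuousAt
  -- the function
  let F : ℝ → ℝ := fun u => (g + Om) * (∫ v in (0 : ℝ)..u, Ph2 R g al be v) -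
    (1 - Ph2 R g al be u) - 1 / (R * al * be) * (∫ v in (0 : ℝ)..(Omf R al be u), nf R k Om v)
  have hF : ∀ u, HasDerivAt F ((g + Om) * Ph2 R g al be u -
      (0 - (-(g + Omf R al be u) * Ph2 R g al be u)) -
      1 / (R * al * be) * (nf R k Om (Omf R al be u) *
        (R * al * be * (z al be u / D al be u ^ 2)))) u := by
    intro u
    have d1 : HasDerivAt (fun w => ∫ v in (0 : ℝ)..w, Ph2 R g al be v) (Ph2 R g al be u) u :=
      intervalIntegral.integral_hasDerivAt_right (hPc.intervalIntegrable _ _)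
        (hPc.stronglyMeasurableAtFilter _ _) hPc.continuousAt
    have d2 := Ph2_der R g (by omega) hal hbe u
    have hnc := nf_cont R k Om
    have d3 : HasDerivAt (fun w => ∫ v in (0 : ℝ)..w, nf R k Om v)
        (nf R k Om (Omf R al be u)) (Omf R al be u) :=
      intervalIntegral.integral_hasDerivAt_right (hnc.intervalIntegrable _ _)
        (hnc.stronglyMeasurableAtFilter _ _) hnc.continuousAt
    have d4 := d3.comp u (Omf_der R hal hbe u)
    exact ((d1.const_mul (g + Om)).sub ((hasDerivAt_const u (1 : ℝ)).sub d2)).sub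
      (d4.const_mul (1 / (R * al * be)))
  have hneg : ∀ u, 0 ≤ u → (g + Om) * Ph2 R g al be u -
      (0 - (-(g + Omf R al be u) * Ph2 R g al be u)) -
      1 / (R * al * be) * (nf R k Om (Omf R al be u) *
        (R * al * be * (z al be u / D al be u ^ 2))) ≤ 0 := by
    intro u hu
    obtain ⟨a0, a1⟩ := amgm R g hR hal hbe h1 h2 u hu
    rw [← hkd] at a0 a1
    have hP := Ph2_pos R g hal hbe u
    have e : (g + Om) * Ph2 R g al be u -
      (0 - (-(g + Omf R al be u) * Ph2 R g al be u)) -
      1 / (R * al * be) * (nf R k Om (Omf R al be u) *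
        (R * al * be * (z al be u / D al be u ^ 2))) =
      (Om - Omf R al be u) * Ph2 R g al be u - nf R k Om (Omf R al be u) *
        (z al be u / D al be u ^ 2) := by
      have : R * al * be ≠ 0 := hW.ne'
      field_simp
      ring
    rw [e]
    unfold nf
    rcases le_total (Omf R al be u) Om with h | h
    · rw [max_eq_left (by linarith)]
      have := mul_le_mul_of_nonneg_left a1 (show 0 ≤ Om - Omf R al be u by linarith)
      nlinarith
    · rw [max_eq_right (by linarith)]
      have : 0 ≤ (Omf R al be u - Om) * Ph2 R g al be u :=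
        mul_nonneg (by linarith) hP.le
      linarith
  have hanti : AntitoneOn F (Set.Icc 0 T) := by
    apply antitoneOn_of_deriv_nonpos (convex_Icc 0 T)
    · exact fun u _ => (hF u).continuousAt.continuousWithinAt
    · exact fun u _ => (hF u).differentiableAt.differentiableWithinAt
    · intro u hu
      rw [interior_Icc] at hu
      rw [(hF u).deriv]
      exact hneg u hu.1.le
  have hFT := hanti (Set.left_mem_Icc.mpr hT) (Set.right_mem_Icc.mpr hT) hT
  have hF0 : F 0 = 0 := by
    show (g + Om) * (∫ v in (0 : ℝ)..0, Ph2 R g al be v) -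
      (1 - Ph2 R g al be 0) - 1 / (R * al * be) *
        (∫ v in (0 : ℝ)..(Omf R al be 0), nf R k Om v) = 0
    rw [Omf_zero, Ph2_zero R g hal hbe]
    simp
  rw [hF0] at hFT
  have hN := nf_le R k Om (Omf R al be T) hOm (Omf_nonneg R hal hbe hT)
    (by rw [hkO]; exact hk)
  rw [nf_int R hR k Om ((be - al - g) * Om / (R * al * be)) hOm hkO] at hN
  have hPT := Ph2_pos R g hal hbe T
  have hFT' : (g + Om) * (∫ v in (0 : ℝ)..T, Ph2 R g al be v) -
      (1 - Ph2 R g al be T) - 1 / (R * al * be) *
        (∫ v in (0 : ℝ)..(Omf R al be T), nf R k Om v) ≤ 0 := hFT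
  rw [le_div_iff₀ (by positivity)]
  have hN' := mul_le_mul_of_nonneg_left hN (show 0 ≤ 1 / (R * al * be) by positivity)
  have e : 1 / (R * al * be) * (Om ^ 2 * E2 R ((be - al - g) * Om / (R * al * be))) =
      Om ^ 2 / (R * al * be) * E2 R ((be - al - g) * Om / (R * al * be)) := by ring
  rw [e] at hN'
  nlinarith

end Pool.Agent.EMCW
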