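import Pool.Agent.EMCW.St

/-!
EMCW, module JQ: monotonicity in the matched two-point law.
-/

open Finset

namespace Pool.Agent.EMCW

lemma JQ_pos {al be : ℝ} (ha : 0 < al) (hb : 0 < be) (u : ℝ) : 0 < ph2 al be u := by
  unfold ph2
  positivity

lemma JQ_cont {R : ℕ} {g al be : ℝ} (ha : 0 < al) (hb : 0 < be) :
    Continuous (fun u => Ph2 R g al be u) := by
  unfold Ph2
  have h1 : Continuous (fun u => ph2 al be u) := by
    unfold ph2
    fun_prop
  refine Continuous.div (by fun_prop) (h1.pow R) fun u => ?_
  exact (pow_pos (JQ_pos ha hb u) R).ne'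

/-- The normalised form. -/
lemma JQ_norm {R : ℕ} {g al be : ℝ} (u : ℝ) :
    Ph2 R g al be u = Real.exp (-(g * u)) /
      ((be * Real.exp (al * u) + al * Real.exp (-(be * u))) / (al + be)) ^ R := by
  unfold Ph2 ph2
  have h1 : (be * Real.exp (al * u) + al * Real.exp (-(be * u))) / (al + be) =
      Real.exp u * ((be * Real.exp (-u * (1 - al)) + al * Real.exp (-u * (1 + be))) /
        (al + be)) := by
    rw [mul_div_assoc', mul_add]
    have e1 : Real.exp u * (be * Real.exp (-u * (1 - al))) = be * Real.exp (al * u) := by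
      rw [mul_left_comm, ← Real.exp_add]
      congr 2
      ring
    have e2 : Real.exp u * (al * Real.exp (-u * (1 + be))) = al * Real.exp (-(be * u)) := by
      rw [mul_left_comm, ← Real.exp_add]
      congr 2
      ring
    rw [e1, e2]
  rw [h1, mul_pow, ← Real.exp_nat_mul, div_mul_eq_div_div]
  congr 1
  rw [← Real.exp_sub]
  congr 1
  ring

/-- Pointwise comparison. -/
lemma JQ_point {R : ℕ} {g al al1 be : ℝ} (hg : 0 < g) (ha : 0 < al) (ha1 : al ≤ al1)
    (hb : 0 < be) {u : ℝ} (hu : 0 ≤ u) :
    Ph2 R g al be u ≤ Ph2 R g al1 be (al / al1 * u) := by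
  have ha10 : 0 < al1 := lt_of_lt_of_le ha ha1
  rw [JQ_norm, JQ_norm]
  have hv : al1 * (al / al1 * u) = al * u := by
    field_simp
  rw [hv]
  have hH : (be * Real.exp (al * u) + al1 * Real.exp (-(be * (al / al1 * u)))) / (al1 + be) ≤
      (be * Real.exp (al * u) + al * Real.exp (-(be * u))) / (al + be) := by
    have hl0 : 0 ≤ (al1 - al) * be / (al1 * (al + be)) :=
      div_nonneg (mul_nonneg (by linarith) hb.le) (by positivity)
    have hl1 : 0 ≤ al * (al1 + be) / (al1 * (al + be)) := by positivity
    have hsum : (al1 - al) * be / (al1 * (al + be)) + al * (al1 + be) / (al1 * (al + be)) = 1 := by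
      field_simp
      ring
    have hc := convexOn_exp.2 (Set.mem_univ (al * u)) (Set.mem_univ (-(be * u))) hl0 hl1 hsum
    simp only [smul_eq_mul] at hc
    have harg : (al1 - al) * be / (al1 * (al + be)) * (al * u) +
        al * (al1 + be) / (al1 * (al + be)) * (-(be * u)) = -(be * (al / al1 * u)) := by
      field_simp
      ring
    rw [harg] at hc
    rw [div_le_div_iff₀ (by positivity) (by positivity)]
    have h2 : al1 * (al + be) * Real.exp (-(be * (al / al1 * u))) ≤
        (al1 - al) * be * Real.exp (al * u) + al * (al1 + be) * Real.exp (-(be * u)) := by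
      have h3 := mul_le_mul_of_nonneg_left hc (by positivity : 0 ≤ al1 * (al + be))
      have h4 : al1 * (al + be) * ((al1 - al) * be / (al1 * (al + be)) * Real.exp (al * u) +
          al * (al1 + be) / (al1 * (al + be)) * Real.exp (-(be * u))) =
          (al1 - al) * be * Real.exp (al * u) + al * (al1 + be) * Real.exp (-(be * u)) := by
        field_simp
      rw [h4] at h3
      exact h3
    nlinarith [Real.exp_pos (al * u), Real.exp_pos (-(be * u))]
  have hpos : 0 < (be * Real.exp (al * u) + al1 * Real.exp (-(be * (al / al1 * u)))) /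
      (al1 + be) := by positivity
  have hexp : Real.exp (-(g * u)) ≤ Real.exp (-(g * (al / al1 * u))) := by
    apply Real.exp_le_exp.2
    have : al / al1 * u ≤ u := by
      have h1 : al / al1 ≤ 1 := (div_le_one ha10).2 ha1
      nlinarith
    nlinarith
  exact div_le_div₀ (Real.exp_pos _).le hexp (pow_pos hpos R)
    (pow_le_pow_left₀ hpos.le hH R)

theorem thm_JQ : St_JQ := by
  intro R g al al1 be T hR hg ha ha1 hb hT
  have ha10 : 0 < al1 := lt_of_lt_of_le ha ha1
  have hc : al / al1 ≠ 0 := (div_pos ha ha10).ne'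
  have h1 := intervalIntegral.integral_comp_mul_left (a := (0 : ℝ)) (b := T)
    (fun u => Ph2 R g al1 be u) hc
  rw [mul_zero, smul_eq_mul, inv_div, show al / al1 * T = al * T / al1 by ring] at h1
  rw [← h1]
  refine intervalIntegral.integral_mono_on hT ((JQ_cont ha hb).intervalIntegrable _ _) ?_ ?_
  · exact ((JQ_cont ha10 hb).comp (continuous_const.mul continuous_id)).intervalIntegrable _ _
  · intro u hu
    exact JQ_point hg ha ha1 hb hu.1

end Pool.Agent.EMCW
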