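import Pool.Agent.EMCW.St

/-! Module Ker: the kernel inequality. -/

open Finset

namespace Pool.Agent.EMCW

/-- `x ^ (1 + th) ≥ 1 - (1 + th) (1 - x) + (1 + th) th (1 - x) ^ 2 / 2` for `0 < x ≤ 1`. -/
private lemma Ker_rpow (th x : ℝ) (h0 : 0 ≤ th) (h1 : th ≤ 1) (hx : 0 < x) (hx1 : x ≤ 1) :
    1 - (1 + th) * (1 - x) + (1 + th) * th * (1 - x) ^ 2 / 2 ≤ x ^ (1 + th) := by
  set F : ℝ → ℝ := fun y => y ^ (1 + th) - 1 + (1 + th) * (1 - y) -
    (1 + th) * th * (1 - y) ^ 2 / 2 with hF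
  have hder : ∀ y : ℝ, 0 < y → HasDerivAt F
      ((1 + th) * y ^ th - (1 + th) + (1 + th) * th * (1 - y)) y := by
    intro y hy
    have e1 : HasDerivAt (fun y : ℝ => y ^ (1 + th)) ((1 + th) * y ^ th) y := by
      have := Real.hasDerivAt_rpow_const (x := y) (p := 1 + th) (Or.inl hy.ne')
      rwa [show 1 + th - 1 = th by ring] at this
    have e2 : HasDerivAt (fun y : ℝ => 1 - y) (-1) y := by
      simpa using (hasDerivAt_id y).const_sub (1 : ℝ)
    have e3 := ((e1.sub_const 1).add (e2.const_mul (1 + th))).sub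
      (((e2.pow 2).const_mul ((1 + th) * th)).div_const 2)
    refine e3.congr_deriv ?_
    simp only [Nat.cast_ofNat, Nat.add_one_sub_one, pow_one]
    ring
  have hanti : AntitoneOn F (Set.Icc x 1) := by
    apply antitoneOn_of_deriv_nonpos (convex_Icc x 1)
    · exact fun y hy => (hder y (hx.trans_le hy.1)).continuousAt.continuousWithinAt
    · intro y hy
      rw [interior_Icc] at hy
      exact (hder y (hx.trans hy.1)).differentiableAt.differentiableWithinAt
    · intro y hy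
      rw [interior_Icc] at hy
      have hy0 : 0 < y := hx.trans hy.1
      rw [(hder y hy0).deriv]
      have hb := rpow_one_add_le_one_add_mul_self (s := y - 1) (by linarith) h0 h1
      rw [show 1 + (y - 1) = y by ring] at hb
      have : (1 + th) * y ^ th ≤ (1 + th) * (1 + th * (y - 1)) :=
        mul_le_mul_of_nonneg_left hb (by linarith)
      nlinarith [this]
  have h := hanti (Set.left_mem_Icc.2 hx1) (Set.right_mem_Icc.2 hx1) hx1
  simp only [hF] at h
  norm_num at h
  linarith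

theorem thm_Ker : St_Ker := by
  intro b th t hb h0 h1 ht
  have hbt : 0 < b * t := mul_pos hb ht
  set E : ℝ := Real.exp (-(b * t)) with hE
  have hE0 : 0 < E := Real.exp_pos _
  have hE1 : E < 1 := by
    rw [hE, Real.exp_lt_one_iff]
    linarith
  set P : ℝ := E ^ (1 + th) with hP
  have hP0 : 0 < P := Real.rpow_pos_of_pos hE0 _
  have hP1 : P < 1 := Real.rpow_lt_one hE0.le hE1 (by linarith)
  have e1 : Real.exp (-((1 + th) * b * t)) = P := by
    rw [hP, hE, ← Real.exp_mul]
    congr 1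
    ring
  have e2 : Real.exp (b * (1 + th) * t) = P⁻¹ := by
    rw [← e1, ← Real.exp_neg]
    congr 1
    ring
  rw [e1, e2]
  have hk := Ker_rpow th E h0 h1 hE0 hE1.le
  rw [← hP] at hk
  have hw : 0 < 1 - E := by linarith
  have hPi : 0 < P⁻¹ - 1 := by
    rw [sub_pos]
    exact (one_lt_inv₀ hP0).2 hP1
  rw [div_le_div_iff₀ hw hPi]
  have key : (1 - P) * (1 + th / 2 * (1 - E)) ≤ (1 + th) * (1 - E) := by
    have k1 : 1 - P ≤ (1 + th) * (1 - E) * (1 - th / 2 * (1 - E)) := by nlinarith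
    have k2 : (1 - P) * (1 + th / 2 * (1 - E)) ≤
        (1 + th) * (1 - E) * (1 - th / 2 * (1 - E)) * (1 + th / 2 * (1 - E)) :=
      mul_le_mul_of_nonneg_right k1 (by positivity)
    refine k2.trans ?_
    have k3 : 0 ≤ (1 + th) * (1 - E) := by positivity
    have k4 : (1 - th / 2 * (1 - E)) * (1 + th / 2 * (1 - E)) ≤ 1 := by
      nlinarith [sq_nonneg (th / 2 * (1 - E))]
    calc (1 + th) * (1 - E) * (1 - th / 2 * (1 - E)) * (1 + th / 2 * (1 - E))
        = (1 + th) * (1 - E) * ((1 - th / 2 * (1 - E)) * (1 + th / 2 * (1 - E))) := by ring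
      _ ≤ (1 + th) * (1 - E) * 1 := mul_le_mul_of_nonneg_left k4 k3
      _ = (1 + th) * (1 - E) := mul_one _
  have e3 : b * P * (1 + th / 2 * (1 - E)) * (P⁻¹ - 1) =
      b * ((1 - P) * (1 + th / 2 * (1 - E))) := by
    have : P * (P⁻¹ - 1) = 1 - P := by
      rw [mul_sub, mul_inv_cancel₀ hP0.ne', mul_one]
    calc b * P * (1 + th / 2 * (1 - E)) * (P⁻¹ - 1)
        = b * ((P * (P⁻¹ - 1)) * (1 + th / 2 * (1 - E))) := by ring
      _ = b * ((1 - P) * (1 + th / 2 * (1 - E))) := by rw [this]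
  rw [e3, mul_assoc b (1 + th)]
  exact mul_le_mul_of_nonneg_left key hb.le

end Pool.Agent.EMCW
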