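import Pool.Agent.EMCW.St

/-! Module L3: third order Hermite interpolation. -/

open Finset

namespace Pool.Agent.EMCW

private lemma L3_point (b x t : ℝ) (hb : 0 < b) (hx : 0 ≤ x) (ht : 0 ≤ t) :
    1 + x * ((Real.exp (t * b) - 1) / b +
      (x - b) * ((t * b * Real.exp (t * b) - Real.exp (t * b) + 1) / b ^ 2)) ≤
      Real.exp (t * x) := by
  set F : ℝ → ℝ := fun u => Real.exp (u * x) - (1 + x * ((Real.exp (u * b) - 1) / b +
      (x - b) * ((u * b * Real.exp (u * b) - Real.exp (u * b) + 1) / b ^ 2))) with hF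
  have hder : ∀ u : ℝ, HasDerivAt F
      (x * Real.exp (u * b) * (Real.exp (u * (x - b)) - 1 - u * (x - b))) u := by
    intro u
    have e1 : HasDerivAt (fun u : ℝ => Real.exp (u * x)) (Real.exp (u * x) * x) u := by
      simpa using ((hasDerivAt_id u).mul_const x).exp
    have e2 : HasDerivAt (fun u : ℝ => Real.exp (u * b)) (Real.exp (u * b) * b) u := by
      simpa using ((hasDerivAt_id u).mul_const b).exp
    have e3 : HasDerivAt (fun u : ℝ => u * b) b u := by
      simpa using (hasDerivAt_id u).mul_const b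
    have e4 := e1.sub ((((((e2.sub_const 1).div_const b).add
      (((((e3.mul e2).sub e2).add_const 1).div_const (b ^ 2)).const_mul (x - b))).const_mul
        x)).const_add 1)
    refine e4.congr_deriv ?_
    have e5 : Real.exp (u * x) = Real.exp (u * b) * Real.exp (u * (x - b)) := by
      rw [← Real.exp_add]
      congr 1
      ring
    rw [e5]
    field_simp
    ring
  have hmono : MonotoneOn F (Set.Icc 0 t) := by
    apply monotoneOn_of_deriv_nonneg (convex_Icc 0 t)
    · exact fun u _ => (hder u).continuousAt.continuousWithinAt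
    · exact fun u _ => (hder u).differentiableAt.differentiableWithinAt
    · intro u _
      rw [(hder u).deriv]
      have := Real.add_one_le_exp (u * (x - b))
      have h2 := (Real.exp_pos (u * b)).le
      exact mul_nonneg (mul_nonneg hx h2) (by linarith)
  have h := hmono (Set.left_mem_Icc.2 ht) (Set.right_mem_Icc.2 ht) ht
  have h0 : F 0 = 0 := by
    simp only [hF]
    norm_num
  rw [h0] at h
  simp only [hF] at h
  linarith

theorem thm_L3 : St_L3 := by
  intro M t ι _ m a hL ht
  have hm2 : 1 ≤ m2 m a := by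
    have h : 0 ≤ ∑ i, m i * (a i - 1) ^ 2 :=
      Finset.sum_nonneg fun i _ => mul_nonneg (hL.m0 i) (sq_nonneg _)
    have e : ∑ i, m i * (a i - 1) ^ 2 = m2 m a - 2 * ∑ i, m i * a i + ∑ i, m i := by
      unfold m2
      rw [Finset.mul_sum, ← Finset.sum_sub_distrib, ← Finset.sum_add_distrib]
      exact Finset.sum_congr rfl fun i _ => by ring
    rw [e, hL.mean, hL.m1] at h
    linarith
  set b := m2 m a with hb
  have hb0 : 0 < b := by linarith
  set B : ℝ := (Real.exp (t * b) - 1) / b with hB
  set C : ℝ := (t * b * Real.exp (t * b) - Real.exp (t * b) + 1) / b ^ 2 with hC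
  have h1 : ∑ i, m i * (1 + a i * (B + (a i - b) * C)) ≤ ph m a (-t) := by
    unfold ph
    refine Finset.sum_le_sum fun i _ => mul_le_mul_of_nonneg_left ?_ (hL.m0 i)
    rw [neg_neg]
    exact L3_point b (a i) t hb0 (hL.a0 i) ht
  have h2 : ∑ i, m i * (1 + a i * (B + (a i - b) * C)) = 1 + B := by
    have e : ∑ i, m i * (1 + a i * (B + (a i - b) * C)) =
        ∑ i, m i + (B - b * C) * ∑ i, m i * a i + C * m2 m a := by
      unfold m2
      rw [Finset.mul_sum, Finset.mul_sum, ← Finset.sum_add_distrib, ← Finset.sum_add_distrib]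
      exact Finset.sum_congr rfl fun i _ => by ring
    rw [e, hL.m1, hL.mean, ← hb]
    ring
  rw [h2] at h1
  refine le_trans (le_of_eq ?_) h1
  rw [hB, mul_comm t b]
  field_simp
  ring

end Pool.Agent.EMCW
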