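import Pool.Agent.EMCW.St

/-!
# The supporting line
-/

set_option autoImplicit false

open Finset

namespace Pool.Agent.EMCW

private lemma MLine_two {M x : ℝ} {ι : Type} [Fintype ι] [DecidableEq ι] {m a : ι → ℝ}
    (hL : IsLaw M x m a) {j k : ι} (hj : a j ≤ x) (hk : x < a k) :
    IsLaw M x (fun i => (if i = j then (a k - x) / (a k - a j) else 0) +
      (if i = k then (x - a j) / (a k - a j) else 0)) a := by
  have h0 : 0 < a k - a j := by linarith
  refine ⟨fun i => ?_, ?_, hL.a0, hL.aM, ?_⟩
  · have h1 : 0 ≤ (a k - x) / (a k - a j) := div_nonneg (by linarith) h0.le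
    have h2 : 0 ≤ (x - a j) / (a k - a j) := div_nonneg (by linarith) h0.le
    refine add_nonneg ?_ ?_
    · split_ifs
      · exact h1
      · exact le_rfl
    · split_ifs
      · exact h2
      · exact le_rfl
  · rw [sum_add_distrib, sum_ite_eq', sum_ite_eq', if_pos (mem_univ _), if_pos (mem_univ _),
      ← add_div, div_eq_one_iff_eq h0.ne']
    ring
  · simp only [add_mul, ite_mul, zero_mul]
    rw [sum_add_distrib, sum_ite_eq', sum_ite_eq', if_pos (mem_univ _), if_pos (mem_univ _),
      div_mul_eq_mul_div, div_mul_eq_mul_div, ← add_div, div_eq_iff h0.ne']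
    ring

theorem thm_Line : St_Line := by
  intro M x ι _ m a G hL hx hopt
  classical
  obtain ⟨k₀, hk₀⟩ := hx
  obtain ⟨v, hv⟩ : ∃ v, v = ∑ i, m i * G i := ⟨_, rfl⟩
  obtain ⟨k, hk, hmax⟩ := (univ.filter fun i => x < a i).exists_max_image
    (fun i => (G i - v) / (a i - x)) ⟨k₀, by simp [hk₀]⟩
  have hk' : x < a k := (mem_filter.1 hk).2
  obtain ⟨l, hl⟩ : ∃ l, l = (G k - v) / (a k - x) := ⟨_, rfl⟩
  have hGk : G k = v + l * (a k - x) := by
    rw [hl, div_mul_cancel₀ _ (by linarith : a k - x ≠ 0)]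
    ring
  have hle : ∀ i, G i ≤ v - l * x + l * a i := by
    intro i
    rcases lt_or_ge x (a i) with h | h
    · have h1 := hmax i (by simp [h])
      rw [← hl, div_le_iff₀ (by linarith)] at h1
      linarith
    · have h1 := hopt _ (MLine_two hL h hk')
      simp only [add_mul, ite_mul, zero_mul] at h1
      rw [sum_add_distrib, sum_ite_eq', sum_ite_eq', if_pos (mem_univ _), if_pos (mem_univ _),
        ← hv, div_mul_eq_mul_div, div_mul_eq_mul_div, ← add_div,
        div_le_iff₀ (by linarith), hGk] at h1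
      have h2 : 0 < a k - x := by linarith
      have h3 : (a k - x) * (G i - (v - l * x + l * a i)) ≤ 0 := by nlinarith
      nlinarith [nonpos_of_mul_nonpos_right h3 h2]
  refine ⟨v - l * x, l, fun i => ⟨hle i, fun hi => ?_⟩⟩
  have h1 : ∑ i, m i * (v - l * x + l * a i - G i) = 0 := by
    have h2 : ∀ i, m i * (v - l * x + l * a i - G i) =
        (v - l * x) * m i + l * (m i * a i) - m i * G i := fun i => by ring
    rw [sum_congr rfl fun i _ => h2 i, sum_sub_distrib, sum_add_distrib, ← mul_sum, ← mul_sum,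
      hL.m1, hL.mean, ← hv]
    ring
  have h3 := (sum_eq_zero_iff_of_nonneg fun i _ =>
    mul_nonneg (hL.m0 i) (by linarith [hle i])).1 h1 i (mem_univ i)
  rcases mul_eq_zero.1 h3 with h4 | h4
  · exact absurd h4 hi.ne'
  · linarith

end Pool.Agent.EMCW
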