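import Pool.Agent.EMCW.St

/-!
The matched two-point law.
-/

open Finset

namespace Pool.Agent.EMCW

/-- cubic Hermite interpolation of `exp (-z)` at `0` and `D` from below -/
theorem Match_hermite (D : ℝ) (hD : 0 < D) : ∃ b c : ℝ,
    1 - D + b * D ^ 2 + c * D ^ 3 = Real.exp (-D) ∧
    ∀ z : ℝ, 1 - z + b * z ^ 2 + c * z ^ 3 ≤ Real.exp (-z) := by
  obtain ⟨E, hE⟩ : ∃ E : ℝ, E = Real.exp (-D) := ⟨_, rfl⟩
  have hexp : Real.exp D * E = 1 := by rw [hE, ← Real.exp_add]; simp
  have hE0 : 0 < E := by rw [hE]; exact Real.exp_pos _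
  -- the leading coefficient is negative
  have hc0 : 2 * (1 - E) < D * (1 + E) := by
    have hmono : StrictMonoOn (fun t : ℝ => t * (1 + Real.exp (-t)) - 2 * (1 - Real.exp (-t)))
        (Set.Ici 0) := by
      apply strictMonoOn_of_deriv_pos (convex_Ici 0)
      · fun_prop
      · intro t ht
        rw [interior_Ici] at ht
        have h1 : HasDerivAt (fun t : ℝ => t * (1 + Real.exp (-t)) - 2 * (1 - Real.exp (-t)))
            (1 * (1 + Real.exp (-t)) + t * (Real.exp (-t) * (-1)) -
              2 * (0 - Real.exp (-t) * (-1))) t := by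
          have h2 : HasDerivAt (fun t : ℝ => Real.exp (-t)) (Real.exp (-t) * (-1)) t :=
            (hasDerivAt_neg t).exp
          have h3 : HasDerivAt (fun t : ℝ => 1 + Real.exp (-t)) (Real.exp (-t) * (-1)) t := by
            simpa using h2.const_add 1
          have h4 : HasDerivAt (fun t : ℝ => 1 - Real.exp (-t)) (0 - Real.exp (-t) * (-1)) t := by
            rw [zero_sub]
            exact h2.const_sub 1
          exact ((hasDerivAt_id t).mul h3).sub (h4.const_mul 2)
        rw [h1.deriv]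
        have ht0 : 0 < t := ht
        have h5 : t + 1 < Real.exp t := Real.add_one_lt_exp ht0.ne'
        have h6 : Real.exp t * Real.exp (-t) = 1 := by rw [← Real.exp_add]; simp
        have h7 : 0 < Real.exp (-t) := Real.exp_pos _
        nlinarith
    have h1 := hmono (Set.mem_Ici.2 le_rfl) (Set.mem_Ici.2 hD.le) hD
    simp only [neg_zero, Real.exp_zero] at h1
    rw [← hE] at h1
    linarith
  obtain ⟨c, hc⟩ : ∃ c : ℝ, c = (2 * (1 - E) - D * (1 + E)) / D ^ 3 := ⟨_, rfl⟩
  obtain ⟨b, hb⟩ : ∃ b : ℝ, b = (1 - E - 3 * c * D ^ 2) / (2 * D) := ⟨_, rfl⟩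
  have hcneg : c < 0 := by
    rw [hc]
    apply div_neg_of_neg_of_pos (by linarith) (by positivity)
  have hc' : c * D ^ 3 = 2 * (1 - E) - D * (1 + E) := by rw [hc]; field_simp
  have hb' : 2 * D * b = 1 - E - 3 * c * D ^ 2 := by rw [hb]; field_simp
  have hq1 : 1 - D + b * D ^ 2 + c * D ^ 3 = E := by
    have : 2 * (b * D ^ 2) = D * (1 - E - 3 * c * D ^ 2) := by rw [← hb']; ring
    nlinarith
  have hq2 : -1 + 2 * b * D + 3 * c * D ^ 2 = -E := by linarith
  refine ⟨b, c, by rw [hq1, hE], ?_⟩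
  -- the function K
  set K : ℝ → ℝ := fun z => 1 - (1 - z + b * z ^ 2 + c * z ^ 3) * Real.exp z with hK
  have hder : ∀ z, HasDerivAt K (-((c * z ^ 2 + (b + 3 * c) * z + (2 * b - 1)) * z *
      Real.exp z)) z := by
    intro z
    have h1 : HasDerivAt (fun z : ℝ => 1 - z + b * z ^ 2 + c * z ^ 3)
        (-1 + b * (2 * z) + c * (3 * z ^ 2)) z := by
      have h2 : HasDerivAt (fun z : ℝ => 1 - z) (-1) z := by
        exact (hasDerivAt_id z).const_sub 1
      have h3 : HasDerivAt (fun z : ℝ => z ^ 2) (2 * z) z := by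
        simpa using hasDerivAt_pow 2 z
      have h4 : HasDerivAt (fun z : ℝ => z ^ 3) (3 * z ^ 2) z := by
        simpa using hasDerivAt_pow 3 z
      exact (h2.add (h3.const_mul b)).add (h4.const_mul c)
    have h5 := (h1.mul (Real.hasDerivAt_exp z))
    have h6 : HasDerivAt K (0 - ((-1 + b * (2 * z) + c * (3 * z ^ 2)) * Real.exp z +
        (1 - z + b * z ^ 2 + c * z ^ 3) * Real.exp z)) z :=
      (hasDerivAt_const z (1 : ℝ)).sub h5
    have h7 : -((c * z ^ 2 + (b + 3 * c) * z + (2 * b - 1)) * z * Real.exp z) =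
        0 - ((-1 + b * (2 * z) + c * (3 * z ^ 2)) * Real.exp z +
        (1 - z + b * z ^ 2 + c * z ^ 3) * Real.exp z) := by ring
    rw [h7]
    exact h6
  have hcont : Continuous K := continuous_iff_continuousAt.2 fun z => (hder z).continuousAt
  have hK0 : K 0 = 0 := by simp [hK]
  have hKD : K D = 0 := by
    simp only [hK]
    rw [hq1, mul_comm, hexp]
    ring
  obtain ⟨r, ⟨hr0, hrD⟩, hr⟩ := exists_deriv_eq_zero hD hcont.continuousOn (hK0.trans hKD.symm)
  rw [(hder r).deriv] at hr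
  have hr1 : c * r ^ 2 + (b + 3 * c) * r + (2 * b - 1) = 0 := by
    have h1 : (c * r ^ 2 + (b + 3 * c) * r + (2 * b - 1)) * (r * Real.exp r) = 0 := by
      linarith
    rcases mul_eq_zero.1 h1 with h2 | h2
    · exact h2
    · exact absurd h2 (mul_pos hr0 (Real.exp_pos _)).ne'
  have hD1 : c * D ^ 2 + (b + 3 * c) * D + (2 * b - 1) = 0 := by
    have h1 : (c * D ^ 2 + (b + 3 * c) * D + (2 * b - 1)) * D = 0 := by
      have : (1 - D + b * D ^ 2 + c * D ^ 3) + (-1 + 2 * b * D + 3 * c * D ^ 2) = 0 := by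
        rw [hq1, hq2]; ring
      linarith
    rcases mul_eq_zero.1 h1 with h2 | h2
    · exact h2
    · exact absurd h2 hD.ne'
  have hs1 : b + 3 * c = -(c * (D + r)) := by
    have h1 : (D - r) * (c * (D + r) + (b + 3 * c)) = 0 := by linarith
    rcases mul_eq_zero.1 h1 with h2 | h2
    · linarith
    · linarith
  have hs2 : 2 * b - 1 = c * (D * r) := by
    rw [hs1] at hD1
    linarith
  have hfac : ∀ z, -((c * z ^ 2 + (b + 3 * c) * z + (2 * b - 1)) * z * Real.exp z) =
      (-c) * Real.exp z * (z * ((z - D) * (z - r))) := by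
    intro z
    rw [hs1, hs2]
    ring
  have hce : ∀ z, 0 ≤ (-c) * Real.exp z := fun z =>
    mul_nonneg (by linarith) (Real.exp_pos z).le
  have hKpos : ∀ z, 0 ≤ K z := by
    intro z
    rcases le_total z 0 with h1 | h1
    · have h2 : AntitoneOn K (Set.Iic 0) := by
        apply antitoneOn_of_deriv_nonpos (convex_Iic 0) hcont.continuousOn
          (fun x _ => (hder x).differentiableAt.differentiableWithinAt)
        intro x hx
        rw [interior_Iic] at hx
        have hx0 : x < 0 := hx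
        rw [(hder x).deriv, hfac]
        apply mul_nonpos_of_nonneg_of_nonpos (hce x)
        apply mul_nonpos_of_nonpos_of_nonneg hx0.le
        nlinarith
      have h3 := h2 (Set.mem_Iic.2 h1) (Set.mem_Iic.2 le_rfl) h1
      rw [hK0] at h3
      exact h3
    rcases le_total z r with h2 | h2
    · have h3 : MonotoneOn K (Set.Icc 0 r) := by
        apply monotoneOn_of_deriv_nonneg (convex_Icc 0 r) hcont.continuousOn
          (fun x _ => (hder x).differentiableAt.differentiableWithinAt)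
        intro x hx
        rw [interior_Icc] at hx
        rw [(hder x).deriv, hfac]
        apply mul_nonneg (hce x)
        apply mul_nonneg hx.1.le
        nlinarith [hx.2]
      have h4 := h3 (Set.mem_Icc.2 ⟨le_rfl, hr0.le⟩) (Set.mem_Icc.2 ⟨h1, h2⟩) h1
      rw [hK0] at h4
      exact h4
    rcases le_total z D with h3 | h3
    · have h4 : AntitoneOn K (Set.Icc r D) := by
        apply antitoneOn_of_deriv_nonpos (convex_Icc r D) hcont.continuousOn
          (fun x _ => (hder x).differentiableAt.differentiableWithinAt)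
        intro x hx
        rw [interior_Icc] at hx
        rw [(hder x).deriv, hfac]
        apply mul_nonpos_of_nonneg_of_nonpos (hce x)
        apply mul_nonpos_of_nonneg_of_nonpos (hr0.trans hx.1).le
        nlinarith [hx.1, hx.2]
      have h5 := h4 (Set.mem_Icc.2 ⟨h2, h3⟩) (Set.mem_Icc.2 ⟨hrD.le, le_rfl⟩) h3
      rw [hKD] at h5
      exact h5
    · have h4 : MonotoneOn K (Set.Ici D) := by
        apply monotoneOn_of_deriv_nonneg (convex_Ici D) hcont.continuousOn
          (fun x _ => (hder x).differentiableAt.differentiableWithinAt)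
        intro x hx
        rw [interior_Ici] at hx
        have hx0 : D < x := hx
        rw [(hder x).deriv, hfac]
        apply mul_nonneg (hce x)
        apply mul_nonneg (hD.trans hx0).le
        nlinarith
      have h5 := h4 (Set.mem_Ici.2 le_rfl) (Set.mem_Ici.2 h3) h3
      rw [hKD] at h5
      exact h5
  intro z
  have h1 := hKpos z
  have h2 : Real.exp z * Real.exp (-z) = 1 := by rw [← Real.exp_add]; simp
  have h3 : 0 < Real.exp (-z) := Real.exp_pos _
  have h4 : 0 ≤ K z * Real.exp (-z) := mul_nonneg h1 h3.le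
  have h5 : K z * Real.exp (-z) = Real.exp (-z) - (1 - z + b * z ^ 2 + c * z ^ 3) := by
    simp only [hK]
    calc (1 - (1 - z + b * z ^ 2 + c * z ^ 3) * Real.exp z) * Real.exp (-z)
        = Real.exp (-z) - (1 - z + b * z ^ 2 + c * z ^ 3) * (Real.exp z * Real.exp (-z)) := by
          ring
      _ = _ := by rw [h2, mul_one]
  linarith

theorem thm_Match : St_Match := by
  intro M ι _ m a hL hV
  obtain ⟨V, hVd⟩ : ∃ V : ℝ, V = m2 m a - 1 := ⟨_, rfl⟩
  rw [← hVd] at hV ⊢
  have hm2 : m2 m a = V + 1 := by linarith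
  obtain ⟨j, hj⟩ : ∃ j : ℝ, j = (m3 m a - 3 * m2 m a + 2) / V := ⟨_, rfl⟩
  have hjV : j * V = m3 m a - 3 * m2 m a + 2 := by rw [hj]; field_simp
  obtain ⟨q, hq⟩ : ∃ q : ℝ, q = Real.sqrt (j ^ 2 + 4 * V) := ⟨_, rfl⟩
  have hq2 : q ^ 2 = j ^ 2 + 4 * V := by rw [hq]; exact Real.sq_sqrt (by positivity)
  have hq0 : |j| < q := by
    rw [hq]
    apply Real.lt_sqrt_of_sq_lt
    rw [sq_abs]
    linarith
  obtain ⟨hq1, hq3⟩ := abs_lt.1 hq0
  obtain ⟨be, hbe⟩ : ∃ be : ℝ, be = (j + q) / 2 := ⟨_, rfl⟩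
  obtain ⟨al, hal⟩ : ∃ al : ℝ, al = (q - j) / 2 := ⟨_, rfl⟩
  have hbe0 : 0 < be := by rw [hbe]; linarith
  have hal0 : 0 < al := by rw [hal]; linarith
  have hab : al * be = V := by
    rw [hbe, hal]
    linarith
  have hba : be - al = j := by rw [hbe, hal]; ring
  have hm3 : m3 m a = (be - al) * (al * be) + 3 * (al * be) + 1 := by
    rw [hba, hab, hjV, hm2]
    ring
  have hm2' : m2 m a = al * be + 1 := by rw [hm2, hab]
  -- cubic polynomials have the same expectation
  have hmom : ∀ p0 p1 p2 p3 : ℝ,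
      (al + be) * ∑ i, m i * (p0 + p1 * a i + p2 * a i ^ 2 + p3 * a i ^ 3) =
        be * (p0 + p1 * (1 - al) + p2 * (1 - al) ^ 2 + p3 * (1 - al) ^ 3) +
          al * (p0 + p1 * (1 + be) + p2 * (1 + be) ^ 2 + p3 * (1 + be) ^ 3) := by
    intro p0 p1 p2 p3
    have h1 : ∑ i, m i * (p0 + p1 * a i + p2 * a i ^ 2 + p3 * a i ^ 3) =
        p0 * ∑ i, m i + p1 * ∑ i, m i * a i + p2 * m2 m a + p3 * m3 m a := by
      unfold m2 m3
      rw [mul_sum, mul_sum, mul_sum, mul_sum, ← sum_add_distrib, ← sum_add_distrib,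
        ← sum_add_distrib]
      exact sum_congr rfl fun i _ => by ring
    rw [h1, hL.m1, hL.mean, hm3, hm2']
    ring
  have hCS : m2 m a ^ 2 ≤ m3 m a := by
    have h1 : 0 ≤ ∑ i, m i * (a i * (a i - m2 m a) ^ 2) :=
      sum_nonneg fun i _ => mul_nonneg (hL.m0 i) (mul_nonneg (hL.a0 i) (sq_nonneg _))
    have h2 : ∑ i, m i * (a i * (a i - m2 m a) ^ 2) =
        m3 m a - 2 * m2 m a * m2 m a + m2 m a ^ 2 * ∑ i, m i * a i := by
      have h3 : ∑ i, m i * (a i * (a i - m2 m a) ^ 2) =
          ∑ i, m i * a i ^ 3 - 2 * m2 m a * ∑ i, m i * a i ^ 2 +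
            m2 m a ^ 2 * ∑ i, m i * a i := by
        rw [mul_sum, mul_sum, ← sum_sub_distrib, ← sum_add_distrib]
        exact sum_congr rfl fun i _ => by ring
      rw [h3]
      rfl
    rw [h2, hL.mean] at h1
    nlinarith
  have hid : (1 - al) * (1 + be) * V = m3 m a - m2 m a ^ 2 := by
    rw [hm3, hm2', ← hab]
    ring
  have hal1 : al ≤ 1 := by
    by_contra hcon
    push Not at hcon
    have h1 : (1 - al) * (1 + be) * V < 0 :=
      mul_neg_of_neg_of_pos (mul_neg_of_neg_of_pos (by linarith) (by linarith)) hV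
    linarith
  refine ⟨al, be, hal0, hal1, hbe0, hab, by rw [hba, hjV], hid, ?_, ?_⟩
  · intro B hB
    have h1 : 0 ≤ ∑ i, m i * ((a i - (1 - al)) ^ 2 * (B - a i)) := by
      apply sum_nonneg
      intro i _
      rcases (hL.m0 i).eq_or_lt with h2 | h2
      · rw [← h2, zero_mul]
      · exact mul_nonneg h2.le (mul_nonneg (sq_nonneg _) (by linarith [hB i h2]))
    have h2 := hmom ((1 - al) ^ 2 * B) (-(1 - al) ^ 2 - 2 * (1 - al) * B)
      (2 * (1 - al) + B) (-1)
    have h3 : ∑ i, m i * ((1 - al) ^ 2 * B + (-(1 - al) ^ 2 - 2 * (1 - al) * B) * a i +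
        (2 * (1 - al) + B) * a i ^ 2 + (-1) * a i ^ 3) =
        ∑ i, m i * ((a i - (1 - al)) ^ 2 * (B - a i)) :=
      sum_congr rfl fun i _ => by ring
    rw [h3] at h2
    have h4 : 0 ≤ (al + be) * ∑ i, m i * ((a i - (1 - al)) ^ 2 * (B - a i)) :=
      mul_nonneg (by linarith) h1
    rw [h2] at h4
    have h5 : 0 ≤ al * (al + be) ^ 2 * (B - (1 + be)) := by
      calc (0 : ℝ) ≤ _ := h4
        _ = _ := by ring
    have h6 : 0 < al * (al + be) ^ 2 := by positivity
    by_contra hcon
    push Not at hcon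
    have h7 : al * (al + be) ^ 2 * (B - (1 + be)) < 0 :=
      mul_neg_of_pos_of_neg h6 (by linarith)
    linarith
  · intro u hu
    have hs : 0 < al + be := by linarith
    rcases hu.eq_or_lt with h0 | h0
    · rw [← h0]
      unfold ph2 ph
      simp only [neg_zero, zero_mul, Real.exp_zero, mul_one]
      rw [hL.m1, div_le_one hs]
      linarith
    · obtain ⟨b, c, hq, hle⟩ := Match_hermite (u * (al + be)) (mul_pos h0 hs)
      have h1 : ∀ i, m i * (Real.exp (-u * (1 - al)) * (1 - u * (a i - (1 - al)) +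
          b * (u * (a i - (1 - al))) ^ 2 + c * (u * (a i - (1 - al))) ^ 3)) ≤
          m i * Real.exp (-u * a i) := by
        intro i
        apply mul_le_mul_of_nonneg_left _ (hL.m0 i)
        have h2 : Real.exp (-u * a i) = Real.exp (-u * (1 - al)) *
            Real.exp (-(u * (a i - (1 - al)))) := by
          rw [← Real.exp_add]
          congr 1
          ring
        rw [h2]
        exact mul_le_mul_of_nonneg_left (hle _) (Real.exp_pos _).le
      have h2 : ∑ i, m i * (Real.exp (-u * (1 - al)) * (1 - u * (a i - (1 - al)) +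
          b * (u * (a i - (1 - al))) ^ 2 + c * (u * (a i - (1 - al))) ^ 3)) ≤ ph m a u :=
        sum_le_sum fun i _ => h1 i
      refine le_trans (le_of_eq ?_) h2
      have h3 := hmom (1 + u * (1 - al) + b * u ^ 2 * (1 - al) ^ 2 - c * u ^ 3 * (1 - al) ^ 3)
        (-u - 2 * b * u ^ 2 * (1 - al) + 3 * c * u ^ 3 * (1 - al) ^ 2)
        (b * u ^ 2 - 3 * c * u ^ 3 * (1 - al)) (c * u ^ 3)
      have h4 : ∑ i, m i * ((1 + u * (1 - al) + b * u ^ 2 * (1 - al) ^ 2 -
          c * u ^ 3 * (1 - al) ^ 3) + (-u - 2 * b * u ^ 2 * (1 - al) +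
          3 * c * u ^ 3 * (1 - al) ^ 2) * a i + (b * u ^ 2 - 3 * c * u ^ 3 * (1 - al)) * a i ^ 2 +
          (c * u ^ 3) * a i ^ 3) = ∑ i, m i * (1 - u * (a i - (1 - al)) +
          b * (u * (a i - (1 - al))) ^ 2 + c * (u * (a i - (1 - al))) ^ 3) :=
        sum_congr rfl fun i _ => by ring
      rw [h4] at h3
      have h5 : ∑ i, m i * (Real.exp (-u * (1 - al)) * (1 - u * (a i - (1 - al)) +
          b * (u * (a i - (1 - al))) ^ 2 + c * (u * (a i - (1 - al))) ^ 3)) =
          Real.exp (-u * (1 - al)) * ∑ i, m i * (1 - u * (a i - (1 - al)) +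
          b * (u * (a i - (1 - al))) ^ 2 + c * (u * (a i - (1 - al))) ^ 3) := by
        rw [mul_sum]
        exact sum_congr rfl fun i _ => by ring
      have h6 : Real.exp (-u * (1 + be)) = Real.exp (-u * (1 - al)) *
          Real.exp (-(u * (al + be))) := by
        rw [← Real.exp_add]
        congr 1
        ring
      rw [h5]
      unfold ph2
      rw [h6, ← hq, div_eq_iff hs.ne']
      calc be * Real.exp (-u * (1 - al)) + al * (Real.exp (-u * (1 - al)) *
            (1 - u * (al + be) + b * (u * (al + be)) ^ 2 + c * (u * (al + be)) ^ 3))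
          = Real.exp (-u * (1 - al)) * (be * ((1 + u * (1 - al) + b * u ^ 2 * (1 - al) ^ 2 -
              c * u ^ 3 * (1 - al) ^ 3) + (-u - 2 * b * u ^ 2 * (1 - al) +
              3 * c * u ^ 3 * (1 - al) ^ 2) * (1 - al) + (b * u ^ 2 -
              3 * c * u ^ 3 * (1 - al)) * (1 - al) ^ 2 + (c * u ^ 3) * (1 - al) ^ 3) +
            al * ((1 + u * (1 - al) + b * u ^ 2 * (1 - al) ^ 2 -
              c * u ^ 3 * (1 - al) ^ 3) + (-u - 2 * b * u ^ 2 * (1 - al) +
              3 * c * u ^ 3 * (1 - al) ^ 2) * (1 + be) + (b * u ^ 2 -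
              3 * c * u ^ 3 * (1 - al)) * (1 + be) ^ 2 + (c * u ^ 3) * (1 + be) ^ 3)) := by
            ring
        _ = _ := by rw [← h3]; ring

end Pool.Agent.EMCW
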