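import Pool.Agent.EMCW.St

/-!
Module Max: existence of a maximiser on a fixed finite set of positions.
-/

open Finset

namespace Pool.Agent.EMCW

theorem Max_cont {ι : Type} [Fintype ι] (a : ι → ℝ) (F : ℝ → ℝ) (k : ℕ) :
    ∀ t : ℝ, Continuous fun m : ι → ℝ => Tk m a k F t := by
  induction k with
  | zero =>
    intro t
    exact continuous_const
  | succ k ih =>
    intro t
    have h : (fun m : ι → ℝ => Tk m a (k + 1) F t) =
        fun m => ∑ i, m i * Tk m a k F (t + a i) := by
      funext m
      exact Tk_succ k F t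
    rw [h]
    exact continuous_finsetSum _ fun i _ => (continuous_apply i).mul (ih (t + a i))

theorem thm_Max : St_Max := by
  intro R M x ka w0 ι _ m a hl
  set S : Set (ι → ℝ) := {m' | (∀ i, 0 ≤ m' i) ∧ ∑ i, m' i = 1 ∧ ∑ i, m' i * a i = x} with hS
  have hSc : IsCompact S := by
    apply Metric.isCompact_of_isClosed_isBounded
    · have h1 : IsClosed {m' : ι → ℝ | ∀ i, 0 ≤ m' i} := by
        have : {m' : ι → ℝ | ∀ i, 0 ≤ m' i} = ⋂ i, {m' : ι → ℝ | 0 ≤ m' i} := by
          ext m'
          simp
        rw [this]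
        exact isClosed_iInter fun i => isClosed_le continuous_const (continuous_apply i)
      have h2 : IsClosed {m' : ι → ℝ | ∑ i, m' i = 1} :=
        isClosed_eq (continuous_finsetSum _ fun i _ => continuous_apply i) continuous_const
      have h3 : IsClosed {m' : ι → ℝ | ∑ i, m' i * a i = x} :=
        isClosed_eq (continuous_finsetSum _ fun i _ => (continuous_apply i).mul
          continuous_const) continuous_const
      exact h1.inter (h2.inter h3)
    · refine (Metric.isBounded_Icc (0 : ι → ℝ) 1).subset ?_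
      intro m' hm'
      refine ⟨fun i => hm'.1 i, fun i => ?_⟩
      have h4 : m' i ≤ ∑ i, m' i :=
        Finset.single_le_sum (f := fun i => m' i) (fun i _ => hm'.1 i) (Finset.mem_univ i)
      rw [hm'.2.1] at h4
      exact h4
  have hne : S.Nonempty := ⟨m, hl.m0, hl.m1, hl.mean⟩
  have hcont : Continuous fun m' : ι → ℝ => pp R M m' a - ka * (m2 m' a - w0) ^ 2 := by
    have h1 : Continuous fun m' : ι → ℝ => pp R M m' a := Max_cont a (ind M) R 0
    have h2 : Continuous fun m' : ι → ℝ => m2 m' a := by
      unfold m2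
      exact continuous_finsetSum _ fun i _ => (continuous_apply i).mul continuous_const
    exact h1.sub (continuous_const.mul ((h2.sub continuous_const).pow 2))
  obtain ⟨m', hm', hmax⟩ := hSc.exists_isMaxOn hne hcont.continuousOn
  refine ⟨m', ⟨hm'.1, hm'.2.1, hl.a0, hl.aM, hm'.2.2⟩, fun m'' hm'' => ?_⟩
  exact hmax ⟨hm''.m0, hm''.m1, hm''.mean⟩

end Pool.Agent.EMCW
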