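import Pool.Agent.EMCW.St

/-!
# EMCW, module Mix: mixing with the point `M`
-/

open Finset

namespace Pool.Agent.EMCW

namespace MMix

variable {ι : Type} [Fintype ι] {m a : ι → ℝ} {M x : ℝ}

/-- The masses of the mixture. -/
def mm (t : ℝ) (m : ι → ℝ) : Option ι → ℝ
  | none => t
  | some i => (1 - t) * m i

/-- The positions of the mixture. -/
def aa (M : ℝ) (a : ι → ℝ) : Option ι → ℝ
  | none => M
  | some i => a i

lemma law {t : ℝ} (h : IsLaw M x m a) (ht0 : 0 ≤ t) (ht1 : t ≤ 1) (hM : 0 ≤ M)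
    (hx : (1 - t) * (M - x) = M - 1) : IsLaw M 1 (mm t m) (aa M a) := by
  refine ⟨?_, ?_, ?_, ?_, ?_⟩
  · intro i
    cases i with
    | none => exact ht0
    | some i => exact mul_nonneg (by linarith) (h.m0 i)
  · rw [Fintype.sum_option]
    simp only [mm]
    rw [← Finset.mul_sum, h.m1]
    ring
  · intro i
    cases i with
    | none => exact hM
    | some i => exact h.a0 i
  · intro i
    cases i with
    | none => exact le_rfl
    | some i => exact h.aM i
  · rw [Fintype.sum_option]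
    simp only [mm, aa]
    have : ∑ i, (1 - t) * m i * a i = (1 - t) * ∑ i, m i * a i := by
      rw [Finset.mul_sum]
      exact Finset.sum_congr rfl fun i _ => by ring
    rw [this, h.mean]
    linarith

/-- The walk vanishes above the support. -/
lemma Tk_zero_of_ge {κ : Type} [Fintype κ] {m a : κ → ℝ} (ha : ∀ i, 0 ≤ a i) {F : ℝ → ℝ}
    (hF : ∀ s, M ≤ s → F s = 0) (k : ℕ) (s : ℝ) (hs : M ≤ s) : Tk m a k F s = 0 := by
  induction k generalizing s with
  | zero => exact hF s hs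
  | succ k ih =>
    rw [Tk_succ]
    exact Finset.sum_eq_zero fun i _ => by
      rw [ih (s + a i) (by linarith [ha i]), mul_zero]

lemma Tk_mix {t : ℝ} (ha : ∀ i, 0 ≤ a i) (hM : 0 ≤ M) {F : ℝ → ℝ}
    (hF : ∀ s, M ≤ s → F s = 0) (k : ℕ) (s : ℝ) (hs : 0 ≤ s) :
    Tk (mm t m) (aa M a) k F s = (1 - t) ^ k * Tk m a k F s := by
  have ha' : ∀ i, 0 ≤ aa M a i := by
    intro i
    cases i with
    | none => exact hM
    | some i => exact ha i
  induction k generalizing s with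
  | zero => simp [Tk_zero]
  | succ k ih =>
    rw [Tk_succ, Tk_succ, Fintype.sum_option]
    simp only [mm, aa]
    have h1 : Tk (mm t m) (aa M a) k F (s + M) = 0 :=
      Tk_zero_of_ge ha' hF k (s + M) (by linarith)
    have h1' : Tk (mm t m) (aa M a) k F (s + M) = 0 := h1
    rw [h1', mul_zero, zero_add, Finset.mul_sum]
    refine Finset.sum_congr rfl fun i _ => ?_
    rw [ih (s + a i) (by linarith [ha i])]
    ring

lemma qq (h1 : ∑ i, m i = 1) (R : ℕ) (M : ℝ) :
    1 - pp R M m a = Tk m a R (fun s => 1 - ind M s) 0 := by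
  unfold pp
  rw [Tk_sub, Tk_const h1]

end MMix

theorem thm_Mix (hV : St_Vh) : St_Mix := by
  intro R g K x ι _ m a hGK hl hx
  have hr : (4 : ℝ) ≤ (R : ℝ) := by exact_mod_cast hGK.hR
  have hg := hGK.g0
  obtain ⟨hV1, -, hV2, -, -⟩ := hV R g K hGK
  have hM1 : (0 : ℝ) < (R : ℝ) + g - 1 := by linarith
  have hMx : (0 : ℝ) < (R : ℝ) + g - x := by linarith
  have hM : (0 : ℝ) ≤ (R : ℝ) + g := by linarith
  set t : ℝ := 1 - ((R : ℝ) + g - 1) / (R + g - x) with ht
  have h1t : 1 - t = ((R : ℝ) + g - 1) / (R + g - x) := by rw [ht]; ring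
  have h1t0 : 0 < 1 - t := by rw [h1t]; positivity
  have ht0 : 0 ≤ t := by
    have : ((R : ℝ) + g - 1) / (R + g - x) ≤ 1 := by
      rw [div_le_one hMx]
      linarith
    linarith
  have hxt : (1 - t) * ((R : ℝ) + g - x) = R + g - 1 := by
    rw [h1t]
    field_simp
  have hlaw : IsLaw ((R : ℝ) + g) 1 (MMix.mm t m) (MMix.aa ((R : ℝ) + g) a) :=
    MMix.law hl ht0 (by linarith) hM hxt
  have hp := hV1 (Option ι) _ _ hlaw
  have e1 := MMix.qq (a := MMix.aa ((R : ℝ) + g) a) hlaw.m1 R ((R : ℝ) + g)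
  have e2 := MMix.qq (a := a) hl.m1 R ((R : ℝ) + g)
  have hF : ∀ s, (R : ℝ) + g ≤ s → 1 - ind ((R : ℝ) + g) s = 0 := by
    intro s hs
    unfold ind
    rw [if_pos hs]
    ring
  have e3 := MMix.Tk_mix (m := m) (t := t) hl.a0 hM hF R 0 le_rfl
  rw [← e1, ← e2] at e3
  have h4 : 1 - Vh R (R + g) ≤ (1 - t) ^ R * (1 - pp R (R + g) m a) := by
    rw [← e3]
    linarith
  have h5 : (1 - Vh R (R + g)) * (((R : ℝ) + g - x) / (R + g - 1)) ^ R ≤
      1 - pp R (R + g) m a := by
    have h6 : (((R : ℝ) + g - x) / (R + g - 1)) ^ R = ((1 - t) ^ R)⁻¹ := by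
      rw [h1t, ← inv_pow, inv_div]
    rw [h6, ← div_eq_mul_inv, div_le_iff₀ (pow_pos h1t0 R)]
    linarith
  linarith

end Pool.Agent.EMCW
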