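import Pool.Agent.EMCW.St

/-!
Module NC: nearly optimal laws of small variance are near the clique law.
-/

set_option autoImplicit false

open Finset

namespace Pool.Agent.EMCW

/-- Pointwise comparison for the second moment around `b` on `t ≤ a`. -/
lemma MNC_point {a b t : ℝ} (ha : 0 ≤ a) (hb : 0 ≤ b) (ht : 0 < t) :
    (if t ≤ a then (a - b) ^ 2 else 0) ≤ a ^ 2 - 2 * b * a + b ^ 2 / t * min a t + 2 * b * t := by
  split_ifs with h
  · rw [min_eq_right h, div_mul_cancel₀ _ ht.ne']
    nlinarith [mul_nonneg hb ht.le]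
  · push Not at h
    rw [min_eq_left h.le]
    have h1 : 0 ≤ b ^ 2 / t * a := by positivity
    have h2 : b * a ≤ b * t := mul_le_mul_of_nonneg_left h.le hb
    nlinarith [sq_nonneg a]

/-- Pointwise bound for `a |a - b|`. -/
lemma MNC_point2 {a b t M de : ℝ} (ha : 0 ≤ a) (haM : a ≤ M) (hb : 0 ≤ b) (hbM : b ≤ M)
    (ht : 0 < t) (hde : 0 < de) :
    a * |a - b| ≤ t * M + M * de / 2 + M / (2 * de) * (if t ≤ a then (a - b) ^ 2 else 0) := by
  have hM : 0 ≤ M := ha.trans haM
  split_ifs with h
  · have h1 : |a - b| ≤ de / 2 + (a - b) ^ 2 / (2 * de) := by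
      rw [← sq_abs (a - b)]
      have h2 : 0 ≤ (|a - b| - de) ^ 2 / (2 * de) := by positivity
      have h3 : de / 2 + |a - b| ^ 2 / (2 * de) - |a - b| = (|a - b| - de) ^ 2 / (2 * de) := by
        field_simp
        ring
      linarith
    have h4 : a * |a - b| ≤ M * (de / 2 + (a - b) ^ 2 / (2 * de)) :=
      mul_le_mul haM h1 (abs_nonneg _) hM
    have h5 : M * (de / 2 + (a - b) ^ 2 / (2 * de)) =
        M * de / 2 + M / (2 * de) * (a - b) ^ 2 := by ring
    have h6 : 0 ≤ t * M := by positivity
    linarith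
  · push Not at h
    have h1 : |a - b| ≤ M := by
      rw [abs_le]
      constructor <;> linarith
    have h2 : a * |a - b| ≤ t * M := mul_le_mul h.le h1 (abs_nonneg _) ht.le
    have h3 : 0 ≤ M * de / 2 := by positivity
    linarith

theorem thm_NC (hV : St_Vh) (hT : St_Trunc) : St_NC := by
  intro R g K tau hGK htau
  obtain ⟨-, -, hV1, -, -⟩ := hV R g K hGK
  have hR : (4 : ℝ) ≤ R := by exact_mod_cast hGK.hR
  have hg0 : 0 < g := hGK.g0
  have hg1 : g < 1 := hGK.g1
  set M : ℝ := R + g with hM
  have hM0 : 0 < M := by linarith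
  have hR0 : (0 : ℝ) < R := by linarith
  set b : ℝ := M / R with hb
  have hb0 : 0 < b := by positivity
  have hbM : b ≤ M := by
    rw [hb, div_le_iff₀ hR0]
    nlinarith
  set v : ℝ := 1 - Vh R M with hv
  have hv0 : 0 < v := by linarith
  obtain ⟨t, ht0, htb, ht1, ht2⟩ : ∃ t : ℝ, 0 < t ∧ t < b ∧ t * M ≤ tau / 8 ∧
      M ^ 2 * b * t ≤ tau ^ 2 / 8 := by
    refine ⟨min (min (tau / (8 * M)) (tau ^ 2 / (8 * (M ^ 2 * b)))) (b / 2), ?_, ?_, ?_, ?_⟩
    · have h1 : 0 < tau / (8 * M) := by positivity
      have h2 : 0 < tau ^ 2 / (8 * (M ^ 2 * b)) := by positivity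
      exact lt_min (lt_min h1 h2) (by linarith)
    · exact (min_le_right _ _).trans_lt (by linarith)
    · have h1 : min (min (tau / (8 * M)) (tau ^ 2 / (8 * (M ^ 2 * b)))) (b / 2) ≤
          tau / (8 * M) := (min_le_left _ _).trans (min_le_left _ _)
      calc _ ≤ tau / (8 * M) * M := mul_le_mul_of_nonneg_right h1 hM0.le
        _ = tau / 8 := by field_simp
    · have h1 : min (min (tau / (8 * M)) (tau ^ 2 / (8 * (M ^ 2 * b)))) (b / 2) ≤
          tau ^ 2 / (8 * (M ^ 2 * b)) := (min_le_left _ _).trans (min_le_right _ _)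
      calc _ ≤ M ^ 2 * b * (tau ^ 2 / (8 * (M ^ 2 * b))) :=
            mul_le_mul_of_nonneg_left h1 (by positivity)
        _ = tau ^ 2 / 8 := by field_simp
  set C : ℝ := 1 / R + b ^ 2 * M / (v * t) with hC
  have hC0 : 0 < C := by positivity
  refine ⟨tau ^ 2 / (4 * M ^ 2 * C), by positivity, ?_⟩
  set et : ℝ := tau ^ 2 / (4 * M ^ 2 * C) with het
  have het0 : 0 < et := by positivity
  intro ι _ m a hlaw hp hW
  have hTr := hT R g K et t ι m a hGK hlaw het0.le hp ht0.le htb
  have hm2 : m2 m a ≤ b + et / R := by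
    have h1 : (R : ℝ) * (m2 m a - 1) ≤ g + et := hW
    have h2 : m2 m a - 1 ≤ (g + et) / R := by
      rw [le_div_iff₀ hR0]
      linarith
    have h3 : b + et / R - 1 = (g + et) / R := by
      rw [hb, hM]
      field_simp
      ring
    linarith
  -- the second moment on `t ≤ a`
  have hQ : ∑ i, m i * (if t ≤ a i then (a i - b) ^ 2 else 0) ≤ et * C + 2 * b * t := by
    calc ∑ i, m i * (if t ≤ a i then (a i - b) ^ 2 else 0)
        ≤ ∑ i, m i * (a i ^ 2 - 2 * b * a i + b ^ 2 / t * min (a i) t + 2 * b * t) :=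
          Finset.sum_le_sum fun i _ => mul_le_mul_of_nonneg_left
            (MNC_point (hlaw.a0 i) hb0.le ht0) (hlaw.m0 i)
      _ = m2 m a - 2 * b * ∑ i, m i * a i + b ^ 2 / t * ∑ i, m i * min (a i) t +
            2 * b * t * ∑ i, m i := by
          unfold m2
          simp only [Finset.mul_sum]
          rw [← Finset.sum_sub_distrib, ← Finset.sum_add_distrib, ← Finset.sum_add_distrib]
          exact Finset.sum_congr rfl fun i _ => by ring
      _ = m2 m a - 2 * b + b ^ 2 / t * ∑ i, m i * min (a i) t + 2 * b * t := by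
          rw [hlaw.mean, hlaw.m1]
          ring
      _ ≤ (b + et / R) - 2 * b + b ^ 2 / t * (R * t / M + et * M / v) + 2 * b * t := by
          have h1 : b ^ 2 / t * ∑ i, m i * min (a i) t ≤
              b ^ 2 / t * (R * t / M + et * M / v) :=
            mul_le_mul_of_nonneg_left hTr (by positivity)
          linarith
      _ = et * C + 2 * b * t := by
          have h1 : b ^ 2 / t * (R * t / M) = b := by
            rw [hb]
            field_simp
          rw [mul_add, h1, hC]
          field_simp
          ring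
  set de : ℝ := tau / M with hde
  have hde0 : 0 < de := by positivity
  calc ∑ i, m i * a i * |a i - b|
      = ∑ i, m i * (a i * |a i - b|) := Finset.sum_congr rfl fun i _ => by ring
    _ ≤ ∑ i, m i * (t * M + M * de / 2 +
          M / (2 * de) * (if t ≤ a i then (a i - b) ^ 2 else 0)) :=
        Finset.sum_le_sum fun i _ => mul_le_mul_of_nonneg_left
          (MNC_point2 (hlaw.a0 i) (hlaw.aM i) hb0.le hbM ht0 hde0) (hlaw.m0 i)
    _ = (t * M + M * de / 2) * ∑ i, m i +
          M / (2 * de) * ∑ i, m i * (if t ≤ a i then (a i - b) ^ 2 else 0) := by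
        rw [Finset.mul_sum, Finset.mul_sum, ← Finset.sum_add_distrib]
        exact Finset.sum_congr rfl fun i _ => by ring
    _ ≤ (t * M + M * de / 2) + M / (2 * de) * (et * C + 2 * b * t) := by
        rw [hlaw.m1, mul_one]
        have h1 : M / (2 * de) * ∑ i, m i * (if t ≤ a i then (a i - b) ^ 2 else 0) ≤
            M / (2 * de) * (et * C + 2 * b * t) :=
          mul_le_mul_of_nonneg_left hQ (by positivity)
        linarith
    _ ≤ tau := by
        have h1 : M * de / 2 = tau / 2 := by
          rw [hde]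
          field_simp
        have h2 : M / (2 * de) * (et * C) = tau / 8 := by
          rw [hde, het]
          field_simp
          ring
        have h3 : M / (2 * de) * (2 * b * t) = (M ^ 2 * b * t) / tau := by
          rw [hde]
          field_simp
        have h4 : (M ^ 2 * b * t) / tau ≤ tau / 8 := by
          rw [div_le_iff₀ htau]
          calc M ^ 2 * b * t ≤ tau ^ 2 / 8 := ht2
            _ = tau / 8 * tau := by ring
        have h5 : M / (2 * de) * (et * C + 2 * b * t) =
            M / (2 * de) * (et * C) + M / (2 * de) * (2 * b * t) := by ring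
        rw [h5, h1, h2, h3]
        linarith

end Pool.Agent.EMCW
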