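import Pool.Agent.EMCW.St

/-!
Module NG of the probabilistic part: the inequality (II*) from the negative tilts.
-/

set_option autoImplicit false

open Finset

namespace Pool.Agent.EMCW

namespace NG

open Filter Topology

/-- The lower bound for the kernel. -/
noncomputable def kf (b g th t : ℝ) : ℝ :=
  b * Real.exp (-(((1 + th) * b - g) * t)) * (1 / (1 - Real.exp (-(b * t))) + th / 2)

/-- The function `Psi` of the two-point law `{0, b}` with mean `1`. -/
noncomputable def P0 (b : ℝ) (R : ℕ) (t : ℝ) : ℝ :=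
  Real.exp (R * t) / (1 - 1 / b + 1 / b * Real.exp (b * t)) ^ R

lemma lin_deriv (c t : ℝ) : HasDerivAt (fun t : ℝ => -(c * t)) (-c) t := by
  have h := (hasDerivAt_id t).const_mul (-c)
  simpa using h

lemma r_lt {b t : ℝ} (hb : 0 < b) (ht : 0 < t) : Real.exp (-(b * t)) < 1 := by
  rw [Real.exp_lt_one_iff]
  have := mul_pos hb ht
  linarith

lemma kf_eq {b g th t : ℝ} (hb : 0 < b) (ht : 0 < t) :
    kf b g th t = Real.exp (g * t) * (b * Real.exp (-((1 + th) * b * t)) *
      (1 + th / 2 * (1 - Real.exp (-(b * t)))) / (1 - Real.exp (-(b * t)))) := by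
  have h1 : 1 - Real.exp (-(b * t)) ≠ 0 := by
    have := r_lt hb ht
    linarith
  have h2 : Real.exp (-(((1 + th) * b - g) * t)) =
      Real.exp (g * t) * Real.exp (-((1 + th) * b * t)) := by
    rw [← Real.exp_add]
    congr 1
    ring
  unfold kf
  rw [h2]
  field_simp

lemma kf_nonneg {b g th t : ℝ} (hb : 0 < b) (hth : 0 ≤ th) (ht : 0 < t) : 0 ≤ kf b g th t := by
  have h1 : 0 < 1 - Real.exp (-(b * t)) := by
    have := r_lt hb ht
    linarith
  unfold kf
  positivity

lemma kf_deriv {b g th t : ℝ} (hb : 1 ≤ b) (hg : g < 1) (hth : 0 ≤ th) (ht : 0 < t) :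
    ∃ k' : ℝ, HasDerivAt (kf b g th) k' t ∧ k' ≤ 0 := by
  have hb0 : 0 < b := by linarith
  have h1 : 0 < 1 - Real.exp (-(b * t)) := by
    have := r_lt hb0 ht
    linarith
  have e1 := lin_deriv b t
  have e2 : HasDerivAt (fun t : ℝ => 1 - Real.exp (-(b * t)))
      (-(Real.exp (-(b * t)) * (-b))) t := by
    simpa using e1.exp.const_sub 1
  have e3 : HasDerivAt (fun t : ℝ => 1 / (1 - Real.exp (-(b * t))) + th / 2)
      (-(-(Real.exp (-(b * t)) * (-b))) / (1 - Real.exp (-(b * t))) ^ 2) t := by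
    have := (e2.inv h1.ne').add_const (th / 2)
    simpa using this
  have e4 := lin_deriv ((1 + th) * b - g) t
  have e5 := (e4.exp.const_mul b).mul e3
  refine ⟨_, e5, ?_⟩
  have h2 : 0 ≤ (1 + th) * b - g := by nlinarith
  have h3 : 0 < Real.exp (-(((1 + th) * b - g) * t)) := Real.exp_pos _
  have h4 : 0 < Real.exp (-(b * t)) := Real.exp_pos _
  have h5 : 0 ≤ b * (Real.exp (-(((1 + th) * b - g) * t)) * ((1 + th) * b - g)) *
      (1 / (1 - Real.exp (-(b * t))) + th / 2) := by positivity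
  have h6 : 0 ≤ b * Real.exp (-(((1 + th) * b - g) * t)) *
      ((Real.exp (-(b * t)) * b) / (1 - Real.exp (-(b * t))) ^ 2) := by positivity
  have h7 : b * (Real.exp (-(((1 + th) * b - g) * t)) * -((1 + th) * b - g)) *
      (1 / (1 - Real.exp (-(b * t))) + th / 2) +
      b * Real.exp (-(((1 + th) * b - g) * t)) *
      (-(-(Real.exp (-(b * t)) * (-b))) / (1 - Real.exp (-(b * t))) ^ 2) =
      -(b * (Real.exp (-(((1 + th) * b - g) * t)) * ((1 + th) * b - g)) *
      (1 / (1 - Real.exp (-(b * t))) + th / 2)) -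
      b * Real.exp (-(((1 + th) * b - g) * t)) *
      ((Real.exp (-(b * t)) * b) / (1 - Real.exp (-(b * t))) ^ 2) := by ring
  rw [h7]
  linarith

lemma kf_tendsto {b g th : ℝ} (hb : 0 < b) :
    Tendsto (fun t : ℝ => t * kf b g th t) (𝓝[>] 0) (𝓝 1) := by
  have e1 : HasDerivAt (fun t : ℝ => 1 - Real.exp (-(b * t))) b 0 := by
    have e0 := lin_deriv b 0
    have := e0.exp.const_sub 1
    simpa using this
  have e2 : Tendsto (fun t : ℝ => t⁻¹ * (1 - Real.exp (-(b * t)))) (𝓝[>] 0) (𝓝 b) := by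
    have h := (hasDerivAt_iff_tendsto_slope_zero.mp e1).mono_left
      (nhdsWithin_mono (0 : ℝ) (show Set.Ioi (0 : ℝ) ⊆ {0}ᶜ from fun x hx => ne_of_gt hx))
    simpa using h
  have e3 := e2.inv₀ hb.ne'
  have e4 : Tendsto (fun t : ℝ => Real.exp (-(((1 + th) * b - g) * t))) (𝓝[>] 0) (𝓝 1) := by
    have : Continuous (fun t : ℝ => Real.exp (-(((1 + th) * b - g) * t))) := by fun_prop
    have h := (this.tendsto 0).mono_left (nhdsWithin_le_nhds (s := Set.Ioi 0))
    simpa using h
  have e5 : Tendsto (fun t : ℝ => t * (th / 2)) (𝓝[>] 0) (𝓝 0) := by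
    have : Continuous (fun t : ℝ => t * (th / 2)) := by fun_prop
    have h := (this.tendsto 0).mono_left (nhdsWithin_le_nhds (s := Set.Ioi 0))
    simpa using h
  have e6 := ((e4.const_mul b).mul (e3.add e5))
  have h1 : b * 1 * (b⁻¹ + 0) = 1 := by
    rw [mul_one, add_zero, mul_inv_cancel₀ hb.ne']
  rw [h1] at e6
  refine e6.congr' ?_
  filter_upwards [self_mem_nhdsWithin] with t ht
  have ht0 : (0 : ℝ) < t := ht
  have h2 : 1 - Real.exp (-(b * t)) ≠ 0 := by
    have := r_lt hb ht0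
    linarith
  unfold kf
  field_simp

lemma w_pos {b : ℝ} (hb : 1 ≤ b) (t : ℝ) : 0 < 1 - 1 / b + 1 / b * Real.exp (b * t) := by
  have h1 : 1 / b ≤ 1 := by
    rw [div_le_one (by linarith)]
    exact hb
  have h2 : 0 < 1 / b * Real.exp (b * t) := by positivity
  linarith

lemma P0_deriv {b : ℝ} (hb : 1 ≤ b) {R : ℕ} (hR : 1 ≤ R) (t : ℝ) :
    HasDerivAt (P0 b R) (-(R * Real.exp (R * t) * (1 - 1 / b) * (Real.exp (b * t) - 1) /
      (1 - 1 / b + 1 / b * Real.exp (b * t)) ^ (R + 1))) t := by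
  have hb0 : b ≠ 0 := by linarith
  have hw := w_pos hb t
  have e1 : HasDerivAt (fun t : ℝ => Real.exp (R * t)) (Real.exp (R * t) * R) t := by
    have := ((hasDerivAt_id t).const_mul (R : ℝ)).exp
    simpa using this
  have e2 : HasDerivAt (fun t : ℝ => 1 - 1 / b + 1 / b * Real.exp (b * t)) (Real.exp (b * t)) t := by
    have := (((hasDerivAt_id t).const_mul b).exp.const_mul (1 / b)).const_add (1 - 1 / b)
    have h : 1 / b * (Real.exp (b * id t) * (b * 1)) = Real.exp (b * t) := by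
      simp only [id]
      field_simp
    rw [h] at this
    simpa using this
  have e3 := e1.div (e2.pow R) (pow_ne_zero R hw.ne')
  have h : (Real.exp (R * t) * R * (1 - 1 / b + 1 / b * Real.exp (b * t)) ^ R -
      Real.exp (R * t) * (R * (1 - 1 / b + 1 / b * Real.exp (b * t)) ^ (R - 1) *
        Real.exp (b * t))) / ((1 - 1 / b + 1 / b * Real.exp (b * t)) ^ R) ^ 2 =
      -(R * Real.exp (R * t) * (1 - 1 / b) * (Real.exp (b * t) - 1) /
      (1 - 1 / b + 1 / b * Real.exp (b * t)) ^ (R + 1)) := by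
    obtain ⟨n, rfl⟩ : ∃ n, R = n + 1 := ⟨R - 1, by omega⟩
    rw [Nat.add_sub_cancel]
    generalize hE : Real.exp (b * t) = E at *
    generalize hF : Real.exp (((n + 1 : ℕ) : ℝ) * t) = F at *
    generalize hv : 1 / b = v at *
    rw [← neg_div, div_eq_div_iff (by positivity) (by positivity)]
    ring
  rw [← h]
  exact e3

lemma P0_zero {b : ℝ} (R : ℕ) : P0 b R 0 = 1 := by
  unfold P0
  simp

variable {ι : Type} [Fintype ι]

lemma Ps_zero {M x : ℝ} {m a : ι → ℝ} (h : IsLaw M x m a) (R : ℕ) : Ps R m a 0 = 1 := by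
  unfold Ps ph
  simp [h.m1]

lemma Ps_deriv_zero {M : ℝ} {m a : ι → ℝ} (h : IsLaw M 1 m a) (R : ℕ) :
    HasDerivAt (Ps R m a) 0 0 := by
  have e1 : HasDerivAt (fun t : ℝ => Real.exp (R * t)) R 0 := by
    have := ((hasDerivAt_id (0 : ℝ)).const_mul (R : ℝ)).exp
    simpa using this
  have e2 : HasDerivAt (fun t : ℝ => ph m a (-t)) 1 0 := by
    have h1 : ∀ i ∈ (Finset.univ : Finset ι), HasDerivAt
        (fun t : ℝ => m i * Real.exp (-(-t) * a i)) (m i * a i) 0 := by
      intro i _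
      have h2 : HasDerivAt (fun t : ℝ => -(-t) * a i) (a i) 0 := by
        have := (hasDerivAt_id (0 : ℝ)).mul_const (a i)
        simpa using this
      have := h2.exp.const_mul (m i)
      simpa using this
    have h3 := HasDerivAt.fun_sum h1
    rw [h.mean] at h3
    exact h3
  have h0 : ph m a (-0) = 1 := by
    unfold ph
    simp [h.m1]
  have e3 := e1.div (e2.pow R) (show ph m a (-0) ^ R ≠ 0 by rw [h0]; simp)
  have h4 : ((R : ℝ) * ph m a (-0) ^ R - Real.exp (R * 0) *
      (R * ph m a (-0) ^ (R - 1) * 1)) / (ph m a (-0) ^ R) ^ 2 = 0 := by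
    rw [h0]
    simp
  exact e3.congr_deriv h4

/-- `k (Psi - Psi_0)` tends to `0`. -/
lemma lim_zero {M : ℝ} {m a : ι → ℝ} (h : IsLaw M 1 m a) {b g th : ℝ} (hb : 1 ≤ b) {R : ℕ}
    (hR : 1 ≤ R) : Tendsto (fun t : ℝ => kf b g th t * (Ps R m a t - P0 b R t)) (𝓝[>] 0)
      (𝓝 0) := by
  have e1 : HasDerivAt (fun t => Ps R m a t - P0 b R t) 0 0 := by
    have h1 := (Ps_deriv_zero h R).sub (P0_deriv hb hR 0)
    have h2 : (0 : ℝ) - -(R * Real.exp (R * 0) * (1 - 1 / b) * (Real.exp (b * 0) - 1) /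
      (1 - 1 / b + 1 / b * Real.exp (b * 0)) ^ (R + 1)) = 0 := by
      rw [mul_zero b, Real.exp_zero]
      simp
    rw [h2] at h1
    exact h1
  have e2 : Tendsto (fun t : ℝ => t⁻¹ * (Ps R m a t - P0 b R t)) (𝓝[>] 0) (𝓝 0) := by
    have h := (hasDerivAt_iff_tendsto_slope_zero.mp e1).mono_left
      (nhdsWithin_mono (0 : ℝ) (show Set.Ioi (0 : ℝ) ⊆ {0}ᶜ from fun x hx => ne_of_gt hx))
    simp only [zero_add, smul_eq_mul] at h
    rw [Ps_zero ‹_›, P0_zero, sub_self] at h
    simpa using h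
  have e3 := (kf_tendsto (g := g) (th := th) (show 0 < b by linarith)).mul e2
  rw [mul_zero] at e3
  refine e3.congr' ?_
  filter_upwards [self_mem_nhdsWithin] with t ht
  have ht0 : t ≠ 0 := ne_of_gt ht
  field_simp

/-- The product of the kernel and of the derivative of `Psi_0`. -/
lemma kP0 {b g th W t : ℝ} {R : ℕ} (hR : 1 ≤ R) (hb : b = 1 + W / R) (hW : 0 < W) (ht : 0 < t) :
    kf b g th t * (R * Real.exp (R * t) * (1 - 1 / b) * (Real.exp (b * t) - 1) /
      (1 - 1 / b + 1 / b * Real.exp (b * t)) ^ (R + 1)) =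
    b * Real.exp (-(b * t)) * (R * (W / (R + W)) *
      Real.exp (-(b * t)) ^ ((W - g) / (1 + W / R) + th) *
      (1 + th / 2 * (1 - Real.exp (-(b * t)))) /
        (R / (R + W) + W / (R + W) * Real.exp (-(b * t))) ^ (R + 1)) := by
  have hR0 : (0 : ℝ) < R := by exact_mod_cast hR
  have hb0 : 0 < b := by rw [hb]; positivity
  rw [kf_eq hb0 ht]
  have hbR : b * R = R + W := by
    rw [hb]
    field_simp
  have hp : 1 / b = R / (R + W) := by
    rw [← hbR]
    field_simp
  have hq : 1 - 1 / b = W / (R + W) := by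
    rw [hp]
    field_simp
    ring
  have hr1 : Real.exp (b * t) = (Real.exp (-(b * t)))⁻¹ := by
    rw [Real.exp_neg, inv_inv]
  have hexp : Real.exp (g * t) * Real.exp (-((1 + th) * b * t)) * Real.exp (R * t) *
      Real.exp (-(b * t)) ^ R = Real.exp (-(b * t)) *
        Real.exp (-(b * t)) ^ ((W - g) / (1 + W / R) + th) := by
    rw [← Real.exp_mul, ← Real.exp_nat_mul, ← Real.exp_add, ← Real.exp_add, ← Real.exp_add,
      ← Real.exp_add]
    congr 1
    rw [← hb]
    field_simp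
    linear_combination (-1 : ℝ) * hbR
  rw [hq, hp, hr1]
  have hr : 0 < Real.exp (-(b * t)) := Real.exp_pos _
  have hr2 := r_lt hb0 ht
  generalize Real.exp (-(b * t)) = r at *
  generalize r ^ ((W - g) / (1 + W / R) + th) = Z at *
  generalize Real.exp (g * t) = X1 at *
  generalize Real.exp (-((1 + th) * b * t)) = X2 at *
  generalize Real.exp (R * t) = X3 at *
  have hr3 : 1 - r ≠ 0 := by linarith
  have hw : W / (R + W) + R / (R + W) * r⁻¹ = (R / (R + W) + W / (R + W) * r) / r := by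
    field_simp
    ring
  rw [hw, div_pow]
  have hw0 : 0 < R / (R + W) + W / (R + W) * r := by positivity
  have hw1 : (R / (R + W) + W / (R + W) * r) ^ (R + 1) ≠ 0 := by positivity
  generalize (R / (R + W) + W / (R + W) * r) ^ (R + 1) = Y at *
  have h5 : r⁻¹ - 1 = (1 - r) / r := by
    field_simp
  rw [h5]
  have h6 : r ^ (R + 1) = r ^ R * r := pow_succ r R
  rw [h6]
  generalize r ^ R = V at *
  have h7 : X1 * (b * X2 * (1 + th / 2 * (1 - r)) / (1 - r)) *
      (R * X3 * (W / (R + W)) * ((1 - r) / r) / (Y / (V * r))) =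
      (X1 * X2 * X3 * V) * (b * (R * (W / (R + W))) * (1 + th / 2 * (1 - r)) / Y) := by
    field_simp
  rw [h7, hexp]
  ring

end NG

open Filter Topology in
theorem thm_NG (hT : St_TN) (hK : St_Ker) (hL : St_L3) (hD : St_Der) : St_NG := by
  intro R g K c s W th S S' ι _ m a hG hC hW hW0 hth0 hth1 hgap hS hS0 hSd
  have hR1 : 1 ≤ R := by
    have := hG.hR
    omega
  have hR0 : (0 : ℝ) < R := by exact_mod_cast hR1
  set b : ℝ := 1 + W / R with hb
  have hb1 : 1 ≤ b := by
    have : 0 ≤ W / R := by positivity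
    linarith
  have hb0 : 0 < b := by linarith
  have hm2 : m2 m a = b := by
    rw [hb, hW]
    unfold WW
    field_simp
    ring
  have hC0 : 0 < c * (1 - s) := mul_pos hC.c0 (by linarith [hC.s1])
  have hde : 0 < b * (1 + th) := by positivity
  have hPs : ∀ t : ℝ, 0 ≤ t → Ps R m a t ≤ NG.P0 b R t := by
    intro t ht
    have h1 := hL (R + g) t ι m a hC.law ht
    rw [hm2] at h1
    unfold Ps NG.P0
    exact div_le_div_of_nonneg_left (Real.exp_pos _).le (pow_pos (NG.w_pos hb1 t) R)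
      (pow_le_pow_left₀ (NG.w_pos hb1 t).le h1 R)
  set A : ℝ → ℝ := fun t => qs R (R + g) m a (-t) -
    c * (1 - s) * (NG.kf b g th t * (Ps R m a t - NG.P0 b R t)) -
      c * (1 - s) * S (Real.exp (-(b * t))) with hA
  have hder : ∀ t, 0 < t → ∃ A' : ℝ, HasDerivAt A A' t ∧ A' ≤ 0 := by
    intro t ht
    obtain ⟨D, P, hD1, hP1, hP0, hDP⟩ := hT R g K c s (b * (1 + th)) t ι m a hG hC hde ht hgap
    obtain ⟨k', hk1, hk2⟩ := NG.kf_deriv (g := g) hb1 hG.g1 hth0 ht
    have hr := NG.r_lt hb0 ht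
    have hr0 : 0 < Real.exp (-(b * t)) := Real.exp_pos _
    obtain ⟨hS1, hS2⟩ := hSd _ hr0 hr
    have e1 : HasDerivAt (fun t => S (Real.exp (-(b * t))))
        (S' (Real.exp (-(b * t))) * (Real.exp (-(b * t)) * (-b))) t :=
      HasDerivAt.comp t hS1 (NG.lin_deriv b t).exp
    have e2 := (hk1.mul (hP1.sub (NG.P0_deriv hb1 hR1 t))).const_mul (c * (1 - s))
    have e3 := (hD1.sub e2).sub (e1.const_mul (c * (1 - s)))
    refine ⟨_, e3, ?_⟩
    have h1 : NG.kf b g th t ≤ Real.exp (g * t) *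
        (b * (1 + th) / (Real.exp (b * (1 + th) * t) - 1)) := by
      rw [NG.kf_eq hb0 ht]
      exact mul_le_mul_of_nonneg_left (hK b th t hb0 hth0 hth1.le ht) (Real.exp_pos _).le
    have h2 : D ≤ c * (1 - s) * (NG.kf b g th t * P) := by
      have h3 : Real.exp (g * t) * (b * (1 + th) / (Real.exp (b * (1 + th) * t) - 1)) * P ≤
          NG.kf b g th t * P := mul_le_mul_of_nonpos_right h1 hP0
      calc D ≤ c * (1 - s) * (b * (1 + th) / (Real.exp (b * (1 + th) * t) - 1)) *
            Real.exp (g * t) * P := hDP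
        _ = c * (1 - s) * (Real.exp (g * t) *
            (b * (1 + th) / (Real.exp (b * (1 + th) * t) - 1)) * P) := by ring
        _ ≤ c * (1 - s) * (NG.kf b g th t * P) := mul_le_mul_of_nonneg_left h3 hC0.le
    have h4 : 0 ≤ k' * (Ps R m a t - NG.P0 b R t) :=
      mul_nonneg_of_nonpos_of_nonpos hk2 (sub_nonpos.mpr (hPs t ht.le))
    have h5 := NG.kP0 (g := g) (th := th) hR1 hb hW0 ht
    have h6 : b * Real.exp (-(b * t)) * S' (Real.exp (-(b * t))) ≤
        NG.kf b g th t * (R * Real.exp (R * t) * (1 - 1 / b) * (Real.exp (b * t) - 1) /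
          (1 - 1 / b + 1 / b * Real.exp (b * t)) ^ (R + 1)) := by
      rw [h5]
      exact mul_le_mul_of_nonneg_left hS2 (by positivity)
    generalize (R * Real.exp (R * t) * (1 - 1 / b) * (Real.exp (b * t) - 1) /
          (1 - 1 / b + 1 / b * Real.exp (b * t)) ^ (R + 1)) = Z at *
    have h7 : D - c * (1 - s) * (k' * (Ps R m a t - NG.P0 b R t) +
        NG.kf b g th t * (P - -Z)) -
        c * (1 - s) * (S' (Real.exp (-(b * t))) * (Real.exp (-(b * t)) * -b)) =
        (D - c * (1 - s) * (NG.kf b g th t * P)) -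
          c * (1 - s) * (k' * (Ps R m a t - NG.P0 b R t)) -
          c * (1 - s) * (NG.kf b g th t * Z -
            b * Real.exp (-(b * t)) * S' (Real.exp (-(b * t)))) := by ring
    have h8 := mul_nonneg hC0.le h4
    have h9 := mul_nonneg hC0.le (sub_nonneg.mpr h6)
    refine le_trans (le_of_eq h7) ?_
    linarith
  have hanti : AntitoneOn A (Set.Ioi 0) := by
    apply antitoneOn_of_deriv_nonpos (convex_Ioi 0)
    · intro t ht
      obtain ⟨A', h1, -⟩ := hder t ht
      exact h1.continuousAt.continuousWithinAt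
    · intro t ht
      rw [interior_Ioi] at ht
      obtain ⟨A', h1, -⟩ := hder t ht
      exact h1.differentiableAt.differentiableWithinAt
    · intro t ht
      rw [interior_Ioi] at ht
      obtain ⟨A', h1, h2⟩ := hder t ht
      rw [h1.deriv]
      exact h2
  have hnn : ∀ t : ℝ, 0 < t → 0 ≤ A t := by
    intro t ht
    have hlim : Tendsto (fun T : ℝ => Real.exp (-(b * T))) atTop (𝓝[Set.Icc 0 1] 0) := by
      rw [tendsto_nhdsWithin_iff]
      refine ⟨Real.tendsto_exp_neg_atTop_nhds_zero.comp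
        (tendsto_id.const_mul_atTop hb0), ?_⟩
      filter_upwards [eventually_gt_atTop 0] with T hT0
      exact ⟨(Real.exp_pos _).le, (NG.r_lt hb0 hT0).le⟩
    have hlim2 : Tendsto (fun T : ℝ => -(c * (1 - s) * S (Real.exp (-(b * T))))) atTop
        (𝓝 0) := by
      have h1 := (((hS 0 ⟨le_rfl, zero_le_one⟩).tendsto.comp hlim).const_mul
        (c * (1 - s))).neg
      rw [hS0, mul_zero, neg_zero] at h1
      exact h1
    refine le_of_tendsto hlim2 ?_
    filter_upwards [eventually_ge_atTop t] with T hT1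
    have hT0 : 0 < T := ht.trans_le hT1
    refine le_trans ?_ (hanti ht hT0 hT1)
    have h2 : 0 ≤ qs R (R + g) m a (-T) := (hD R (R + g) (-T) ι m a hR1 hC.law).2.2.1
    have h3 : 0 ≤ -(NG.kf b g th T * (Ps R m a T - NG.P0 b R T)) := by
      rw [← mul_neg, neg_sub]
      exact mul_nonneg (NG.kf_nonneg hb0 hth0 hT0) (sub_nonneg.mpr (hPs T hT0.le))
    have h4 := mul_nonneg hC0.le h3
    rw [mul_neg] at h4
    simp only [hA]
    linarith
  have hlimA : Tendsto A (𝓝[>] 0) (𝓝 (1 - pp R (R + g) m a - c * (1 - s) * 0 -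
      c * (1 - s) * S 1)) := by
    have h1 := hD R (R + g) 0 ι m a hR1 hC.law
    have h2 : Tendsto (fun t : ℝ => qs R (R + g) m a (-t)) (𝓝[>] 0)
        (𝓝 (1 - pp R (R + g) m a)) := by
      have h3 : ContinuousAt (qs R (R + g) m a) (-0) := by
        rw [neg_zero]
        exact h1.1.continuousAt
      have h4 : ContinuousAt (fun t : ℝ => qs R (R + g) m a (-t)) 0 :=
        ContinuousAt.comp h3 continuous_neg.continuousAt
      have h5 := h4.tendsto.mono_left (nhdsWithin_le_nhds (s := Set.Ioi 0))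
      rw [neg_zero, h1.2.1] at h5
      exact h5
    have h6 : Tendsto (fun t : ℝ => Real.exp (-(b * t))) (𝓝[>] 0) (𝓝[Set.Icc 0 1] 1) := by
      rw [tendsto_nhdsWithin_iff]
      constructor
      · have h7 : Continuous (fun t : ℝ => Real.exp (-(b * t))) := by fun_prop
        have h8 := (h7.tendsto 0).mono_left (nhdsWithin_le_nhds (s := Set.Ioi 0))
        simpa using h8
      · filter_upwards [self_mem_nhdsWithin] with t ht
        exact ⟨(Real.exp_pos _).le, (NG.r_lt hb0 ht).le⟩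
    have h9 := (hS 1 ⟨zero_le_one, le_rfl⟩).tendsto.comp h6
    exact (h2.sub ((NG.lim_zero hC.law hb1 hR1).const_mul (c * (1 - s)))).sub
      (h9.const_mul (c * (1 - s)))
  have hfin : 0 ≤ 1 - pp R (R + g) m a - c * (1 - s) * 0 - c * (1 - s) * S 1 := by
    refine ge_of_tendsto hlimA ?_
    filter_upwards [self_mem_nhdsWithin] with t ht
    exact hnn t ht
  linarith

end Pool.Agent.EMCW
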