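import Pool.Agent.EMCW.St

/-!
Module S: the theorem on identically distributed variables at the critical mean, with stability.
-/

set_option autoImplicit false

open Finset

namespace Pool.Agent.EMCW

/-- The value of the supremum. -/
lemma MS_Vh_le (hV : St_Vh) (hU : St_U) (hNC : St_NC) (hN : St_NS) (hVal : St_Val)
    (R : ℕ) (g K : ℝ) (hG : GK R g K) :
    Vh R (R + g) ≤ 1 - (1 - 1 / (R + g)) ^ R := by
  refine le_of_forall_pos_le_add fun et het => ?_
  have he2 : 0 < et / 2 := by linarith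
  obtain ⟨tau, htau, hval⟩ := hVal R g K (et / 2) hG he2
  obtain ⟨e1, he1, h1⟩ := hNC R g K tau hG htau
  obtain ⟨e2, he2', h2⟩ := hN R g K tau hG htau
  obtain ⟨e3, he3, h3⟩ := hU R g K (min e1 e2) hG (lt_min he1 he2')
  obtain ⟨_, hsup, _, _, _⟩ := hV R g K hG
  obtain ⟨ι, hι, m, a, hlaw, hlt⟩ := hsup (min (min e1 e3) (et / 2))
    (lt_min (lt_min he1 he3) he2)
  have hm1 : min (min e1 e3) (et / 2) ≤ e1 := (min_le_left _ _).trans (min_le_left _ _)
  have hm3 : min (min e1 e3) (et / 2) ≤ e3 := (min_le_left _ _).trans (min_le_right _ _)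
  have hm2 : min (min e1 e3) (et / 2) ≤ et / 2 := min_le_right _ _
  have key : pp R (R + g) m a ≤ 1 - (1 - 1 / (R + g)) ^ R + et / 2 := by
    apply hval ι m a hlaw
    rcases h3 ι m a hlaw (by linarith) with hc | hc
    · left
      exact h1 ι m a hlaw (by linarith) (hc.trans (by linarith [min_le_left e1 e2]))
    · right
      exact h2 ι m a hlaw (by linarith [min_le_right e1 e2])
  linarith

theorem thm_S (hV : St_Vh) (hU : St_U) (hNC : St_NC) (hN : St_NS) (hVal : St_Val) : St_S := by
  intro R g K tau hG htau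
  have hle := MS_Vh_le hV hU hNC hN hVal R g K hG
  obtain ⟨e1, he1, h1⟩ := hNC R g K tau hG htau
  obtain ⟨e2, he2, h2⟩ := hN R g K tau hG htau
  obtain ⟨e3, he3, h3⟩ := hU R g K (min e1 e2) hG (lt_min he1 he2)
  refine ⟨min e1 e3, lt_min he1 he3, ?_⟩
  intro ι _ m a hlaw hpp
  have hm1 : min e1 e3 ≤ e1 := min_le_left _ _
  have hm3 : min e1 e3 ≤ e3 := min_le_right _ _
  rcases h3 ι m a hlaw (by linarith) with hc | hc
  · left
    exact h1 ι m a hlaw (by linarith) (hc.trans (by linarith [min_le_left e1 e2]))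
  · right
    exact h2 ι m a hlaw (by linarith [min_le_right e1 e2])

end Pool.Agent.EMCW
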