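import Pool.Agent.EMCW.St

/-!
The primitive for the bound from Jensen's inequality.
-/

open Finset

namespace Pool.Agent.EMCW

private lemma SJ_tan (R : ℕ) {x c0 : ℝ} (hx : 0 < x) (hc : 0 < c0) :
    (c0 ^ R)⁻¹ - R * (x - c0) * (c0 ^ (R + 1))⁻¹ ≤ (x ^ R)⁻¹ := by
  have h0 : 0 < c0 / x := div_pos hc hx
  have h1 : 1 + (R : ℝ) * (c0 / x - 1) ≤ (1 + (c0 / x - 1)) ^ R :=
    one_add_mul_le_pow (by linarith) R
  have h2 : (1 + (c0 / x - 1)) ^ R = c0 ^ R * (x ^ R)⁻¹ := by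
    rw [add_sub_cancel, div_pow]
    rfl
  have h3 : 1 - (R : ℝ) * (x - c0) * c0⁻¹ ≤ 1 + R * (c0 / x - 1) := by
    have e1 : 1 + (R : ℝ) * (c0 / x - 1) - (1 - (R : ℝ) * (x - c0) * c0⁻¹) =
        R * ((c0 - x) ^ 2 / (x * c0)) := by
      field_simp
      ring
    have e2 : 0 ≤ (R : ℝ) * ((c0 - x) ^ 2 / (x * c0)) := by positivity
    linarith
  have h4 : (c0 ^ R)⁻¹ * (1 - (R : ℝ) * (x - c0) * c0⁻¹) ≤ (c0 ^ R)⁻¹ * (c0 ^ R * (x ^ R)⁻¹) :=
    mul_le_mul_of_nonneg_left (h3.trans (h1.trans_eq h2)) (by positivity)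
  have h5 : (c0 ^ R)⁻¹ * (c0 ^ R * (x ^ R)⁻¹) = (x ^ R)⁻¹ := by
    rw [← mul_assoc, inv_mul_cancel₀ (pow_pos hc R).ne', one_mul]
  have h6 : (c0 ^ R)⁻¹ * (1 - (R : ℝ) * (x - c0) * c0⁻¹) =
      (c0 ^ R)⁻¹ - R * (x - c0) * (c0 ^ (R + 1))⁻¹ := by
    rw [pow_succ, mul_inv]
    ring
  rw [← h6, ← h5]
  exact h4

theorem thm_SJ : St_SJ := by
  intro R g W th hR hg hg1 hW hth hth1 hi
  obtain ⟨n, rfl⟩ : ∃ n, R = n + 1 := ⟨R - 1, by omega⟩
  set i : ℝ := ((n + 1 : ℕ) : ℝ) * (W - g) / (((n + 1 : ℕ) : ℝ) + W) + th with hidef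
  have hR0 : (0 : ℝ) < ((n + 1 : ℕ) : ℝ) := by positivity
  have hexp : (W - g) / (1 + W / ((n + 1 : ℕ) : ℝ)) + th = i := by
    rw [hidef]
    congr 1
    field_simp
  rw [hexp]
  set p : ℝ := ((n + 1 : ℕ) : ℝ) / (((n + 1 : ℕ) : ℝ) + W) with hp
  set q : ℝ := W / (((n + 1 : ℕ) : ℝ) + W) with hq
  have hp0 : 0 < p := by positivity
  have hq0 : 0 < q := by positivity
  have hpq : p + q = 1 := by
    rw [hp, hq]
    field_simp
  set r0 : ℝ := i / (i + 1) with hr0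
  have hr00 : 0 < r0 := by positivity
  have hr01 : r0 * (i + 1) = i := by
    rw [hr0]
    field_simp
  set c0 : ℝ := p + q * r0 with hc0
  have hc00 : 0 < c0 := by positivity
  have hc1 : c0⁻¹ = (i + 1) / (i + p) := by
    have h1 : c0 * (i + 1) = i + p := by
      rw [hc0]
      linear_combination q * hr01 + i * hpq
    have h2 : 0 < i + p := by positivity
    rw [← h1]
    field_simp
  set R' : ℝ := ((n + 1 : ℕ) : ℝ) with hR'
  set D : ℝ := R' * q * (c0 ^ (n + 1 + 1))⁻¹ * r0 with hD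
  refine ⟨fun r => -(r ^ i * ((p + q * r) ^ (n + 1))⁻¹) + (c0 ^ (n + 1))⁻¹ * r ^ i -
      D * (r ^ (i + 1) - r ^ i),
    fun r => -(i * r ^ (i - 1) * ((p + q * r) ^ (n + 1))⁻¹ +
      r ^ i * (-(R' * (p + q * r) ^ n * q) / ((p + q * r) ^ (n + 1)) ^ 2)) +
      (c0 ^ (n + 1))⁻¹ * (i * r ^ (i - 1)) -
      D * ((i + 1) * r ^ (i + 1 - 1) - i * r ^ (i - 1)), ?_, ?_, ?_, ?_⟩
  · have e1 : ContinuousOn (fun r : ℝ => r ^ i) (Set.Icc 0 1) := fun r _ =>
      (Real.continuousAt_rpow_const r i (Or.inr hi.le)).continuousWithinAt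
    have e2 : ContinuousOn (fun r : ℝ => r ^ (i + 1)) (Set.Icc 0 1) := fun r _ =>
      (Real.continuousAt_rpow_const r (i + 1) (Or.inr (by linarith))).continuousWithinAt
    have e3 : ContinuousOn (fun r : ℝ => ((p + q * r) ^ (n + 1))⁻¹) (Set.Icc 0 1) := by
      refine ContinuousOn.inv₀ (by fun_prop) fun r hr => ?_
      have : 0 ≤ q * r := mul_nonneg hq0.le hr.1
      positivity
    exact (((e1.mul e3).neg.add (continuousOn_const.mul e1)).sub
      (continuousOn_const.mul (e2.sub e1)))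
  · have e1 : (0 : ℝ) ^ i = 0 := Real.zero_rpow hi.ne'
    have e2 : (0 : ℝ) ^ (i + 1) = 0 := Real.zero_rpow (by positivity)
    simp only [e1, e2]
    ring
  · simp only [Real.one_rpow, mul_one, sub_self, mul_zero, hpq, one_pow, inv_one, sub_zero]
    rw [← inv_pow, hc1]
    ring
  · intro r hr hr1
    have hx : 0 < p + q * r := by positivity
    constructor
    · have d1 := Real.hasDerivAt_rpow_const (x := r) (p := i) (Or.inl hr.ne')
      have d2 := Real.hasDerivAt_rpow_const (x := r) (p := i + 1) (Or.inl hr.ne')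
      have d3 : HasDerivAt (fun r : ℝ => (p + q * r) ^ (n + 1)) (R' * (p + q * r) ^ n * q) r := by
        have e := (((hasDerivAt_id r).const_mul q).const_add p).pow (n + 1)
        simp only [id, mul_one, Nat.add_sub_cancel] at e
        exact e
      have d4 := d3.inv (pow_pos hx _).ne'
      exact ((d1.mul d4).neg.add (d1.const_mul _)).sub ((d2.sub d1).const_mul D)
    · have hri : r ^ i = r ^ (i - 1) * r := by
        rw [← Real.rpow_add_one hr.ne']
        congr 1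
        ring
      have hri1 : r ^ (i + 1 - 1) = r ^ (i - 1) * r := by
        rw [← hri]
        congr 1
        ring
      have hpos : 0 < r ^ (i - 1) := Real.rpow_pos_of_pos hr _
      have htan : (c0 ^ (n + 1))⁻¹ - R' * (p + q * r - c0) * (c0 ^ (n + 1 + 1))⁻¹ ≤
          ((p + q * r) ^ (n + 1))⁻¹ := SJ_tan (n + 1) hx hc00
      have hxc : p + q * r - c0 = q * (r - r0) := by
        rw [hc0]
        ring
      rw [hxc] at htan
      have e1 : (p + q * r) ^ n / ((p + q * r) ^ (n + 1)) ^ 2 = ((p + q * r) ^ (n + 1 + 1))⁻¹ := by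
        field_simp
        ring
      have e2 : -(i * r ^ (i - 1) * ((p + q * r) ^ (n + 1))⁻¹ +
          r ^ i * (-(R' * (p + q * r) ^ n * q) / ((p + q * r) ^ (n + 1)) ^ 2)) +
          (c0 ^ (n + 1))⁻¹ * (i * r ^ (i - 1)) -
          D * ((i + 1) * r ^ (i + 1 - 1) - i * r ^ (i - 1)) =
          R' * q * r ^ i * ((p + q * r) ^ (n + 1 + 1))⁻¹ -
          i * r ^ (i - 1) * (((p + q * r) ^ (n + 1))⁻¹ - ((c0 ^ (n + 1))⁻¹ -
            R' * (q * (r - r0)) * (c0 ^ (n + 1 + 1))⁻¹)) := by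
        have e3 : -(R' * (p + q * r) ^ n * q) / ((p + q * r) ^ (n + 1)) ^ 2 =
            -(R' * q * ((p + q * r) ^ (n + 1 + 1))⁻¹) := by
          rw [← e1]
          ring
        rw [e3, hri1, hri, hD]
        linear_combination (-(R' * q * (c0 ^ (n + 1 + 1))⁻¹ * r ^ (i - 1) * r)) * hr01
      refine le_trans (le_of_eq e2) ?_
      have h1 : 0 ≤ i * r ^ (i - 1) * (((p + q * r) ^ (n + 1))⁻¹ - ((c0 ^ (n + 1))⁻¹ -
            R' * (q * (r - r0)) * (c0 ^ (n + 1 + 1))⁻¹)) := by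
        refine mul_nonneg (mul_nonneg hi.le hpos.le) ?_
        linarith
      have h2 : R' * q * r ^ i * ((p + q * r) ^ (n + 1 + 1))⁻¹ ≤
          R' * q * r ^ i * (1 + th / 2 * (1 - r)) / (p + q * r) ^ (n + 1 + 1) := by
        rw [div_eq_mul_inv]
        refine mul_le_mul_of_nonneg_right ?_ (by positivity)
        have h3 : 0 ≤ R' * q * r ^ i := by positivity
        have h4 : 0 ≤ th / 2 * (1 - r) := by
          have := sub_nonneg.2 hr1.le
          positivity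
        nlinarith
      linarith

end Pool.Agent.EMCW
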