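import Pool.Agent.EMCW.St

/-!
MODULE Sm: the primitive for the series.
-/

open Finset

namespace Pool.Agent.EMCW

/-- the primitives of `r ^ i * (1 - r) ^ k` -/
noncomputable def Sm_M (i : ℝ) : ℕ → ℝ → ℝ
  | 0 => fun r => r ^ (i + 1) / (i + 1)
  | k + 1 => fun r => (r ^ (i + 1) * (1 - r) ^ (k + 1) + ((k : ℝ) + 1) * Sm_M i k r) / (i + k + 2)

theorem Sm_M_cont {i : ℝ} (hi : 0 < i + 1) : ∀ k, Continuous (Sm_M i k)
  | 0 => by
    have h := Real.continuous_rpow_const (q := i + 1) hi.le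
    exact h.div_const _
  | k + 1 => by
    have h := Real.continuous_rpow_const (q := i + 1) hi.le
    have h1 := Sm_M_cont hi k
    show Continuous fun r => (r ^ (i + 1) * (1 - r) ^ (k + 1) + ((k : ℝ) + 1) * Sm_M i k r) /
      (i + k + 2)
    exact ((h.mul ((continuous_const.sub continuous_id).pow _)).add (h1.const_mul _)).div_const _

theorem Sm_M_zero {i : ℝ} (hi : 0 < i + 1) : ∀ k, Sm_M i k 0 = 0
  | 0 => by
    show (0 : ℝ) ^ (i + 1) / (i + 1) = 0
    rw [Real.zero_rpow hi.ne', zero_div]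
  | k + 1 => by
    show ((0 : ℝ) ^ (i + 1) * (1 - 0) ^ (k + 1) + ((k : ℝ) + 1) * Sm_M i k 0) / (i + k + 2) = 0
    rw [Real.zero_rpow hi.ne', Sm_M_zero hi k, zero_mul, mul_zero, add_zero, zero_div]

theorem Sm_M_one_succ (i : ℝ) (k : ℕ) :
    Sm_M i (k + 1) 1 = ((k : ℝ) + 1) * Sm_M i k 1 / (i + k + 2) := by
  show ((1 : ℝ) ^ (i + 1) * (1 - 1) ^ (k + 1) + ((k : ℝ) + 1) * Sm_M i k 1) / (i + k + 2) = _
  rw [sub_self, zero_pow (Nat.succ_ne_zero k), mul_zero, zero_add]

theorem Sm_M_deriv {i : ℝ} (hi : 0 < i + 1) {r : ℝ} (hr : 0 < r) :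
    ∀ k, HasDerivAt (Sm_M i k) (r ^ i * (1 - r) ^ k) r
  | 0 => by
    have h := (Real.hasDerivAt_rpow_const (x := r) (p := i + 1) (Or.inl hr.ne')).div_const (i + 1)
    have e : (i + 1) * r ^ (i + 1 - 1) / (i + 1) = r ^ i * (1 - r) ^ 0 := by
      rw [mul_div_cancel_left₀ _ hi.ne', add_sub_cancel_right, pow_zero, mul_one]
    rw [e] at h
    exact h
  | k + 1 => by
    have h := Real.hasDerivAt_rpow_const (x := r) (p := i + 1) (Or.inl hr.ne')
    have h1 := Sm_M_deriv hi hr k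
    have h2 : HasDerivAt (fun r : ℝ => (1 - r) ^ (k + 1)) (((k : ℝ) + 1) * (1 - r) ^ k * (-1)) r := by
      have h3 := ((hasDerivAt_id' r).const_sub 1).fun_pow (k + 1)
      simpa using h3
    have h4 := ((h.mul h2).add (h1.const_mul ((k : ℝ) + 1))).div_const (i + k + 2)
    have hk : i + k + 2 ≠ 0 := by
      have : (0 : ℝ) ≤ k := Nat.cast_nonneg k
      linarith
    have e : ((i + 1) * r ^ (i + 1 - 1) * (1 - r) ^ (k + 1) +
        r ^ (i + 1) * (((k : ℝ) + 1) * (1 - r) ^ k * (-1)) +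
        ((k : ℝ) + 1) * (r ^ i * (1 - r) ^ k)) / (i + k + 2) = r ^ i * (1 - r) ^ (k + 1) := by
      rw [div_eq_iff hk, add_sub_cancel_right, Real.rpow_add_one hr.ne']
      ring
    rw [e] at h4
    exact h4

theorem Sm_series {R : ℕ} {x : ℝ} (hx0 : 0 ≤ x) (hx1 : x < 1) (k : ℕ) :
    ∑ n ∈ range k, ((R + n).choose n : ℝ) * x ^ n ≤ 1 / (1 - x) ^ (R + 1) := by
  have hx : ‖x‖ < 1 := by rwa [Real.norm_eq_abs, abs_of_nonneg hx0]
  have h := hasSum_choose_mul_geometric_of_norm_lt_one R hx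
  have h1 := sum_le_hasSum (range k) (fun n _ => by positivity) h
  refine le_trans (le_of_eq ?_) h1
  refine Finset.sum_congr rfl fun n _ => ?_
  have e : (R + n).choose n = (n + R).choose R := by
    rw [add_comm R n]
    exact Nat.choose_symm_add
  rw [e]

theorem Sm_one {R : ℕ} {g W th i : ℝ} (hR : 1 ≤ R) (hW : 0 < W)
    (hi : i = (W - g) / (1 + W / R) + th) (hi1 : 0 < i + 1) :
    ∀ k : ℕ, R * (W / (R + W)) * ((((R + k).choose k : ℕ) : ℝ) * (W / (R + W)) ^ k *
      Sm_M i k 1) = ∏ l ∈ Icc 1 (k + 1), am (1 / R) g W th l := by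
  have hR0 : (0 : ℝ) < R := by exact_mod_cast hR
  have hRW : (0 : ℝ) < R + W := by linarith
  have ham : ∀ l : ℕ, 1 ≤ l → am (1 / R) g W th l = (R + l - 1) * (W / (R + W)) / (i + l) := by
    intro l hl
    have hl1 : (1 : ℝ) ≤ l := by exact_mod_cast hl
    have h1 : 0 < i + l := by linarith
    have h2 : (1 : ℝ) + W / R = (R + W) / R := by field_simp
    have h3 : W - g = (i - th) * ((R + W) / R) := by
      rw [hi, h2]
      field_simp
      ring
    unfold am
    have h4 : W - g + th + l + 1 / R * (th + l) * W = (i + l) * ((R + W) / R) := by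
      rw [h3]
      field_simp
      ring
    rw [h4]
    field_simp
    ring
  intro k
  induction k with
  | zero =>
    rw [show (0 : ℕ) + 1 = 1 from rfl, Icc_self, prod_singleton, ham 1 le_rfl]
    have e : Sm_M i 0 1 = 1 / (i + 1) := by
      show (1 : ℝ) ^ (i + 1) / (i + 1) = 1 / (i + 1)
      rw [Real.one_rpow]
    rw [e]
    simp
    ring
  | succ k ih =>
    rw [Finset.prod_Icc_succ_top (by omega), ← ih, ham (k + 1 + 1) (by omega), Sm_M_one_succ]
    have h5 : (((R + (k + 1)).choose (k + 1) : ℕ) : ℝ) * ((k : ℝ) + 1) =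
        ((R + k + 1 : ℕ) : ℝ) * (((R + k).choose k : ℕ) : ℝ) := by
      have h6 := Nat.add_one_mul_choose_eq (R + k) k
      have h7 : (R + k + 1) * (R + k).choose k = (R + (k + 1)).choose (k + 1) * (k + 1) := h6
      exact_mod_cast h7.symm
    have hk : i + k + 2 ≠ 0 := by
      have : (0 : ℝ) ≤ k := Nat.cast_nonneg k
      linarith
    have e1 : (R : ℝ) * (W / (R + W)) * ((((R + (k + 1)).choose (k + 1) : ℕ) : ℝ) *
        (W / (R + W)) ^ (k + 1) * (((k : ℝ) + 1) * Sm_M i k 1 / (i + k + 2))) =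
        R * (W / (R + W)) * (W / (R + W)) ^ (k + 1) * Sm_M i k 1 / (i + k + 2) *
          ((((R + (k + 1)).choose (k + 1) : ℕ) : ℝ) * ((k : ℝ) + 1)) := by ring
    rw [e1, h5]
    push_cast
    have e2 : i + ((k : ℝ) + 1 + 1) = i + k + 2 := by ring
    have e3 : (R : ℝ) + ((k : ℝ) + 1 + 1) - 1 = R + k + 1 := by ring
    rw [e2, e3]
    ring

theorem thm_Sm : St_Sm := by
  intro R g W th k hR hg hg1 hW hth hth1 hi1
  obtain ⟨i, hi⟩ : ∃ i : ℝ, i = (W - g) / (1 + W / R) + th := ⟨_, rfl⟩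
  rw [← hi] at hi1
  have hR0 : (0 : ℝ) < R := by exact_mod_cast hR
  have hRW : (0 : ℝ) < R + W := by linarith
  obtain ⟨q, hq⟩ : ∃ q : ℝ, q = W / (R + W) := ⟨_, rfl⟩
  have hq0 : 0 < q := by rw [hq]; positivity
  have hq1 : q < 1 := by
    rw [hq, div_lt_one hRW]
    linarith
  have hp : (R : ℝ) / (R + W) = 1 - q := by
    rw [hq]
    field_simp
    ring
  refine ⟨fun r => R * q * ∑ n ∈ range k, (((R + n).choose n : ℕ) : ℝ) * q ^ n *
      (Sm_M i n r + th / 2 * Sm_M i (n + 1) r),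
    fun r => R * q * ∑ n ∈ range k, (((R + n).choose n : ℕ) : ℝ) * q ^ n *
      (r ^ i * (1 - r) ^ n + th / 2 * (r ^ i * (1 - r) ^ (n + 1))), ?_, ?_, ?_, ?_⟩
  · apply Continuous.continuousOn
    exact continuous_const.mul (continuous_finsetSum _ fun n _ =>
      continuous_const.mul ((Sm_M_cont hi1 n).add (continuous_const.mul (Sm_M_cont hi1 (n + 1)))))
  · show (R : ℝ) * q * ∑ n ∈ range k, (((R + n).choose n : ℕ) : ℝ) * q ^ n *
      (Sm_M i n 0 + th / 2 * Sm_M i (n + 1) 0) = 0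
    rw [Finset.sum_eq_zero, mul_zero]
    intro n _
    rw [Sm_M_zero hi1, Sm_M_zero hi1]
    ring
  · show (R : ℝ) * q * ∑ n ∈ range k, (((R + n).choose n : ℕ) : ℝ) * q ^ n *
      (Sm_M i n 1 + th / 2 * Sm_M i (n + 1) 1) = Nser (1 / R) g W th k
    unfold Nser
    rw [Finset.range_eq_Ico, Finset.mul_sum]
    have e0 : Icc 1 k = Ico (0 + 1) (k + 1) := by
      ext n
      simp only [mem_Icc, mem_Ico]
      omega
    rw [e0, ← Finset.sum_Ico_add' (fun n => Nt (1 / R) g W th n) 0 k 1]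
    refine Finset.sum_congr rfl fun n _ => ?_
    unfold Nt
    rw [← Sm_one hR hW hi hi1 n, ← hq, Sm_M_one_succ]
    have e2 : (1 : ℝ) / R * W = W / R := by ring
    rw [e2]
    have e3 : (W - g) / (1 + W / R) + th + ((n + 1 : ℕ) : ℝ) + 1 = i + n + 2 := by
      rw [hi]
      push_cast
      ring
    rw [e3]
    push_cast
    ring
  · intro r hr0 hr1
    constructor
    · have h1 : ∀ n ∈ range k, HasDerivAt (fun r => (((R + n).choose n : ℕ) : ℝ) * q ^ n *
          (Sm_M i n r + th / 2 * Sm_M i (n + 1) r))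
          ((((R + n).choose n : ℕ) : ℝ) * q ^ n *
            (r ^ i * (1 - r) ^ n + th / 2 * (r ^ i * (1 - r) ^ (n + 1)))) r := fun n _ =>
        (((Sm_M_deriv hi1 hr0 n).add ((Sm_M_deriv hi1 hr0 (n + 1)).const_mul _)).const_mul _)
      have h2 := (HasDerivAt.fun_sum h1).const_mul ((R : ℝ) * q)
      exact h2
    · show (R : ℝ) * q * ∑ n ∈ range k, (((R + n).choose n : ℕ) : ℝ) * q ^ n *
        (r ^ i * (1 - r) ^ n + th / 2 * (r ^ i * (1 - r) ^ (n + 1))) ≤ _
      rw [← hi, ← hq, hp]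
      have h3 : ∑ n ∈ range k, (((R + n).choose n : ℕ) : ℝ) * q ^ n *
          (r ^ i * (1 - r) ^ n + th / 2 * (r ^ i * (1 - r) ^ (n + 1))) =
          r ^ i * (1 + th / 2 * (1 - r)) *
            ∑ n ∈ range k, (((R + n).choose n : ℕ) : ℝ) * (q * (1 - r)) ^ n := by
        rw [Finset.mul_sum]
        refine Finset.sum_congr rfl fun n _ => ?_
        rw [mul_pow]
        ring
      have h4 : 0 ≤ q * (1 - r) := mul_nonneg hq0.le (by linarith)
      have h5 : q * (1 - r) < 1 := by nlinarith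
      have h6 := Sm_series (R := R) h4 h5 k
      have h7 : 1 - q + q * r = 1 - q * (1 - r) := by ring
      have h8 : 0 ≤ r ^ i * (1 + th / 2 * (1 - r)) := by
        apply mul_nonneg (Real.rpow_nonneg hr0.le _)
        nlinarith
      rw [h3, h7]
      calc (R : ℝ) * q * (r ^ i * (1 + th / 2 * (1 - r)) *
            ∑ n ∈ range k, (((R + n).choose n : ℕ) : ℝ) * (q * (1 - r)) ^ n)
          ≤ R * q * (r ^ i * (1 + th / 2 * (1 - r)) * (1 / (1 - q * (1 - r)) ^ (R + 1))) :=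
            mul_le_mul_of_nonneg_left (mul_le_mul_of_nonneg_left h6 h8)
              (mul_nonneg hR0.le hq0.le)
        _ = R * q * r ^ i * (1 + th / 2 * (1 - r)) / (1 - q * (1 - r)) ^ (R + 1) := by ring

end Pool.Agent.EMCW
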