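import Pool.Agent.EMCW.St

/-!
EMCW, module TN: the differential inequality for negative tilts.
-/

open Finset

namespace Pool.Agent.EMCW

/-- Antisymmetrisation. -/
lemma TN_cov {ι : Type} [Fintype ι] (m a f : ι → ℝ) (h1 : ∑ i, m i = 1) :
    ∑ i, ∑ j, m i * m j * (if a j < a i then (a i - a j) * (f i - f j) else 0) =
      ∑ i, m i * a i * f i - (∑ i, m i * a i) * ∑ i, m i * f i := by
  have hsym : ∑ i, ∑ j, m i * m j * (if a j < a i then (a i - a j) * (f i - f j) else 0) =
      ∑ i, ∑ j, m i * m j * (if a i < a j then (a i - a j) * (f i - f j) else 0) := by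
    rw [Finset.sum_comm]
    refine Finset.sum_congr rfl fun i _ => Finset.sum_congr rfl fun j _ => ?_
    rw [mul_comm (m j)]
    split_ifs
    · ring
    · rfl
  have htot : ∑ i, ∑ j, m i * m j * (if a j < a i then (a i - a j) * (f i - f j) else 0) +
      ∑ i, ∑ j, m i * m j * (if a i < a j then (a i - a j) * (f i - f j) else 0) =
      ∑ i, ∑ j, m i * m j * ((a i - a j) * (f i - f j)) := by
    rw [← Finset.sum_add_distrib]
    refine Finset.sum_congr rfl fun i _ => ?_
    rw [← Finset.sum_add_distrib]
    refine Finset.sum_congr rfl fun j _ => ?_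
    rcases lt_trichotomy (a i) (a j) with h | h | h
    · rw [if_neg (by linarith), if_pos h]
      ring
    · rw [if_neg (by linarith), if_neg (by linarith), h]
      ring
    · rw [if_pos h, if_neg (by linarith)]
      ring
  have hexp : ∑ i, ∑ j, m i * m j * ((a i - a j) * (f i - f j)) =
      2 * (∑ i, m i * a i * f i - (∑ i, m i * a i) * ∑ i, m i * f i) := by
    have h2 : ∀ i, ∑ j, m i * m j * ((a i - a j) * (f i - f j)) =
        m i * a i * f i * ∑ j, m j - m i * a i * ∑ j, m j * f j -
          m i * f i * ∑ j, m j * a j + m i * ∑ j, m j * a j * f j := by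
      intro i
      rw [Finset.mul_sum, Finset.mul_sum, Finset.mul_sum, Finset.mul_sum,
        ← Finset.sum_sub_distrib, ← Finset.sum_sub_distrib, ← Finset.sum_add_distrib]
      exact Finset.sum_congr rfl fun j _ => by ring
    simp_rw [h2]
    rw [Finset.sum_add_distrib, Finset.sum_sub_distrib, Finset.sum_sub_distrib,
      ← Finset.sum_mul, ← Finset.sum_mul, ← Finset.sum_mul, ← Finset.sum_mul, h1]
    ring
  linarith

lemma TN_ph_pos {ι : Type} [Fintype ι] {M x : ℝ} {m a : ι → ℝ} (h : IsLaw M x m a) (s : ℝ) :
    0 < ph m a s := by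
  unfold ph
  have h1 : ∃ i, 0 < m i := by
    by_contra hno
    push Not at hno
    have : ∑ i, m i = 0 := Finset.sum_eq_zero fun i _ => le_antisymm (hno i) (h.m0 i)
    rw [h.m1] at this
    exact one_ne_zero this
  obtain ⟨i, hi⟩ := h1
  exact Finset.sum_pos' (fun j _ => mul_nonneg (h.m0 j) (Real.exp_pos _).le)
    ⟨i, Finset.mem_univ i, mul_pos hi (Real.exp_pos _)⟩

theorem thm_TN (hD : St_Der) (hC : St_Cut) : St_TN := by
  intro R g K c s de t ι _ m a hGK hcrl hde ht hgap
  have hlaw := hcrl.law
  have hR1 : 1 ≤ R := le_trans (by norm_num) hGK.hR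
  have hR0 : (0 : ℝ) < R := by exact_mod_cast hR1
  obtain ⟨hder, -, -, -⟩ := hD R (R + g) (-t) ι m a hR1 hlaw
  obtain ⟨L, hL⟩ : ∃ L : ℝ, L = ph m a (-t) := ⟨_, rfl⟩
  have hL0 : 0 < L := by rw [hL]; exact TN_ph_pos hlaw _
  obtain ⟨L', hL'⟩ : ∃ L' : ℝ, L' = ∑ i, m i * a i * Real.exp (t * a i) := ⟨_, rfl⟩
  have hLe : L = ∑ i, m i * Real.exp (t * a i) := by
    rw [hL, ph]
    exact Finset.sum_congr rfl fun i _ => by rw [neg_neg]
  -- the derivative of the transform
  have hphd : HasDerivAt (fun u : ℝ => ph m a (-u)) L' t := by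
    unfold ph
    rw [hL']
    refine HasDerivAt.fun_sum fun i _ => ?_
    have h1 : HasDerivAt (fun u : ℝ => - -u * a i) (a i) t := by
      simpa using (hasDerivAt_id t).mul_const (a i)
    have h2 := (h1.exp).const_mul (m i)
    have h3 : m i * (Real.exp (- -t * a i) * a i) = m i * a i * Real.exp (t * a i) := by
      rw [neg_neg]
      ring
    rw [h3] at h2
    exact h2
  have hcov := TN_cov m a (fun i => Real.exp (t * a i)) hlaw.m1
  rw [← hL', hlaw.mean, one_mul, ← hLe] at hcov
  have hLL : 0 ≤ L' - L := by
    rw [← hcov]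
    refine Finset.sum_nonneg fun i _ => Finset.sum_nonneg fun j _ => ?_
    refine mul_nonneg (mul_nonneg (hlaw.m0 i) (hlaw.m0 j)) ?_
    split_ifs with h
    · refine mul_nonneg (by linarith) (sub_nonneg.2 (Real.exp_le_exp.2 ?_))
      nlinarith
    · exact le_rfl
  -- the derivative of `Ps`
  have hPs : HasDerivAt (Ps R m a) (R * Real.exp (R * t) * (L - L') / L ^ (R + 1)) t := by
    have h1 : HasDerivAt (fun u : ℝ => Real.exp (R * u)) (Real.exp (R * t) * R) t := by
      have := ((hasDerivAt_id t).const_mul (R : ℝ)).exp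
      simpa using this
    have h2 : HasDerivAt (fun u : ℝ => ph m a (-u) ^ R) (R * L ^ (R - 1) * L') t := by
      have := hphd.fun_pow R
      rw [← hL] at this
      exact this
    have h3 := h1.fun_div h2 (by rw [← hL]; positivity)
    have h4 : (fun u : ℝ => Real.exp (R * u) / ph m a (-u) ^ R) = Ps R m a := rfl
    rw [h4, ← hL] at h3
    have h5 : (Real.exp (R * t) * R * L ^ R - Real.exp (R * t) * (R * L ^ (R - 1) * L')) /
        (L ^ R) ^ 2 = R * Real.exp (R * t) * (L - L') / L ^ (R + 1) := by
      obtain ⟨r, rfl⟩ : ∃ r, R = r + 1 := ⟨R - 1, by omega⟩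
      rw [Nat.add_sub_cancel]
      field_simp
      ring
    rw [h5] at h3
    exact h3
  refine ⟨_, _, (HasDerivAt.scomp t hder (hasDerivAt_neg t)), hPs, ?_, ?_⟩
  · refine div_nonpos_of_nonpos_of_nonneg ?_ (by positivity)
    exact mul_nonpos_of_nonneg_of_nonpos (by positivity) (by linarith)
  · rw [← hL, smul_eq_mul]
    obtain ⟨kp, hkp⟩ : ∃ kp : ℝ, kp = de / (Real.exp (de * t) - 1) := ⟨_, rfl⟩
    rw [← hkp]
    have hc0 := hcrl.c0
    have hs1 := hcrl.s1
    have hsum : c * (1 - s) * kp * Real.exp (t * (R + g)) * (L' - L) ≤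
        ∑ i, ∑ j, m i * m j * (if a j < a i then
          (a i - a j) * (Real.exp (-(-t) * a i) * Gs R (R + g) m a (-t) (a j) -
          Real.exp (-(-t) * a j) * Gs R (R + g) m a (-t) (a i)) else 0) := by
      rw [← hcov, Finset.mul_sum]
      refine Finset.sum_le_sum fun i _ => ?_
      rw [Finset.mul_sum]
      refine Finset.sum_le_sum fun j _ => ?_
      rcases (hlaw.m0 i).eq_or_lt with hi | hi
      · rw [← hi]
        simp
      rcases (hlaw.m0 j).eq_or_lt with hj | hj
      · rw [← hj]
        simp
      split_ifs with h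
      · have h1 := hC R g K c s de t ι m a hGK hcrl hde ht hgap j i hj hi h.le
        rw [← hkp] at h1
        have h2 := mul_le_mul_of_nonneg_left h1
          (Real.exp_pos (t * a i + t * a j)).le
        have e1 : Real.exp (t * a i + t * a j) *
            (Real.exp (-t * a j) * Gs R (R + g) m a (-t) (a j) -
              Real.exp (-t * a i) * Gs R (R + g) m a (-t) (a i)) =
            Real.exp (t * a i) * Gs R (R + g) m a (-t) (a j) -
              Real.exp (t * a j) * Gs R (R + g) m a (-t) (a i) := by
          rw [mul_sub, ← mul_assoc, ← mul_assoc, ← Real.exp_add, ← Real.exp_add]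
          congr 3
          · ring
          · ring
        have e2 : Real.exp (t * a i + t * a j) * (c * (1 - s) * kp * Real.exp (t * (R + g)) *
            (Real.exp (-t * a j) - Real.exp (-t * a i))) =
            c * (1 - s) * kp * Real.exp (t * (R + g)) *
              (Real.exp (t * a i) - Real.exp (t * a j)) := by
          have e3 : Real.exp (t * a i + t * a j) * Real.exp (-t * a j) = Real.exp (t * a i) := by
            rw [← Real.exp_add]
            congr 1
            ring
          have e4 : Real.exp (t * a i + t * a j) * Real.exp (-t * a i) = Real.exp (t * a j) := by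
            rw [← Real.exp_add]
            congr 1
            ring
          calc _ = c * (1 - s) * kp * Real.exp (t * (R + g)) *
              (Real.exp (t * a i + t * a j) * Real.exp (-t * a j) -
                Real.exp (t * a i + t * a j) * Real.exp (-t * a i)) := by ring
            _ = _ := by rw [e3, e4]
        rw [e1, e2] at h2
        have h3 := mul_le_mul_of_nonneg_left h2
          (mul_nonneg (mul_pos hi hj).le (sub_nonneg.2 h.le))
        rw [neg_neg]
        linarith
      · simp
    have hexp : Real.exp (t * (R + g)) = Real.exp (R * t) * Real.exp (g * t) := by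
      rw [← Real.exp_add]
      congr 1
      ring
    rw [hexp] at hsum
    have hRL : 0 ≤ (R : ℝ) / L ^ (R + 1) := by positivity
    have h6 := mul_le_mul_of_nonneg_left hsum hRL
    have h7 : c * (1 - s) * kp * Real.exp (g * t) *
        (R * Real.exp (R * t) * (L - L') / L ^ (R + 1)) =
        - (R / L ^ (R + 1) * (c * (1 - s) * kp * (Real.exp (R * t) * Real.exp (g * t)) *
          (L' - L))) := by
      ring
    rw [h7]
    linarith

end Pool.Agent.EMCW
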