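import Pool.Agent.EMCW.St

/-!
The bound for positive tilts: the probability `P(S_R ≥ M)` of a critical law is at most
`c (1 + s) (1 + (W - g)_+ J)`, where `J` bounds the integral of `Phi`.
-/

open Finset

namespace Pool.Agent.EMCW

section TP

variable {ι : Type} [Fintype ι] {m a : ι → ℝ} {M x : ℝ}

/-- The Laplace transform of the walk. -/
lemma tp_Tk_exp (k : ℕ) (u t : ℝ) :
    Tk m a k (fun v => Real.exp (-u * v)) t = Real.exp (-u * t) * ph m a u ^ k := by
  induction k generalizing t with
  | zero => rw [Tk_zero, pow_zero, mul_one]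
  | succ k ih =>
    rw [Tk_succ, pow_succ]
    unfold ph at ih ⊢
    rw [← mul_assoc, Finset.mul_sum]
    refine Finset.sum_congr rfl fun i _ => ?_
    rw [ih, show -u * (t + a i) = -u * t + -u * a i by ring, Real.exp_add]
    ring

lemma tp_ph_pos (h : IsLaw M x m a) (u : ℝ) : 0 < ph m a u := by
  obtain ⟨i, hi⟩ : ∃ i, 0 < m i := by
    by_contra hcon
    push Not at hcon
    have h1 : ∑ i, m i ≤ 0 := Finset.sum_nonpos fun i _ => hcon i
    rw [h.m1] at h1
    linarith
  unfold ph
  exact Finset.sum_pos' (fun j _ => mul_nonneg (h.m0 j) (Real.exp_pos _).le)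
    ⟨i, Finset.mem_univ i, mul_pos hi (Real.exp_pos _)⟩

lemma tp_ph_deriv (u : ℝ) :
    HasDerivAt (ph m a) (-∑ i, m i * a i * Real.exp (-u * a i)) u := by
  have h1 : HasDerivAt (fun v => ∑ i, m i * Real.exp (-v * a i))
      (∑ i, m i * (Real.exp (-u * a i) * (-1 * a i))) u := by
    refine HasDerivAt.fun_sum fun i _ => ?_
    exact (((hasDerivAt_id u).neg.mul_const (a i)).exp).const_mul (m i)
  have h2 : (-∑ i, m i * a i * Real.exp (-u * a i)) =
      ∑ i, m i * (Real.exp (-u * a i) * (-1 * a i)) := by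
    rw [← Finset.sum_neg_distrib]
    exact Finset.sum_congr rfl fun i _ => by ring
  rw [h2]
  exact h1

/-- The derivative of `Phi`. -/
lemma tp_Ph_deriv (R : ℕ) (g : ℝ) (h : IsLaw M x m a) (u : ℝ) :
    HasDerivAt (Ph R g m a)
      (-(R + g) * Ph R g m a u +
        R * (Ph R g m a u / ph m a u) * ∑ i, m i * a i * Real.exp (-u * a i)) u := by
  have hp := tp_ph_pos h u
  have h1 : HasDerivAt (fun v : ℝ => Real.exp (-(R + g) * v))
      (Real.exp (-(R + g) * u) * (-(R + g) * 1)) u :=
    ((hasDerivAt_id u).const_mul (-((R : ℝ) + g))).exp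
  have h2 := (tp_ph_deriv (m := m) (a := a) u).fun_pow R
  have h3 := h1.fun_div h2 (pow_ne_zero R hp.ne')
  refine h3.congr_deriv ?_
  unfold Ph
  rcases Nat.eq_zero_or_pos R with rfl | hR
  · simp
    ring
  · obtain ⟨r, rfl⟩ : ∃ r, R = r + 1 := ⟨R - 1, by omega⟩
    simp only [Nat.add_sub_cancel]
    have hp0 : ph m a u ≠ 0 := hp.ne'
    field_simp
    ring

/-- Comparison of the tilted walk with the function `h`. -/
lemma tp_kernel (h : IsLaw M x m a) (R : ℕ) {u : ℝ} (hu : 0 ≤ u) {b d : ℝ} (hbd : d < b) :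
    Real.exp (-u * b) * Gs R M m a u d - Real.exp (-u * d) * Gs R M m a u b ≤
      Real.exp (-u * (M + d)) * (hh R M m a b - hh R M m a d) := by
  unfold Gs hh
  have e1 := Tk_shift (m := m) (a := a) (R - 1)
    (fun v => if v < M then Real.exp (-u * v) else 0) d 0
  have e2 := Tk_shift (m := m) (a := a) (R - 1)
    (fun v => if v < M then Real.exp (-u * v) else 0) b 0
  have e3 := Tk_shift (m := m) (a := a) (R - 1) (ind M) d 0
  have e4 := Tk_shift (m := m) (a := a) (R - 1) (ind M) b 0
  rw [zero_add] at e1 e2 e3 e4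
  rw [← e1, ← e2, ← e3, ← e4, ← Tk_smul, ← Tk_smul, ← Tk_sub, ← Tk_sub, ← Tk_smul]
  refine Tk_mono h.m0 _ (fun s => ?_) _
  simp only [ind]
  by_cases hb : s + b < M
  · have hd : s + d < M := by linarith
    have hb' : ¬ M ≤ s + b := not_le.mpr hb
    have hd' : ¬ M ≤ s + d := not_le.mpr hd
    rw [if_pos hb, if_pos hd, if_neg hb', if_neg hd', ← Real.exp_add, ← Real.exp_add]
    rw [show -u * b + -u * (s + d) = -u * d + -u * (s + b) by ring]
    simp
  · have hb' : M ≤ s + b := not_lt.mp hb
    by_cases hd : s + d < M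
    · have hd' : ¬ M ≤ s + d := not_le.mpr hd
      rw [if_neg hb, if_pos hd, if_pos hb', if_neg hd', ← Real.exp_add]
      simp only [mul_zero, sub_zero, mul_one]
      apply Real.exp_le_exp.mpr
      nlinarith
    · have hd' : M ≤ s + d := not_lt.mp hd
      rw [if_neg hb, if_neg hd, if_pos hb', if_pos hd']
      simp

lemma tp_Ph_nonneg (R : ℕ) (g : ℝ) (h : IsLaw M x m a) (u : ℝ) : 0 ≤ Ph R g m a u := by
  unfold Ph
  exact div_nonneg (Real.exp_pos _).le (pow_nonneg (tp_ph_pos h u).le _)

lemma tp_Ph_zero (R : ℕ) (g : ℝ) (h : IsLaw M x m a) : Ph R g m a 0 = 1 := by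
  unfold Ph ph
  simp [h.m1]

/-- The probability of the complementary event under the tilt is small. -/
lemma tp_tail {R : ℕ} (hR : 1 ≤ R) (h : IsLaw M x m a) {u : ℝ} (hu : 0 ≤ u) :
    1 - qs R M m a u ≤ Real.exp (-u * M) / ph m a u ^ R := by
  have hp := tp_ph_pos h u
  have e1 : ∑ i, m i * Gs R M m a u (a i) =
      Tk m a R (fun v => if v < M then Real.exp (-u * v) else 0) 0 := by
    obtain ⟨r, rfl⟩ : ∃ r, R = r + 1 := ⟨R - 1, by omega⟩
    rw [Tk_succ]
    unfold Gs
    simp
  have e2 : ph m a u ^ R = Tk m a R (fun v => Real.exp (-u * v)) 0 := by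
    rw [tp_Tk_exp]
    simp
  have e3 : ph m a u ^ R ≤ ∑ i, m i * Gs R M m a u (a i) + Real.exp (-u * M) := by
    rw [e1, e2]
    have e4 := Tk_add (m := m) (a := a) R (fun v => if v < M then Real.exp (-u * v) else 0)
      (fun _ => Real.exp (-u * M)) 0
    rw [Tk_const h.m1] at e4
    rw [← e4]
    refine Tk_mono h.m0 _ (fun s => ?_) _
    by_cases hs : s < M
    · simp only [if_pos hs]
      linarith [Real.exp_pos (-u * M)]
    · simp only [if_neg hs, zero_add]
      apply Real.exp_le_exp.mpr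
      nlinarith [not_lt.mp hs]
  unfold qs
  rw [sub_le_iff_le_add, ← add_div, le_div_iff₀ (pow_pos hp R), one_mul]
  linarith

end TP

theorem thm_TP (hD : St_Der) (hC : St_Chi) : St_TP := by
  intro R g K c s J ι _ m a hG hc hJ
  have hR : 1 ≤ R := by have := hG.hR; omega
  have hR0 : (0 : ℝ) < R := by exact_mod_cast hR
  have hl := hc.law
  set M : ℝ := R + g with hM
  set C : ℝ := c * (1 + s) with hCdef
  have hC0 : 0 < C := mul_pos hc.c0 (by linarith [hc.s0])
  -- the derivative
  set D : ℝ → ℝ := fun u => R / ph m a u ^ (R + 1) * ∑ i, ∑ j, m i * m j *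
    (if a j < a i then (a i - a j) * (Real.exp (-u * a i) * Gs R M m a u (a j) -
        Real.exp (-u * a j) * Gs R M m a u (a i)) else 0) with hDdef
  have hq : ∀ u, HasDerivAt (qs R M m a) (D u) u := fun u => (hD R M u ι m a hR hl).1
  have hDle : ∀ u, 0 ≤ u → D u ≤ C * Ph R g m a u * (R * m2 m a) -
      C * (R * (Ph R g m a u / ph m a u) * ∑ i, m i * a i * Real.exp (-u * a i)) := by
    intro u hu
    have hp := tp_ph_pos hl u
    have h1 : ∑ i, ∑ j, m i * m j *
        (if a j < a i then (a i - a j) * (Real.exp (-u * a i) * Gs R M m a u (a j) -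
        Real.exp (-u * a j) * Gs R M m a u (a i)) else 0) ≤
        ∑ i, ∑ j, C * Real.exp (-u * M) * (m i * m j *
          (if a j < a i then (a i - a j) ^ 2 * Real.exp (-u * a j) else 0)) := by
      refine Finset.sum_le_sum fun i _ => Finset.sum_le_sum fun j _ => ?_
      by_cases hij : a j < a i
      · rw [if_pos hij, if_pos hij]
        rcases (hl.m0 i).eq_or_lt with hi | hi
        · rw [← hi]; simp
        rcases (hl.m0 j).eq_or_lt with hj | hj
        · rw [← hj]; simp
        have h2 := tp_kernel hl R hu hij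
        have h3 := (hc.H1 j i hj hi hij.le).2
        have h4 : Real.exp (-u * (M + a j)) * (hh R M m a (a i) - hh R M m a (a j)) ≤
            Real.exp (-u * (M + a j)) * (C * (a i - a j)) :=
          mul_le_mul_of_nonneg_left h3 (Real.exp_pos _).le
        have h5 : (a i - a j) * (Real.exp (-u * a i) * Gs R M m a u (a j) -
            Real.exp (-u * a j) * Gs R M m a u (a i)) ≤
            (a i - a j) * (Real.exp (-u * (M + a j)) * (C * (a i - a j))) :=
          mul_le_mul_of_nonneg_left (h2.trans h4) (by linarith)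
        have h6 : m i * m j * ((a i - a j) * (Real.exp (-u * a i) * Gs R M m a u (a j) -
            Real.exp (-u * a j) * Gs R M m a u (a i))) ≤
            m i * m j * ((a i - a j) * (Real.exp (-u * (M + a j)) * (C * (a i - a j)))) :=
          mul_le_mul_of_nonneg_left h5 (mul_nonneg hi.le hj.le)
        refine h6.trans (le_of_eq ?_)
        rw [show -u * (M + a j) = -u * M + -u * a j by ring, Real.exp_add]
        ring
      · rw [if_neg hij, if_neg hij]; simp
    have h7 : ∑ i, ∑ j, C * Real.exp (-u * M) * (m i * m j *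
          (if a j < a i then (a i - a j) ^ 2 * Real.exp (-u * a j) else 0)) =
        C * Real.exp (-u * M) * ∑ i, ∑ j, m i * m j *
          (if a j < a i then (a i - a j) ^ 2 * Real.exp (-u * a j) else 0) := by
      rw [Finset.mul_sum]
      exact Finset.sum_congr rfl fun i _ => by rw [Finset.mul_sum]
    rw [h7] at h1
    have h8 := hC M u ι m a hl hu
    have h9 : D u ≤ R / ph m a u ^ (R + 1) * (C * Real.exp (-u * M) *
        (m2 m a * ph m a u - ∑ i, m i * a i * Real.exp (-u * a i))) := by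
      refine mul_le_mul_of_nonneg_left (h1.trans ?_) (by positivity)
      exact mul_le_mul_of_nonneg_left h8 (mul_nonneg hC0.le (Real.exp_pos _).le)
    refine h9.trans (le_of_eq ?_)
    unfold Ph
    rw [show -(R + g) * u = -u * M by rw [hM]; ring]
    have hp0 : ph m a u ≠ 0 := hp.ne'
    field_simp
    ring
  -- the primitive
  have hPhc : Continuous (Ph R g m a) :=
    continuous_iff_continuousAt.mpr fun u => (tp_Ph_deriv R g hl u).continuousAt
  set I : ℝ → ℝ := fun T => ∫ u in (0 : ℝ)..T, Ph R g m a u with hI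
  have hId : ∀ T, HasDerivAt I (Ph R g m a T) T := fun T =>
    intervalIntegral.integral_hasDerivAt_right (hPhc.intervalIntegrable _ _)
      (hPhc.stronglyMeasurableAtFilter _ _) hPhc.continuousAt
  set W : ℝ := WW R m a with hW
  set F : ℝ → ℝ := fun T => qs R M m a T + C * (Ph R g m a T - (W - g) * I T) with hF
  have hFd : ∀ T, HasDerivAt F (D T + C * ((-(R + g) * Ph R g m a T +
        R * (Ph R g m a T / ph m a T) * ∑ i, m i * a i * Real.exp (-T * a i)) -
        (W - g) * Ph R g m a T)) T := fun T =>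
    (hq T).add (((tp_Ph_deriv R g hl T).sub ((hId T).const_mul (W - g))).const_mul C)
  have hFanti : AntitoneOn F (Set.Ici 0) := by
    refine antitoneOn_of_deriv_nonpos (convex_Ici 0)
      (fun T _ => (hFd T).continuousAt.continuousWithinAt)
      (fun T _ => (hFd T).differentiableAt.differentiableWithinAt) (fun T hT => ?_)
    rw [interior_Ici] at hT
    rw [(hFd T).deriv]
    have h1 := hDle T (le_of_lt hT)
    have h2 : W = R * m2 m a - R := by rw [hW]; unfold WW; ring
    rw [h2]
    nlinarith [h1]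
  have hq0 := hD R M 0 ι m a hR hl
  have hI0 : I 0 = 0 := by rw [hI]; simp
  have hkey : ∀ T, 0 ≤ T → pp R M m a ≤ (1 - qs R M m a T) + C * (1 + max (W - g) 0 * J) := by
    intro T hT
    have h1 := hFanti (Set.mem_Ici.mpr le_rfl) (Set.mem_Ici.mpr hT) hT
    simp only [hF] at h1
    rw [hq0.2.1, tp_Ph_zero R g hl, hI0] at h1
    have h2 : 0 ≤ Ph R g m a T := tp_Ph_nonneg R g hl T
    have h3 : 0 ≤ I T := intervalIntegral.integral_nonneg hT fun u _ => tp_Ph_nonneg R g hl u
    have h4 : I T ≤ J := hJ T hT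
    have h5 : (W - g) * I T ≤ max (W - g) 0 * J :=
      (mul_le_mul_of_nonneg_right (le_max_left _ _) h3).trans
        (mul_le_mul_of_nonneg_left h4 (le_max_right _ _))
    have h6 : C * ((W - g) * I T) ≤ C * (max (W - g) 0 * J) := mul_le_mul_of_nonneg_left h5 hC0.le
    have h7 : 0 ≤ C * Ph R g m a T := mul_nonneg hC0.le h2
    nlinarith [h1, h6, h7]
  -- the limit
  obtain ⟨i0, hi0, hai0⟩ := hc.H3
  have hb : 0 < M - R * a i0 := by
    have h1 : a i0 < 1 := lt_of_le_of_lt hai0 hc.s1
    have h2 : (R : ℝ) * a i0 ≤ R * 1 := mul_le_mul_of_nonneg_left h1.le hR0.le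
    rw [hM]
    linarith [hG.g0]
  have htail : ∀ T, 0 ≤ T → 1 - qs R M m a T ≤
      Real.exp (-(M - R * a i0) * T) * (1 / m i0 ^ R) := by
    intro T hT
    refine (tp_tail hR hl hT).trans ?_
    have h1 : m i0 * Real.exp (-T * a i0) ≤ ph m a T := by
      unfold ph
      exact Finset.single_le_sum (f := fun i => m i * Real.exp (-T * a i))
        (fun i _ => mul_nonneg (hl.m0 i) (Real.exp_pos _).le) (Finset.mem_univ i0)
    have h2 : (m i0 * Real.exp (-T * a i0)) ^ R ≤ ph m a T ^ R :=
      pow_le_pow_left₀ (mul_nonneg hi0.le (Real.exp_pos _).le) h1 R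
    have h3 : 0 < (m i0 * Real.exp (-T * a i0)) ^ R := pow_pos (mul_pos hi0 (Real.exp_pos _)) R
    refine (div_le_div_of_nonneg_left (Real.exp_pos _).le h3 h2).trans (le_of_eq ?_)
    rw [mul_pow, ← Real.exp_nat_mul,
      show -(M - R * a i0) * T = -T * M - R * (-T * a i0) by ring, Real.exp_sub]
    have h4 : m i0 ^ R ≠ 0 := (pow_pos hi0 R).ne'
    have h5 : Real.exp (R * (-T * a i0)) ≠ 0 := (Real.exp_pos _).ne'
    field_simp
  have hlim : Filter.Tendsto (fun T : ℝ => Real.exp (-(M - R * a i0) * T) * (1 / m i0 ^ R) +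
      C * (1 + max (W - g) 0 * J)) Filter.atTop (nhds (0 * (1 / m i0 ^ R) +
      C * (1 + max (W - g) 0 * J))) := by
    refine Filter.Tendsto.add_const _ (Filter.Tendsto.mul_const _ ?_)
    refine Real.tendsto_exp_atBot.comp ?_
    exact Filter.Tendsto.const_mul_atTop_of_neg (by linarith) Filter.tendsto_id
  rw [zero_mul, zero_add] at hlim
  refine ge_of_tendsto hlim ?_
  filter_upwards [Filter.eventually_ge_atTop (0 : ℝ)] with T hT
  exact (hkey T hT).trans (by linarith [htail T hT])

end Pool.Agent.EMCW
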