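import Pool.Agent.EMCW.St

/-!
EMCW, module Trunc: the truncation inequality for nearly optimal laws.
-/

open Finset

namespace Pool.Agent.EMCW

/-- Comparison of the walk with the walk of the truncated law. -/
lemma Trunc_walk {ι : Type} [Fintype ι] {m a a' : ι → ℝ} (h0 : ∀ i, 0 ≤ m i) {M t c B : ℝ}
    (hc : 0 < c) (hB : (M - B) * c = M) (ha' : ∀ i, 0 ≤ a' i)
    (hcase : ∀ i, M ≤ a' i ∨ (a i - t) * c ≤ a' i) (k : ℕ) :
    ∀ s s' : ℝ, 0 ≤ s' → (M ≤ s' ∨ (s - (B - k * t)) * c ≤ s') →
      Tk m a k (ind M) s ≤ Tk m a' k (ind M) s' := by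
  induction k with
  | zero =>
    intro s s' hs' h
    rw [Tk_zero, Tk_zero]
    unfold ind
    split_ifs with h1 h2
    · exact le_rfl
    · exfalso
      apply h2
      rcases h with h | h
      · exact h
      · rw [Nat.cast_zero, zero_mul, sub_zero] at h
        have : (M - B) * c ≤ (s - B) * c := mul_le_mul_of_nonneg_right (by linarith) hc.le
        linarith
    · exact zero_le_one
    · exact le_rfl
  | succ k ih =>
    intro s s' hs' h
    rw [Tk_succ, Tk_succ]
    refine Finset.sum_le_sum fun i _ => mul_le_mul_of_nonneg_left ?_ (h0 i)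
    refine ih _ _ (by linarith [ha' i]) ?_
    rcases h with h | h
    · left
      linarith [ha' i]
    · rcases hcase i with h1 | h1
      · left
        linarith
      · right
        push_cast at h
        have : (s + a i - (B - k * t)) * c = (s - (B - (k + 1) * t)) * c + (a i - t) * c := by
          ring
        linarith

theorem thm_Trunc (hV : St_Vh) (hM : St_Mix) : St_Trunc := by
  intro R g K et t ι _ m a hGK hlaw het hopt ht0 htM
  obtain ⟨M, hMdef⟩ : ∃ M : ℝ, M = R + g := ⟨_, rfl⟩
  have hR4 : (4 : ℝ) ≤ R := by exact_mod_cast hGK.hR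
  have hR0 : (0 : ℝ) < R := by linarith
  have hg0 := hGK.g0
  have hV1 : Vh R (R + g) < 1 := (hV R g K hGK).2.2.1
  have hM1 : 1 < M := by linarith
  have hM0 : 0 < M := by linarith
  have hRt : 0 < M - R * t := by
    rw [← hMdef, lt_div_iff₀ hR0] at htM
    nlinarith
  obtain ⟨v, hv⟩ : ∃ v : ℝ, v = 1 - Vh R (R + g) := ⟨_, rfl⟩
  have hv0 : 0 < v := by linarith
  rw [← hMdef] at hlaw ⊢
  have hopt' : Vh R (R + g) - et ≤ pp R M m a := by rw [hMdef]; exact hopt
  have hVv : 1 - Vh R M = v := by rw [hv, hMdef]
  rw [hVv]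
  obtain ⟨c, hc⟩ : ∃ c : ℝ, c = M / (M - R * t) := ⟨_, rfl⟩
  have hc0 : 0 < c := by rw [hc]; positivity
  have hcM : (M - R * t) * c = M := by
    rw [hc]
    field_simp
  let a' : ι → ℝ := fun i => min M (max (a i - t) 0 * c)
  have ha'0 : ∀ i, 0 ≤ a' i := fun i => le_min hM0.le (mul_nonneg (le_max_right _ _) hc0.le)
  have ha'M : ∀ i, a' i ≤ M := fun i => min_le_left _ _
  have hwalk : pp R M m a ≤ pp R M m a' := by
    unfold pp
    refine Trunc_walk (t := t) (B := R * t) hlaw.m0 hc0 hcM ha'0 (fun i => ?_) R 0 0 le_rfl (Or.inr ?_)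
    · rcases le_total M (max (a i - t) 0 * c) with h | h
      · left
        exact le_min le_rfl h
      · right
        refine le_min ?_ ?_
        · exact (mul_le_mul_of_nonneg_right (le_max_left _ _) hc0.le).trans h
        · exact mul_le_mul_of_nonneg_right (le_max_left _ _) hc0.le
    · rw [sub_self, sub_zero, zero_mul]
  -- the mean of the truncated law
  obtain ⟨x', hx'⟩ : ∃ x' : ℝ, x' = ∑ i, m i * a' i := ⟨_, rfl⟩
  obtain ⟨e, he⟩ : ∃ e : ℝ, e = ∑ i, m i * max (a i - t) 0 := ⟨_, rfl⟩
  have hmin : ∑ i, m i * min (a i) t = 1 - e := by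
    rw [he, ← hlaw.mean, ← Finset.sum_sub_distrib]
    refine Finset.sum_congr rfl fun i _ => ?_
    rcases le_total (a i) t with h | h
    · rw [min_eq_left h, max_eq_right (by linarith)]
      ring
    · rw [min_eq_right h, max_eq_left (by linarith)]
      ring
  have hxe : x' ≤ c * e := by
    rw [hx', he, Finset.mul_sum]
    refine Finset.sum_le_sum fun i _ => ?_
    have : a' i ≤ max (a i - t) 0 * c := min_le_right _ _
    have h2 := mul_le_mul_of_nonneg_left this (hlaw.m0 i)
    linarith
  have hx'e : x' * (M - R * t) ≤ M * e := by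
    have h1 := mul_le_mul_of_nonneg_right hxe hRt.le
    have h2 : c * e * (M - R * t) = M * e := by
      rw [mul_right_comm, mul_comm c, hcM]
    linarith
  rw [hmin]
  have hfrac : 0 ≤ et * M / v := by positivity
  rcases le_total 1 x' with hx1 | hx1
  · have h1 : M - R * t ≤ M * e := by nlinarith
    have h2 : 1 - e ≤ R * t / M := by
      rw [le_div_iff₀ hM0]
      nlinarith
    linarith
  · have hlaw' : IsLaw (R + g) x' m a' := by
      rw [← hMdef]
      exact ⟨hlaw.m0, hlaw.m1, ha'0, ha'M, hx'.symm⟩
    have h1 := hM R g K x' ι m a' hGK hlaw' hx1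
    rw [← hMdef] at h1
    have h2 : 1 - Vh R M = v := hVv
    rw [h2] at h1
    have hber : 1 + (R : ℝ) * ((1 - x') / (M - 1)) ≤ ((M - x') / (M - 1)) ^ R := by
      have h3 := one_add_mul_le_pow (a := (1 - x') / (M - 1))
        (le_trans (by norm_num) (div_nonneg (by linarith) (by linarith) :
          0 ≤ (1 - x') / (M - 1))) R
      have h4 : 1 + (1 - x') / (M - 1) = (M - x') / (M - 1) := by
        have : M - 1 ≠ 0 := by linarith
        field_simp
        ring
      rw [h4] at h3
      exact h3
    have h5 : v * (R * ((1 - x') / (M - 1))) ≤ et := by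
      have h6 := mul_le_mul_of_nonneg_left hber hv0.le
      have h7 : Vh R (R + g) = 1 - v := by linarith
      rw [h7] at hopt'
      nlinarith
    have h8 : 1 - x' ≤ et * (M - 1) / v := by
      have hM10 : 0 < M - 1 := by linarith
      have h9 : 0 ≤ (1 - x') / (M - 1) := div_nonneg (by linarith) hM10.le
      have h10 : v * ((1 - x') / (M - 1)) ≤ et := by
        have : v * ((1 - x') / (M - 1)) ≤ v * (R * ((1 - x') / (M - 1))) := by
          refine mul_le_mul_of_nonneg_left ?_ hv0.le
          nlinarith
        linarith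
      rw [le_div_iff₀ hv0]
      have h11 : v * ((1 - x') / (M - 1)) * (M - 1) ≤ et * (M - 1) :=
        mul_le_mul_of_nonneg_right h10 hM10.le
      have h12 : v * ((1 - x') / (M - 1)) * (M - 1) = (1 - x') * v := by
        field_simp
      linarith
    have h13 : et * (M - 1) / v ≤ et * M / v := by
      apply div_le_div_of_nonneg_right _ hv0.le
      nlinarith
    have h14 : 1 - x' ≤ et * M / v := h8.trans h13
    have h15 : 1 - e ≤ R * t / M + (1 - x') := by
      have h16 : x' * (M - R * t) / M ≤ e := by
        rw [div_le_iff₀ hM0]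
        linarith
      have h17 : x' * (M - R * t) / M = x' - x' * (R * t / M) := by
        field_simp
      have h18 : x' * (R * t / M) ≤ R * t / M := by
        have : 0 ≤ R * t / M := by positivity
        nlinarith
      linarith
    linarith

end Pool.Agent.EMCW
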