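import Pool.Agent.EMCW.St

/-!
Module U: there are no nearly optimal laws with intermediate variance.
-/

open Finset

namespace Pool.Agent.EMCW

namespace MU

variable {ι : Type} [Fintype ι]

/-- adding a position with mass zero does not change the walk -/
lemma Tk_option (m a : ι → ℝ) (M : ℝ) (k : ℕ) (F : ℝ → ℝ) (t : ℝ) :
    Tk (ι := Option ι) (fun o => o.elim 0 m) (fun o => o.elim M a) k F t = Tk m a k F t := by
  induction k generalizing t with
  | zero => rfl
  | succ k ih =>
    rw [Tk_succ, Tk_succ, Fintype.sum_option]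
    simp only [Option.elim_none, Option.elim_some, zero_mul, zero_add]
    exact Finset.sum_congr rfl fun i _ => by rw [ih]

lemma m2_option (m a : ι → ℝ) (M : ℝ) :
    m2 (ι := Option ι) (fun o => o.elim 0 m) (fun o => o.elim M a) = m2 m a := by
  unfold m2
  rw [Fintype.sum_option]
  simp only [Option.elim_none, Option.elim_some, zero_mul, zero_add]

lemma law_option {M x : ℝ} {m a : ι → ℝ} (h : IsLaw M x m a) (hM : 0 ≤ M) :
    IsLaw (ι := Option ι) M x (fun o => o.elim 0 m) (fun o => o.elim M a) where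
  m0 := by
    intro o
    cases o with
    | none => exact le_rfl
    | some i => exact h.m0 i
  m1 := by
    rw [Fintype.sum_option]
    simp only [Option.elim_none, Option.elim_some, zero_add]
    exact h.m1
  a0 := by
    intro o
    cases o with
    | none => exact hM
    | some i => exact h.a0 i
  aM := by
    intro o
    cases o with
    | none => exact le_rfl
    | some i => exact h.aM i
  mean := by
    rw [Fintype.sum_option]
    simp only [Option.elim_none, Option.elim_some, zero_mul, zero_add]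
    exact h.mean

/-- the value at `M` -/
lemma hh_top {M x : ℝ} {m a : ι → ℝ} (h : IsLaw M x m a) (R : ℕ) : hh R M m a M = 1 := by
  refine le_antisymm (hh_le_one h.m0 h.m1 R M M) ?_
  unfold hh
  have h1 := Tk_mono_of_le (m := m) (a := a) h.m0 h.a0 (R - 1) (F := fun _ => 1) (G := ind M) M
    (fun s hs => by
      unfold ind
      rw [if_pos hs])
  rwa [Tk_const h.m1] at h1

end MU

open MU in
theorem thm_U (h1 : St_Max) (h2 : St_Var) (h3 : St_Line) (hV : St_Vh) (hC : St_Crit)
    (hS : St_ConS) (hL : St_Lim) : St_U := by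
  intro R g K tau hGK htau
  have hR4 : (4 : ℝ) ≤ R := by exact_mod_cast hGK.hR
  have hR1 : 1 ≤ R := by have := hGK.hR; omega
  have hg0 := hGK.g0
  obtain ⟨sg, hsg0, hsg1, hLim⟩ := hL R g K (tau / 2) hGK (by linarith)
  set s : ℝ := min sg g / 2 with hs
  have hs0 : 0 < s := by
    rw [hs]
    exact half_pos (lt_min hsg0 hg0)
  have hssg : s < sg := by
    have := min_le_left sg g
    rw [hs]
    linarith
  have hsg' : s < g := by
    have := min_le_right sg g
    rw [hs]
    linarith
  obtain ⟨et1, het1, hCrit⟩ := hC R g K s hGK hs0 (hssg.trans hsg1)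
  set δ : ℝ := min et1 (tau / (4 * R)) with hδ
  have hδ0 : 0 < δ := by
    rw [hδ]
    exact lt_min het1 (by positivity)
  have hδ1 : δ ≤ et1 := min_le_left _ _
  have hδ2 : R * δ ≤ tau / 4 := by
    have h4 : δ ≤ tau / (4 * R) := min_le_right _ _
    calc (R : ℝ) * δ ≤ R * (tau / (4 * R)) := mul_le_mul_of_nonneg_left h4 (by linarith)
      _ = tau / 4 := by field_simp
  refine ⟨min et1 (δ ^ 2), lt_min het1 (by positivity), ?_⟩
  intro ι _ m a hlaw hpp
  by_contra hcon
  rw [not_or, not_le, not_le] at hcon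
  obtain ⟨hW1, hW2⟩ := hcon
  have hM0 : (0 : ℝ) ≤ R + g := by linarith
  -- the extended law
  set m1 : Option ι → ℝ := fun o => o.elim 0 m with hm1
  set a1 : Option ι → ℝ := fun o => o.elim (R + g) a with ha1
  have hlaw1 : IsLaw (R + g) 1 m1 a1 := law_option hlaw hM0
  have hpp1 : pp R (R + g) m1 a1 = pp R (R + g) m a := Tk_option m a (R + g) R _ 0
  have hm21 : m2 m1 a1 = m2 m a := m2_option m a (R + g)
  obtain ⟨m', hlaw', hmax⟩ := h1 R (R + g) 1 1 (m2 m a) (Option ι) m1 a1 hlaw1
  have hcmp := hmax m1 hlaw1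
  rw [hpp1, hm21, sub_self] at hcmp
  obtain ⟨hVle, -, -, -, -⟩ := hV R g K hGK
  have hpV := hVle (Option ι) m' a1 hlaw'
  have hmin1 : min et1 (δ ^ 2) ≤ et1 := min_le_left _ _
  have hmin2 : min et1 (δ ^ 2) ≤ δ ^ 2 := min_le_right _ _
  have hsq : (m2 m' a1 - m2 m a) ^ 2 ≤ δ ^ 2 := by nlinarith
  have habs : |m2 m' a1 - m2 m a| ≤ δ := abs_le_of_sq_le_sq hsq hδ0.le
  have hpp' : Vh R (R + g) - et1 ≤ pp R (R + g) m' a1 := by
    have := sq_nonneg (m2 m' a1 - m2 m a)
    linarith
  -- first order condition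
  have hvar := fun m'' (h'' : IsLaw (R + g) 1 m'' a1) =>
    h2 R (R + g) 1 1 (m2 m a) (Option ι) m' m'' a1 hR1 hlaw' h'' hmax
  obtain ⟨l0, l1, hline⟩ := h3 (R + g) 1 (Option ι) m' a1
    (fun i => R * hh R (R + g) m' a1 (a1 i) - 2 * 1 * (m2 m' a1 - m2 m a) * a1 i ^ 2) hlaw'
    ⟨none, by show (1 : ℝ) < R + g; linarith⟩ hvar
  have hR0 : (R : ℝ) ≠ 0 := by positivity
  set e : ℝ := 2 * (m2 m' a1 - m2 m a) / R with he
  have heabs : |e| ≤ et1 := by
    rw [he, abs_div, abs_mul, abs_of_pos (show (0 : ℝ) < 2 by norm_num),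
      abs_of_pos (show (0 : ℝ) < R by positivity), div_le_iff₀ (by positivity)]
    nlinarith
  have hcrl : Crl R g K (l1 / R) s m' a1 := by
    refine hCrit (Option ι) m' a1 (l0 / R) (l1 / R) e hlaw' hpp' heabs ?_ ?_
    · intro i hi
      have h5 := (hline i).2 hi
      rw [he]
      field_simp
      linarith
    · have h5 := (hline none).1
      have h6 : a1 none = R + g := rfl
      rw [h6, hh_top hlaw' R] at h5
      rw [he]
      have h7 : l0 / R + l1 / R * (R + g) + 2 * (m2 m' a1 - m2 m a) / R * (R + g) ^ 2 =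
          (l0 + l1 * (R + g) + 2 * (m2 m' a1 - m2 m a) * (R + g) ^ 2) / R := by
        field_simp
      rw [h7, le_div_iff₀ (by positivity)]
      linarith
  obtain ⟨al, be, hcs⟩ := hS R g K (l1 / R) s (Option ι) m' a1 hGK hcrl hsg'
  have hfin := hLim s _ _ al be hs0.le hssg hcs
  have hWW : |WW R m' a1 - WW R m a| ≤ tau / 4 := by
    have h8 : WW R m' a1 - WW R m a = R * (m2 m' a1 - m2 m a) := by
      unfold WW
      ring
    rw [h8, abs_mul, abs_of_pos (show (0 : ℝ) < R by positivity)]
    exact (mul_le_mul_of_nonneg_left habs (by linarith)).trans hδ2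
  rw [abs_le] at hWW
  rcases hfin with h9 | h9
  · linarith [hWW.1]
  · linarith [hWW.2]

end Pool.Agent.EMCW
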