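import Pool.Agent.EMCW.St

/-!
The value near the clique and near the star.
-/

open Finset

namespace Pool.Agent.EMCW

namespace MVal

lemma pow_sub_le (n : ℕ) {x y : ℝ} (hy : 0 ≤ y) (hyx : y ≤ x) (hx : x ≤ 1) :
    x ^ n - y ^ n ≤ n * (x - y) := by
  induction n with
  | zero => simp
  | succ n ih =>
    have h0 : 0 ≤ x ^ n - y ^ n := sub_nonneg.2 (pow_le_pow_left₀ hy hyx n)
    have h1 : x * (x ^ n - y ^ n) ≤ x ^ n - y ^ n := mul_le_of_le_one_left h0 hx
    have h2 : (x - y) * y ^ n ≤ x - y :=
      mul_le_of_le_one_right (sub_nonneg.2 hyx) (pow_le_one₀ hy (hyx.trans hx))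
    have h3 : x ^ (n + 1) - y ^ (n + 1) = x * (x ^ n - y ^ n) + (x - y) * y ^ n := by ring
    rw [h3]
    push_cast
    linarith

section

variable {ι : Type} [Fintype ι] {m a : ι → ℝ} {M x : ℝ}

lemma ind_nonneg (s : ℝ) : 0 ≤ ind M s := by
  unfold ind
  split_ifs <;> norm_num

lemma ind_le_one (s : ℝ) : ind M s ≤ 1 := by
  unfold ind
  split_ifs <;> norm_num

lemma Tk_le_one (h : IsLaw M x m a) (k : ℕ) (t : ℝ) : Tk m a k (ind M) t ≤ 1 := by
  have h1 := Tk_mono (a := a) h.m0 k (G := fun _ => (1 : ℝ)) (fun s => ind_le_one (M := M) s) t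
  rwa [Tk_const h.m1] at h1

/-- the mass of a class of indices -/
noncomputable def mass (m : ι → ℝ) (p : ι → Prop) : ℝ := by
  classical exact ∑ i, if p i then m i else 0

open Classical in
lemma mass_eq (p : ι → Prop) : mass m p = ∑ i, if p i then m i else 0 := by
  unfold mass
  exact Finset.sum_congr rfl fun i _ => by congr

lemma mass_nonneg (h : IsLaw M x m a) (p : ι → Prop) : 0 ≤ mass m p := by
  classical
  rw [mass_eq]
  exact Finset.sum_nonneg fun i _ => by split_ifs; exacts [h.m0 i, le_rfl]

lemma mass_le_one (h : IsLaw M x m a) (p : ι → Prop) : mass m p ≤ 1 := by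
  classical
  rw [mass_eq, ← h.m1]
  exact Finset.sum_le_sum fun i _ => by split_ifs; exacts [le_rfl, h.m0 i]

lemma star_step (h : IsLaw M x m a) (b : ℝ) (k : ℕ) (t : ℝ)
    (hk : ∀ i, a i < b → Tk m a k (ind M) (t + a i) ≤ 1 - (1 - mass m fun i => b ≤ a i) ^ k) :
    Tk m a (k + 1) (ind M) t ≤ 1 - (1 - mass m fun i => b ≤ a i) ^ (k + 1) := by
  classical
  rw [Tk_succ]
  set P : ℝ := mass m fun i => b ≤ a i with hP
  have e : 1 - (1 - P) ^ (k + 1) = ∑ i, ((if b ≤ a i then m i else 0) * 1 +
      (m i - if b ≤ a i then m i else 0) * (1 - (1 - P) ^ k)) := by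
    rw [Finset.sum_add_distrib, ← Finset.sum_mul, ← Finset.sum_mul, Finset.sum_sub_distrib, h.m1,
      ← mass_eq, ← hP]
    ring
  rw [e]
  refine Finset.sum_le_sum fun i _ => ?_
  by_cases hi : b ≤ a i
  · simp only [hi, if_true, sub_self, zero_mul, add_zero, mul_one]
    exact mul_le_of_le_one_right (h.m0 i) (Tk_le_one h k _)
  · simp only [hi, if_false, zero_mul, zero_add, sub_zero]
    exact mul_le_mul_of_nonneg_left (hk i (not_le.1 hi)) (h.m0 i)

lemma star_ind (h : IsLaw M x m a) (b : ℝ) (k : ℕ) : ∀ t : ℝ, t + k * b < M →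
    Tk m a k (ind M) t ≤ 1 - (1 - mass m fun i => b ≤ a i) ^ k := by
  induction k with
  | zero =>
    intro t ht
    rw [Tk_zero]
    unfold ind
    rw [if_neg (by
      push Not
      simpa using ht)]
    simp
  | succ k ih =>
    intro t ht
    refine star_step h b k t fun i hi => ih _ ?_
    push_cast at ht
    linarith

lemma star_le (h : IsLaw M x m a) (R : ℕ) (hR : 1 ≤ R) :
    pp R M m a ≤ 1 - (1 - mass m fun i => M / R ≤ a i) ^ R := by
  obtain ⟨k, rfl⟩ := Nat.exists_eq_add_of_le' hR
  unfold pp
  refine star_step h _ k 0 fun i hi => star_ind h _ k _ ?_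
  have e : M / ((k + 1 : ℕ) : ℝ) * (k + 1 : ℕ) = M := by
    have : ((k + 1 : ℕ) : ℝ) ≠ 0 := by positivity
    field_simp
  push_cast at e hi ⊢
  linarith

lemma cl_ind0 (h : IsLaw M x m a) (b : ℝ) (k : ℕ) : ∀ t : ℝ, t + k * b < M →
    Tk m a k (ind M) t ≤ k * mass m fun i => b < a i := by
  classical
  induction k with
  | zero =>
    intro t ht
    rw [Tk_zero]
    unfold ind
    rw [if_neg (by
      push Not
      simpa using ht)]
    simp
  | succ k ih =>
    intro t ht
    rw [Tk_succ]
    set P : ℝ := mass m fun i => b < a i with hP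
    have hP0 : 0 ≤ P := mass_nonneg h _
    have e : ((k + 1 : ℕ) : ℝ) * P = ∑ i, ((if b < a i then m i else 0) +
        m i * (k * P)) := by
      rw [Finset.sum_add_distrib, ← Finset.sum_mul, h.m1, ← mass_eq, ← hP]
      push_cast
      ring
    rw [e]
    refine Finset.sum_le_sum fun i _ => ?_
    have h0 := h.m0 i
    by_cases hi : b < a i
    · simp only [hi, if_true]
      have h1 := mul_le_of_le_one_right h0 (Tk_le_one h k (t + a i))
      have h2 : 0 ≤ m i * (k * P) := by positivity
      linarith
    · simp only [hi, if_false, zero_add]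
      refine mul_le_mul_of_nonneg_left (ih _ ?_) h0
      push_cast at ht
      push Not at hi
      linarith

lemma cl_ind (h : IsLaw M x m a) (R : ℕ) (hR : 1 ≤ R) (s : ℝ) (hs : 0 < s) (k : ℕ) (hk : k ≤ R) :
    ∀ t : ℝ, t ≤ (R - k) * (M / R + s) → Tk m a k (ind M) t ≤
      (mass m fun i => M / R - R * s ≤ a i) ^ k + k * mass m fun i => M / R + s < a i := by
  classical
  have hR0 : (0 : ℝ) < R := by exact_mod_cast hR
  have hRb : (R : ℝ) * (M / R) = M := by field_simp
  induction k with
  | zero =>
    intro t _
    simpa using Tk_le_one h 0 t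
  | succ k ih =>
    intro t ht
    have ih' := ih (by omega)
    rw [Tk_succ]
    set P : ℝ := mass m fun i => M / R + s < a i with hP
    set Q : ℝ := mass m fun i => M / R - R * s ≤ a i with hQ
    have hP0 : 0 ≤ P := mass_nonneg h _
    have hQ0 : 0 ≤ Q := mass_nonneg h _
    have e : Q ^ (k + 1) + ((k + 1 : ℕ) : ℝ) * P = ∑ i, ((if M / R + s < a i then m i else 0) +
        (if M / R - R * s ≤ a i then m i else 0) * Q ^ k + m i * (k * P)) := by
      rw [Finset.sum_add_distrib, Finset.sum_add_distrib, ← Finset.sum_mul, ← Finset.sum_mul,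
        h.m1, ← mass_eq, ← mass_eq, ← hP, ← hQ]
      push_cast
      ring
    rw [e]
    push_cast at ht
    have hkR : (k : ℝ) + 1 ≤ R := by exact_mod_cast hk
    refine Finset.sum_le_sum fun i _ => ?_
    have h0 := h.m0 i
    have h2 : 0 ≤ m i * (k * P) := by positivity
    have h3 : 0 ≤ (if M / R - R * s ≤ a i then m i else 0) * Q ^ k := by
      split_ifs <;> positivity
    by_cases hi : M / R + s < a i
    · simp only [hi, if_true]
      have h1 := mul_le_of_le_one_right h0 (Tk_le_one h k (t + a i))
      linarith
    · simp only [hi, if_false, zero_add]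
      push Not at hi
      by_cases hi2 : M / R - R * s ≤ a i
      · simp only [hi2, if_true]
        have h4 : m i * Tk m a k (ind M) (t + a i) ≤ m i * (Q ^ k + k * P) := by
          refine mul_le_mul_of_nonneg_left (ih' _ ?_) h0
          linarith
        linarith
      · simp only [hi2, if_false, zero_mul, zero_add]
        push Not at hi2
        refine mul_le_mul_of_nonneg_left (cl_ind0 h _ k _ ?_) h0
        have h5 : (R : ℝ) * (M / R + s) = M + R * s := by linarith
        have h6 : (0 : ℝ) < s := hs
        linarith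

lemma cl_le (h : IsLaw M x m a) (R : ℕ) (hR : 1 ≤ R) (s : ℝ) (hs : 0 < s) :
    pp R M m a ≤
      (mass m fun i => M / R - R * s ≤ a i) ^ R + R * mass m fun i => M / R + s < a i := by
  refine cl_ind h R hR s hs R le_rfl 0 ?_
  simp

end

/-- Near the star, and the value near the clique and near the star. -/
theorem _root_.Pool.Agent.EMCW.thm_Val : St_NS ∧ St_Val := by
  classical
  constructor
  · intro R g K tau hGK htau
    have hR4 := hGK.hR
    have hRr : (4 : ℝ) ≤ R := by exact_mod_cast hR4
    refine ⟨R * tau, by positivity, ?_⟩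
    intro ι _ m a hlaw hW
    have h1 : ∑ i, m i * a i * (R + g - a i) = (R + g) - m2 m a := by
      have h2 : ∑ i, m i * a i * (R + g - a i) = (R + g) * ∑ i, m i * a i - m2 m a := by
        unfold m2
        rw [Finset.mul_sum, ← Finset.sum_sub_distrib]
        exact Finset.sum_congr rfl fun i _ => by ring
      rw [h2, hlaw.mean, mul_one]
    rw [h1]
    unfold WW at hW
    have h3 : (R : ℝ) * ((R + g) - m2 m a) ≤ R * tau := by linarith
    exact le_of_mul_le_mul_left h3 (by linarith)
  · intro R g K et hGK het
    have hR4 := hGK.hR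
    have hRr : (4 : ℝ) ≤ R := by exact_mod_cast hR4
    have hR1 : 1 ≤ R := by omega
    have hg0 := hGK.g0
    have hRpos : (0 : ℝ) < R := by linarith
    set M : ℝ := R + g with hM
    have hMpos : 0 < M := by linarith
    set b : ℝ := M / R with hb
    have hbpos : 0 < b := by positivity
    -- the identity of the values
    have hid : (R / M) ^ R = 1 - (1 - 1 / M) ^ R := by
      have e1 := hGK.e1
      have e2 := hGK.e2
      have f1 : (1 + g / R : ℝ) = M / R := by rw [hM]; field_simp
      have f2 : (1 - (1 - g) / R : ℝ) = (M - 1) / R := by rw [hM]; field_simp; ring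
      have f3 : (1 - 1 / M : ℝ) = (M - 1) / M := by field_simp
      rw [f1, div_pow] at e1
      rw [f2, div_pow] at e2
      rw [f3, div_pow, div_pow]
      have hRR : (R : ℝ) ^ R ≠ 0 := by positivity
      have hMM : M ^ R ≠ 0 := by positivity
      rw [← e2] at e1
      field_simp at e1 ⊢
      linarith
    -- the choice of s
    have hcont : Filter.Tendsto (fun s : ℝ => (1 / (b - R * s)) ^ R) (nhds 0)
        (nhds ((1 / (b - R * 0)) ^ R)) := by
      have : ContinuousAt (fun s : ℝ => (1 / (b - R * s)) ^ R) 0 := by
        refine ContinuousAt.pow ?_ R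
        refine ContinuousAt.div continuousAt_const (by fun_prop) ?_
        simpa using hbpos.ne'
      exact this
    have hev1 : ∀ᶠ s in nhds (0 : ℝ), (1 / (b - R * s)) ^ R < (1 / (b - R * 0)) ^ R + et / 2 :=
      hcont.eventually_lt_const (by linarith)
    have hev2 : ∀ᶠ s in nhds (0 : ℝ), 0 < b - R * s := by
      have : ContinuousAt (fun s : ℝ => b - R * s) 0 := by fun_prop
      exact this.eventually_const_lt (by simpa using hbpos)
    obtain ⟨s, ⟨hs1, hs2⟩, hs0⟩ := (((hev1.and hev2).filter_mono nhdsWithin_le_nhds).and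
      (self_mem_nhdsWithin (s := Set.Ioi (0 : ℝ)))).exists
    have hs0' : 0 < s := hs0
    refine ⟨min (et * M ^ 2 / R ^ 2) (et * (b * s) / (2 * R)), lt_min (by positivity)
      (by positivity), ?_⟩
    intro ι _ m a hlaw hcase
    rcases hcase with hcl | hst
    · -- clique
      have htau := hcl.trans (min_le_right _ _)
      have h1 := cl_le hlaw R hR1 s hs0'
      have hQ : (mass m fun i => M / R - R * s ≤ a i) ≤ 1 / (b - R * s) := by
        rw [mass_eq, le_div_iff₀ hs2, Finset.sum_mul, ← hlaw.mean]
        refine Finset.sum_le_sum fun i _ => ?_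
        split_ifs with hi
        · exact mul_le_mul_of_nonneg_left hi (hlaw.m0 i)
        · rw [zero_mul]
          exact mul_nonneg (hlaw.m0 i) (hlaw.a0 i)
      have hP : (mass m fun i => M / R + s < a i) * (b * s) ≤ et * (b * s) / (2 * R) := by
        refine le_trans ?_ htau
        rw [mass_eq, Finset.sum_mul]
        refine Finset.sum_le_sum fun i _ => ?_
        split_ifs with hi
        · rw [mul_assoc]
          refine mul_le_mul_of_nonneg_left ?_ (hlaw.m0 i)
          have h2 : b ≤ a i := by linarith
          have h3 : s ≤ |a i - M / R| := by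
            refine le_trans ?_ (le_abs_self _)
            linarith
          exact mul_le_mul h2 h3 hs0'.le (hlaw.a0 i)
        · rw [zero_mul]
          exact mul_nonneg (mul_nonneg (hlaw.m0 i) (hlaw.a0 i)) (abs_nonneg _)
      have hP' : R * (mass m fun i => M / R + s < a i) ≤ et / 2 := by
        have h2 : et * (b * s) / (2 * R) = et / (2 * R) * (b * s) := by ring
        rw [h2] at hP
        have h3 := le_of_mul_le_mul_right hP (by positivity)
        have h4 := mul_le_mul_of_nonneg_left h3 hRpos.le
        have h5 : (R : ℝ) * (et / (2 * R)) = et / 2 := by field_simp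
        linarith
      have hQ' : (mass m fun i => M / R - R * s ≤ a i) ^ R ≤ (1 / (b - R * s)) ^ R :=
        pow_le_pow_left₀ (mass_nonneg hlaw _) hQ R
      have h6 : (1 / (b - R * 0)) ^ R = 1 - (1 - 1 / M) ^ R := by
        rw [← hid, mul_zero, sub_zero, hb, one_div_div]
      rw [h6] at hs1
      linarith
    · -- star
      have htau := hst.trans (min_le_left _ _)
      have h1 := star_le hlaw R hR1
      set P : ℝ := mass m fun i => M / R ≤ a i with hP
      have hP1 : P ≤ 1 := mass_le_one hlaw _
      have hPle : P * (M * b) ≤ b + et * M ^ 2 / R ^ 2 := by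
        refine le_trans ?_ (add_le_add_right htau b)
        have e : b = b * ∑ i, m i * a i := by rw [hlaw.mean, mul_one]
        rw [hP, mass_eq, Finset.sum_mul]
        conv_rhs => rw [e]
        rw [Finset.mul_sum, ← Finset.sum_add_distrib]
        refine Finset.sum_le_sum fun i _ => ?_
        have h0 := hlaw.m0 i
        have ha0 := hlaw.a0 i
        have haM := hlaw.aM i
        split_ifs with hi
        · have h2 : 0 ≤ (a i - b) * (M - a i) := mul_nonneg (by linarith) (by linarith)
          have h3 := mul_nonneg h0 h2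
          linarith
        · rw [zero_mul]
          have h2 : 0 ≤ m i * a i := mul_nonneg h0 ha0
          have h3 : 0 ≤ b * (m i * a i) := by positivity
          have h4 : 0 ≤ m i * a i * (M - a i) := mul_nonneg h2 (by linarith)
          linarith
      have hPle' : P - 1 / M ≤ et / R := by
        have e1 : M * b * (P - 1 / M) ≤ M * b * (et / R) := by
          have e2 : M * b * (P - 1 / M) = P * (M * b) - b := by field_simp
          have e3 : M * b * (et / R) = et * M ^ 2 / R ^ 2 := by
            rw [hb]
            field_simp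
          rw [e2, e3]
          linarith
        exact le_of_mul_le_mul_left e1 (by positivity)
      have hM1 : 1 / M ≤ 1 := by
        rw [div_le_one hMpos]
        linarith
      rcases le_total P (1 / M) with h2 | h2
      · have h3 : (1 - 1 / M) ^ R ≤ (1 - P) ^ R :=
          pow_le_pow_left₀ (by linarith) (by linarith) R
        linarith
      · have h3 := pow_sub_le R (x := 1 - 1 / M) (y := 1 - P) (by linarith) (by linarith) (by
          have : 0 < 1 / M := by positivity
          linarith)
        have h4 : (R : ℝ) * (1 - 1 / M - (1 - P)) ≤ et := by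
          have h5 := mul_le_mul_of_nonneg_left hPle' hRpos.le
          have h6 : (R : ℝ) * (et / R) = et := by field_simp
          linarith
        linarith

end MVal

end Pool.Agent.EMCW
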