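import Pool.Agent.EMCW.St

/-!
EMCW, module Var: the first order condition for maximisers over the masses.
-/

open Finset

namespace Pool.Agent.EMCW

/-- Derivative of the walk in the direction `d` of the masses. -/
lemma Var_deriv {ι : Type} [Fintype ι] (m d a : ι → ℝ) (F : ℝ → ℝ) (k : ℕ) (t : ℝ) :
    HasDerivAt (fun e : ℝ => Tk (fun i => m i + e * d i) a (k + 1) F t)
      ((k + 1) * ∑ i, d i * Tk m a k F (t + a i)) 0 := by
  induction k generalizing t with
  | zero =>
    have h1 : (fun e : ℝ => Tk (fun i => m i + e * d i) a (0 + 1) F t) =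
        fun e : ℝ => ∑ i, (m i + e * d i) * F (t + a i) := by
      funext e
      rw [Tk_succ]
      rfl
    rw [h1]
    have h2 : HasDerivAt (fun e : ℝ => ∑ i, (m i + e * d i) * F (t + a i))
        (∑ i, d i * F (t + a i)) 0 := by
      refine HasDerivAt.fun_sum fun i _ => ?_
      have h3 : HasDerivAt (fun e : ℝ => m i + e * d i) (d i) 0 := by
        simpa using ((hasDerivAt_id (0 : ℝ)).mul_const (d i)).const_add (m i)
      exact h3.mul_const _
    simpa [Tk_zero] using h2
  | succ k ih =>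
    have h1 : (fun e : ℝ => Tk (fun i => m i + e * d i) a (k + 1 + 1) F t) =
        fun e : ℝ => ∑ i, (m i + e * d i) *
          Tk (fun i => m i + e * d i) a (k + 1) F (t + a i) := by
      funext e
      rw [Tk_succ]
    rw [h1]
    have h2 : HasDerivAt (fun e : ℝ => ∑ i, (m i + e * d i) *
          Tk (fun i => m i + e * d i) a (k + 1) F (t + a i))
        (∑ i, (d i * Tk m a (k + 1) F (t + a i) +
          m i * ((k + 1) * ∑ j, d j * Tk m a k F (t + a i + a j)))) 0 := by
      refine HasDerivAt.fun_sum fun i _ => ?_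
      have h3 : HasDerivAt (fun e : ℝ => m i + e * d i) (d i) 0 := by
        simpa using ((hasDerivAt_id (0 : ℝ)).mul_const (d i)).const_add (m i)
      have h4 := h3.fun_mul (ih (t + a i))
      simpa using h4
    have h5 : ∑ i, (d i * Tk m a (k + 1) F (t + a i) +
          m i * ((k + 1) * ∑ j, d j * Tk m a k F (t + a i + a j))) =
        (((k + 1 : ℕ) : ℝ) + 1) * ∑ i, d i * Tk m a (k + 1) F (t + a i) := by
      rw [Finset.sum_add_distrib]
      have h6 : ∑ i, m i * (((k : ℝ) + 1) * ∑ j, d j * Tk m a k F (t + a i + a j)) =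
          ((k : ℝ) + 1) * ∑ j, d j * Tk m a (k + 1) F (t + a j) := by
        have h7 : ∀ i, m i * (((k : ℝ) + 1) * ∑ j, d j * Tk m a k F (t + a i + a j)) =
            ∑ j, ((k : ℝ) + 1) * (d j * (m i * Tk m a k F (t + a j + a i))) := by
          intro i
          rw [Finset.mul_sum, Finset.mul_sum]
          refine Finset.sum_congr rfl fun j _ => ?_
          rw [show t + a i + a j = t + a j + a i by ring]
          ring
        simp_rw [h7]
        rw [Finset.sum_comm, Finset.mul_sum]
        refine Finset.sum_congr rfl fun j _ => ?_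
        rw [Tk_succ, Finset.mul_sum, Finset.mul_sum]
      rw [h6]
      push_cast
      ring
    rw [← h5]
    exact h2

theorem thm_Var : St_Var := by
  intro R M x ka w0 ι _ m m' a hR hm hm' hmax
  obtain ⟨r, rfl⟩ : ∃ r, R = r + 1 := ⟨R - 1, by omega⟩
  obtain ⟨d, hd⟩ : ∃ d : ι → ℝ, d = fun i => m' i - m i := ⟨_, rfl⟩
  have hlaw : ∀ e : ℝ, 0 < e → e ≤ 1 → IsLaw M x (fun i => m i + e * d i) a := by
    intro e he he1
    have hmi : ∀ i, m i + e * d i = (1 - e) * m i + e * m' i := fun i => by
      rw [hd]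
      ring
    refine ⟨fun i => ?_, ?_, hm.a0, hm.aM, ?_⟩
    · show 0 ≤ m i + e * d i
      rw [hmi]
      exact add_nonneg (mul_nonneg (by linarith) (hm.m0 i)) (mul_nonneg he.le (hm'.m0 i))
    · simp_rw [hmi]
      rw [Finset.sum_add_distrib, ← Finset.mul_sum, ← Finset.mul_sum, hm.m1, hm'.m1]
      ring
    · simp_rw [hmi]
      have : ∀ i, ((1 - e) * m i + e * m' i) * a i = (1 - e) * (m i * a i) + e * (m' i * a i) :=
        fun i => by ring
      simp_rw [this]
      rw [Finset.sum_add_distrib, ← Finset.mul_sum, ← Finset.mul_sum, hm.mean, hm'.mean]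
      ring
  have hm2 : ∀ e : ℝ, m2 (fun i => m i + e * d i) a = m2 m a + e * ∑ i, d i * a i ^ 2 := by
    intro e
    rw [m2, m2, Finset.mul_sum, ← Finset.sum_add_distrib]
    exact Finset.sum_congr rfl fun i _ => by ring
  have hder : HasDerivAt (fun e : ℝ => pp (r + 1) M (fun i => m i + e * d i) a -
      ka * (m2 (fun i => m i + e * d i) a - w0) ^ 2)
      ((r + 1) * ∑ i, d i * Tk m a r (ind M) (0 + a i) -
        ka * (2 * (m2 m a - w0) * ∑ i, d i * a i ^ 2)) 0 := by
    refine (Var_deriv m d a (ind M) r 0).sub ?_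
    simp_rw [hm2]
    have h1 : HasDerivAt (fun e : ℝ => m2 m a + e * (∑ i, d i * a i ^ 2) - w0)
        (∑ i, d i * a i ^ 2) 0 := by
      have := (((hasDerivAt_id (0 : ℝ)).mul_const (∑ i, d i * a i ^ 2)).const_add
        (m2 m a)).sub_const w0
      simpa using this
    have h2 := (h1.pow 2).const_mul ka
    simpa using h2
  have hle : (r + 1) * ∑ i, d i * Tk m a r (ind M) (0 + a i) -
        ka * (2 * (m2 m a - w0) * ∑ i, d i * a i ^ 2) ≤ 0 := by
    refine le_of_tendsto hder.tendsto_slope_zero_right ?_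
    have hIoc : Set.Ioc (0 : ℝ) 1 ∈ nhdsWithin (0 : ℝ) (Set.Ioi 0) :=
      Ioc_mem_nhdsGT one_pos
    filter_upwards [hIoc] with e he
    have h1 := hmax _ (hlaw e he.1 he.2)
    rw [smul_eq_mul]
    refine mul_nonpos_of_nonneg_of_nonpos (inv_nonneg.2 he.1.le) ?_
    simp only [zero_add, zero_mul, add_zero]
    linarith
  have hfin : ∑ i, m' i * (((r + 1 : ℕ) : ℝ) * hh (r + 1) M m a (a i) -
        2 * ka * (m2 m a - w0) * a i ^ 2) -
      ∑ i, m i * (((r + 1 : ℕ) : ℝ) * hh (r + 1) M m a (a i) -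
        2 * ka * (m2 m a - w0) * a i ^ 2) =
      (r + 1) * ∑ i, d i * Tk m a r (ind M) (0 + a i) -
        ka * (2 * (m2 m a - w0) * ∑ i, d i * a i ^ 2) := by
    rw [← Finset.sum_sub_distrib, Finset.mul_sum, Finset.mul_sum, Finset.mul_sum,
      ← Finset.sum_sub_distrib]
    refine Finset.sum_congr rfl fun i _ => ?_
    rw [hd, zero_add]
    have : hh (r + 1) M m a (a i) = Tk m a r (ind M) (a i) := rfl
    rw [this]
    push_cast
    ring
  linarith

end Pool.Agent.EMCW
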