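import Pool.Agent.EMCW.St

/-!
Facts on the supremum of the probabilities.
-/

open Finset

namespace Pool.Agent.EMCW

/-- beyond `M` the indicator is one for ever -/
theorem Vh_one {ι : Type} [Fintype ι] {m a : ι → ℝ} (h1 : ∑ i, m i = 1) (ha : ∀ i, 0 ≤ a i)
    (M : ℝ) (k : ℕ) (t : ℝ) (ht : M ≤ t) : Tk m a k (ind M) t = 1 := by
  induction k generalizing t with
  | zero =>
    rw [Tk_zero]
    unfold ind
    rw [if_pos ht]
  | succ k ih =>
    rw [Tk_succ]
    have : ∀ i, m i * Tk m a k (ind M) (t + a i) = m i := by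
      intro i
      rw [ih _ (by linarith [ha i]), mul_one]
    simp only [this, h1]

/-- all steps are small with probability at least `θ ^ k` -/
theorem Vh_small {ι : Type} [Fintype ι] {m a : ι → ℝ} (h0 : ∀ i, 0 ≤ m i) (M r θ : ℝ)
    (hθ0 : 0 ≤ θ) (hθ : θ ≤ ∑ i, if a i < r then m i else 0) (k : ℕ) (t : ℝ)
    (ht0 : k = 0 → t < M) (ht : t + k * r ≤ M) :
    θ ^ k ≤ Tk m a k (fun s => 1 - ind M s) t := by
  induction k generalizing t with
  | zero =>
    rw [Tk_zero, pow_zero]
    unfold ind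
    rw [if_neg (not_le.mpr (ht0 rfl))]
    norm_num
  | succ k ih =>
    rw [Tk_succ]
    have h2 : ∀ i, (if a i < r then m i else 0) * θ ^ k ≤
        m i * Tk m a k (fun s => 1 - ind M s) (t + a i) := by
      intro i
      split_ifs with h
      · refine mul_le_mul_of_nonneg_left (ih _ ?_ ?_) (h0 i)
        · intro hk
          rw [hk] at ht
          push_cast at ht
          linarith
        · push_cast at ht
          linarith
      · rw [zero_mul]
        refine mul_nonneg (h0 i) (Tk_nonneg h0 _ (fun s => ?_) _)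
        linarith [ind_le_one M s]
    calc θ ^ (k + 1) = θ * θ ^ k := by rw [pow_succ]; ring
      _ ≤ (∑ i, if a i < r then m i else 0) * θ ^ k :=
          mul_le_mul_of_nonneg_right hθ (pow_nonneg hθ0 k)
      _ = ∑ i, (if a i < r then m i else 0) * θ ^ k := Finset.sum_mul _ _ _
      _ ≤ _ := Finset.sum_le_sum fun i _ => h2 i

/-- a uniform bound -/
theorem Vh_bd {ι : Type} [Fintype ι] {m a : ι → ℝ} (R : ℕ) (hR : 1 ≤ R) (M : ℝ) (hM : (R : ℝ) < M)
    (h : IsLaw M 1 m a) : pp R M m a ≤ 1 - (1 - R / M) ^ R := by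
  have hRr : (1 : ℝ) ≤ R := by exact_mod_cast hR
  have hM0 : 0 < M := by linarith
  have hr : 0 < M / R := div_pos hM0 (by linarith)
  have hmk : (M / R) * (∑ i, if a i < M / R then 0 else m i) ≤ 1 := by
    rw [Finset.mul_sum, ← h.mean]
    refine Finset.sum_le_sum fun i _ => ?_
    split_ifs with h1
    · rw [mul_zero]
      exact mul_nonneg (h.m0 i) (h.a0 i)
    · rw [mul_comm]
      exact mul_le_mul_of_nonneg_left (not_lt.mp h1) (h.m0 i)
  have hsum : (∑ i, if a i < M / R then m i else 0) + (∑ i, if a i < M / R then 0 else m i) = 1 := by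
    rw [← Finset.sum_add_distrib, ← h.m1]
    refine Finset.sum_congr rfl fun i _ => ?_
    split_ifs <;> ring
  have hθ : 1 - R / M ≤ ∑ i, if a i < M / R then m i else 0 := by
    have h2 : (∑ i, if a i < M / R then 0 else m i) ≤ R / M := by
      have e : (R : ℝ) / M = 1 / (M / R) := by field_simp
      rw [e, le_div_iff₀ hr, mul_comm]
      exact hmk
    linarith
  have hθ0 : 0 ≤ 1 - R / M := by
    rw [sub_nonneg, div_le_one hM0]
    exact hM.le
  have h3 := Vh_small h.m0 M (M / R) (1 - R / M) hθ0 hθ R 0 (fun _ => hM0) (by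
    have : (R : ℝ) * (M / R) = M := by field_simp
    linarith)
  rw [Tk_sub, Tk_const h.m1] at h3
  unfold pp
  linarith

/-- the star -/
theorem Vh_star (M : ℝ) (hM : 1 ≤ M) :
    IsLaw M 1 (fun i : Fin 2 => if i = 0 then 1 - 1 / M else 1 / M)
      (fun i : Fin 2 => if i = 0 then 0 else M) := by
  have hM0 : 0 < M := by linarith
  have h1 : 1 / M ≤ 1 := by
    rw [div_le_one hM0]
    exact hM
  refine ⟨?_, ?_, ?_, ?_, ?_⟩
  · intro i
    split_ifs
    · linarith
    · positivity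
  · rw [Fin.sum_univ_two]
    simp
  · intro i
    split_ifs
    · exact le_rfl
    · exact hM0.le
  · intro i
    split_ifs
    · exact hM0.le
    · exact le_rfl
  · rw [Fin.sum_univ_two]
    simp only [if_true, Fin.isValue, mul_zero, zero_add]
    rw [if_neg (by decide), if_neg (by decide)]
    field_simp

theorem Vh_starpp (M : ℝ) (hM : 1 ≤ M) (k : ℕ) :
    Tk (fun i : Fin 2 => if i = 0 then 1 - 1 / M else 1 / M)
      (fun i : Fin 2 => if i = 0 then 0 else M) k (ind M) 0 = 1 - (1 - 1 / M) ^ k := by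
  have hM0 : 0 < M := by linarith
  have hl := Vh_star M hM
  induction k with
  | zero =>
    rw [Tk_zero]
    unfold ind
    rw [if_neg (not_le.mpr hM0)]
    simp
  | succ k ih =>
    rw [Tk_succ, Fin.sum_univ_two]
    have e1 : (if (1 : Fin 2) = 0 then (0 : ℝ) else M) = M := if_neg (by decide)
    have e2 : (if (1 : Fin 2) = 0 then 1 - 1 / M else 1 / M) = 1 / M := if_neg (by decide)
    have e3 : (if (0 : Fin 2) = 0 then (0 : ℝ) else M) = 0 := if_pos rfl
    have e4 : (if (0 : Fin 2) = 0 then 1 - 1 / M else 1 / M) = 1 - 1 / M := if_pos rfl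
    rw [e1, e2, e3, e4, zero_add, ih, Vh_one hl.m1 hl.a0 M k (0 + M) (by linarith), pow_succ]
    ring

theorem thm_Vh : St_Vh := by
  intro R g K hG
  have hR4 : 4 ≤ R := hG.hR
  have hRr : (4 : ℝ) ≤ R := by exact_mod_cast hR4
  have hg0 := hG.g0
  have hg1 := hG.g1
  have hK0 := hG.K0
  obtain ⟨M, hM⟩ : ∃ M : ℝ, M = R + g := ⟨_, rfl⟩
  rw [← hM]
  have hMR : (R : ℝ) < M := by linarith
  have hM0 : 0 < M := by linarith
  have hM1 : 1 ≤ M := by linarith
  -- the bound
  have hbd : ∀ (ι : Type) [Fintype ι] (m a : ι → ℝ), IsLaw M 1 m a →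
      pp R M m a ≤ 1 - (1 - R / M) ^ R := by
    intro ι _ m a h
    exact Vh_bd R (by omega) M hMR h
  have hBA : BddAbove {p : ℝ | ∃ (ι : Type) (_ : Fintype ι) (m a : ι → ℝ),
      IsLaw M 1 m a ∧ p = pp R M m a} := by
    refine ⟨1 - (1 - R / M) ^ R, ?_⟩
    rintro p ⟨ι, _, m, a, h, rfl⟩
    exact hbd ι m a h
  have hle : ∀ (ι : Type) [Fintype ι] (m a : ι → ℝ), IsLaw M 1 m a → pp R M m a ≤ Vh R M := by
    intro ι _ m a h
    exact le_csSup hBA ⟨ι, _, m, a, h, rfl⟩
  have hne : {p : ℝ | ∃ (ι : Type) (_ : Fintype ι) (m a : ι → ℝ),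
      IsLaw M 1 m a ∧ p = pp R M m a}.Nonempty :=
    ⟨_, Fin 2, _, _, _, Vh_star M hM1, rfl⟩
  refine ⟨hle, ?_, ?_, ?_, ?_⟩
  · intro et het
    obtain ⟨p, ⟨ι, hι, m, a, h, rfl⟩, hp⟩ := exists_lt_of_lt_csSup hne
      (show Vh R M - et < Vh R M by linarith)
    exact ⟨ι, hι, m, a, h, hp⟩
  · have h2 : Vh R M ≤ 1 - (1 - R / M) ^ R := by
      refine csSup_le hne ?_
      rintro p ⟨ι, _, m, a, h, rfl⟩
      exact hbd ι m a h
    have h3 : 0 < 1 - R / M := by
      rw [sub_pos, div_lt_one hM0]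
      exact hMR
    have h4 := pow_pos h3 R
    linarith
  · have h2 := hle (Fin 2) _ _ (Vh_star M hM1)
    unfold pp at h2
    rw [Vh_starpp M hM1] at h2
    exact h2
  · have e1 := hG.e1
    have e2 := hG.e2
    have hR0 : (R : ℝ) ≠ 0 := by linarith
    have a1 : (R / M) ^ R * (1 + g / R) ^ R = 1 := by
      rw [← mul_pow]
      have : R / M * (1 + g / R) = 1 := by
        rw [hM] at hM0 ⊢
        field_simp
      rw [this, one_pow]
    have a2 : (1 - 1 / M) ^ R * (1 + g / R) ^ R = (1 - (1 - g) / R) ^ R := by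
      rw [← mul_pow]
      congr 1
      rw [hM] at hM0 ⊢
      field_simp
      ring
    rw [e1] at a1 a2
    rw [e2] at a2
    have h5 : (0 : ℝ) < 1 + 1 / K := by positivity
    have h6 : ((R / M) ^ R + (1 - 1 / M) ^ R) * (1 + 1 / K) = 1 * (1 + 1 / K) := by
      rw [add_mul, a1, a2]
      ring
    have h7 := mul_right_cancel₀ h5.ne' h6
    linarith

end Pool.Agent.EMCW
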