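import Pool.Agent.EMCW.MBrg
import Pool.Agent.EMCW.MChi
import Pool.Agent.EMCW.MConA
import Pool.Agent.EMCW.MConB
import Pool.Agent.EMCW.MConS
import Pool.Agent.EMCW.MCrit
import Pool.Agent.EMCW.MCut
import Pool.Agent.EMCW.MD
import Pool.Agent.EMCW.MDA
import Pool.Agent.EMCW.MDB
import Pool.Agent.EMCW.MDer
import Pool.Agent.EMCW.MFS
import Pool.Agent.EMCW.MGap
import Pool.Agent.EMCW.MJP
import Pool.Agent.EMCW.MJQ
import Pool.Agent.EMCW.MKer
import Pool.Agent.EMCW.ML3
import Pool.Agent.EMCW.MLim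
import Pool.Agent.EMCW.MLine
import Pool.Agent.EMCW.MMatch
import Pool.Agent.EMCW.MMax
import Pool.Agent.EMCW.MMix
import Pool.Agent.EMCW.MNC
import Pool.Agent.EMCW.MNG
import Pool.Agent.EMCW.MS
import Pool.Agent.EMCW.MSJ
import Pool.Agent.EMCW.MSm
import Pool.Agent.EMCW.MTN
import Pool.Agent.EMCW.MTP
import Pool.Agent.EMCW.MTrunc
import Pool.Agent.EMCW.MU
import Pool.Agent.EMCW.MVal
import Pool.Agent.EMCW.MVar
import Pool.Agent.EMCW.MVh

/-!
Assembly of the theorem on identically distributed variables, given the numerical theorem.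
-/

namespace Pool.Agent.EMCW

theorem all_ConS : St_ConS :=
  thm_ConS thm_ConA thm_ConB (thm_D thm_ConA thm_DA thm_DB) (thm_TP thm_Der thm_Chi) thm_Sm
    thm_SJ (thm_NG (thm_TN thm_Der thm_Cut) thm_Ker thm_L3 thm_Der) thm_Gap thm_Match thm_JP thm_JQ

theorem all_Trunc : St_Trunc := thm_Trunc thm_Vh (thm_Mix thm_Vh)

theorem all_U (hN : St_NUM) : St_U :=
  thm_U thm_Max thm_Var thm_Line thm_Vh (thm_Crit thm_Vh all_Trunc) all_ConS (thm_Lim hN)

theorem all_S (hN : St_NUM) : St_S :=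
  thm_S thm_Vh (all_U hN) (thm_NC thm_Vh all_Trunc) thm_Val.1 thm_Val.2

/-- Stability for identically distributed variables with arbitrary mean. -/
theorem all_FS (hN : St_NUM) : St_FS := thm_FS thm_Vh (all_S hN) thm_Brg

end Pool.Agent.EMCW
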