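import Pool.Agent.EMCW.NumSt2

/-!
Enclosures of `K` for `R ≥ 25`.
-/

namespace Pool.Agent.EMCW

private theorem GKlK_log1 {t : ℝ} (h0 : 0 < t) (h1 : t ≤ 1 / 40) :
    |Real.log (1 + t) - (t - t ^ 2 / 2 + t ^ 3 / 3)| ≤ t ^ 4 * (40 / 39) := by
  have h := Real.abs_log_sub_add_sum_range_le (x := -t) (by
    rw [abs_neg, abs_of_pos h0]; linarith) 3
  rw [Finset.sum_range_succ, Finset.sum_range_succ, Finset.sum_range_succ,
    Finset.sum_range_zero, abs_neg, abs_of_pos h0, sub_neg_eq_add] at h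
  have e1 : 0 + (-t) ^ (0 + 1) / (((0 : ℕ) : ℝ) + 1) + (-t) ^ (1 + 1) / (((1 : ℕ) : ℝ) + 1) +
      (-t) ^ (2 + 1) / (((2 : ℕ) : ℝ) + 1) + Real.log (1 + t) =
      Real.log (1 + t) - (t - t ^ 2 / 2 + t ^ 3 / 3) := by
    push_cast; ring
  rw [e1] at h
  refine h.trans ?_
  rw [div_le_iff₀ (by linarith)]
  have : 0 < t ^ 4 := by positivity
  have e2 : t ^ (3 + 1) = t ^ 4 := rfl
  rw [e2]
  nlinarith

private theorem GKlK_log2 {t : ℝ} (h0 : 0 < t) (h1 : t ≤ 1 / 40) :
    |-Real.log (1 - t) - (t + t ^ 2 / 2 + t ^ 3 / 3)| ≤ t ^ 4 * (40 / 39) := by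
  have h := Real.abs_log_sub_add_sum_range_le (x := t) (by
    rw [abs_of_pos h0]; linarith) 3
  rw [Finset.sum_range_succ, Finset.sum_range_succ, Finset.sum_range_succ,
    Finset.sum_range_zero, abs_of_pos h0] at h
  have e1 : 0 + t ^ (0 + 1) / (((0 : ℕ) : ℝ) + 1) + t ^ (1 + 1) / (((1 : ℕ) : ℝ) + 1) +
      t ^ (2 + 1) / (((2 : ℕ) : ℝ) + 1) + Real.log (1 - t) =
      -(-Real.log (1 - t) - (t + t ^ 2 / 2 + t ^ 3 / 3)) := by
    push_cast; ring
  rw [e1, abs_neg] at h
  refine h.trans ?_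
  rw [div_le_iff₀ (by linarith)]
  have : 0 < t ^ 4 := by positivity
  have e2 : t ^ (3 + 1) = t ^ 4 := rfl
  rw [e2]
  nlinarith

/-- the enclosure of the logarithm -/
private theorem GKlK_L (e g : ℝ) (he : 0 < e) (he1 : e ≤ 1 / 25)
    (hl : 4586 / 10000 + 81 / 1000 * e ≤ g) (hu : g ≤ 4588 / 10000 + 822 / 10000 * e) :
    (1 + 412 / 10000 * e - 3 / 1000 * e ^ 2) * e ≤ Real.log (1 + g * e) -
      Real.log (1 - (1 - g) * e) ∧
    Real.log (1 + g * e) - Real.log (1 - (1 - g) * e) ≤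
      (1 + 414 / 10000 * e + 1 / 100 * e ^ 2) * e := by
  have hg0 : 0 < g := by nlinarith
  have hg1 : g ≤ 4625 / 10000 := by nlinarith
  have hd : 0 < 1 - g := by linarith
  have hgl : 4586 / 10000 ≤ g := by nlinarith
  have a1 := abs_le.mp (GKlK_log1 (t := g * e) (by positivity) (by nlinarith))
  have a2 := abs_le.mp (GKlK_log2 (t := (1 - g) * e) (by positivity) (by nlinarith))
  have e4 : 0 < e ^ 4 := by positivity
  have e3 : 0 < e ^ 3 := by positivity
  have e2 : 0 < e ^ 2 := by positivity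
  have b1 : (g * e) ^ 4 * (40 / 39) ≤ 47 / 1000 * e ^ 4 := by
    have : g ^ 4 ≤ (4625 / 10000) ^ 4 := pow_le_pow_left₀ hg0.le hg1 4
    rw [mul_pow]
    nlinarith
  have b2 : ((1 - g) * e) ^ 4 * (40 / 39) ≤ 882 / 10000 * e ^ 4 := by
    have : (1 - g) ^ 4 ≤ (5414 / 10000) ^ 4 := pow_le_pow_left₀ hd.le (by linarith) 4
    rw [mul_pow]
    nlinarith
  have c1 : e ^ 4 ≤ 1 / 25 * e ^ 3 := by
    have : e ^ 4 = e * e ^ 3 := by ring
    rw [this]
    exact mul_le_mul_of_nonneg_right he1 e3.le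
  have main : (g * e - (g * e) ^ 2 / 2 + (g * e) ^ 3 / 3) +
      ((1 - g) * e + ((1 - g) * e) ^ 2 / 2 + ((1 - g) * e) ^ 3 / 3) =
      e + (1 / 2 - g) * e ^ 2 + (1 / 12 + (1 / 2 - g) ^ 2) * e ^ 3 := by ring
  have d1 : (1 / 2 - g) ^ 2 ≤ 1715 / 1000000 := by nlinarith
  have d2 : 1400 / 1000000 ≤ (1 / 2 - g) ^ 2 := by nlinarith
  constructor
  · have f1 : (412 / 10000 - 822 / 10000 * e) * e ^ 2 ≤ (1 / 2 - g) * e ^ 2 :=
      mul_le_mul_of_nonneg_right (by linarith) e2.le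
    have f2 : (1 / 12 + 1400 / 1000000) * e ^ 3 ≤ (1 / 12 + (1 / 2 - g) ^ 2) * e ^ 3 :=
      mul_le_mul_of_nonneg_right (by linarith) e3.le
    nlinarith
  · have f1 : (1 / 2 - g) * e ^ 2 ≤ (414 / 10000 - 81 / 1000 * e) * e ^ 2 :=
      mul_le_mul_of_nonneg_right (by linarith) e2.le
    have f2 : (1 / 12 + (1 / 2 - g) ^ 2) * e ^ 3 ≤ (1 / 12 + 1715 / 1000000) * e ^ 3 :=
      mul_le_mul_of_nonneg_right (by linarith) e3.le
    nlinarith

theorem thm_GKlK : St_GKlK := by
  intro hG R g K h hR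
  obtain ⟨hl, hu⟩ := hG R g K h hR
  have hRr : (25 : ℝ) ≤ R := by exact_mod_cast hR
  have hR0 : (0 : ℝ) < R := by linarith
  set e : ℝ := 1 / (R : ℝ) with he
  have hepos : 0 < e := by positivity
  have he1 : e ≤ 1 / 25 := by
    rw [he]
    exact one_div_le_one_div_of_le (by norm_num) hRr
  have hRe : (R : ℝ) * e = 1 := by rw [he]; field_simp
  have hl' : 4586 / 10000 + 81 / 1000 * e ≤ g := by
    refine le_trans (le_of_eq ?_) hl
    rw [he]; ring
  have hu' : g ≤ 4588 / 10000 + 822 / 10000 * e := by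
    refine le_trans hu (le_of_eq ?_)
    rw [he]; ring
  obtain ⟨L1, L2⟩ := GKlK_L e g hepos he1 hl' hu'
  have h1 : 0 < 1 + g * e := by have := h.g0; positivity
  have h2 : 0 < 1 - (1 - g) * e := by
    have := h.g0
    nlinarith
  have hK : K + 1 = Real.exp ((R : ℝ) * (Real.log (1 + g * e) - Real.log (1 - (1 - g) * e))) := by
    have k1 : (1 + g * e) ^ R = 1 + 1 / K := by
      rw [← h.e1, he]; ring
    have k2 : (1 - (1 - g) * e) ^ R = 1 / K := by
      rw [← h.e2, he]; ring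
    have k3 : Real.log (1 + 1 / K) = R * Real.log (1 + g * e) := by
      rw [← k1, Real.log_pow]
    have k4 : Real.log (1 / K) = R * Real.log (1 - (1 - g) * e) := by
      rw [← k2, Real.log_pow]
    rw [mul_sub, ← k3, ← k4, ← Real.log_div, Real.exp_log]
    · have := h.K0
      field_simp
    · have := h.K0
      positivity
    · have := h.K0
      positivity
    · have := h.K0
      positivity
  set L : ℝ := (R : ℝ) * (Real.log (1 + g * e) - Real.log (1 - (1 - g) * e)) with hL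
  have hL1 : 1 + 412 / 10000 * e - 3 / 1000 * e ^ 2 ≤ L := by
    have := mul_le_mul_of_nonneg_left L1 hR0.le
    calc 1 + 412 / 10000 * e - 3 / 1000 * e ^ 2
        = (R * e) * (1 + 412 / 10000 * e - 3 / 1000 * e ^ 2) := by rw [hRe, one_mul]
      _ = R * ((1 + 412 / 10000 * e - 3 / 1000 * e ^ 2) * e) := by ring
      _ ≤ L := this
  have hL2 : L ≤ 1 + 414 / 10000 * e + 1 / 100 * e ^ 2 := by
    have := mul_le_mul_of_nonneg_left L2 hR0.le
    calc L ≤ R * ((1 + 414 / 10000 * e + 1 / 100 * e ^ 2) * e) := this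
      _ = (R * e) * (1 + 414 / 10000 * e + 1 / 100 * e ^ 2) := by ring
      _ = 1 + 414 / 10000 * e + 1 / 100 * e ^ 2 := by rw [hRe, one_mul]
  have hexp : Real.exp L = Real.exp 1 * Real.exp (L - 1) := by
    rw [← Real.exp_add]; congr 1; ring
  have g1 := Real.exp_one_gt_d9
  have g2 := Real.exp_one_lt_d9
  have he2 : e ^ 2 ≤ 1 / 25 * e := by nlinarith
  constructor
  · have i1 := Real.add_one_le_exp (L - 1)
    have i2 : 1 + 410 / 10000 * e ≤ Real.exp (L - 1) := by nlinarith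
    have i3 : 2.7182818283 * (1 + 412 / 10000 * e - 3 / 1000 * e ^ 2) ≤
        Real.exp 1 * Real.exp (L - 1) := by
      apply mul_le_mul g1.le (by linarith) (by nlinarith) (Real.exp_pos 1).le
    have i4 : 17182 / 10000 + 112 / 1000 * e ≤ K := by
      have : K = Real.exp 1 * Real.exp (L - 1) - 1 := by rw [← hexp, ← hK]; ring
      rw [this]
      nlinarith
    refine le_trans (le_of_eq ?_) i4
    rw [he]; ring
  · have i1 := Real.add_one_le_exp (1 - L)
    have i2 : Real.exp (L - 1) * (1 - (L - 1)) ≤ 1 := by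
      have j1 : Real.exp (L - 1) * Real.exp (1 - L) = 1 := by
        rw [← Real.exp_add]; simp
      calc Real.exp (L - 1) * (1 - (L - 1)) ≤ Real.exp (L - 1) * Real.exp (1 - L) :=
            mul_le_mul_of_nonneg_left (by linarith) (Real.exp_pos _).le
        _ = 1 := j1
    have i3 : 2.7182818286 ≤ (1 - (L - 1)) * (27184 / 10000 + 1165 / 10000 * e) := by
      have j1 : 1 - 414 / 10000 * e - 1 / 100 * e ^ 2 ≤ 1 - (L - 1) := by linarith
      have j2 : 0 ≤ 27184 / 10000 + 1165 / 10000 * e := by positivity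
      have j3 := mul_le_mul_of_nonneg_right j1 j2
      refine le_trans ?_ j3
      have j4 : e ^ 3 ≤ 1 / 625 * e := by nlinarith
      nlinarith
    have i4 : K ≤ 17184 / 10000 + 1165 / 10000 * e := by
      have k1 : K = Real.exp 1 * Real.exp (L - 1) - 1 := by rw [← hexp, ← hK]; ring
      have k2 : Real.exp 1 * Real.exp (L - 1) ≤
          (1 - (L - 1)) * (27184 / 10000 + 1165 / 10000 * e) * Real.exp (L - 1) :=
        mul_le_mul_of_nonneg_right (by linarith) (Real.exp_pos _).le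
      have k3 : (1 - (L - 1)) * (27184 / 10000 + 1165 / 10000 * e) * Real.exp (L - 1) ≤
          27184 / 10000 + 1165 / 10000 * e := by
        have j2 : 0 ≤ 27184 / 10000 + 1165 / 10000 * e := by positivity
        calc (1 - (L - 1)) * (27184 / 10000 + 1165 / 10000 * e) * Real.exp (L - 1)
            = (Real.exp (L - 1) * (1 - (L - 1))) * (27184 / 10000 + 1165 / 10000 * e) := by ring
          _ ≤ 1 * (27184 / 10000 + 1165 / 10000 * e) := mul_le_mul_of_nonneg_right i2 j2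
          _ = _ := one_mul _
      rw [k1]
      linarith
    refine i4.trans (le_of_eq ?_)
    rw [he]; ring

end Pool.Agent.EMCW
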