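import Pool.Agent.EMCW.NumSt2

/-!
Enclosures of the critical parameter `g` for `R ≥ 25`.
-/

open Finset

namespace Pool.Agent.EMCW

theorem GKlg_pow (n : ℕ) (x y x' y' : ℝ) (h0 : 0 ≤ x') (h1 : x' ≤ x) (h2 : x' ≤ y')
    (h3 : y - x = y' - x') : y' ^ n - x' ^ n ≤ y ^ n - x ^ n := by
  induction n with
  | zero => simp
  | succ n ih =>
    have hy : y' ≤ y := by linarith
    have hy0 : 0 ≤ y' := h0.trans h2
    have hd : 0 ≤ y' ^ n - x' ^ n := sub_nonneg.2 (pow_le_pow_left₀ h0 h2 n)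
    have hx : x' ^ n ≤ x ^ n := pow_le_pow_left₀ h0 h1 n
    have hδ : 0 ≤ y' - x' := sub_nonneg.2 h2
    have e1 : y ^ (n + 1) - x ^ (n + 1) = y * (y ^ n - x ^ n) + x ^ n * (y - x) := by ring
    have e2 : y' ^ (n + 1) - x' ^ (n + 1) = y' * (y' ^ n - x' ^ n) + x' ^ n * (y' - x') := by
      ring
    rw [e1, e2, h3]
    exact add_le_add (mul_le_mul hy ih hd (hy0.trans hy)) (mul_le_mul_of_nonneg_right hx hδ)

/-- the function `F` -/
noncomputable def GKlg_F (R : ℕ) (g : ℝ) : ℝ := (1 + g / R) ^ R - (1 - (1 - g) / R) ^ R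

theorem GKlg_mono (R : ℕ) (hR : 1 ≤ R) (a b : ℝ) (ha : 0 ≤ a) (hab : a ≤ b) :
    GKlg_F R a ≤ GKlg_F R b := by
  have hR0 : (0 : ℝ) < R := by exact_mod_cast (by omega : 0 < R)
  have hR1 : (1 : ℝ) ≤ R := by exact_mod_cast hR
  unfold GKlg_F
  have h := GKlg_pow R (1 + a / R) (1 + b / R) (1 - (1 - a) / R) (1 - (1 - b) / R)
    (by
      rw [sub_nonneg, div_le_one hR0]
      linarith)
    (by
      have : (1 - a) / R + a / R = 1 / R := by rw [← add_div]; ring_nf
      have h1 : 0 < 1 / (R : ℝ) := by positivity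
      linarith)
    (by
      have : (1 - b) / R ≤ (1 - a) / R := div_le_div_of_nonneg_right (by linarith) hR0.le
      linarith)
    (by ring)
  linarith

theorem GKlg_log (R : ℕ) (hR : 25 ≤ R) (e t : ℝ) (he : (R : ℝ) * e = 1) (ht : |t| ≤ 3 / 5) :
    |(R : ℝ) * Real.log (1 + t * e) - (t - t ^ 2 * e / 2 + t ^ 3 * e ^ 2 / 3)| ≤
      41 / 40 * t ^ 4 * e ^ 3 := by
  have hR0 : (25 : ℝ) ≤ R := by exact_mod_cast hR
  have he0 : 0 < e := by
    by_contra h
    push Not at h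
    nlinarith
  have he1 : e ≤ 1 / 25 := by nlinarith
  have hx : |-(t * e)| ≤ 3 / 125 := by
    rw [abs_neg, abs_mul, abs_of_pos he0]
    calc |t| * e ≤ 3 / 5 * (1 / 25) := mul_le_mul ht he1 he0.le (by norm_num)
      _ = 3 / 125 := by norm_num
  have h := Real.abs_log_sub_add_sum_range_le (x := -(t * e)) (by linarith) 3
  have hb : |-(t * e)| ^ (3 + 1) / (1 - |-(t * e)|) ≤ 41 / 40 * (t * e) ^ 4 := by
    have h4 : |-(t * e)| ^ (3 + 1) = (t * e) ^ 4 := by
      rw [abs_neg]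
      exact (by norm_num : Even (3 + 1)).pow_abs _
    rw [h4, div_le_iff₀ (by linarith)]
    have h5 : 0 ≤ (t * e) ^ 4 := by positivity
    nlinarith
  have h2 := h.trans hb
  simp only [sum_range_succ, sum_range_zero] at h2
  have h3 := mul_le_mul_of_nonneg_left h2 (by linarith : (0 : ℝ) ≤ R)
  rw [← abs_of_nonneg (by linarith : (0 : ℝ) ≤ (R : ℝ)), ← abs_mul,
    abs_of_nonneg (by linarith : (0 : ℝ) ≤ (R : ℝ))] at h3
  refine le_trans (le_of_eq ?_) (h3.trans (le_of_eq ?_))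
  · congr 1
    have e1 : (1 : ℝ) - -(t * e) = 1 + t * e := by ring
    rw [e1]
    push_cast
    linear_combination (t - t ^ 2 * e / 2 + t ^ 3 * e ^ 2 / 3) * he
  · have e5 : (R : ℝ) * (41 / 40 * (t * e) ^ 4) = 41 / 40 * t ^ 4 * e ^ 3 * (R * e) := by ring
    rw [e5, he, mul_one]

theorem GKlg_exp (x : ℝ) (hx : |x| ≤ 1) :
    |Real.exp x - (1 + x + x ^ 2 / 2 + x ^ 3 / 6 + x ^ 4 / 24 + x ^ 5 / 120 + x ^ 6 / 720
      + x ^ 7 / 5040)| ≤ |x| ^ 8 * (9 / 322560) := by
  have h := Real.exp_bound hx (n := 8) (by norm_num)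
  have e : ∑ m ∈ range 8, x ^ m / (Nat.factorial m : ℝ) = 1 + x + x ^ 2 / 2 + x ^ 3 / 6
      + x ^ 4 / 24 + x ^ 5 / 120 + x ^ 6 / 720 + x ^ 7 / 5040 := by
    simp only [sum_range_succ, sum_range_zero, Nat.factorial]
    norm_num
  rw [e] at h
  refine h.trans (le_of_eq ?_)
  simp only [Nat.factorial]
  norm_num

theorem GKlg_e1 : Real.exp (4586 / 10000) ≤ 158187 / 100000 := by
  have h := (abs_le.1 (GKlg_exp (4586 / 10000) (by norm_num [abs_of_pos]))).2
  rw [abs_of_pos (by norm_num)] at h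
  norm_num at h ⊢
  linarith

theorem GKlg_e2 : 58192 / 100000 ≤ Real.exp (-(5414 / 10000)) := by
  have h := (abs_le.1 (GKlg_exp (-(5414 / 10000)) (by norm_num [abs_of_pos]))).1
  rw [abs_neg, abs_of_pos (by norm_num)] at h
  norm_num at h ⊢
  linarith

theorem GKlg_e3 : 158216 / 100000 ≤ Real.exp (4588 / 10000) := by
  have h := (abs_le.1 (GKlg_exp (4588 / 10000) (by norm_num [abs_of_pos]))).1
  rw [abs_of_pos (by norm_num)] at h
  norm_num at h ⊢
  linarith

theorem GKlg_e4 : Real.exp (-(5412 / 10000)) ≤ 58206 / 100000 := by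
  have h := (abs_le.1 (GKlg_exp (-(5412 / 10000)) (by norm_num [abs_of_pos]))).2
  rw [abs_neg, abs_of_pos (by norm_num)] at h
  norm_num at h ⊢
  linarith

theorem GKlg_en (y : ℝ) (hy : 0 ≤ y) : Real.exp (-y) ≤ 1 - y + y ^ 2 := by
  have h1 : 1 + y ≤ Real.exp y := by
    have := Real.add_one_le_exp y
    linarith
  rw [Real.exp_neg, inv_eq_one_div, div_le_iff₀ (Real.exp_pos y)]
  have h2 : 0 ≤ 1 - y + y ^ 2 := by nlinarith [sq_nonneg (y - 1 / 2)]
  have h3 := mul_le_mul_of_nonneg_left h1 h2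
  have h4 : 0 ≤ y ^ 3 := by positivity
  nlinarith

theorem GKlg_lo (R : ℕ) (hR : 25 ≤ R) (e : ℝ) (he : (R : ℝ) * e = 1) :
    GKlg_F R (4586 / 10000 + 81 / 1000 * e) < 1 := by
  have hR0 : (25 : ℝ) ≤ R := by exact_mod_cast hR
  have he0 : 0 < e := by
    by_contra h
    push Not at h
    nlinarith
  have he1 : e ≤ 1 / 25 := by nlinarith
  have hee : 1 / (R : ℝ) = e := by
    rw [div_eq_iff (by linarith)]
    linarith
  have e2 : e ^ 2 ≤ 1 / 25 * e := by nlinarith
  have e20 : 0 ≤ e ^ 2 := sq_nonneg e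
  have e3 : e ^ 3 ≤ 1 / 25 * e ^ 2 := by nlinarith
  have e30 : 0 ≤ e ^ 3 := by positivity
  set g : ℝ := 4586 / 10000 + 81 / 1000 * e with hg
  have hg0 : 4586 / 10000 ≤ g := by linarith
  have hg1 : g ≤ 462 / 1000 := by linarith
  have hd0 : 0 ≤ 1 - g := by linarith
  have hd1 : 1 - g ≤ 5414 / 10000 := by linarith
  -- the exponents
  have a1 := (abs_le.1 (GKlg_log R hR e g he (by rw [abs_of_pos (by linarith)]; linarith))).2
  have a2 := (abs_le.1 (GKlg_log R hR e (-(1 - g)) he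
    (by rw [abs_neg, abs_of_pos (by linarith)]; linarith))).1
  have b1 : (R : ℝ) * Real.log (1 + g * e) ≤ 4586 / 10000 - 24 / 1000 * e := by
    have q3 : g ^ 3 ≤ 987 / 10000 := by
      calc g ^ 3 ≤ (462 / 1000) ^ 3 := pow_le_pow_left₀ (by linarith) hg1 3
        _ ≤ _ := by norm_num
    have q4 : g ^ 4 ≤ 456 / 10000 := by
      calc g ^ 4 ≤ (462 / 1000) ^ 4 := pow_le_pow_left₀ (by linarith) hg1 4
        _ ≤ _ := by norm_num
    have r3 := mul_le_mul_of_nonneg_right q3 e20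
    have r4 := mul_le_mul_of_nonneg_right q4 e30
    have r2 : g ^ 2 * e = (4586 / 10000) ^ 2 * e + 2 * (4586 / 10000) * (81 / 1000) * e ^ 2
        + (81 / 1000) ^ 2 * e ^ 3 := by
      rw [hg]
      ring
    nlinarith
  have b2 : -(5414 / 10000) - 665 / 10000 * e ≤ (R : ℝ) * Real.log (1 + -(1 - g) * e) := by
    have q3 : (1 - g) ^ 3 ≤ 1588 / 10000 := by
      calc (1 - g) ^ 3 ≤ (5414 / 10000) ^ 3 := pow_le_pow_left₀ hd0 hd1 3
        _ ≤ _ := by norm_num
    have q4 : (1 - g) ^ 4 ≤ 860 / 10000 := by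
      calc (1 - g) ^ 4 ≤ (5414 / 10000) ^ 4 := pow_le_pow_left₀ hd0 hd1 4
        _ ≤ _ := by norm_num
    have r3 := mul_le_mul_of_nonneg_right q3 e20
    have r4 := mul_le_mul_of_nonneg_right q4 e30
    have r2 : (1 - g) ^ 2 * e = (5414 / 10000) ^ 2 * e - 2 * (5414 / 10000) * (81 / 1000) * e ^ 2
        + (81 / 1000) ^ 2 * e ^ 3 := by
      rw [hg]
      ring
    have s2 : (-(1 - g)) ^ 2 = (1 - g) ^ 2 := by ring
    have s3 : (-(1 - g)) ^ 3 = -(1 - g) ^ 3 := by ring
    have s4 : (-(1 - g)) ^ 4 = (1 - g) ^ 4 := by ring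
    rw [s2, s3, s4] at a2
    nlinarith
  have p1 : 0 < 1 + g * e := by positivity
  have p2 : 0 < 1 + -(1 - g) * e := by nlinarith
  have c1 : (1 + g / R) ^ R = Real.exp (R * Real.log (1 + g * e)) := by
    rw [Real.exp_nat_mul, Real.exp_log p1, div_eq_mul_one_div, hee]
  have c2 : (1 - (1 - g) / R) ^ R = Real.exp (R * Real.log (1 + -(1 - g) * e)) := by
    rw [Real.exp_nat_mul, Real.exp_log p2, div_eq_mul_one_div, hee]
    ring
  have d1 : Real.exp (R * Real.log (1 + g * e)) ≤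
      158187 / 100000 * (1 - 24 / 1000 * e + (24 / 1000 * e) ^ 2) := by
    calc Real.exp (R * Real.log (1 + g * e)) ≤ Real.exp (4586 / 10000 + -(24 / 1000 * e)) :=
          Real.exp_le_exp.2 (by linarith)
      _ = Real.exp (4586 / 10000) * Real.exp (-(24 / 1000 * e)) := Real.exp_add _ _
      _ ≤ _ := mul_le_mul GKlg_e1 (GKlg_en _ (by positivity)) (Real.exp_pos _).le (by norm_num)
  have d2 : 58192 / 100000 * (1 - 665 / 10000 * e) ≤
      Real.exp (R * Real.log (1 + -(1 - g) * e)) := by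
    calc 58192 / 100000 * (1 - 665 / 10000 * e)
        ≤ Real.exp (-(5414 / 10000)) * Real.exp (-(665 / 10000 * e)) :=
          mul_le_mul GKlg_e2 (by
            have := Real.add_one_le_exp (-(665 / 10000 * e))
            linarith) (by linarith) (Real.exp_pos _).le
      _ = Real.exp (-(5414 / 10000) + -(665 / 10000 * e)) := (Real.exp_add _ _).symm
      _ ≤ _ := Real.exp_le_exp.2 (by linarith)
  unfold GKlg_F
  rw [c1, c2]
  nlinarith

theorem GKlg_hi (R : ℕ) (hR : 25 ≤ R) (e : ℝ) (he : (R : ℝ) * e = 1) :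
    1 < GKlg_F R (4588 / 10000 + 822 / 10000 * e) := by
  have hR0 : (25 : ℝ) ≤ R := by exact_mod_cast hR
  have he0 : 0 < e := by
    by_contra h
    push Not at h
    nlinarith
  have he1 : e ≤ 1 / 25 := by nlinarith
  have hee : 1 / (R : ℝ) = e := by
    rw [div_eq_iff (by linarith)]
    linarith
  have e2 : e ^ 2 ≤ 1 / 25 * e := by nlinarith
  have e20 : 0 ≤ e ^ 2 := sq_nonneg e
  have e3 : e ^ 3 ≤ 1 / 25 * e ^ 2 := by nlinarith
  have e30 : 0 ≤ e ^ 3 := by positivity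
  set g : ℝ := 4588 / 10000 + 822 / 10000 * e with hg
  have hg0 : 4588 / 10000 ≤ g := by linarith
  have hg1 : g ≤ 4622 / 10000 := by linarith
  have hd0 : 0 ≤ 1 - g := by linarith
  have hd1 : 1 - g ≤ 5412 / 10000 := by linarith
  have hd2 : 5378 / 10000 ≤ 1 - g := by linarith
  -- the exponents
  have a1 := (abs_le.1 (GKlg_log R hR e g he (by rw [abs_of_pos (by linarith)]; linarith))).1
  have a2 := (abs_le.1 (GKlg_log R hR e (-(1 - g)) he
    (by rw [abs_neg, abs_of_pos (by linarith)]; linarith))).2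
  have b1 : 4588 / 10000 - 236 / 10000 * e ≤ (R : ℝ) * Real.log (1 + g * e) := by
    have q3 : 965 / 10000 ≤ g ^ 3 := by
      calc (965 / 10000 : ℝ) ≤ (4588 / 10000) ^ 3 := by norm_num
        _ ≤ _ := pow_le_pow_left₀ (by norm_num) hg0 3
    have q4 : g ^ 4 ≤ 457 / 10000 := by
      calc g ^ 4 ≤ (4622 / 10000) ^ 4 := pow_le_pow_left₀ (by linarith) hg1 4
        _ ≤ _ := by norm_num
    have r3 := mul_le_mul_of_nonneg_right q3 e20
    have r4 := mul_le_mul_of_nonneg_right q4 e30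
    have r2 : g ^ 2 * e = (4588 / 10000) ^ 2 * e + 2 * (4588 / 10000) * (822 / 10000) * e ^ 2
        + (822 / 10000) ^ 2 * e ^ 3 := by
      rw [hg]
      ring
    nlinarith
  have b2 : (R : ℝ) * Real.log (1 + -(1 - g) * e) ≤ -(5412 / 10000) - 640 / 10000 * e := by
    have q3 : 1555 / 10000 ≤ (1 - g) ^ 3 := by
      calc (1555 / 10000 : ℝ) ≤ (5378 / 10000) ^ 3 := by norm_num
        _ ≤ _ := pow_le_pow_left₀ (by norm_num) hd2 3
    have q4 : (1 - g) ^ 4 ≤ 860 / 10000 := by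
      calc (1 - g) ^ 4 ≤ (5412 / 10000) ^ 4 := pow_le_pow_left₀ hd0 hd1 4
        _ ≤ _ := by norm_num
    have r3 := mul_le_mul_of_nonneg_right q3 e20
    have r4 := mul_le_mul_of_nonneg_right q4 e30
    have r2 : (1 - g) ^ 2 * e = (5412 / 10000) ^ 2 * e
        - 2 * (5412 / 10000) * (822 / 10000) * e ^ 2 + (822 / 10000) ^ 2 * e ^ 3 := by
      rw [hg]
      ring
    have s2 : (-(1 - g)) ^ 2 = (1 - g) ^ 2 := by ring
    have s3 : (-(1 - g)) ^ 3 = -(1 - g) ^ 3 := by ring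
    have s4 : (-(1 - g)) ^ 4 = (1 - g) ^ 4 := by ring
    rw [s2, s3, s4] at a2
    nlinarith
  have p1 : 0 < 1 + g * e := by positivity
  have p2 : 0 < 1 + -(1 - g) * e := by nlinarith
  have c1 : (1 + g / R) ^ R = Real.exp (R * Real.log (1 + g * e)) := by
    rw [Real.exp_nat_mul, Real.exp_log p1, div_eq_mul_one_div, hee]
  have c2 : (1 - (1 - g) / R) ^ R = Real.exp (R * Real.log (1 + -(1 - g) * e)) := by
    rw [Real.exp_nat_mul, Real.exp_log p2, div_eq_mul_one_div, hee]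
    ring
  have d1 : 158216 / 100000 * (1 - 236 / 10000 * e) ≤
      Real.exp (R * Real.log (1 + g * e)) := by
    calc 158216 / 100000 * (1 - 236 / 10000 * e)
        ≤ Real.exp (4588 / 10000) * Real.exp (-(236 / 10000 * e)) :=
          mul_le_mul GKlg_e3 (by
            have := Real.add_one_le_exp (-(236 / 10000 * e))
            linarith) (by linarith) (Real.exp_pos _).le
      _ = Real.exp (4588 / 10000 + -(236 / 10000 * e)) := (Real.exp_add _ _).symm
      _ ≤ _ := Real.exp_le_exp.2 (by linarith)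
  have d2 : Real.exp (R * Real.log (1 + -(1 - g) * e)) ≤
      58206 / 100000 * (1 - 640 / 10000 * e + (640 / 10000 * e) ^ 2) := by
    calc Real.exp (R * Real.log (1 + -(1 - g) * e))
        ≤ Real.exp (-(5412 / 10000) + -(640 / 10000 * e)) :=
          Real.exp_le_exp.2 (by linarith)
      _ = Real.exp (-(5412 / 10000)) * Real.exp (-(640 / 10000 * e)) := Real.exp_add _ _
      _ ≤ _ := mul_le_mul GKlg_e4 (GKlg_en _ (by positivity)) (Real.exp_pos _).le (by norm_num)
  unfold GKlg_F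
  rw [c1, c2]
  nlinarith

theorem thm_GKlg : St_GKlg := by
  intro R g K h hR
  have hR0 : (0 : ℝ) < R := by exact_mod_cast (by omega : 0 < R)
  have he : (R : ℝ) * (1 / R) = 1 := by field_simp
  have hF : GKlg_F R g = 1 := by
    unfold GKlg_F
    rw [h.e1, h.e2]
    ring
  have l := GKlg_lo R hR (1 / R) he
  have u := GKlg_hi R hR (1 / R) he
  have g0 := h.g0
  have i0 : (0 : ℝ) < 1 / R := by positivity
  constructor
  · by_contra hc
    push Not at hc
    have hm := GKlg_mono R (by omega) g (4586 / 10000 + 81 / 1000 * (1 / R)) g0.le (by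
      have : 81 / 1000 / (R : ℝ) = 81 / 1000 * (1 / R) := by ring
      linarith)
    linarith
  · by_contra hc
    push Not at hc
    have hm := GKlg_mono R (by omega) (4588 / 10000 + 822 / 10000 * (1 / R)) g (by positivity) (by
      have : 822 / 10000 / (R : ℝ) = 822 / 10000 * (1 / R) := by ring
      linarith)
    linarith

end Pool.Agent.EMCW
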