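import Pool.Agent.EMCW.NumSt2

namespace Pool.Agent.EMCW

theorem thm_GKnum (h1 : St_GKs) (h2 : St_GKlg) (h3 : St_GKlK) : St_GKnum := by
  intro R g K h
  by_cases hR : R ≤ 24
  · exact h1 R g K h hR
  · have hR' : 25 ≤ R := by omega
    obtain ⟨a, b⟩ := h2 R g K h hR'
    obtain ⟨c, d⟩ := h3 h2 R g K h hR'
    exact ⟨a, b, c, d⟩

end Pool.Agent.EMCW
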