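import Pool.Agent.EMCW.NumSt2

/-!
# EMCW module GKs: enclosures of the critical parameters for small `R`
-/

set_option autoImplicit false

namespace Pool.Agent.EMCW

private theorem GKs_mono (n : ℕ) {x y t : ℝ} (hy : 0 ≤ y) (hxy : y ≤ x) (ht : 0 ≤ t) :
    (y + t) ^ n - y ^ n ≤ (x + t) ^ n - x ^ n := by
  induction n with
  | zero => simp
  | succ n ih =>
    have h1 : (y + t) ^ (n + 1) - y ^ (n + 1) = (y + t) * ((y + t) ^ n - y ^ n) + t * y ^ n := by
      ring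
    have h2 : (x + t) ^ (n + 1) - x ^ (n + 1) = (x + t) * ((x + t) ^ n - x ^ n) + t * x ^ n := by
      ring
    have h3 : y ^ n ≤ x ^ n := pow_le_pow_left₀ hy hxy n
    have h4 : y ^ n ≤ (y + t) ^ n := pow_le_pow_left₀ hy (by linarith) n
    rw [h1, h2]
    refine add_le_add (mul_le_mul (by linarith) ih (by linarith) (by linarith)) ?_
    exact mul_le_mul_of_nonneg_left h3 ht

private theorem GKs_strict (n : ℕ) (hn : n ≠ 0) {x y t : ℝ} (hy : 0 ≤ y) (hxy : y < x)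
    (ht : 0 < t) : (y + t) ^ (n + 1) - y ^ (n + 1) < (x + t) ^ (n + 1) - x ^ (n + 1) := by
  have h1 : (y + t) ^ (n + 1) - y ^ (n + 1) = (y + t) * ((y + t) ^ n - y ^ n) + t * y ^ n := by
    ring
  have h2 : (x + t) ^ (n + 1) - x ^ (n + 1) = (x + t) * ((x + t) ^ n - x ^ n) + t * x ^ n := by
    ring
  have h3 : y ^ n < x ^ n := pow_lt_pow_left₀ hxy hy hn
  have h4 : y ^ n ≤ (y + t) ^ n := pow_le_pow_left₀ hy (by linarith) n
  rw [h1, h2]
  refine add_lt_add_of_le_of_lt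
    (mul_le_mul (by linarith) (GKs_mono n hy hxy.le ht.le) (by linarith) (by linarith)) ?_
  exact mul_lt_mul_of_pos_left h3 ht

/-- the function `F` is increasing -/
private theorem GKs_F (R : ℕ) (hR : 4 ≤ R) {a b : ℝ} (ha : 0 ≤ a) (hab : a < b) :
    (1 + a / R) ^ R - (1 - (1 - a) / R) ^ R < (1 + b / R) ^ R - (1 - (1 - b) / R) ^ R := by
  obtain ⟨n, rfl⟩ : ∃ n, R = n + 1 := ⟨R - 1, by omega⟩
  have hR0 : (0 : ℝ) < ((n + 1 : ℕ) : ℝ) := by positivity
  have h1 : (1 : ℝ) ≤ ((n + 1 : ℕ) : ℝ) := by exact_mod_cast (by omega : 1 ≤ n + 1)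
  set r : ℝ := ((n + 1 : ℕ) : ℝ) with hr
  have hy : 0 ≤ 1 - (1 - a) / r := by
    rw [sub_nonneg, div_le_one hR0]
    linarith
  have hxy : 1 - (1 - a) / r < 1 + a / r := by
    have : (0 : ℝ) < 1 / r := by positivity
    have e : 1 + a / r - (1 - (1 - a) / r) = 1 / r := by ring
    linarith
  have ht : 0 < (b - a) / r := div_pos (by linarith) hR0
  have h := GKs_strict n (by omega) hy hxy ht
  have e1 : 1 - (1 - a) / r + (b - a) / r = 1 - (1 - b) / r := by ring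
  have e2 : 1 + a / r + (b - a) / r = 1 + b / r := by ring
  rw [e1, e2] at h
  linarith

/-- the general statement -/
private theorem GKs_gen (R : ℕ) (g K gl gu Kl Ku : ℝ) (h : GK R g K) (hgl : 0 ≤ gl) (hgu : 0 ≤ gu)
    (h1 : (1 + gl / R) ^ R ≤ 1 + (1 - (1 - gl) / R) ^ R)
    (h2 : 1 + (1 - (1 - gu) / R) ^ R ≤ (1 + gu / R) ^ R)
    (h3 : (1 + gl / R) ^ R ≤ (Ku + 1) * (1 - (1 - gl) / R) ^ R)
    (h4 : (Kl + 1) * (1 - (1 - gu) / R) ^ R ≤ (1 + gu / R) ^ R) :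
    gl ≤ g ∧ g ≤ gu ∧ Kl ≤ K ∧ K ≤ Ku := by
  have hR := h.hR
  have hR4 : (4 : ℝ) ≤ R := by exact_mod_cast hR
  have hR0 : (0 : ℝ) < R := by linarith
  have e1 := h.e1
  have e2 := h.e2
  have g1 : gl ≤ g := by
    by_contra hlt
    have := GKs_F R hR h.g0.le (not_le.1 hlt)
    linarith
  have g2 : g ≤ gu := by
    by_contra hlt
    have := GKs_F R hR hgu (not_le.1 hlt)
    linarith
  have hq : ∀ a : ℝ, 0 ≤ a → 0 < 1 - (1 - a) / R := by
    intro a ha
    rw [sub_pos, div_lt_one hR0]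
    linarith
  have hp : ∀ a : ℝ, 0 ≤ a → 0 < 1 + a / R := by
    intro a ha
    have : 0 ≤ a / R := div_nonneg ha hR0.le
    linarith
  -- monotonicity of the quotient
  have hm : ∀ a b : ℝ, 0 ≤ a → a ≤ b →
      ((1 + b / R) * (1 - (1 - a) / R)) ^ R ≤ ((1 + a / R) * (1 - (1 - b) / R)) ^ R := by
    intro a b ha hab
    refine pow_le_pow_left₀ (mul_nonneg (hp b (ha.trans hab)).le (hq a ha).le) ?_ R
    have e : (1 + a / R) * (1 - (1 - b) / R) - (1 + b / R) * (1 - (1 - a) / R) =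
        (b - a) / R * (1 / R) := by ring
    have : 0 ≤ (b - a) / R * (1 / R) :=
      mul_nonneg (div_nonneg (by linarith) hR0.le) (by positivity)
    linarith
  have hK : (1 + g / R) ^ R = (K + 1) * (1 - (1 - g) / R) ^ R := by
    rw [e1, e2]
    have := h.K0.ne'
    field_simp
  have hqg := pow_pos (hq g h.g0.le) R
  refine ⟨g1, g2, ?_, ?_⟩
  · have k1 := hm g gu h.g0.le g2
    rw [mul_pow, mul_pow, hK] at k1
    have hqu := pow_pos (hq gu hgu) R
    have k2 : (Kl + 1) * (1 - (1 - gu) / R) ^ R * (1 - (1 - g) / R) ^ R ≤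
        (K + 1) * (1 - (1 - g) / R) ^ R * (1 - (1 - gu) / R) ^ R :=
      (mul_le_mul_of_nonneg_right h4 hqg.le).trans k1
    have k3 : (Kl + 1) * ((1 - (1 - gu) / R) ^ R * (1 - (1 - g) / R) ^ R) ≤
        (K + 1) * ((1 - (1 - gu) / R) ^ R * (1 - (1 - g) / R) ^ R) := by
      linarith
    have k4 := le_of_mul_le_mul_right k3 (mul_pos hqu hqg)
    linarith
  · have k1 := hm gl g hgl g1
    rw [mul_pow, mul_pow, hK] at k1
    have hql := pow_pos (hq gl hgl) R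
    have k2 : (K + 1) * (1 - (1 - g) / R) ^ R * (1 - (1 - gl) / R) ^ R ≤
        (Ku + 1) * (1 - (1 - gl) / R) ^ R * (1 - (1 - g) / R) ^ R :=
      k1.trans (mul_le_mul_of_nonneg_right h3 hqg.le)
    have k3 : (K + 1) * ((1 - (1 - gl) / R) ^ R * (1 - (1 - g) / R) ^ R) ≤
        (Ku + 1) * ((1 - (1 - gl) / R) ^ R * (1 - (1 - g) / R) ^ R) := by
      linarith
    have k4 := le_of_mul_le_mul_right k3 (mul_pos hql hqg)
    linarith

private theorem GKs_n1 (R : ℕ) (h4 : 4 ≤ R) (h24 : R ≤ 24) :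
    (1 + (4586 / 10000 + 81 / 1000 / R : ℝ) / R) ^ R ≤
      1 + (1 - (1 - (4586 / 10000 + 81 / 1000 / R : ℝ)) / R) ^ R := by
  interval_cases R <;> norm_num

private theorem GKs_n2 (R : ℕ) (h4 : 4 ≤ R) (h24 : R ≤ 24) :
    1 + (1 - (1 - (4588 / 10000 + 822 / 10000 / R : ℝ)) / R) ^ R ≤
      (1 + (4588 / 10000 + 822 / 10000 / R : ℝ) / R) ^ R := by
  interval_cases R <;> norm_num

private theorem GKs_n3 (R : ℕ) (h4 : 4 ≤ R) (h24 : R ≤ 24) :
    (1 + (4586 / 10000 + 81 / 1000 / R : ℝ) / R) ^ R ≤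
      ((17184 / 10000 + 1165 / 10000 / R : ℝ) + 1) *
        (1 - (1 - (4586 / 10000 + 81 / 1000 / R : ℝ)) / R) ^ R := by
  interval_cases R <;> norm_num

private theorem GKs_n4 (R : ℕ) (h4 : 4 ≤ R) (h24 : R ≤ 24) :
    ((17182 / 10000 + 112 / 1000 / R : ℝ) + 1) *
        (1 - (1 - (4588 / 10000 + 822 / 10000 / R : ℝ)) / R) ^ R ≤
      (1 + (4588 / 10000 + 822 / 10000 / R : ℝ) / R) ^ R := by
  interval_cases R <;> norm_num

theorem thm_GKs : St_GKs := by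
  intro R g K h h24
  have h4 := h.hR
  exact GKs_gen R g K _ _ _ _ h (by positivity) (by positivity) (GKs_n1 R h4 h24)
    (GKs_n2 R h4 h24) (GKs_n3 R h4 h24) (GKs_n4 R h4 h24)

end Pool.Agent.EMCW
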