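import Pool.Agent.EMCW.NumSt2

/-!
The numerical theorem from its parts.
-/

open Finset

namespace Pool.Agent.EMCW

/-- bounds for `g` and `K` -/
private theorem NUM_bd (hn : St_GKnum) {R : ℕ} {g K : ℝ} (h : GK R g K) :
    (4 : ℝ) ≤ R ∧ 4586 / 10000 ≤ g ∧ g ≤ 48 / 100 ∧ 17182 / 10000 ≤ K := by
  have hR : (4 : ℝ) ≤ R := by exact_mod_cast h.hR
  have hR0 : (0 : ℝ) < R := by linarith
  obtain ⟨h1, h2, h3, _⟩ := hn R g K h
  have h5 : (0 : ℝ) ≤ 81 / 1000 / R := by positivity
  have h6 : (0 : ℝ) ≤ 112 / 1000 / R := by positivity
  have h7 : (822 / 10000 : ℝ) / R ≤ 822 / 10000 / 4 :=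
    div_le_div_of_nonneg_left (by norm_num) (by norm_num) hR
  refine ⟨hR, by linarith, by linarith, by linarith⟩

/-- convexity of `y + V / y` -/
private theorem NUM_cvx {V Y y m : ℝ} (hV : 0 < V) (h1 : V ≤ y) (h2 : y ≤ Y) (hm : 1 + V ≤ m)
    (hY : Y + V / Y ≤ m) : y + V / y ≤ m := by
  have hy : 0 < y := lt_of_lt_of_le hV h1
  have hY0 : 0 < Y := lt_of_lt_of_le hy h2
  have q1 : Y ^ 2 + V ≤ m * Y := by
    have h3 : (Y + V / Y) * Y ≤ m * Y := mul_le_mul_of_nonneg_right hY hY0.le
    have h4 : (Y + V / Y) * Y = Y ^ 2 + V := by
      field_simp
    linarith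
  have q2 : V ^ 2 + V ≤ m * V := by nlinarith
  have q3 : y ^ 2 + V ≤ m * y := by
    rcases eq_or_lt_of_le h1 with h | h
    · rw [← h]
      exact q2
    · rcases eq_or_lt_of_le h2 with h' | h'
      · rw [h']
        exact q1
      · have h5 : 0 < Y - V := by linarith
        have h6 : (Y - V) * (y ^ 2 + V - m * y) ≤ 0 := by
          have e : (Y - V) * (y ^ 2 + V - m * y) =
              (Y - y) * (V ^ 2 + V - m * V) + (y - V) * (Y ^ 2 + V - m * Y) -
                (Y - V) * ((y - V) * (Y - y)) := by ring
          rw [e]
          have a1 : (Y - y) * (V ^ 2 + V - m * V) ≤ 0 :=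
            mul_nonpos_of_nonneg_of_nonpos (by linarith) (by linarith)
          have a2 : (y - V) * (Y ^ 2 + V - m * Y) ≤ 0 :=
            mul_nonpos_of_nonneg_of_nonpos (by linarith) (by linarith)
          have a3 : 0 ≤ (Y - V) * ((y - V) * (Y - y)) :=
            mul_nonneg h5.le (mul_nonneg (by linarith) (by linarith))
          linarith
        have h7 : y ^ 2 + V - m * y ≤ 0 := by
          by_contra hc
          push Not at hc
          have := mul_pos h5 hc
          linarith
        linarith
  have h8 : y + V / y = (y ^ 2 + V) / y := by
    field_simp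
  rw [h8, div_le_iff₀ hy]
  exact q3

/-- monotonicity of `Pb` in `j` -/
private theorem NUM_Pb_mono (hm : St_E2mono) {R : ℕ} (hR : 3 ≤ R) {g W j j' Om : ℝ} (hW : 0 < W)
    (hgW : g ≤ W) (hO : 0 < Om) (hg : 0 < g) (hj : j ≤ j')
    (hv : -((R : ℝ) - 2) ≤ (j - g) * Om / W) : Pb R g W j Om ≤ Pb R g W j' Om := by
  have h1 : (j - g) * Om / W ≤ (j' - g) * Om / W :=
    div_le_div_of_nonneg_right (mul_le_mul_of_nonneg_right (by linarith) hO.le) hW.le
  have h2 := (hm.2 R _ _ hR hv h1).2
  have h3 : Om ^ 2 / W * E2 R ((j - g) * Om / W) ≤ Om ^ 2 / W * E2 R ((j' - g) * Om / W) :=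
    mul_le_mul_of_nonneg_left h2 (by positivity)
  unfold Pb
  have h4 : (W - g) * (1 + Om ^ 2 / W * E2 R ((j - g) * Om / W)) ≤
      (W - g) * (1 + Om ^ 2 / W * E2 R ((j' - g) * Om / W)) :=
    mul_le_mul_of_nonneg_left (by linarith) (by linarith)
  have h5 := div_le_div_of_nonneg_right h4 (show 0 ≤ g + Om by linarith)
  linarith

private theorem NUM_a {g b c : ℝ} (hg : 4586 / 10000 ≤ g) (hb : g < b)
    (hc : 57 / 20 * (3 / 4) ≤ c) (h : c ≤ b * (b - g)) : 13 / 10 ≤ b := by
  by_contra hcc
  push Not at hcc
  have h1 : b * (b - g) ≤ 13 / 10 * (13 / 10 - 4586 / 10000) :=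
    mul_le_mul hcc.le (by linarith) (by linarith) (by norm_num)
  norm_num at h1 hc
  linarith

private theorem NUM_b {g b W : ℝ} (hg : 4586 / 10000 ≤ g) (hg2 : g ≤ 48 / 100)
    (hW : 57 / 20 ≤ W) (h : b * (b - g) ≤ W) : 37 / 25 * (b + 1 - g) < 2 * W := by
  by_contra hcc
  push Not at hcc
  have hb : 33 / 10 ≤ b := by linarith
  have h1 : b * (b - 48 / 100) ≤ b * (b - g) :=
    mul_le_mul_of_nonneg_left (by linarith) (by linarith)
  have h2 : 33 / 10 * (b - 48 / 100) ≤ b * (b - 48 / 100) :=
    mul_le_mul_of_nonneg_right hb (by linarith)
  linarith

private theorem NUM_c {g a b : ℝ} (hg : 0 < g) (h1 : g < b) (h2 : b < a) :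
    b * (b - g) < a * (a - g) :=
  mul_lt_mul'' h2 (by linarith) (by linarith) (by linarith)

theorem thm_NUM (hZ1 : St_Z1) (hZ2 : St_Z2) (hRi : St_Ridge) (hRE : St_RidgeEnd)
    (hCu : St_Curve) (hn : St_GKnum) (hm : St_E2mono) : St_NUM := by
  intro R g K W y al be hGK hC
  obtain ⟨hR4, hg1, hg2, hK⟩ := NUM_bd hn hGK
  have hR0 : (0 : ℝ) < R := by linarith
  have hR3 : 3 ≤ R := by
    have := hGK.hR
    omega
  by_contra hcon
  push Not at hcon
  obtain ⟨hW1, hW2⟩ := hcon
  have hgW : g < W := lt_of_le_of_ne hC.hW (Ne.symm hW1)
  have hW0 : 0 < W := by linarith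
  have hV0 : 0 < W / R := by positivity
  have hal := hC.hal
  have hal1 := hC.hal1
  have hbe0 : 0 < be := by
    by_contra h
    push Not at h
    have h2 := hC.hab
    have h3 : al * be ≤ 0 := mul_nonpos_of_nonneg_of_nonpos hal.le h
    linarith
  have hy0 : 0 < y := lt_of_lt_of_le hbe0 hC.hbe
  have hVbe : W / R ≤ be := by
    rw [← hC.hab]
    calc al * be ≤ 1 * be := mul_le_mul_of_nonneg_right hal1 hbe0.le
      _ = be := one_mul _
  have hK0 := hGK.K0
  have hgK : (0 : ℝ) < (1 + g) * K := by positivity
  set Y := (1 + W) / ((1 + g) * K) with hY
  have hyY : y ≤ Y := by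
    rw [hY, le_div_iff₀ hgK]
    have := hC.cb
    linarith
  have hgK2 : (25 : ℝ) / 10 ≤ (1 + g) * K := by
    calc (25 : ℝ) / 10 ≤ (1 + 4586 / 10000) * (17182 / 10000) := by norm_num
      _ ≤ (1 + g) * K := mul_le_mul (by linarith) hK (by norm_num) (by linarith)
  rcases le_total W (7 / 5) with hWa | hWa
  · -- zone 1
    have h1 := hZ1 R g K W hGK hgW hWa
    have hY1 : Y ≤ 1 := by
      rw [hY, div_le_one hgK]
      linarith
    have h2 := hC.cJ0 (hyY.trans hY1) hgW
    linarith
  · rcases le_total W (W2 R) with hWb | hWb
    · -- zone 2
      obtain ⟨th, ht0, ht1, h1, h2⟩ := hZ2 R g K W hGK hWa hWb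
      have h3 : y + W / R / y ≤ (1 + W / R) * (1 + th) := by
        refine NUM_cvx hV0 (hVbe.trans hC.hbe) hyY ?_ ?_
        · exact le_mul_of_one_le_right (by linarith) (by linarith)
        · have h4 : W / R / Y = W / (R * Y) := by rw [div_div]
          rw [h4]
          exact h1
      rw [div_div] at h3
      have h5 := hC.cN th ht0 ht1 h3 14
      linarith
    · -- zone 3
      have hW2b : (57 : ℝ) / 20 ≤ W2 R := by
        unfold W2
        split_ifs
        · exact le_rfl
        · norm_num
      have hW3 : (57 : ℝ) / 20 ≤ W := hW2b.trans hWb
      have hj0 : 0 ≤ (1 - al) * (1 + be) * y / (1 + y) := by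
        have : 0 ≤ 1 - al := by linarith
        positivity
      have hWy : W ≤ y * (y + 1 - g) := by
        have h1 := hC.cD
        have h2 : y ^ 2 + (1 - g) * y = y * (y + 1 - g) := by ring
        linarith
      have hWR : W / R ≤ W / 4 := div_le_div_of_nonneg_left hW0.le (by norm_num) hR4
      have hWRm : W * (R - 1) / R = W - W / R := by
        field_simp
      -- the condition for `cP`
      have hcond : al + g < ((R : ℝ) - 1) * be := by
        have h1 : ((R : ℝ) - 1) * (W / R) ≤ (R - 1) * be :=
          mul_le_mul_of_nonneg_left hVbe (by linarith)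
        have h2 : ((R : ℝ) - 1) * (W / R) = W - W / R := by
          field_simp
        linarith
      have hjlow : W / R - 1 ≤ be - al := by linarith
      rcases le_total (g + R * al) (al + be) with hIII | hI
      · -- case III
        set al1 := (be - g) / ((R : ℝ) - 1) with hal1d
        have hR1 : (0 : ℝ) < R - 1 := by linarith
        have hal1e : al1 * (R - 1) = be - g := by
          rw [hal1d]
          field_simp
        have h1 : al ≤ al1 := by
          rw [hal1d, le_div_iff₀ hR1]
          linarith
        have hal10 : 0 < al1 := lt_of_lt_of_le hal h1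
        set W1 := R * al1 * be with hW1d
        have hWe : W = R * al * be := by
          have := hC.hab
          field_simp at this
          linarith
        have hWW1 : W ≤ W1 := by
          rw [hWe, hW1d]
          exact mul_le_mul_of_nonneg_right (mul_le_mul_of_nonneg_left h1 hR0.le) hbe0.le
        have hW10 : 0 < W1 := lt_of_lt_of_le hW0 hWW1
        have h40 : 0 < be - g := by
          rw [← hal1e]
          positivity
        have hbe13 : 13 / 10 ≤ be := by
          have h2 : W1 = R / (R - 1) * (be * (be - g)) := by
            rw [hW1d, hal1d]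
            field_simp
          have h3 : (R : ℝ) / (R - 1) ≤ 4 / 3 := by
            rw [div_le_div_iff₀ hR1 (by norm_num)]
            linarith
          have h5 : W1 ≤ 4 / 3 * (be * (be - g)) := by
            rw [h2]
            exact mul_le_mul_of_nonneg_right h3 (by positivity)
          exact NUM_a hg1 (by linarith) (c := 57 / 20 * (3 / 4)) le_rfl (by linarith)
        set Om := be + 1 - g with hOm
        have hOm0 : 0 < Om := by
          rw [hOm]
          linarith
        have h2 := hC.cQ hIII Om hOm0
        rw [← hal1d] at h2
        set E := E2 R (((R : ℝ) - 2) * al1 * Om / (R * al1 * be)) with hE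
        have hE0 : 0 ≤ E := by
          rw [hE]
          refine (hm.2 R _ _ hR3 ?_ le_rfl).1
          have : 0 ≤ ((R : ℝ) - 2) * al1 * Om / (R * al1 * be) := by
            have : (0 : ℝ) ≤ (R : ℝ) - 2 := by linarith
            positivity
          linarith
        set J := (1 + Om ^ 2 / W1 * E) / (g + Om) with hJ
        have hgO : 0 < g + Om := by linarith
        have hJ0 : 0 < J := by positivity
        have h3 : K * y ≤ 1 + (W1 - g * (al1 / al)) * J := by
          have h4 : (W - g) * (al1 / al) = W1 - g * (al1 / al) := by
            rw [hWe, hW1d]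
            field_simp
          have h5 : 1 + (W - g) * (al1 / al) * (1 + Om ^ 2 / (R * al1 * be) * E) / (g + Om) =
              1 + (W1 - g * (al1 / al)) * J := by
            rw [h4, hJ, ← hW1d]
            ring
          rw [← h5]
          exact h2
        have h6 : 1 ≤ al1 / al := by
          rw [le_div_iff₀ hal, one_mul]
          exact h1
        have hPb : Pb R g (R * ((be - g) / (R - 1)) * be) (be - (be - g) / (R - 1)) (be + 1 - g) =
            1 + (W1 - g) * J := by
          unfold Pb
          rw [← hal1d, ← hOm, ← hW1d]
          have h7 : (be - al1 - g) * Om / W1 = ((R : ℝ) - 2) * al1 * Om / (R * al1 * be) := by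
            have : be - al1 - g = ((R : ℝ) - 2) * al1 := by linarith
            rw [this]
          rw [h7, ← hE, hJ]
          ring
        have h8 : K * y ≤ 1 + (W1 - g) * J := by
          have h9 : (W1 - g * (al1 / al)) * J ≤ (W1 - g) * J := by
            refine mul_le_mul_of_nonneg_right ?_ hJ0.le
            have := le_mul_of_one_le_right hGK.g0.le h6
            linarith
          linarith
        have hbeM : be ≤ R + g - 1 := hC.hbe.trans hC.hy
        rcases lt_or_eq_of_le hbeM with h10 | h10
        · have h11 := hRi R g K be hGK hbe13 h10
          rw [hPb] at h11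
          have h12 : K * be ≤ K * y := mul_le_mul_of_nonneg_left hC.hbe hK0.le
          linarith
        · have hal11 : al1 = 1 := by
            rw [hal1d, h10, div_eq_one_iff_eq hR1.ne']
            ring
          have hyb : y = be := le_antisymm (by rw [h10]; exact hC.hy) hC.hbe
          have h11 := hRE R g K hGK
          have h12 : Pb R g (R * (R + g - 1)) (R + g - 1 - 1) R = 1 + (W1 - g) * J := by
            rw [← hPb, ← hal1d, hal11, h10]
            congr 1
            · ring
            · ring
          rw [h12] at h11
          rcases lt_or_eq_of_le h1 with h13 | h13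
          · have h14 : 1 < al1 / al := by
              rw [lt_div_iff₀ hal, one_mul]
              exact h13
            have h15 : (W1 - g * (al1 / al)) * J < (W1 - g) * J := by
              refine mul_lt_mul_of_pos_right ?_ hJ0
              have := lt_mul_of_one_lt_right hGK.g0 h14
              linarith
            rw [hyb, h10] at h3
            linarith
          · apply hW2
            rw [hWe, h13, hal11, h10]
            ring
      · -- cases I and II
        set j := be - al with hj
        rcases lt_or_ge W (R * ((y - g) / (R - 1)) * y) with hII | hI'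
        · -- case II
          have hR1 : (0 : ℝ) < R - 1 := by linarith
          -- the number `be1`
          set c := W * (R - 1) / R with hc
          have hc0 : 0 < c := by positivity
          set b1 := (g + Real.sqrt (g ^ 2 + 4 * c)) / 2 with hb1
          have hsq : Real.sqrt (g ^ 2 + 4 * c) ^ 2 = g ^ 2 + 4 * c :=
            Real.sq_sqrt (by positivity)
          have hsq0 : 0 ≤ Real.sqrt (g ^ 2 + 4 * c) := Real.sqrt_nonneg _
          have hb1e : b1 * (b1 - g) = c := by
            have h1 : b1 * (b1 - g) = (Real.sqrt (g ^ 2 + 4 * c) ^ 2 - g ^ 2) / 4 := by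
              rw [hb1]
              ring
            rw [h1, hsq]
            ring
          have hb1g : g < b1 := by
            have h1 : g < Real.sqrt (g ^ 2 + 4 * c) := by
              refine Real.lt_sqrt_of_sq_lt ?_
              linarith
            rw [hb1]
            linarith
          have hb10 : 0 < b1 := by linarith [hGK.g0]
          have hcW : c = W - W / R := hWRm
          have hcl : 57 / 20 * (3 / 4) ≤ c := by
            rw [hcW]
            linarith
          have hb13 : 13 / 10 ≤ b1 := NUM_a hg1 hb1g hcl hb1e.ge
          set al1 := (b1 - g) / ((R : ℝ) - 1) with hal1d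
          have hWb1 : R * al1 * b1 = W := by
            have h1 : R * al1 * b1 = R / (R - 1) * (b1 * (b1 - g)) := by
              rw [hal1d]
              field_simp
            rw [h1, hb1e, hc]
            field_simp
          have hbb1 : be ≤ b1 := by
            by_contra hcc
            push Not at hcc
            have h1 : be - g ≤ (R - 1) * al := by linarith
            have h2 : be * (be - g) ≤ c := by
              have h3 : be * (be - g) ≤ be * ((R - 1) * al) :=
                mul_le_mul_of_nonneg_left h1 hbe0.le
              have h4 : be * ((R - 1) * al) = (R - 1) * (W / R) := by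
                rw [← hC.hab]
                ring
              have h5 : ((R : ℝ) - 1) * (W / R) = c := by
                rw [hc]
                ring
              linarith
            have h6 := NUM_c hGK.g0 hb1g hcc
            linarith
          have hb1y : b1 < y := by
            by_contra hcc
            push Not at hcc
            have h1 : R * ((y - g) / (R - 1)) * y = R / (R - 1) * (y * (y - g)) := by
              field_simp
            have h2 : W = R / (R - 1) * (b1 * (b1 - g)) := by
              rw [← hWb1, hal1d]
              field_simp
            have h3 : y * (y - g) ≤ b1 * (b1 - g) := by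
              rcases le_total y g with h4 | h4
              · have h5 : y * (y - g) ≤ 0 :=
                  mul_nonpos_of_nonneg_of_nonpos hy0.le (by linarith)
                linarith
              · exact mul_le_mul hcc (by linarith) (by linarith) hb10.le
            have h4 : R * ((y - g) / (R - 1)) * y ≤ W := by
              rw [h1, h2]
              exact mul_le_mul_of_nonneg_left h3 (by positivity)
            linarith
          set Om := b1 + 1 - g with hOm
          have hOm0 : 0 < Om := by
            rw [hOm]
            linarith
          -- size of `Om`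
          have hOmW : 37 / 25 * Om < 2 * W := by
            rw [hOm]
            refine NUM_b hg1 hg2 hW3 ?_
            rw [hb1e, hcW]
            linarith
          have hjg : -(37 / 25) ≤ j - g := by
            have : (0 : ℝ) ≤ W / R := hV0.le
            linarith
          have hlow : -((R : ℝ) - 2) < (j - g) * Om / W := by
            rw [lt_div_iff₀ hW0]
            have h1 : -(37 / 25) * Om ≤ (j - g) * Om := mul_le_mul_of_nonneg_right hjg hOm0.le
            have h2 : 2 * W ≤ ((R : ℝ) - 2) * W := mul_le_mul_of_nonneg_right (by linarith) hW0.le
            linarith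
          have hpos : 0 < 1 + (be - al - g) * Om / W / ((R : ℝ) - 2) := by
            have h1 : (0 : ℝ) < R - 2 := by linarith
            have h2 : -1 < (be - al - g) * Om / W / ((R : ℝ) - 2) := by
              rw [lt_div_iff₀ h1]
              linarith
            linarith
          have h1 := hC.cP (by linarith) hcond Om hOm0 hpos
          have hj1 : j ≤ b1 - al1 := by
            have h2 : al = W / R / be := by
              rw [← hC.hab]
              field_simp
            have h3 : al1 = W / R / b1 := by
              rw [← hWb1]
              field_simp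
            have h4 : al1 ≤ al := by
              rw [h2, h3]
              exact div_le_div_of_nonneg_left hV0.le hbe0 hbb1
            linarith
          have h2 := NUM_Pb_mono hm hR3 hW0 hC.hW hOm0 hGK.g0 hj1 hlow.le
          have h3 := hRi R g K b1 hGK hb13 (lt_of_lt_of_le hb1y hC.hy)
          rw [← hal1d, hWb1, ← hOm] at h3
          have h4 : K * b1 < K * y := mul_lt_mul_of_pos_left hb1y hK0
          linarith
        · -- case I
          have hR1 : (0 : ℝ) < R - 1 := by linarith
          rcases lt_or_eq_of_le hC.hy with hyM | hyM
          · have hW2y : W2 R ≤ y * (y + 1 - g) := hWb.trans hWy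
            have hjD : j ≤ (1 + y) * (y + 1 - g) - 1 - W * ((1 + y) / y - 1 / R) := by
              have h1 := hC.cD
              have h2 : (1 - al) * (1 + be) = 1 + j - W / R := by
                rw [← hC.hab, hj]
                ring
              rw [h2] at h1
              have h3 : (1 + j - W / R) * y / (1 + y) ≤ y * (y + 1 - g) - W := by linarith
              rw [div_le_iff₀ (by linarith)] at h3
              have h4 : 1 + j - W / R ≤ (y * (y + 1 - g) - W) * (1 + y) / y := by
                rw [le_div_iff₀ hy0]
                exact h3
              have h5 : (y * (y + 1 - g) - W) * (1 + y) / y =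
                  (1 + y) * (y + 1 - g) - W * ((1 + y) / y) := by
                field_simp
              have h6 : W * ((1 + y) / y - 1 / R) = W * ((1 + y) / y) - W / R := by ring
              rw [h6]
              linarith
            have h1 := hCu R g K y W j hGK hW2y hyM hy0 hI' hWy (by linarith) hjD
            have hOm0 : 0 < y + 1 - g := by linarith
            have hyg : g ≤ y := by
              by_contra hcc
              push Not at hcc
              have h2 : y * (y + 1 - g) ≤ 1 * 1 :=
                mul_le_mul (by linarith) (by linarith) hOm0.le (by norm_num)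
              linarith
            have hWyg : y * (y - g) ≤ W := by
              have h2 : R * ((y - g) / (R - 1)) * y = R / (R - 1) * (y * (y - g)) := by
                field_simp
              have h3 : (1 : ℝ) ≤ R / (R - 1) := by
                rw [le_div_iff₀ hR1]
                linarith
              have h4 : 0 ≤ y * (y - g) := mul_nonneg hy0.le (by linarith)
              have h5 := mul_le_mul_of_nonneg_right h3 h4
              rw [h2] at hI'
              linarith
            have hOmW : 37 / 25 * (y + 1 - g) < 2 * W := NUM_b hg1 hg2 hW3 hWyg
            have hjg : -(37 / 25) ≤ j - g := by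
              have : (0 : ℝ) ≤ W / R := hV0.le
              linarith
            have hlow : -((R : ℝ) - 2) < (j - g) * (y + 1 - g) / W := by
              rw [lt_div_iff₀ hW0]
              have h1 : -(37 / 25) * (y + 1 - g) ≤ (j - g) * (y + 1 - g) :=
                mul_le_mul_of_nonneg_right hjg hOm0.le
              have h2 : 2 * W ≤ ((R : ℝ) - 2) * W :=
                mul_le_mul_of_nonneg_right (by linarith) hW0.le
              linarith
            have hpos : 0 < 1 + (be - al - g) * (y + 1 - g) / W / ((R : ℝ) - 2) := by
              have h1 : (0 : ℝ) < R - 2 := by linarith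
              have h2 : -1 < (be - al - g) * (y + 1 - g) / W / ((R : ℝ) - 2) := by
                rw [lt_div_iff₀ h1]
                linarith
              linarith
            have h2 := hC.cP (by linarith) hcond (y + 1 - g) hOm0 hpos
            linarith
          · apply hW2
            have h1 : R * ((y - g) / (R - 1)) * y = R * (R + g - 1) := by
              rw [hyM]
              have : (R : ℝ) + g - 1 - g = R - 1 := by ring
              rw [this]
              field_simp
            have h2 : y * (y + 1 - g) = R * (R + g - 1) := by
              rw [hyM]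
              ring
            rw [h1] at hI'
            rw [h2] at hWy
            linarith

end Pool.Agent.EMCW
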