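import Pool.Agent.EMCW.NumSt2

/-!
The ridge: the inequality at `al = (y - g) / (R - 1)`.
-/

open Finset

namespace Pool.Agent.EMCW

/-- `((R+g)/(R+g-1))^R = K + 1`. -/
private lemma Ridge_ratio (R : ℕ) (g K : ℝ) (h : GK R g K) :
    (((R : ℝ) + g) / ((R : ℝ) + g - 1)) ^ R = K + 1 := by
  obtain ⟨hR, g0, g1, K0, e1, e2⟩ := h
  have hr : (4 : ℝ) ≤ (R : ℝ) := by exact_mod_cast hR
  have hrp : (0 : ℝ) < R := by linarith
  have hys : (0 : ℝ) < (R : ℝ) + g - 1 := by linarith
  have h1 : ((R : ℝ) + g) / ((R : ℝ) + g - 1) = (1 + g / R) / (1 - (1 - g) / R) := by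
    have hb : 1 - (1 - g) / (R : ℝ) = ((R : ℝ) + g - 1) / R := by
      field_simp
      ring
    have ha : 1 + g / (R : ℝ) = ((R : ℝ) + g) / R := by
      field_simp
    rw [hb, ha]
    field_simp
  rw [h1, div_pow, e1, e2]
  field_simp

/-- The closed form at the ridge. -/
private lemma Ridge_cf (h1 : St_E2cf) (R : ℕ) (g y : ℝ) (hR : 4 ≤ R) (hg : 0 < g)
    (hg1 : g < 1 / 2) (hy : 13 / 10 ≤ y) :
    Pb R g (R * ((y - g) / (R - 1)) * y) (y - (y - g) / (R - 1)) (y + 1 - g) =
      1 + (R * ((y - g) / (R - 1)) * y - g) *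
        (y * (1 + (y + 1 - g) / (R * y)) ^ R - y - 1) / ((y - g) * (y + 1)) := by
  have hr : (4 : ℝ) ≤ (R : ℝ) := by exact_mod_cast hR
  have hrp : (0 : ℝ) < R := by linarith
  have hr1 : (0 : ℝ) < (R : ℝ) - 1 := by linarith
  have hyp : (0 : ℝ) < y := by linarith
  have hyg : (0 : ℝ) < y - g := by linarith
  have hy1 : (0 : ℝ) < y + 1 := by linarith
  have hOm : (0 : ℝ) < y + 1 - g := by linarith
  have hcf := h1 R ((y + 1 - g) / (R * y)) (by omega)
  have hv : ((y - (y - g) / ((R : ℝ) - 1)) - g) * (y + 1 - g) /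
      (R * ((y - g) / ((R : ℝ) - 1)) * y) = ((R : ℝ) - 2) * ((y + 1 - g) / (R * y)) := by
    field_simp
    ring
  unfold Pb
  rw [hv]
  set E := E2 R (((R : ℝ) - 2) * ((y + 1 - g) / (R * y))) with hE
  set X := (1 + (y + 1 - g) / (R * y)) ^ R with hX
  have hEv : E = (X - 1 - R * ((y + 1 - g) / (R * y))) /
      (R * (R - 1) * ((y + 1 - g) / (R * y)) ^ 2) := by
    rw [eq_div_iff (by positivity)]
    exact hcf
  have key : 1 + (y + 1 - g) ^ 2 / (R * ((y - g) / ((R : ℝ) - 1)) * y) * E =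
      (y * X - y - 1) / (y - g) := by
    rw [hEv]
    field_simp
    ring
  rw [key]
  have : g + (y + 1 - g) = y + 1 := by ring
  rw [this]
  field_simp

/-- The bound for `X`. -/
private lemma Ridge_X (R : ℕ) (g K y : ℝ) (h : GK R g K) (hg1 : g < 1 / 2) (hg4 : 2 / 5 < g)
    (hy : 13 / 10 ≤ y) (hys : y < R + g - 1) :
    (1 + (y + 1 - g) / (R * y)) ^ R ≤ (K + 1) *
      (1 + 2 * ((1 - g) * (R + g - 1 - y)) /
        ((2 * R + 1 + g) * y - (1 - g) * (R - (1 - g)))) ∧
      0 < (2 * R + 1 + g) * y - (1 - g) * (R - (1 - g)) := by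
  have hK := h.K0
  have hr : (4 : ℝ) ≤ (R : ℝ) := by exact_mod_cast h.hR
  have hrp : (0 : ℝ) < R := by linarith
  have hyp : (0 : ℝ) < y := by linarith
  have hrg : (0 : ℝ) < (R : ℝ) + g := by linarith
  have hysp : (0 : ℝ) < (R : ℝ) + g - 1 := by linarith
  have hd : (0 : ℝ) < 1 - g := by linarith
  have hD : (0 : ℝ) < (R : ℝ) + g - 1 - y := by linarith
  set t : ℝ := (1 - g) * (R + g - 1 - y) / (y * (R + g)) with ht
  have ht0 : 0 < t := by rw [ht]; positivity
  have ht1 : t < 1 := by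
    rw [ht, div_lt_one (by positivity)]
    nlinarith
  have hfac : 1 + (y + 1 - g) / (R * y) =
      (((R : ℝ) + g) / ((R : ℝ) + g - 1)) * (1 + t / R) := by
    rw [ht]
    field_simp
    ring
  have hpow : (1 + t / R) ^ R ≤ Real.exp t := by
    have h1 : 1 + t / R ≤ Real.exp (t / R) := by
      have := Real.add_one_le_exp (t / R)
      linarith
    have h2 : (0 : ℝ) ≤ 1 + t / R := by positivity
    calc (1 + t / R) ^ R ≤ (Real.exp (t / R)) ^ R := pow_le_pow_left₀ h2 h1 R
      _ = Real.exp t := by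
        rw [← Real.exp_nat_mul]
        congr 1
        field_simp
  have hexp : Real.exp t ≤ (2 + t) / (2 - t) := by
    have h2t : (0 : ℝ) < 2 - t := by linarith
    have hx : (0 : ℝ) ≤ 2 * t / (2 - t) := by positivity
    have hlog := Real.le_log_one_add_of_nonneg hx
    have he : 2 * (2 * t / (2 - t)) / (2 * t / (2 - t) + 2) = t := by
      field_simp
      ring
    rw [he] at hlog
    have hpos : (0 : ℝ) < 1 + 2 * t / (2 - t) := by positivity
    have := (Real.le_log_iff_exp_le hpos).1 hlog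
    calc Real.exp t ≤ 1 + 2 * t / (2 - t) := this
      _ = (2 + t) / (2 - t) := by
        field_simp
        ring
  have hden : (2 - t) * (y * (R + g)) = (2 * R + 1 + g) * y - (1 - g) * (R - (1 - g)) := by
    rw [ht]
    field_simp
    ring
  have hdenp : 0 < (2 * R + 1 + g) * y - (1 - g) * (R - (1 - g)) := by
    rw [← hden]
    have h2t : (0 : ℝ) < 2 - t := by linarith
    positivity
  refine ⟨?_, hdenp⟩
  have hfr : (2 + t) / (2 - t) = 1 + 2 * ((1 - g) * (R + g - 1 - y)) /
        ((2 * R + 1 + g) * y - (1 - g) * (R - (1 - g))) := by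
    rw [← hden]
    have h2t : (2 - t) ≠ 0 := by linarith
    have hn : 2 * ((1 - g) * (R + g - 1 - y)) = 2 * (t * (y * (R + g))) := by
      rw [ht]
      field_simp
    rw [hn]
    field_simp
    ring
  rw [hfac, mul_pow, Ridge_ratio R g K h, ← hfr]
  exact mul_le_mul_of_nonneg_left (hpow.trans hexp) (by linarith)

theorem thm_Ridge (h1 : St_E2cf) (h2 : St_RidgeQ) (h3 : St_GKnum) : St_Ridge := by
  intro R g K y h hy hys
  have hr : (4 : ℝ) ≤ (R : ℝ) := by exact_mod_cast h.hR
  have hrp : (0 : ℝ) < R := by linarith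
  obtain ⟨b1, b2, b3, b4⟩ := h3 R g K h
  have hg4 : 2 / 5 < g := by
    have : (0 : ℝ) ≤ 81 / 1000 / (R : ℝ) := by positivity
    linarith
  have hg5 : g < 1 / 2 := by
    have : 822 / 10000 / (R : ℝ) ≤ 822 / 10000 / 4 :=
      div_le_div_of_nonneg_left (by norm_num) (by norm_num) hr
    linarith
  have hK : 17 / 10 < K := by
    have : (0 : ℝ) ≤ 112 / 1000 / (R : ℝ) := by positivity
    linarith
  rw [Ridge_cf h1 R g y h.hR h.g0 hg5 hy]
  obtain ⟨hX, hQ⟩ := Ridge_X R g K y h hg5 hg4 hy hys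
  have hRQ := h2 R g K y h
  set X := (1 + (y + 1 - g) / (R * y)) ^ R with hXd
  set Q := (2 * (R : ℝ) + 1 + g) * y - (1 - g) * (R - (1 - g)) with hQd
  set A := (R : ℝ) * ((y - g) / (R - 1)) * y - g with hA
  have hr1 : (0 : ℝ) < (R : ℝ) - 1 := by linarith
  have hyp : (0 : ℝ) < y := by linarith
  have hyg : (0 : ℝ) < y - g := by linarith
  have hy1 : (0 : ℝ) < y + 1 := by linarith
  have hD : (0 : ℝ) < (R : ℝ) + g - 1 - y := by linarith
  have hA1 : (R - 1) * A = R * y ^ 2 - R * g * y - g * (R - 1) := by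
    rw [hA]
    field_simp
  have hA2 : (R - 1) * ((y - g) * (y + 1) - A) = y * (R + g - 1 - y) := by
    rw [mul_sub, hA1]
    ring
  have hApos : 0 < A := by
    have : 0 < (R - 1) * A := by
      rw [hA1]
      nlinarith [mul_pos hrp hyg]
    exact (mul_pos_iff_of_pos_left hr1).1 this
  have hKy : 0 < K * y - 1 := by nlinarith
  have hmain : A * (y * X - y - 1) < (K * y - 1) * ((y - g) * (y + 1)) := by
    have e1 : y * X - y - 1 ≤
        (K * y - 1) + y * (K + 1) * (2 * ((1 - g) * (R + g - 1 - y)) / Q) := by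
      have := mul_le_mul_of_nonneg_left hX hyp.le
      nlinarith [this]
    have e2 : A * (y * X - y - 1) ≤
        A * ((K * y - 1) + y * (K + 1) * (2 * ((1 - g) * (R + g - 1 - y)) / Q)) :=
      mul_le_mul_of_nonneg_left e1 hApos.le
    refine lt_of_le_of_lt e2 ?_
    have e3 : A * (y * (K + 1) * (2 * ((1 - g) * (R + g - 1 - y)) / Q)) <
        (K * y - 1) * ((y - g) * (y + 1) - A) := by
      have e4 : (y - g) * (y + 1) - A = y * (R + g - 1 - y) / (R - 1) := by
        rw [eq_div_iff hr1.ne']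
        linarith [hA2]
      have e5 : A = (R * y ^ 2 - R * g * y - g * (R - 1)) / (R - 1) := by
        rw [eq_div_iff hr1.ne']
        linarith [hA1]
      rw [e4, e5]
      have e6 : (R * y ^ 2 - R * g * y - g * (R - 1)) / (R - 1) *
          (y * (K + 1) * (2 * ((1 - g) * (R + g - 1 - y)) / Q)) =
          (2 * (K + 1) * (1 - g) * (R * y ^ 2 - R * g * y - g * (R - 1)) / Q) *
            (y * (R + g - 1 - y) / (R - 1)) := by
        field_simp
      rw [e6]
      refine mul_lt_mul_of_pos_right ?_ (by positivity)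
      rw [div_lt_iff₀ hQ]
      exact hRQ
    rw [mul_add]
    have e7 : (K * y - 1) * ((y - g) * (y + 1)) =
        A * (K * y - 1) + (K * y - 1) * ((y - g) * (y + 1) - A) := by ring
    rw [e7]
    exact add_lt_add_of_le_of_lt le_rfl e3
  have hfin : A * (y * X - y - 1) / ((y - g) * (y + 1)) < K * y - 1 := by
    rw [div_lt_iff₀ (by positivity)]
    exact hmain
  linarith

end Pool.Agent.EMCW
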