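import Pool.Agent.EMCW.NumSt2

/-!
Zone 3, the ridge, the end point.
-/

open Finset

namespace Pool.Agent.EMCW

/-- `(1 + 1 / (R + g - 1)) ^ R = K + 1` -/
theorem RidgeEnd_pow {R : ℕ} {g K : ℝ} (h : GK R g K) : (1 + 1 / ((R : ℝ) + g - 1)) ^ R = K + 1 := by
  have hR : (4 : ℝ) ≤ R := by exact_mod_cast h.hR
  have hg := h.g0
  have hK := h.K0
  have hys : 0 < (R : ℝ) + g - 1 := by linarith
  have hR0 : (R : ℝ) ≠ 0 := by positivity
  have h1 : (1 + 1 / ((R : ℝ) + g - 1)) * (1 - (1 - g) / R) = 1 + g / R := by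
    field_simp
    ring
  have h2 := congrArg (fun x => x ^ R) h1
  simp only [mul_pow] at h2
  rw [h.e1, h.e2] at h2
  have h3 : (1 + 1 / ((R : ℝ) + g - 1)) ^ R = (1 + 1 / K) * K := by
    field_simp at h2 ⊢
    linarith
  rw [h3]
  field_simp

theorem thm_RidgeEnd (hcf : St_E2cf) : St_RidgeEnd := by
  intro R g K h
  have hR : (4 : ℝ) ≤ R := by exact_mod_cast h.hR
  have hg := h.g0
  have hK := h.K0
  have hys : 0 < (R : ℝ) + g - 1 := by linarith
  have hR1 : 0 < (R : ℝ) - 1 := by linarith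
  have hR0 : 0 < (R : ℝ) := by linarith
  have hRg : 0 < g + (R : ℝ) := by linarith
  have h1 := hcf R (1 / ((R : ℝ) + g - 1)) (by have := h.hR; omega)
  rw [RidgeEnd_pow h] at h1
  unfold Pb
  have h2 : ((R : ℝ) + g - 1 - 1 - g) * R / (R * (R + g - 1)) = ((R : ℝ) - 2) * (1 / (R + g - 1)) := by
    field_simp
    ring
  rw [h2]
  set E := E2 R (((R : ℝ) - 2) * (1 / (R + g - 1))) with hE
  have h3 : E = (K * ((R : ℝ) + g - 1) - R) * (R + g - 1) / (R * (R - 1)) := by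
    field_simp at h1 ⊢
    linarith
  rw [h3]
  field_simp
  ring

end Pool.Agent.EMCW
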