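import Pool.Agent.EMCW.NumSt2

/-!
The quadratic of the ridge is positive.
-/

open Finset

namespace Pool.Agent.EMCW

private theorem ridgeQ_quad (a2 a1 a0 y : ℝ) (h2 : 0 < a2) (h : a1 ^ 2 < 4 * a2 * a0) :
    0 < a2 * y ^ 2 + a1 * y + a0 := by
  have h1 : 0 < 4 * a2 * (a2 * y ^ 2 + a1 * y + a0) := by
    nlinarith [sq_nonneg (2 * a2 * y + a1)]
  have h3 : 0 < 4 * a2 := by linarith
  exact (mul_pos_iff_of_pos_left h3).1 h1

private theorem ridgeQ_main (e g K y : ℝ) (he : 0 < e) (he4 : e ≤ 1 / 4)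
    (hg1 : 4586 / 10000 + 81 / 1000 * e ≤ g) (hg2 : g ≤ 4588 / 10000 + 822 / 10000 * e)
    (hK1 : 17182 / 10000 ≤ K) (hK2 : K ≤ 175 / 100) :
    0 < (K * e * (1 + g) + 2 * (K + 1) * g - 2) * y ^ 2 +
      (-(2 + (1 + g) * e) - K * (1 - g) * (1 - (1 - g) * e) + 2 * (K + 1) * (1 - g) * g) * y +
      ((1 - g) * (1 - (1 - g) * e) + 2 * (K + 1) * (1 - g) * g * (1 - e)) := by
  have hg0 : 4586 / 10000 ≤ g := by linarith
  have hg3 : g ≤ 4794 / 10000 := by linarith
  have hd1 : 0 < 1 - g := by linarith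
  -- the leading coefficient
  have h2 : 49 / 100 + 29 / 10 * e ≤ K * e * (1 + g) + 2 * (K + 1) * g - 2 := by
    have h3 : 17182 / 10000 * (14586 / 10000) ≤ K * (1 + g) := by
      apply mul_le_mul hK1 (by linarith) (by norm_num) (by linarith)
    have h4 : 17182 / 10000 * (14586 / 10000) * e ≤ K * (1 + g) * e :=
      mul_le_mul_of_nonneg_right h3 he.le
    have h5 : 27182 / 10000 * (4586 / 10000 + 81 / 1000 * e) ≤ (K + 1) * g := by
      apply mul_le_mul (by linarith) hg1 (by positivity) (by linarith)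
    nlinarith [h4, h5]
  -- the constant coefficient
  have hdg : 4586 / 10000 * (5414 / 10000) ≤ (1 - g) * g := by nlinarith
  have h0 : 188 / 100 - 173 / 100 * e ≤
      (1 - g) * (1 - (1 - g) * e) + 2 * (K + 1) * (1 - g) * g * (1 - e) := by
    have h3 : (1 - g) ^ 2 ≤ (5414 / 10000) ^ 2 := by nlinarith
    have h4 : (1 - g) ^ 2 * e ≤ (5414 / 10000) ^ 2 * e := mul_le_mul_of_nonneg_right h3 he.le
    have h5 : 27182 / 10000 * (4586 / 10000 * (5414 / 10000)) ≤ (K + 1) * ((1 - g) * g) := by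
      apply mul_le_mul (by linarith) hdg (by norm_num) (by linarith)
    have h6 : 27182 / 10000 * (4586 / 10000 * (5414 / 10000)) * (1 - e) ≤
        (K + 1) * ((1 - g) * g) * (1 - e) := mul_le_mul_of_nonneg_right h5 (by linarith)
    nlinarith [h4, h6]
  -- the middle coefficient
  have h1 : -(-(2 + (1 + g) * e) - K * (1 - g) * (1 - (1 - g) * e) +
      2 * (K + 1) * (1 - g) * g) ≤ 159 / 100 + 155 / 100 * e := by
    have h3 : (1 + g) * e ≤ 14794 / 10000 * e := mul_le_mul_of_nonneg_right (by linarith) he.le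
    have h4 : 0 ≤ K * (1 - g) * (1 - g) * e := by positivity
    have h5 : K * (1 - 2 * g) ≤ 175 / 100 * (828 / 10000) :=
      mul_le_mul hK2 (by linarith) (by linarith) (by norm_num)
    have h6 : K - 2 * (K + 1) * g ≤ -(772 / 1000) := by nlinarith
    have h7 : (1 - g) * (K - 2 * (K + 1) * g) ≤ (1 - g) * (-(772 / 1000)) :=
      mul_le_mul_of_nonneg_left h6 hd1.le
    nlinarith [h3, h4, h7]
  have h1' : 0 ≤ -(-(2 + (1 + g) * e) - K * (1 - g) * (1 - (1 - g) * e) +
      2 * (K + 1) * (1 - g) * g) := by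
    have h3 : 0 ≤ (1 + g) * e := by positivity
    have h4 : 0 ≤ K * (1 - g) * (1 - (1 - g) * e) := by
      have h5 : (1 - g) * e ≤ 1 := by nlinarith
      have h6 : 0 ≤ 1 - (1 - g) * e := by linarith
      positivity
    have h5 : (1 - g) * g ≤ 1 / 4 := by nlinarith [sq_nonneg (g - 1 / 2)]
    have h6 : (K + 1) * ((1 - g) * g) ≤ 275 / 100 * (1 / 4) :=
      mul_le_mul (by linarith) h5 (by positivity) (by norm_num)
    nlinarith [h3, h4, h6]
  set a2 := K * e * (1 + g) + 2 * (K + 1) * g - 2 with ha2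
  set a0 := (1 - g) * (1 - (1 - g) * e) + 2 * (K + 1) * (1 - g) * g * (1 - e) with ha0
  set a1 := -(2 + (1 + g) * e) - K * (1 - g) * (1 - (1 - g) * e) +
      2 * (K + 1) * (1 - g) * g with ha1
  apply ridgeQ_quad
  · linarith
  · have h3 : a1 ^ 2 ≤ (159 / 100 + 155 / 100 * e) ^ 2 := by
      rw [← neg_sq]
      exact pow_le_pow_left₀ h1' h1 2
    have h4 : (49 / 100 + 29 / 10 * e) * (188 / 100 - 173 / 100 * e) ≤ a2 * a0 := by
      apply mul_le_mul h2 h0 (by linarith) (by linarith)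
    nlinarith [h3, h4, he, he4, mul_nonneg he.le (sub_nonneg.2 he4)]

theorem thm_RidgeQ (h : St_GKnum) : St_RidgeQ := by
  intro R g K y hG
  obtain ⟨hg1, hg2, hK1, hK2⟩ := h R g K hG
  have hR4 : (4 : ℝ) ≤ R := by exact_mod_cast hG.hR
  have hR0 : (0 : ℝ) < R := by linarith
  set e : ℝ := 1 / R with he
  have hRe : (R : ℝ) * e = 1 := by rw [he]; field_simp
  have he0 : 0 < e := by rw [he]; positivity
  have he4 : e ≤ 1 / 4 := by
    rw [he]
    exact one_div_le_one_div_of_le (by norm_num) hR4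
  have hd : ∀ c : ℝ, c / R = c * e := fun c => by rw [he]; ring
  rw [hd] at hg1 hg2 hK1 hK2
  have h1 := ridgeQ_main e g K y he0 he4 hg1 hg2 (by nlinarith) (by nlinarith)
  have h2 := mul_pos hR0 h1
  rw [← sub_pos]
  have h3 : (K * y - 1) * ((2 * R + 1 + g) * y - (1 - g) * (R - (1 - g))) -
      2 * (K + 1) * (1 - g) * (R * y ^ 2 - R * g * y - g * (R - 1)) =
      R * ((K * e * (1 + g) + 2 * (K + 1) * g - 2) * y ^ 2 +
      (-(2 + (1 + g) * e) - K * (1 - g) * (1 - (1 - g) * e) + 2 * (K + 1) * (1 - g) * g) * y +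
      ((1 - g) * (1 - (1 - g) * e) + 2 * (K + 1) * (1 - g) * g * (1 - e))) := by
    linear_combination (-((1 + g) * K * y ^ 2 + (-(1 + g) + K * (1 - g) ^ 2) * y -
      (1 - g) ^ 2 - 2 * (K + 1) * (1 - g) * g)) * hRe
  rw [h3]
  exact h2

end Pool.Agent.EMCW
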