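import Pool.Agent.EMCW.NumSt2

/-!
EMCW module Z1: zone 1.
-/

set_option autoImplicit false

open Finset

namespace Pool.Agent.EMCW

/-- the first five terms of the binomial sum -/
private theorem Z1_binom (R : ℕ) (hR : 4 ≤ R) (x : ℝ) (hx : 0 ≤ x) :
    1 + R * x + R * (R - 1) / 2 * x ^ 2 + R * (R - 1) * (R - 2) / 6 * x ^ 3 +
      R * (R - 1) * (R - 2) * (R - 3) / 24 * x ^ 4 ≤ (1 + x) ^ R := by
  induction R, hR using Nat.le_induction with
  | base => norm_num; nlinarith [pow_nonneg hx 4]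
  | succ R hR ih =>
    have hR' : (4 : ℝ) ≤ R := by exact_mod_cast hR
    have h1 : 0 ≤ (R : ℝ) * (R - 1) * (R - 2) * (R - 3) / 24 * x ^ 5 := by
      have : (0 : ℝ) ≤ R - 1 := by linarith
      have : (0 : ℝ) ≤ R - 2 := by linarith
      have : (0 : ℝ) ≤ R - 3 := by linarith
      positivity
    have h2 := mul_le_mul_of_nonneg_right ih (show (0 : ℝ) ≤ 1 + x by linarith)
    rw [pow_succ]
    refine le_trans ?_ h2
    push_cast
    nlinarith [h1]

private theorem Z1_conc (R : ℕ) (hR : 4 ≤ R) (g c : ℝ) (hc : 0 ≤ c) :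
    ConcaveOn ℝ (Set.Icc (0 : ℝ) 1)
      (fun t : ℝ => c * ((1 + t / R) ^ R - 1) * (1 - t) - (1 - g * t)) := by
  have hR0 : (0 : ℝ) < R := by
    have : (4 : ℝ) ≤ R := by exact_mod_cast hR
    linarith
  have hlin : ∀ t : ℝ, HasDerivAt (fun t : ℝ => 1 + t / R) (1 / R) t := by
    intro t
    simpa using ((hasDerivAt_id t).div_const (R : ℝ)).const_add 1
  have hpow : ∀ (n : ℕ) (t : ℝ), HasDerivAt (fun t : ℝ => (1 + t / R) ^ n)
      (n * (1 + t / R) ^ (n - 1) * (1 / R)) t := fun n t => (hlin t).pow n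
  have h1 : ∀ t : ℝ, HasDerivAt
      (fun t : ℝ => c * ((1 + t / R) ^ R - 1) * (1 - t) - (1 - g * t))
      (c * ((1 + t / R) ^ (R - 1)) * (1 - t) - c * ((1 + t / R) ^ R - 1) + g) t := by
    intro t
    have a1 := ((hpow R t).sub_const 1).const_mul c
    have a2 : HasDerivAt (fun t : ℝ => 1 - t) (-1) t := by
      simpa using (hasDerivAt_id t).const_sub 1
    have a3 : HasDerivAt (fun t : ℝ => 1 - g * t) (-g) t := by
      simpa using ((hasDerivAt_id t).const_mul g).const_sub 1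
    have a4 := (a1.mul a2).sub a3
    refine a4.congr_deriv ?_
    field_simp
    ring
  have h2 : ∀ t : ℝ, HasDerivAt
      (fun t : ℝ => c * ((1 + t / R) ^ (R - 1)) * (1 - t) - c * ((1 + t / R) ^ R - 1) + g)
      (c * (((R - 1 : ℕ) : ℝ) * (1 + t / R) ^ (R - 1 - 1) * (1 / R)) * (1 - t) -
        c * (1 + t / R) ^ (R - 1) - c * (1 + t / R) ^ (R - 1)) t := by
    intro t
    have a1 := (hpow (R - 1) t).const_mul c
    have a2 : HasDerivAt (fun t : ℝ => 1 - t) (-1) t := by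
      simpa using (hasDerivAt_id t).const_sub 1
    have a3 := ((hpow R t).sub_const 1).const_mul c
    have a4 := ((a1.mul a2).sub a3).add_const g
    refine a4.congr_deriv ?_
    field_simp
    ring
  have hd1 : deriv (fun t : ℝ => c * ((1 + t / R) ^ R - 1) * (1 - t) - (1 - g * t)) =
      fun t : ℝ => c * ((1 + t / R) ^ (R - 1)) * (1 - t) - c * ((1 + t / R) ^ R - 1) + g :=
    funext fun t => (h1 t).deriv
  refine concaveOn_of_deriv2_nonpos (convex_Icc 0 1) ?_ ?_ ?_ ?_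
  · exact fun t _ => (h1 t).continuousAt.continuousWithinAt
  · exact fun t _ => (h1 t).differentiableAt.differentiableWithinAt
  · rw [hd1]
    exact fun t _ => (h2 t).differentiableAt.differentiableWithinAt
  · intro t ht
    rw [interior_Icc] at ht
    have ht0 : 0 < t := ht.1
    have ht1 : t < 1 := ht.2
    have e : deriv^[2] (fun t : ℝ => c * ((1 + t / R) ^ R - 1) * (1 - t) - (1 - g * t)) t =
        c * (((R - 1 : ℕ) : ℝ) * (1 + t / R) ^ (R - 1 - 1) * (1 / R)) * (1 - t) -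
        c * (1 + t / R) ^ (R - 1) - c * (1 + t / R) ^ (R - 1) := by
      rw [Function.iterate_succ, Function.iterate_one, Function.comp_apply, hd1]
      exact (h2 t).deriv
    rw [e]
    have hb : 1 ≤ 1 + t / R := by
      have : 0 ≤ t / R := by positivity
      linarith
    have hpp : (1 + t / R) ^ (R - 1 - 1) ≤ (1 + t / R) ^ (R - 1) :=
      pow_le_pow_right₀ hb (Nat.sub_le _ _)
    have hq : ((R - 1 : ℕ) : ℝ) * (1 / R) ≤ 1 := by
      rw [mul_one_div, div_le_one hR0]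
      exact_mod_cast Nat.sub_le R 1
    have hq0 : 0 ≤ ((R - 1 : ℕ) : ℝ) * (1 / R) := by positivity
    have hp0 : 0 ≤ (1 + t / R) ^ (R - 1 - 1) := by positivity
    have hp1 : 0 ≤ (1 + t / R) ^ (R - 1) := by positivity
    have h3 : ((R - 1 : ℕ) : ℝ) * (1 + t / R) ^ (R - 1 - 1) * (1 / R) * (1 - t) ≤
        (1 + t / R) ^ (R - 1) := by
      calc ((R - 1 : ℕ) : ℝ) * (1 + t / R) ^ (R - 1 - 1) * (1 / R) * (1 - t) =
            (((R - 1 : ℕ) : ℝ) * (1 / R)) * (1 + t / R) ^ (R - 1 - 1) * (1 - t) := by ring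
        _ ≤ 1 * (1 + t / R) ^ (R - 1) * 1 := by
            refine mul_le_mul (mul_le_mul hq hpp hp0 zero_le_one) (by linarith) (by linarith) ?_
            rw [one_mul]; exact hp1
        _ = (1 + t / R) ^ (R - 1) := by ring
    have h4 : c * (((R - 1 : ℕ) : ℝ) * (1 + t / R) ^ (R - 1 - 1) * (1 / R)) * (1 - t) ≤
        c * (1 + t / R) ^ (R - 1) := by
      calc c * (((R - 1 : ℕ) : ℝ) * (1 + t / R) ^ (R - 1 - 1) * (1 / R)) * (1 - t) =
            c * (((R - 1 : ℕ) : ℝ) * (1 + t / R) ^ (R - 1 - 1) * (1 / R) * (1 - t)) := by ring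
        _ ≤ _ := mul_le_mul_of_nonneg_left h3 hc
    have h5 : 0 ≤ c * (1 + t / R) ^ (R - 1) := mul_nonneg hc hp1
    linarith

private theorem Z1_num (e : ℝ) (he0 : 0 ≤ e) (he : e ≤ 1 / 4) :
    12 / 5 < (4586 / 10000 + 81 / 1000 * e + 1) * (17182 / 10000 + 112 / 1000 * e) *
      (7211 / 10000 + (1 - e) / 2 * (7211 / 10000) ^ 2 +
        (1 - e) * (1 - 2 * e) / 6 * (7211 / 10000) ^ 3 +
        (1 - e) * (1 - 2 * e) * (1 - 3 * e) / 24 * (7211 / 10000) ^ 4) := by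
  obtain ⟨u, rfl⟩ : ∃ u, e = 1 / 4 - u := ⟨1 / 4 - e, by ring⟩
  have hu0 : 0 ≤ u := by linarith
  have hu1 : u ≤ 1 / 4 := by linarith
  nlinarith [mul_nonneg hu0 hu0, mul_nonneg (mul_nonneg hu0 hu0) hu0,
    mul_nonneg (mul_nonneg (mul_nonneg hu0 hu0) hu0) hu0, mul_nonneg hu0 he0,
    mul_nonneg (mul_nonneg hu0 hu0) he0, mul_nonneg (mul_nonneg hu0 he0) he0,
    mul_nonneg (mul_nonneg (mul_nonneg hu0 he0) he0) he0,
    mul_nonneg (mul_nonneg (mul_nonneg hu0 hu0) hu0) he0]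

private theorem Z1_sum (R : ℕ) (hR : 4 ≤ R) (t1 : ℝ) (ht1lo : 7211 / 10000 ≤ t1) :
    7211 / 10000 + (1 - 1 / (R : ℝ)) / 2 * (7211 / 10000) ^ 2 +
        (1 - 1 / (R : ℝ)) * (1 - 2 * (1 / (R : ℝ))) / 6 * (7211 / 10000) ^ 3 +
        (1 - 1 / (R : ℝ)) * (1 - 2 * (1 / (R : ℝ))) * (1 - 3 * (1 / (R : ℝ))) / 24 *
          (7211 / 10000) ^ 4 ≤ (1 + t1 / R) ^ R - 1 := by
  have hR4 : (4 : ℝ) ≤ R := by exact_mod_cast hR
  have hR0 : (0 : ℝ) < R := by linarith
  have b1 := Z1_binom R hR ((7211 / 10000) * (1 / (R : ℝ))) (by positivity)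
  have b2 : (1 + (7211 / 10000) * (1 / (R : ℝ))) ^ R ≤ (1 + t1 / R) ^ R := by
    refine pow_le_pow_left₀ (by positivity) ?_ R
    have h1 : t1 / R = t1 * (1 / (R : ℝ)) := by ring
    rw [h1]
    have h2 := mul_le_mul_of_nonneg_right ht1lo (show (0 : ℝ) ≤ 1 / (R : ℝ) by positivity)
    linarith
  have b3 : 1 + (R : ℝ) * ((7211 / 10000) * (1 / (R : ℝ))) +
      R * (R - 1) / 2 * ((7211 / 10000) * (1 / (R : ℝ))) ^ 2 +
      R * (R - 1) * (R - 2) / 6 * ((7211 / 10000) * (1 / (R : ℝ))) ^ 3 +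
      R * (R - 1) * (R - 2) * (R - 3) / 24 * ((7211 / 10000) * (1 / (R : ℝ))) ^ 4 =
      1 + (7211 / 10000 + (1 - 1 / (R : ℝ)) / 2 * (7211 / 10000) ^ 2 +
        (1 - 1 / (R : ℝ)) * (1 - 2 * (1 / (R : ℝ))) / 6 * (7211 / 10000) ^ 3 +
        (1 - 1 / (R : ℝ)) * (1 - 2 * (1 / (R : ℝ))) * (1 - 3 * (1 / (R : ℝ))) / 24 *
          (7211 / 10000) ^ 4) := by
    field_simp
    ring
  linarith

private theorem Z1_lo (R : ℕ) (hR : 4 ≤ R) (g K A t1 : ℝ)
    (hgl : 4586 / 10000 + 81 / 1000 * (1 / (R : ℝ)) ≤ g)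
    (hKl : 17182 / 10000 + 112 / 1000 * (1 / (R : ℝ)) ≤ K)
    (ht1lo : 7211 / 10000 ≤ t1) (hA : A = (1 + t1 / R) ^ R - 1) :
    12 / 5 < K * (1 + g) * A := by
  have hR4 : (4 : ℝ) ≤ R := by exact_mod_cast hR
  have hR0 : (0 : ℝ) < R := by linarith
  have hA1 := Z1_sum R hR t1 ht1lo
  rw [← hA] at hA1
  have he0 : 0 < 1 / (R : ℝ) := by positivity
  have he4 : 1 / (R : ℝ) ≤ 1 / 4 := one_div_le_one_div_of_le (by norm_num) hR4
  generalize 1 / (R : ℝ) = e at hgl hKl hA1 he0 he4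
  have hnum := Z1_num e he0.le he4
  set Sv : ℝ := 7211 / 10000 + (1 - e) / 2 * (7211 / 10000) ^ 2 +
      (1 - e) * (1 - 2 * e) / 6 * (7211 / 10000) ^ 3 +
      (1 - e) * (1 - 2 * e) * (1 - 3 * e) / 24 * (7211 / 10000) ^ 4 with hSv
  have hSv0 : 0 < Sv := by
    have : 0 ≤ 1 - e := by linarith
    have : 0 ≤ 1 - 2 * e := by linarith
    have : 0 ≤ 1 - 3 * e := by linarith
    positivity
  have hg' : 0 ≤ 4586 / 10000 + 81 / 1000 * e + 1 := by positivity
  have hK' : 0 ≤ 17182 / 10000 + 112 / 1000 * e := by positivity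
  calc 12 / 5 < (4586 / 10000 + 81 / 1000 * e + 1) * (17182 / 10000 + 112 / 1000 * e) * Sv :=
        hnum
    _ ≤ (1 + g) * K * A := by
        refine mul_le_mul (mul_le_mul (by linarith) hKl hK' (by linarith)) hA1
          hSv0.le (mul_nonneg (by linarith) (by linarith))
    _ = K * (1 + g) * A := by ring

/-- the value at a point of the family -/
private theorem Z1_pt (g W K A d : ℝ) (hd : d = W + 1 - g) (hWd : 0 < d) :
    K * (1 + g) * A * (1 - W / d) - (1 - g * (W / d)) =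
      (K * (1 + g) * A - (1 + W)) * ((1 - g) / d) := by
  subst hd
  field_simp
  ring

private theorem Z1_interp (F : ℝ → ℝ) (hF : ConcaveOn ℝ (Set.Icc (0 : ℝ) 1) F) (g t t1 : ℝ)
    (g0 : 0 ≤ g) (h1 : g < t) (h2 : t ≤ t1) (h3 : t1 ≤ 1) (hg : F g = 0) (ht : 0 < F t1) :
    0 < F t := by
  have hd : 0 < t1 - g := by linarith
  have hl0 : 0 < (t - g) / (t1 - g) := div_pos (by linarith) hd
  have hl1 : (t - g) / (t1 - g) ≤ 1 := by
    rw [div_le_one hd]; linarith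
  have hk : (t - g) / (t1 - g) * (t1 - g) = t - g := div_mul_cancel₀ _ hd.ne'
  generalize (t - g) / (t1 - g) = l at hl0 hl1 hk
  have h10 := hF.2 (show g ∈ Set.Icc (0 : ℝ) 1 from ⟨g0, by linarith⟩)
    (show t1 ∈ Set.Icc (0 : ℝ) 1 from ⟨by linarith, h3⟩)
    (show (0 : ℝ) ≤ 1 - l by linarith) hl0.le (by ring)
  have h11 : (1 - l) • g + l • t1 = t := by
    simp only [smul_eq_mul]
    linarith
  rw [h11, hg] at h10
  simp only [smul_eq_mul, mul_zero, zero_add] at h10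
  exact lt_of_lt_of_le (mul_pos hl0 ht) h10

theorem thm_Z1 (h : St_GKnum) : St_Z1 := by
  intro R g K W hG hgW hW
  obtain ⟨k1, -, k3, -⟩ := h R g K hG
  obtain ⟨hR, g0, g1, K0, e1, -⟩ := hG
  have hR4 : (4 : ℝ) ≤ R := by exact_mod_cast hR
  have hR0 : (0 : ℝ) < R := by linarith
  have hgl : 4586 / 10000 + 81 / 1000 * (1 / (R : ℝ)) ≤ g := by
    have h1 : 81 / 1000 * (1 / (R : ℝ)) = 81 / 1000 / (R : ℝ) := by ring
    rw [h1]; exact k1
  have hKl : 17182 / 10000 + 112 / 1000 * (1 / (R : ℝ)) ≤ K := by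
    have h1 : 112 / 1000 * (1 / (R : ℝ)) = 112 / 1000 / (R : ℝ) := by ring
    rw [h1]; exact k3
  have hWd : 0 < W + 1 - g := by linarith
  have hd1 : 0 < 7 / 5 + 1 - g := by linarith
  have he0 : 0 < 1 / (R : ℝ) := by positivity
  have hg4 : 4586 / 10000 ≤ g := by linarith
  -- the point tau1
  have ht1lo : 7211 / 10000 ≤ (7 / 5) / (7 / 5 + 1 - g) := by
    rw [le_div_iff₀ hd1]
    linarith
  have ht1hi : (7 / 5) / (7 / 5 + 1 - g) ≤ 1 := by
    rw [div_le_one hd1]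
    linarith
  have hc : 0 ≤ K * (1 + g) := by positivity
  have hconc := Z1_conc R hR g (K * (1 + g)) hc
  have hlo := Z1_lo R hR g K _ _ hgl hKl ht1lo rfl
  have hFg : K * (1 + g) * ((1 + g / R) ^ R - 1) * (1 - g) - (1 - g * g) = 0 := by
    rw [e1, add_sub_cancel_left]
    field_simp
    ring
  have hFt1 : 0 < K * (1 + g) * ((1 + (7 / 5) / (7 / 5 + 1 - g) / R) ^ R - 1) *
      (1 - (7 / 5) / (7 / 5 + 1 - g)) - (1 - g * ((7 / 5) / (7 / 5 + 1 - g))) := by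
    rw [Z1_pt g (7 / 5) K _ _ rfl hd1]
    refine mul_pos (by linarith) (div_pos (by linarith) hd1)
  have htg : g < W / (W + 1 - g) := by
    rw [lt_div_iff₀ hWd]
    nlinarith
  have htt1 : W / (W + 1 - g) ≤ (7 / 5) / (7 / 5 + 1 - g) := by
    rw [div_le_div_iff₀ hWd hd1]
    nlinarith
  have hFt := Z1_interp _ hconc g _ _ g0.le htg htt1 ht1hi hFg hFt1
  have hFt2 : 0 < K * (1 + g) * ((1 + W / (W + 1 - g) / R) ^ R - 1) * (1 - W / (W + 1 - g)) -
    (1 - g * (W / (W + 1 - g))) := hFt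
  rw [Z1_pt g W K _ _ rfl hWd] at hFt2
  have h15 : 0 < (1 - g) / (W + 1 - g) := div_pos (by linarith) hWd
  have h17 := (mul_pos_iff_of_pos_right h15).mp hFt2
  have hgoal : W / (R * (W + 1 - g)) = W / (W + 1 - g) / R := by
    rw [div_div, mul_comm]
  rw [hgoal, div_lt_iff₀ (by positivity)]
  linarith

end Pool.Agent.EMCW
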