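import Pool.Agent.EMCW.NumSt2

/-!
Zone 2: verified evaluation of the series `Nser` on boxes in `(e, W)`, `e = 1 / R`.
-/

open Finset

namespace Pool.Agent.EMCW

/-! ## Fixed point arithmetic -/

/-- The scale. -/
def zS : ℕ := 1000000

/-- The scale for `e`. -/
def zD : ℕ := 10000

/-- One factor `am`, rounded down. -/
def zst (n g w t l P : ℕ) : ℕ :=
  P * ((zD + (l - 1) * n) * w * zS) / ((w + t + l * zS - g) * zS * zD + n * (t + l * zS) * w)

/-- The minimum over the two ends of the range of `e`. -/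
def zmi (n1 n2 g w t l P : ℕ) : ℕ := min (zst n1 g w t l P) (zst n2 g w t l P)

/-- One term of the series, rounded down. -/
def ztm (hu t k P : ℕ) : ℕ := P + P * t * k / (2 * (hu + t + (k + 1) * zS))

/-- One step. -/
def zstep (n1 n2 g w hu t k : ℕ) (s : ℕ × ℕ) : ℕ × ℕ :=
  (zmi n1 n2 g w t (k + 1) s.1, s.2 + ztm hu t (k + 1) (zmi n1 n2 g w t (k + 1) s.1))

/-- The product and the partial sum, rounded down. -/
def zser (n1 n2 g w hu t : ℕ) : ℕ → ℕ × ℕ
  | 0 => (zS, 0)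
  | k + 1 => zstep n1 n2 g w hu t k (zser n1 n2 g w hu t k)

/-- Upper bound of `Y`. -/
def zY (g K w2 : ℕ) : ℕ := (zS + w2) * zS * zS / ((zS + g) * K) + 1

/-- The parameter `th`. -/
def zt (n1 w1 Y : ℕ) : ℕ :=
  if Y ≤ zS then 0 else (Y * Y * zD * zS + n1 * w1 * zS * zS) / ((zD * zS + n1 * w1) * Y) + 1 - zS

/-- Lower bound of `g`. -/
def zg (n1 : ℕ) : ℕ := 458600 + 81000 * n1 / zD

/-- Lower bound of `K`. -/
def zK (n1 : ℕ) : ℕ := 1718200 + 112000 * n1 / zD

/-- Upper bound of `(W - g) / (1 + e W)`. -/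
def zh (n1 w2 : ℕ) : ℕ := (w2 - zg n1) * zS * zD / (zD * zS + n1 * w2) + 1

/-- The test of a box. -/
def zbox (n1 n2 w1 w2 : ℕ) : Bool :=
  decide (zt n1 w1 (zY (zg n1) (zK n1) w2) < zS) && decide (zY (zg n1) (zK n1) w2 <
    (zser n1 n2 (zg n1) w1 (zh n1 w2) (zt n1 w1 (zY (zg n1) (zK n1) w2)) 14).2)

/-- The test of a chain of boxes in `W`. -/
def zchain (n1 n2 : ℕ) : List ℕ → Bool
  | [] => true
  | [_] => true
  | a :: b :: l => zbox n1 n2 a b && decide (a ≤ b) && zchain n1 n2 (b :: l)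

/-- The test of a chain of boxes in `e`. -/
def zall (W : List ℕ) : List ℕ → Bool
  | [] => true
  | [_] => true
  | a :: b :: l => zchain a b W && decide (a ≤ b) && zall W (b :: l)

/-! ## Soundness -/

private lemma am_pos {e g W th : ℝ} {l : ℕ} (hl : 1 ≤ l) (he : 0 ≤ e) (hg : g < 1) (hth : 0 ≤ th)
    (hW : 0 < W) : 0 < W - g + th + l + e * (th + l) * W := by
  have : (1 : ℝ) ≤ l := by exact_mod_cast hl
  have : 0 ≤ e * (th + l) * W := by positivity
  linarith

private lemma am_lb {e e1 e2 g g0 W w th : ℝ} {l : ℕ} (hl : 1 ≤ l) (he1 : 0 ≤ e1) (h1 : e1 ≤ e)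
    (h2 : e ≤ e2) (hg : g0 ≤ g) (hg1 : g < 1) (hth : 0 ≤ th) (hw : 0 < w) (hW : w ≤ W) :
    min (am e1 g0 w th l) (am e2 g0 w th l) ≤ am e g W th l := by
  have hl' : (1 : ℝ) ≤ l := by exact_mod_cast hl
  have he : 0 ≤ e := by linarith
  have p1 := am_pos (e := e) (g := g) (W := W) hl he hg1 hth (by linarith)
  have p2 := am_pos (e := e) (g := g0) (W := w) hl he (by linarith) hth hw
  have p3 := am_pos (e := e1) (g := g0) (W := w) hl he1 (by linarith) hth hw
  have p4 := am_pos (e := e2) (g := g0) (W := w) hl (by linarith) (by linarith) hth hw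
  -- monotonicity in `W`, `g`
  have s1 : am e g0 w th l ≤ am e g W th l := by
    unfold am
    rw [div_le_div_iff₀ p2 p1]
    have q : 0 ≤ 1 + ((l : ℝ) - 1) * e := by
      have : 0 ≤ ((l : ℝ) - 1) * e := mul_nonneg (by linarith) he
      linarith
    have q2 : w * (W - g + th + l + e * (th + l) * W) ≤ W * (w - g0 + th + l + e * (th + l) * w) := by
      have a1 : 0 ≤ w * (g - g0) := mul_nonneg hw.le (by linarith)
      have a2 : 0 ≤ (W - w) * (th + l - g0) := mul_nonneg (by linarith) (by linarith)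
      nlinarith
    calc (1 + ((l : ℝ) - 1) * e) * w * (W - g + th + l + e * (th + l) * W)
        = (1 + ((l : ℝ) - 1) * e) * (w * (W - g + th + l + e * (th + l) * W)) := by ring
      _ ≤ (1 + ((l : ℝ) - 1) * e) * (W * (w - g0 + th + l + e * (th + l) * w)) :=
          mul_le_mul_of_nonneg_left q2 q
      _ = _ := by ring
  refine le_trans ?_ s1
  -- Möbius in `e`
  by_cases hc : (th + l) * w ≤ ((l : ℝ) - 1) * (w - g0 + th + l)
  · refine (min_le_left _ _).trans ?_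
    unfold am
    rw [div_le_div_iff₀ p3 p2]
    have a1 : 0 ≤ (((l : ℝ) - 1) * (w - g0 + th + l) - (th + l) * w) * (e - e1) * w :=
      mul_nonneg (mul_nonneg (by linarith) (by linarith)) hw.le
    nlinarith
  · push Not at hc
    refine (min_le_right _ _).trans ?_
    unfold am
    rw [div_le_div_iff₀ p4 p2]
    have a1 : 0 ≤ ((th + l) * w - ((l : ℝ) - 1) * (w - g0 + th + l)) * (e2 - e) * w :=
      mul_nonneg (mul_nonneg (by linarith) (by linarith)) hw.le
    nlinarith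

private lemma zS_real : ((zS : ℕ) : ℝ) = 1000000 := by norm_num [zS]

private lemma zD_real : ((zD : ℕ) : ℝ) = 10000 := by norm_num [zD]

attribute [local irreducible] zS zD zst zmi ztm

private lemma zst_le {n g w t l P : ℕ} (hl : 1 ≤ l) (hg : g < zS) (hw : 0 < w) :
    (zst n g w t l P : ℝ) / zS ≤ (P : ℝ) / zS * am (n / zD) (g / zS) (w / zS) (t / zS) l := by
  have hS := zS_real
  have hD := zD_real
  have hgS : (g : ℝ) < zS := by exact_mod_cast hg
  have hl' : (1 : ℝ) ≤ l := by exact_mod_cast hl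
  have hw' : (0 : ℝ) < w := by exact_mod_cast hw
  have hg1 : (g : ℝ) / zS < 1 := by rw [div_lt_one (by rw [hS]; norm_num)]; exact hgS
  have p := am_pos (e := (n : ℝ) / zD) (g := (g : ℝ) / zS) (W := (w : ℝ) / zS) (th := (t : ℝ) / zS)
    hl (by positivity) hg1 (by positivity) (by rw [hS]; positivity)
  have hsub : g ≤ w + t + l * zS := by nlinarith
  have hden : (((w + t + l * zS - g) * zS * zD + n * (t + l * zS) * w : ℕ) : ℝ) =
      ((w : ℝ) / zS - g / zS + t / zS + l + n / zD * (t / zS + l) * (w / zS)) *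
        ((zS : ℝ) * zS * zD) := by
    push_cast [Nat.cast_sub hsub]
    rw [hS, hD]
    field_simp
    ring
  have hnum : ((P * ((zD + (l - 1) * n) * w * zS) : ℕ) : ℝ) =
      (P : ℝ) * ((1 + ((l : ℝ) - 1) * (n / zD)) * (w / zS)) * ((zS : ℝ) * zS * zD) := by
    push_cast [Nat.cast_sub hl]
    rw [hS, hD]
    field_simp
  have h0 : (zst n g w t l P : ℝ) ≤
      ((P * ((zD + (l - 1) * n) * w * zS) : ℕ) : ℝ) /
        (((w + t + l * zS - g) * zS * zD + n * (t + l * zS) * w : ℕ) : ℝ) := by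
    unfold zst
    exact Nat.cast_div_le
  rw [hnum, hden] at h0
  have hT : (0 : ℝ) < (zS : ℝ) * zS * zD := by rw [hS, hD]; norm_num
  rw [mul_div_mul_right _ _ hT.ne'] at h0
  have e1 : (P : ℝ) / zS * am (n / zD) (g / zS) (w / zS) (t / zS) l =
      (P : ℝ) * ((1 + ((l : ℝ) - 1) * (n / zD)) * (w / zS)) /
      ((w : ℝ) / zS - g / zS + t / zS + l + n / zD * (t / zS + l) * (w / zS)) / zS := by
    unfold am
    ring
  rw [e1]
  exact div_le_div_of_nonneg_right h0 (by rw [hS]; norm_num)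

private lemma zser_le {n1 n2 g0 w hu t : ℕ} {e g W : ℝ} (hg0 : g0 < zS) (hw : 0 < w)
    (h1 : (n1 : ℝ) / zD ≤ e) (h2 : e ≤ (n2 : ℝ) / zD) (hg : (g0 : ℝ) / zS ≤ g) (hg1 : g < 1)
    (hW : (w : ℝ) / zS ≤ W) (hWg : g ≤ W)
    (hh : (W - g) / (1 + e * W) ≤ (hu : ℝ) / zS) (m : ℕ) :
    ((zser n1 n2 g0 w hu t m).1 : ℝ) / zS ≤ ∏ l ∈ Icc 1 m, am e g W (t / zS) l ∧
    ((zser n1 n2 g0 w hu t m).2 : ℝ) / zS ≤ Nser e g W (t / zS) m := by
  have hS := zS_real
  have hD := zD_real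
  have hw' : (0 : ℝ) < w := by exact_mod_cast hw
  have he1 : (0 : ℝ) ≤ (n1 : ℝ) / zD := by rw [hD]; positivity
  have he : 0 ≤ e := he1.trans h1
  have hth : (0 : ℝ) ≤ (t : ℝ) / zS := by rw [hS]; positivity
  have hwS : (0 : ℝ) < (w : ℝ) / zS := by rw [hS]; positivity
  have hW0 : 0 < W := hwS.trans_le hW
  have hh0 : 0 ≤ (W - g) / (1 + e * W) := div_nonneg (by linarith) (by positivity)
  have hS0 : (0 : ℝ) < zS := by rw [hS]; norm_num
  induction m with
  | zero =>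
    have : zser n1 n2 g0 w hu t 0 = (zS, 0) := rfl
    rw [this]
    simp only [Nser, show Icc 1 0 = (∅ : Finset ℕ) from rfl, Finset.prod_empty, Finset.sum_empty]
    constructor
    · exact (div_self hS0.ne').le
    · simp
  | succ k ih =>
    obtain ⟨ih1, ih2⟩ := ih
    set P := (zser n1 n2 g0 w hu t k).1 with hPdef
    set T := (zser n1 n2 g0 w hu t k).2 with hTdef
    have hz : zser n1 n2 g0 w hu t (k + 1) = (zmi n1 n2 g0 w t (k + 1) P,
      T + ztm hu t (k + 1) (zmi n1 n2 g0 w t (k + 1) P)) := rfl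
    rw [hz]
    set P' := zmi n1 n2 g0 w t (k + 1) P with hP'
    have hP0 : (0 : ℝ) ≤ (P : ℝ) / zS := by positivity
    have hamp : 0 ≤ am e g W (t / zS) (k + 1) := by
      unfold am
      have p := am_pos (e := e) (g := g) (W := W) (th := (t : ℝ) / zS) (l := k + 1) (by omega) he
        hg1 hth hW0
      have q : (0 : ℝ) ≤ 1 + (((k + 1 : ℕ) : ℝ) - 1) * e := by
        push_cast
        have : (0 : ℝ) ≤ (k : ℝ) * e := by positivity
        linarith
      positivity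
    have hP2 : (P' : ℝ) / zS ≤ ∏ l ∈ Icc 1 (k + 1), am e g W (t / zS) l := by
      rw [Finset.prod_Icc_succ_top (by omega)]
      have hmin := am_lb (e := e) (e1 := (n1 : ℝ) / zD) (e2 := (n2 : ℝ) / zD) (g := g)
        (g0 := (g0 : ℝ) / zS) (W := W) (w := (w : ℝ) / zS) (th := (t : ℝ) / zS) (l := k + 1)
        (by omega) he1 h1 h2 hg hg1 hth hwS hW
      have a1 := zst_le (n := n1) (g := g0) (w := w) (t := t) (l := k + 1) (P := P) (by omega)
        hg0 hw
      have a2 := zst_le (n := n2) (g := g0) (w := w) (t := t) (l := k + 1) (P := P) (by omega)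
        hg0 hw
      have b1 : (P' : ℝ) ≤ zst n1 g0 w t (k + 1) P := by
        rw [hP', zmi]; exact_mod_cast min_le_left _ _
      have b2 : (P' : ℝ) ≤ zst n2 g0 w t (k + 1) P := by
        rw [hP', zmi]; exact_mod_cast min_le_right _ _
      have c1 : (P' : ℝ) / zS ≤ (P : ℝ) / zS *
          am ((n1 : ℝ) / zD) ((g0 : ℝ) / zS) ((w : ℝ) / zS) ((t : ℝ) / zS) (k + 1) :=
        (div_le_div_of_nonneg_right b1 hS0.le).trans a1
      have c2 : (P' : ℝ) / zS ≤ (P : ℝ) / zS *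
          am ((n2 : ℝ) / zD) ((g0 : ℝ) / zS) ((w : ℝ) / zS) ((t : ℝ) / zS) (k + 1) :=
        (div_le_div_of_nonneg_right b2 hS0.le).trans a2
      have c3 : (P' : ℝ) / zS ≤ (P : ℝ) / zS * am e g W (t / zS) (k + 1) := by
        rcases min_le_iff.mp hmin with hm | hm
        · exact c1.trans (mul_le_mul_of_nonneg_left hm hP0)
        · exact c2.trans (mul_le_mul_of_nonneg_left hm hP0)
      exact c3.trans (mul_le_mul_of_nonneg_right ih1 hamp)
    have hterm : ((ztm hu t (k + 1) P' : ℕ) : ℝ) / zS ≤ Nt e g W (t / zS) (k + 1) := by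
      rw [ztm]
      have d1 : ((P' * t * (k + 1) / (2 * (hu + t + (k + 1 + 1) * zS)) : ℕ) : ℝ) ≤
          ((P' * t * (k + 1) : ℕ) : ℝ) / ((2 * (hu + t + (k + 1 + 1) * zS) : ℕ) : ℝ) :=
        Nat.cast_div_le
      have hPS : (0 : ℝ) ≤ (P' : ℝ) / zS := by positivity
      have d2 : ((P' + P' * t * (k + 1) / (2 * (hu + t + (k + 1 + 1) * zS)) : ℕ) : ℝ) / zS ≤
          (P' : ℝ) / zS * (1 + (t / zS) / 2 * ((k + 1 : ℕ) : ℝ) /
            ((hu : ℝ) / zS + t / zS + ((k + 1 : ℕ) : ℝ) + 1)) := by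
        have e1 : (P' : ℝ) / zS * (1 + (t / zS) / 2 * ((k + 1 : ℕ) : ℝ) /
            ((hu : ℝ) / zS + t / zS + ((k + 1 : ℕ) : ℝ) + 1)) =
            ((P' : ℝ) + ((P' * t * (k + 1) : ℕ) : ℝ) /
              ((2 * (hu + t + (k + 1 + 1) * zS) : ℕ) : ℝ)) / zS := by
          push_cast
          rw [hS]
          have : (0 : ℝ) < (hu : ℝ) + t + (k + 1 + 1) * 1000000 := by positivity
          field_simp
          ring
        rw [e1]
        push_cast
        push_cast at d1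
        gcongr
      refine d2.trans ?_
      unfold Nt
      have f1 : (0 : ℝ) ≤ 1 + (t / zS) / 2 * ((k + 1 : ℕ) : ℝ) /
            ((hu : ℝ) / zS + t / zS + ((k + 1 : ℕ) : ℝ) + 1) := by positivity
      have f2 : 1 + (t / zS) / 2 * ((k + 1 : ℕ) : ℝ) /
            ((hu : ℝ) / zS + t / zS + ((k + 1 : ℕ) : ℝ) + 1) ≤
          1 + (t / zS) / 2 * ((k + 1 : ℕ) : ℝ) /
            ((W - g) / (1 + e * W) + t / zS + ((k + 1 : ℕ) : ℝ) + 1) := by
        have : (0 : ℝ) < (W - g) / (1 + e * W) + t / zS + ((k + 1 : ℕ) : ℝ) + 1 := by positivity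
        gcongr
      exact mul_le_mul hP2 f2 f1 (hPS.trans hP2)
    refine ⟨hP2, ?_⟩
    have hN : Nser e g W (t / zS) (k + 1) = Nser e g W (t / zS) k + Nt e g W (t / zS) (k + 1) := by
      unfold Nser
      rw [Finset.sum_Icc_succ_top (by omega)]
    rw [hN, Nat.cast_add, add_div]
    linarith

/-- Real division against natural division. -/
private lemma div_lt_succ (a b : ℕ) (hb : 0 < b) : (a : ℝ) / b < ((a / b + 1 : ℕ) : ℝ) := by
  rw [div_lt_iff₀ (by exact_mod_cast hb)]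
  have := Nat.lt_mul_of_div_lt (Nat.lt_succ_self (a / b)) hb
  rw [Nat.succ_eq_add_one] at this
  exact_mod_cast this

private lemma zg_real (n1 : ℕ) : (zg n1 : ℝ) / zS ≤ 4586 / 10000 + 81 / 1000 * (n1 / zD) := by
  have h : ((81000 * n1 / zD : ℕ) : ℝ) ≤ ((81000 * n1 : ℕ) : ℝ) / (zD : ℕ) := Nat.cast_div_le
  rw [zD_real] at *
  push_cast at h
  rw [zg, zS_real, Nat.cast_add]
  push_cast
  rw [div_le_iff₀ (by norm_num)]
  linarith

private lemma zK_real (n1 : ℕ) : (zK n1 : ℝ) / zS ≤ 17182 / 10000 + 112 / 1000 * (n1 / zD) := by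
  have h : ((112000 * n1 / zD : ℕ) : ℝ) ≤ ((112000 * n1 : ℕ) : ℝ) / (zD : ℕ) := Nat.cast_div_le
  rw [zD_real] at *
  push_cast at h
  rw [zK, zS_real, Nat.cast_add]
  push_cast
  rw [div_le_iff₀ (by norm_num)]
  linarith

private lemma zY_real {g K w2 : ℕ} (hK : 0 < K) {gr Kr W : ℝ} (hg : (g : ℝ) / zS ≤ gr)
    (hKr : (K : ℝ) / zS ≤ Kr) (hW : W ≤ (w2 : ℝ) / zS) :
    (1 + W) / ((1 + gr) * Kr) < (zY g K w2 : ℝ) / zS := by
  have hS := zS_real
  have hS0 : (0 : ℝ) < zS := by rw [hS]; norm_num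
  have hSn : 0 < zS := by exact_mod_cast hS0
  have hK' : (0 : ℝ) < K := by exact_mod_cast hK
  have h1 := div_lt_succ ((zS + w2) * zS * zS) ((zS + g) * K) (by positivity)
  have h2 : (1 + W) / ((1 + gr) * Kr) ≤ (1 + (w2 : ℝ) / zS) / ((1 + (g : ℝ) / zS) * (K / zS)) := by
    have : (0 : ℝ) < (1 + (g : ℝ) / zS) * (K / zS) := by positivity
    have hgr : (0 : ℝ) ≤ gr := le_trans (by positivity) hg
    gcongr
  refine h2.trans_lt ?_
  have h3 : (1 + (w2 : ℝ) / zS) / ((1 + (g : ℝ) / zS) * (K / zS)) =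
      (((zS + w2) * zS * zS : ℕ) : ℝ) / (((zS + g) * K : ℕ) : ℝ) / zS := by
    push_cast
    field_simp
  rw [h3, zY]
  exact div_lt_div_of_pos_right h1 hS0

private lemma zh_real {n1 w2 : ℕ} {e g W : ℝ} (hgw : zg n1 ≤ w2) (h1 : (n1 : ℝ) / zD ≤ e)
    (hg : (zg n1 : ℝ) / zS ≤ g) (hW0 : 0 < W) (hW : W ≤ (w2 : ℝ) / zS) :
    (W - g) / (1 + e * W) ≤ (zh n1 w2 : ℝ) / zS := by
  have hS := zS_real
  have hD := zD_real
  have hS0 : (0 : ℝ) < zS := by rw [hS]; norm_num
  have hD0 : (0 : ℝ) < zD := by rw [hD]; norm_num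
  have hSn : 0 < zS := by exact_mod_cast hS0
  have hDn : 0 < zD := by exact_mod_cast hD0
  have h1' := div_lt_succ ((w2 - zg n1) * zS * zD) (zD * zS + n1 * w2) (by positivity)
  have he1 : (0 : ℝ) ≤ (n1 : ℝ) / zD := by positivity
  have h3 : (((w2 - zg n1) * zS * zD : ℕ) : ℝ) / ((zD * zS + n1 * w2 : ℕ) : ℝ) / zS =
      ((w2 : ℝ) / zS - (zg n1 : ℝ) / zS) / (1 + (n1 : ℝ) / zD * (w2 / zS)) := by
    push_cast [Nat.cast_sub hgw]
    have : (0 : ℝ) < (zD : ℝ) * zS + n1 * w2 := by positivity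
    field_simp
  have h4 : (W - g) / (1 + e * W) ≤
      ((w2 : ℝ) / zS - (zg n1 : ℝ) / zS) / (1 + (n1 : ℝ) / zD * (w2 / zS)) := by
    have p1 : 0 < 1 + e * W := by
      have : 0 ≤ e * W := mul_nonneg (he1.trans h1) hW0.le
      linarith
    have hw2 : (0 : ℝ) ≤ (w2 : ℝ) / zS := by positivity
    have p2 : 0 < 1 + (n1 : ℝ) / zD * (w2 / zS) := by positivity
    have q0 : (0 : ℝ) ≤ (zg n1 : ℝ) / zS := by positivity
    have q1 : (zg n1 : ℝ) / zS ≤ (w2 : ℝ) / zS := by gcongr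
    rw [div_le_div_iff₀ p1 p2]
    set a := (w2 : ℝ) / zS
    set b := (zg n1 : ℝ) / zS
    set e1 := (n1 : ℝ) / zD
    have r1 : (W - g) * (1 + e1 * a) ≤ (W - b) * (1 + e1 * a) :=
      mul_le_mul_of_nonneg_right (by linarith) p2.le
    have r2 : (W - b) * (1 + e1 * a) ≤ (a - b) * (1 + e1 * W) := by
      have : 0 ≤ (a - W) * (1 + e1 * b) := mul_nonneg (by linarith) (by positivity)
      nlinarith
    have r3 : (a - b) * (1 + e1 * W) ≤ (a - b) * (1 + e * W) :=
      mul_le_mul_of_nonneg_left (by nlinarith) (by linarith)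
    linarith
  refine h4.trans ?_
  rw [← h3, zh]
  exact (div_lt_div_of_pos_right h1' hS0).le

private lemma zt_real {n1 w1 Y : ℕ} {e W y : ℝ} (hy : y ≤ (Y : ℝ) / zS) (hy0 : 0 < y)
    (h1 : (n1 : ℝ) / zD ≤ e) (he : e ≤ 1 / 4) (hW : (w1 : ℝ) / zS ≤ W) (hyW : (1 + W) / 4 ≤ y) :
    y + e * W / y ≤ (1 + e * W) * (1 + (zt n1 w1 Y : ℝ) / zS) := by
  have hS := zS_real
  have hD := zD_real
  have hS0 : (0 : ℝ) < zS := by rw [hS]; norm_num
  have hD0 : (0 : ℝ) < zD := by rw [hD]; norm_num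
  have hSn : 0 < zS := by exact_mod_cast hS0
  have hDn : 0 < zD := by exact_mod_cast hD0
  have he1 : (0 : ℝ) ≤ (n1 : ℝ) / zD := by positivity
  have hw1 : (0 : ℝ) ≤ (w1 : ℝ) / zS := by positivity
  have hW0 : 0 ≤ W := hw1.trans hW
  have hV0 : 0 ≤ e * W := mul_nonneg (he1.trans h1) hW0
  have hV : e * W ≤ W / 4 := by nlinarith
  by_cases hY : Y ≤ zS
  · have ht : zt n1 w1 Y = 0 := by rw [zt, if_pos hY]
    have hy1 : y ≤ 1 := hy.trans (by
      rw [div_le_one hS0]; exact_mod_cast hY)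
    rw [ht]
    simp only [Nat.cast_zero, zero_div, add_zero, mul_one]
    have h2 : e * W / y ≤ 1 + e * W - y := by
      rw [div_le_iff₀ hy0]
      nlinarith [mul_nonneg (by linarith : 0 ≤ 1 - y) (by linarith : 0 ≤ y - e * W)]
    linarith
  · push Not at hY
    have ht : zt n1 w1 Y = (Y * Y * zD * zS + n1 * w1 * zS * zS) / ((zD * zS + n1 * w1) * Y) + 1
      - zS := by rw [zt, if_neg (by omega)]
    have hYn : 0 < Y := by omega
    have hY0 : (0 : ℝ) < Y := by exact_mod_cast hYn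
    have hY1 : (1 : ℝ) < (Y : ℝ) / zS := by
      rw [one_lt_div hS0]; exact_mod_cast hY
    have h3 := div_lt_succ (Y * Y * zD * zS + n1 * w1 * zS * zS) ((zD * zS + n1 * w1) * Y)
      (by positivity)
    have h4 : (((Y * Y * zD * zS + n1 * w1 * zS * zS) / ((zD * zS + n1 * w1) * Y) + 1 : ℕ) : ℝ) ≤
        (zt n1 w1 Y : ℝ) + zS := by
      have : ∀ X : ℕ, X ≤ (X - zS) + zS := fun X => by omega
      rw [ht]
      exact_mod_cast this _
    have h5 := h3.trans_le h4
    -- in real terms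
    set Y2 : ℝ := (Y : ℝ) / zS with hY2
    set V1 : ℝ := (n1 : ℝ) / zD * (w1 / zS) with hV1
    have hV10 : 0 ≤ V1 := by positivity
    have h6 : (((Y * Y * zD * zS + n1 * w1 * zS * zS : ℕ) : ℝ)) /
        (((zD * zS + n1 * w1) * Y : ℕ) : ℝ) = (Y2 ^ 2 + V1) / ((1 + V1) * Y2) * zS := by
      rw [hY2, hV1]
      push_cast
      have : (0 : ℝ) < (zD : ℝ) * zS + n1 * w1 := by positivity
      field_simp
    rw [h6] at h5
    have h7 : (Y2 ^ 2 + V1) / ((1 + V1) * Y2) < 1 + (zt n1 w1 Y : ℝ) / zS := by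
      have : (1 + (zt n1 w1 Y : ℝ) / zS) = ((zt n1 w1 Y : ℝ) + zS) / zS := by
        field_simp; ring
      rw [this, lt_div_iff₀ hS0]
      exact h5
    set th : ℝ := (zt n1 w1 Y : ℝ) / zS with hth
    have hth0 : 0 ≤ th := by positivity
    have hY20 : 0 < Y2 := by positivity
    rw [div_lt_iff₀ (by positivity)] at h7
    -- `Y2 + V1 / Y2 ≤ (1 + V1) (1 + th)`
    have hV1V : V1 ≤ e * W := by
      rw [hV1]
      exact mul_le_mul h1 hW hw1 (he1.trans h1)
    have h8 : Y2 ^ 2 + e * W ≤ (1 + th) * ((1 + e * W) * Y2) := by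
      have : (e * W - V1) * 1 ≤ (e * W - V1) * ((1 + th) * Y2) :=
        mul_le_mul_of_nonneg_left (by nlinarith) (by linarith)
      nlinarith
    have h9 : Y2 + e * W / Y2 ≤ (1 + e * W) * (1 + th) := by
      have : Y2 + e * W / Y2 = (Y2 ^ 2 + e * W) / Y2 := by field_simp
      rw [this, div_le_iff₀ hY20]
      linarith
    have h10 : y + e * W / y ≤ Y2 + e * W / Y2 := by
      have hprod : e * W ≤ y * Y2 := by
        have a1 : y * y ≤ y * Y2 := mul_le_mul_of_nonneg_left hy hy0.le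
        have a2 : (1 + W) / 4 * ((1 + W) / 4) ≤ y * y :=
          mul_le_mul hyW hyW (by linarith) hy0.le
        have a3 : W / 4 ≤ (1 + W) / 4 * ((1 + W) / 4) := by nlinarith only [sq_nonneg (1 - W)]
        linarith
      have h11 : e * W / y - e * W / Y2 ≤ Y2 - y := by
        rw [div_sub_div _ _ hy0.ne' hY20.ne', div_le_iff₀ (by positivity)]
        have a4 := mul_nonneg (sub_nonneg.mpr hy) (sub_nonneg.mpr hprod)
        have a5 : (Y2 - y) * (y * Y2 - e * W) = (Y2 - y) * (y * Y2) - (e * W * Y2 - y * (e * W)) := by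
          ring
        linarith
      linarith
    linarith

private lemma zbox_sound {n1 n2 w1 w2 : ℕ} (hn : n1 ≤ 2500) (hw1 : 1390000 ≤ w1)
    (hb : zbox n1 n2 w1 w2 = true) {e g K W : ℝ}
    (h1 : (n1 : ℝ) / zD ≤ e) (h2 : e ≤ (n2 : ℝ) / zD) (he : e ≤ 1 / 4)
    (hg : 4586 / 10000 + 81 / 1000 * e ≤ g) (hg1 : g ≤ 1 / 2)
    (hK : 17182 / 10000 + 112 / 1000 * e ≤ K) (hK2 : K ≤ 2)
    (hW1 : (w1 : ℝ) / zS ≤ W) (hW2 : W ≤ (w2 : ℝ) / zS) :
    ∃ th : ℝ, 0 ≤ th ∧ th < 1 ∧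
      (1 + W) / ((1 + g) * K) + e * W / ((1 + W) / ((1 + g) * K)) ≤ (1 + e * W) * (1 + th) ∧
      (1 + W) / ((1 + g) * K) < Nser e g W th 14 := by
  have hS := zS_real
  have hD := zD_real
  have hS0 : (0 : ℝ) < zS := by rw [hS]; norm_num
  have hD0 : (0 : ℝ) < zD := by rw [hD]; norm_num
  have he1 : (0 : ℝ) ≤ (n1 : ℝ) / zD := by positivity
  have he0 : 0 ≤ e := he1.trans h1
  rw [zbox, Bool.and_eq_true, decide_eq_true_eq, decide_eq_true_eq] at hb
  obtain ⟨hb1, hb2⟩ := hb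
  set Y := zY (zg n1) (zK n1) w2 with hYdef
  set t := zt n1 w1 Y with htdef
  have hgS : zg n1 < zS := by
    have h := zg_real n1
    have h' : (n1 : ℝ) ≤ 2500 := by exact_mod_cast hn
    have : (zg n1 : ℝ) / zS < 1 := by
      refine h.trans_lt ?_
      rw [hD]
      linarith
    rw [div_lt_one hS0] at this
    exact_mod_cast this
  have hKpos : 0 < zK n1 := Nat.lt_of_lt_of_le (by norm_num) (Nat.le_add_right _ _)
  have hgl : (zg n1 : ℝ) / zS ≤ g := (zg_real n1).trans (by linarith)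
  have hKl : (zK n1 : ℝ) / zS ≤ K := (zK_real n1).trans (by linarith)
  have hw1r : (1390000 : ℝ) ≤ w1 := by exact_mod_cast hw1
  have hW14 : 139 / 100 ≤ W := by
    refine le_trans ?_ hW1
    rw [hS, le_div_iff₀ (by norm_num)]
    linarith
  have hW0 : 0 < W := by linarith
  have hg0 : 0 ≤ g := by linarith
  have hK0 : 0 < K := by linarith
  have hy := zY_real (w2 := w2) hKpos hgl hKl hW2
  rw [← hYdef] at hy
  have hden : 0 < (1 + g) * K := by positivity
  have hden4 : (1 + g) * K ≤ 4 := by nlinarith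
  have hy0 : 0 < (1 + W) / ((1 + g) * K) := by positivity
  have hyW : (1 + W) / 4 ≤ (1 + W) / ((1 + g) * K) := by gcongr
  have hgw : zg n1 ≤ w2 := by
    have h3 : (w1 : ℝ) / zS ≤ (w2 : ℝ) / zS := hW1.trans hW2
    have h4 : (w1 : ℝ) ≤ w2 := by
      rwa [div_le_div_iff_of_pos_right hS0] at h3
    have h5 : w1 ≤ w2 := by exact_mod_cast h4
    have h6 : zS = 1000000 := by exact_mod_cast hS
    omega
  have hh := zh_real hgw h1 hgl hW0 hW2
  have hser := (zser_le (n1 := n1) (n2 := n2) (g0 := zg n1) (w := w1) (hu := zh n1 w2) (t := t)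
    hgS (by omega) h1 h2 hgl (by linarith) hW1 (by linarith) hh 14).2
  refine ⟨(t : ℝ) / zS, by positivity, ?_, ?_, ?_⟩
  · rw [div_lt_one hS0]; exact_mod_cast hb1
  · exact zt_real hy.le hy0 h1 he hW1 hyW
  · refine hy.trans (lt_of_lt_of_le ?_ hser)
    have : (Y : ℝ) < ((zser n1 n2 (zg n1) w1 (zh n1 w2) t 14).2 : ℝ) := by exact_mod_cast hb2
    exact div_lt_div_of_pos_right this hS0

/-- The conclusion on a box. -/
private def Zok (e g K W : ℝ) : Prop := ∃ th : ℝ, 0 ≤ th ∧ th < 1 ∧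
  (1 + W) / ((1 + g) * K) + e * W / ((1 + W) / ((1 + g) * K)) ≤ (1 + e * W) * (1 + th) ∧
  (1 + W) / ((1 + g) * K) < Nser e g W th 14

private lemma zchain_sound {n1 n2 : ℕ} (hn : n1 ≤ 2500) (l : List ℕ) :
    ∀ a b : ℕ, 1390000 ≤ a → (a :: l).getLast? = some b →
    zchain n1 n2 (a :: l) = true → ∀ {e g K W : ℝ},
    (n1 : ℝ) / zD ≤ e → e ≤ (n2 : ℝ) / zD → e ≤ 1 / 4 →
    4586 / 10000 + 81 / 1000 * e ≤ g → g ≤ 1 / 2 →
    17182 / 10000 + 112 / 1000 * e ≤ K → K ≤ 2 →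
    (a : ℝ) / zS < W → W ≤ (b : ℝ) / zS → Zok e g K W := by
  induction l with
  | nil =>
    intro a b _ hb _ e g K W _ _ _ _ _ _ _ hW1 hW2
    simp only [List.getLast?_singleton, Option.some.injEq] at hb
    rw [hb] at hW1
    exact absurd hW1 (not_lt.mpr hW2)
  | cons c l ih =>
    intro a b ha hb hc e g K W h1 h2 he hg hg1 hK hK2 hW1 hW2
    rw [List.getLast?_cons_cons] at hb
    have hc' : (zbox n1 n2 a c && decide (a ≤ c) && zchain n1 n2 (c :: l)) = true := hc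
    rw [Bool.and_eq_true, Bool.and_eq_true, decide_eq_true_eq] at hc'
    obtain ⟨⟨hc1, hc2⟩, hc3⟩ := hc'
    by_cases hWc : W ≤ (c : ℝ) / zS
    · exact zbox_sound hn ha hc1 h1 h2 he hg hg1 hK hK2 hW1.le hWc
    · push Not at hWc
      exact ih c b (by omega) hb hc3 h1 h2 he hg hg1 hK hK2 hWc hW2

private lemma zall_sound {w b : ℕ} {Wl : List ℕ} (hw : 1390000 ≤ w)
    (hWl : (w :: Wl).getLast? = some b) (l : List ℕ) :
    ∀ m n : ℕ, (m :: l).getLast? = some n → (∀ x ∈ m :: l, x ≤ 2500) →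
    zall (w :: Wl) (m :: l) = true → ∀ {e g K W : ℝ},
    (m : ℝ) / zD < e → e ≤ (n : ℝ) / zD → e ≤ 1 / 4 →
    4586 / 10000 + 81 / 1000 * e ≤ g → g ≤ 1 / 2 →
    17182 / 10000 + 112 / 1000 * e ≤ K → K ≤ 2 →
    (w : ℝ) / zS < W → W ≤ (b : ℝ) / zS → Zok e g K W := by
  induction l with
  | nil =>
    intro m n hn _ _ e g K W h1 h2
    simp only [List.getLast?_singleton, Option.some.injEq] at hn
    rw [hn] at h1
    exact absurd h1 (not_lt.mpr h2)
  | cons c l ih =>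
    intro m n hn hle hc e g K W h1 h2 he hg hg1 hK hK2 hW1 hW2
    rw [List.getLast?_cons_cons] at hn
    have hc' : (zchain m c (w :: Wl) && decide (m ≤ c) && zall (w :: Wl) (c :: l)) = true := hc
    rw [Bool.and_eq_true, Bool.and_eq_true, decide_eq_true_eq] at hc'
    obtain ⟨⟨hc1, hc2⟩, hc3⟩ := hc'
    by_cases hec : e ≤ (c : ℝ) / zD
    · exact zchain_sound (hle m (by simp)) Wl w b hw hWl hc1 h1.le hec he hg hg1 hK hK2 hW1 hW2
    · push Not at hec
      exact ih c n hn (fun x hx => hle x (List.mem_cons_of_mem _ hx)) hc3 hec h2 he hg hg1 hK hK2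
        hW1 hW2

/-! ## The tests -/

private lemma ztest1 : zall [1390000, 1776000, 2098000, 2345000, 2523000, 2647000, 2731000, 2788000,
    2825000, 2850000] [1240, 1450, 1660, 1870, 2080, 2290, 2500] = true := by
  decide +kernel

private lemma ztest2 : zall [1390000, 1828000, 2190000, 2461000, 2652000, 2781000, 2865000, 2920000,
    2955000, 2977000, 2991000, 3000000]
    [0, 80, 160, 240, 320, 400, 480, 560, 640, 720, 800, 880, 960, 1040, 1112] = true := by
  decide +kernel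

theorem thm_Z2 (hG : St_GKnum) : St_Z2 := by
  intro R g K W h hW1 hW2
  obtain ⟨g1, g2, K1, K2⟩ := hG R g K h
  have hS := zS_real
  have hD := zD_real
  have hR : (4 : ℝ) ≤ R := by exact_mod_cast h.hR
  have hR0 : (0 : ℝ) < R := by linarith
  have he4 : (1 : ℝ) / R ≤ 1 / 4 := by gcongr
  have he0 : (0 : ℝ) < 1 / R := by positivity
  have hg : 4586 / 10000 + 81 / 1000 * (1 / R : ℝ) ≤ g := by
    have : (81 : ℝ) / 1000 / R = 81 / 1000 * (1 / R) := by ring
    linarith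
  have hg1 : g ≤ 1 / 2 := by
    have : (822 : ℝ) / 10000 / R = 822 / 10000 * (1 / R) := by ring
    linarith
  have hK : 17182 / 10000 + 112 / 1000 * (1 / R : ℝ) ≤ K := by
    have : (112 : ℝ) / 1000 / R = 112 / 1000 * (1 / R) := by ring
    linarith
  have hK2 : K ≤ 2 := by
    have : (1165 : ℝ) / 10000 / R = 1165 / 10000 * (1 / R) := by ring
    linarith
  have key : Zok (1 / R) g K W := by
    by_cases hR8 : R ≤ 8
    · have hW2' : W ≤ 57 / 20 := by
        have : W2 R = 57 / 20 := by unfold W2; rw [if_pos hR8]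
        linarith
      have hR8' : (R : ℝ) ≤ 8 := by exact_mod_cast hR8
      have he8 : (1 : ℝ) / 8 ≤ 1 / R := by gcongr
      refine zall_sound (w := 1390000) (b := 2850000) le_rfl (by rfl) _ 1240 2500 (by rfl)
        (by decide) ztest1 ?_ ?_ he4 hg hg1 hK hK2 ?_ ?_
      · rw [hD]; push_cast; linarith
      · rw [hD]; push_cast; linarith
      · rw [hS]; push_cast; linarith
      · rw [hS]; push_cast; linarith
    · have hW2' : W ≤ 3 := by
        have : W2 R = 3 := by unfold W2; rw [if_neg hR8]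
        linarith
      have hR9 : (9 : ℝ) ≤ R := by
        have : 9 ≤ R := by omega
        exact_mod_cast this
      have he9 : (1 : ℝ) / R ≤ 1 / 9 := by gcongr
      refine zall_sound (w := 1390000) (b := 3000000) le_rfl (by rfl) _ 0 1112 (by rfl)
        (by decide) ztest2 ?_ ?_ he4 hg hg1 hK hK2 ?_ ?_
      · rw [hD]; push_cast; linarith
      · rw [hD]; push_cast; linarith
      · rw [hS]; push_cast; linarith
      · rw [hS]; push_cast; linarith
  obtain ⟨th, h0, h1, h2, h3⟩ := key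
  refine ⟨th, h0, h1, ?_, h3⟩
  have e1 : W / (R * ((1 + W) / ((1 + g) * K))) = 1 / R * W / ((1 + W) / ((1 + g) * K)) := by
    rw [one_div_mul_eq_div, div_div]
  have e2 : W / R = 1 / R * W := by ring
  rw [e1, e2]
  exact h2

end Pool.Agent.EMCW
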