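import Pool.Agent.EMCW.St
import Pool.Agent.EMC.All.Defs

/-!
The interface with the Erdős matching conjecture: identically distributed variables with arbitrary
mean, given by weights of uniform points of a finite set.
-/

open Finset

namespace Pool.Agent.EMCW

open Pool.Agent.EMC

/-- The tuple sum `qS` and the walk operator. -/
def St_Brg : Prop := ∀ (R : ℕ) (M : ℝ) (Y : Finset ℕ) (w : ℕ → ℝ), 0 < M → Y.Nonempty →
  qS R Y w = 1 - pp R M (fun _ : Y => 1 / (Y.card : ℝ)) (fun v : Y => M * w v)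

/-- Stability for identically distributed variables, every mean. -/
def St_FS : Prop := ∀ (R : ℕ) (g K tau : ℝ), GK R g K → 0 < tau → ∃ et : ℝ, 0 < et ∧
  ∀ (Y : Finset ℕ) (w : ℕ → ℝ) (x : ℝ), Y.Nonempty → (∀ v ∈ Y, 0 ≤ w v) → (∀ v ∈ Y, w v ≤ 1) →
    ∑ v ∈ Y, w v = x * Y.card →
    qS R Y w ≤ (1 - x) ^ R + et → qS R Y w ≤ 1 - (R * x) ^ R + et →
    ∑ v ∈ Y, w v * (1 - w v) ≤ tau * Y.card ∨
    (∑ v ∈ Y, w v * |w v - 1 / R| ≤ tau * Y.card ∧ 1 / (R + g) - tau ≤ x)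

end Pool.Agent.EMCW
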