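import Pool.Agent.EMCW.NumDefs

/-!
The statements of the numerical part of the window theorem.
-/

open Finset

namespace Pool.Agent.EMCW

/-- Existence of the critical parameters. -/
def St_GKex : Prop := ∀ R : ℕ, 4 ≤ R → ∃ g K : ℝ, GK R g K

/-- Enclosures for the critical parameters. -/
def St_GKnum : Prop := ∀ (R : ℕ) (g K : ℝ), GK R g K →
  4586 / 10000 + 81 / 1000 / R ≤ g ∧ g ≤ 4588 / 10000 + 822 / 10000 / R ∧
  17182 / 10000 + 112 / 1000 / R ≤ K ∧ K ≤ 17184 / 10000 + 1165 / 10000 / R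

/-- Zone 1. -/
def St_Z1 : Prop := ∀ (R : ℕ) (g K W : ℝ), GK R g K → g < W → W ≤ 7 / 5 →
  (1 + W) / ((1 + g) * K) < (1 + W / (R * (W + 1 - g))) ^ R - 1

/-- Zone 2. -/
def St_Z2 : Prop := ∀ (R : ℕ) (g K W : ℝ), GK R g K → 7 / 5 ≤ W → W ≤ W2 R →
  ∃ th : ℝ, 0 ≤ th ∧ th < 1 ∧
    (1 + W) / ((1 + g) * K) + W / (R * ((1 + W) / ((1 + g) * K))) ≤ (1 + W / R) * (1 + th) ∧
    (1 + W) / ((1 + g) * K) < Nser (1 / R) g W th 14

/-- Zone 3, the ridge. -/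
def St_Ridge : Prop := ∀ (R : ℕ) (g K y : ℝ), GK R g K → 13 / 10 ≤ y → y < R + g - 1 →
  Pb R g (R * ((y - g) / (R - 1)) * y) (y - (y - g) / (R - 1)) (y + 1 - g) < K * y

/-- Zone 3, the ridge, the end point. -/
def St_RidgeEnd : Prop := ∀ (R : ℕ) (g K : ℝ), GK R g K →
  Pb R g (R * (R + g - 1)) (R + g - 1 - 1) R = K * (R + g - 1)

/-- Zone 3, the other end of the curve. -/
def St_Alpha1 : Prop := ∀ (R : ℕ) (g K y : ℝ), GK R g K → W2 R ≤ y * (y + 1 - g) →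
  y < R + g - 1 → 0 < y →
  Pb R g (y * (y + 1 - g)) (y * (y + 1 - g) / R - 1) (y + 1 - g) < K * y

/-- Zone 3, the curve. -/
def St_Curve : Prop := ∀ (R : ℕ) (g K y W j : ℝ), GK R g K → W2 R ≤ y * (y + 1 - g) →
  y < R + g - 1 → 0 < y → R * ((y - g) / (R - 1)) * y ≤ W → W ≤ y * (y + 1 - g) →
  W / R - 1 ≤ j → j ≤ (1 + y) * (y + 1 - g) - 1 - W * ((1 + y) / y - 1 / R) →
  Pb R g W j (y + 1 - g) < K * y

/-- The numerical theorem. -/
def St_NUM : Prop := ∀ (R : ℕ) (g K W y al be : ℝ), GK R g K → Con R g K W y al be →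
  W = g ∨ W = R * (R + g - 1)

end Pool.Agent.EMCW
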