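import Pool.Agent.EMCW.NumSt2

namespace Pool.Agent.EMCW

theorem thm_Alpha1 (hG : St_GKnum) (hp : St_A1pos) (hS : St_A1negS) (hM : St_A1negM)
    (hL : St_A1negL) : St_Alpha1 := by
  intro R g K y h hy hys hy0
  obtain ⟨g1, g2, K1, K2⟩ := hG R g K h
  have hR : (4 : ℝ) ≤ R := by exact_mod_cast h.hR
  have hR0 : (0 : ℝ) < R := by linarith
  have hg0 := h.g0
  have hg1 := h.g1
  -- y > g and y ≥ 1.3
  have hg47 : g ≤ 1 / 2 := by
    have : (822 : ℝ) / 10000 / R ≤ 822 / 10000 / 4 := by gcongr
    linarith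
  have hgl : (4586 : ℝ) / 10000 ≤ g := by
    have : (0 : ℝ) ≤ 81 / 1000 / R := by positivity
    linarith
  have hWge : (57 : ℝ) / 20 ≤ W2 R := by
    unfold W2; split_ifs <;> norm_num
  have hy13 : 13 / 10 ≤ y := by
    by_contra hc
    push Not at hc
    nlinarith
  set v : ℝ := (y + 1 - g) / R - (1 + g) / y with hv
  have key : (y - g) * (y + 1 - g) * E2 R v < y * ((K - 1) * y - (1 - g)) := by
    by_cases hv0 : 0 ≤ v
    · exact hp R g K y h hy13 hys hv0
    · push Not at hv0
      by_cases hR8 : R ≤ 8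
      · refine hS R g K y h hR8 hy0 ?_ hv0.le
        have : W2 R = 57 / 20 := by unfold W2; rw [if_pos hR8]
        linarith
      · have hW3 : W2 R = 3 := by unfold W2; rw [if_neg hR8]
        by_cases hR16 : R ≤ 16
        · exact hM R g K y h (by omega) hR16 hy0 (by linarith) hv0.le
        · exact hL R g K y h (by omega) hy0 (by linarith) hv0.le
  -- Pb
  have hyd : 0 < y + 1 - g := by linarith
  have hW0 : 0 < y * (y + 1 - g) := by positivity
  have harg : (y * (y + 1 - g) / R - 1 - g) * (y + 1 - g) / (y * (y + 1 - g)) = v := by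
    rw [hv]; field_simp; ring
  have hPb : Pb R g (y * (y + 1 - g)) (y * (y + 1 - g) / R - 1) (y + 1 - g) =
      1 + (y - g) * (1 + (y + 1 - g) / y * E2 R v) := by
    unfold Pb
    rw [harg]
    have e1 : g + (y + 1 - g) = y + 1 := by ring
    have e2 : y * (y + 1 - g) - g = (y + 1) * (y - g) := by ring
    rw [e1, e2]
    have : y + 1 ≠ 0 := by linarith
    field_simp
  rw [hPb]
  have hfin : (y - g) * (1 + (y + 1 - g) / y * E2 R v) =
      (y - g) + (y - g) * (y + 1 - g) * E2 R v / y := by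
    field_simp
  rw [hfin]
  have : (y - g) * (y + 1 - g) * E2 R v / y < (K - 1) * y - (1 - g) := by
    rw [div_lt_iff₀ hy0]
    linarith
  linarith

end Pool.Agent.EMCW
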