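import Pool.Agent.EMCW.Defs

/-!
Basic facts on the walk operators `cv`, `Tk`.
-/

open Finset

namespace Pool.Agent.EMCW

variable {ι : Type} [Fintype ι] {m a : ι → ℝ} {M x : ℝ}

lemma Tk_zero (F : ℝ → ℝ) (t : ℝ) : Tk m a 0 F t = F t := rfl

lemma Tk_succ (k : ℕ) (F : ℝ → ℝ) (t : ℝ) :
    Tk m a (k + 1) F t = ∑ i, m i * Tk m a k F (t + a i) := by
  unfold Tk
  rw [Function.iterate_succ_apply']
  rfl

lemma Tk_succ' (k : ℕ) (F : ℝ → ℝ) (t : ℝ) :
    Tk m a (k + 1) F t = Tk m a k (cv m a F) t := by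
  unfold Tk
  rw [Function.iterate_succ_apply]

lemma Tk_add (k : ℕ) (F G : ℝ → ℝ) (t : ℝ) :
    Tk m a k (fun s => F s + G s) t = Tk m a k F t + Tk m a k G t := by
  induction k generalizing t with
  | zero => rfl
  | succ k ih =>
    rw [Tk_succ, Tk_succ, Tk_succ, ← Finset.sum_add_distrib]
    exact Finset.sum_congr rfl fun i _ => by rw [ih]; ring

lemma Tk_sub (k : ℕ) (F G : ℝ → ℝ) (t : ℝ) :
    Tk m a k (fun s => F s - G s) t = Tk m a k F t - Tk m a k G t := by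
  induction k generalizing t with
  | zero => rfl
  | succ k ih =>
    rw [Tk_succ, Tk_succ, Tk_succ, ← Finset.sum_sub_distrib]
    exact Finset.sum_congr rfl fun i _ => by rw [ih]; ring

lemma Tk_smul (k : ℕ) (c : ℝ) (F : ℝ → ℝ) (t : ℝ) :
    Tk m a k (fun s => c * F s) t = c * Tk m a k F t := by
  induction k generalizing t with
  | zero => rfl
  | succ k ih =>
    rw [Tk_succ, Tk_succ, Finset.mul_sum]
    exact Finset.sum_congr rfl fun i _ => by rw [ih]; ring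

lemma Tk_const (h1 : ∑ i, m i = 1) (k : ℕ) (c : ℝ) (t : ℝ) :
    Tk m a k (fun _ => c) t = c := by
  induction k generalizing t with
  | zero => rfl
  | succ k ih =>
    rw [Tk_succ]
    simp only [ih, ← Finset.sum_mul, h1, one_mul]

lemma Tk_mono (h0 : ∀ i, 0 ≤ m i) (k : ℕ) {F G : ℝ → ℝ} (hFG : ∀ s, F s ≤ G s) (t : ℝ) :
    Tk m a k F t ≤ Tk m a k G t := by
  induction k generalizing t with
  | zero => exact hFG t
  | succ k ih =>
    rw [Tk_succ, Tk_succ]
    exact Finset.sum_le_sum fun i _ => mul_le_mul_of_nonneg_left (ih _) (h0 i)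

/-- Comparison using only the points `s ≥ t` (the steps are nonnegative). -/
lemma Tk_mono_of_le (h0 : ∀ i, 0 ≤ m i) (ha : ∀ i, 0 ≤ a i) (k : ℕ) {F G : ℝ → ℝ} (t : ℝ)
    (hFG : ∀ s, t ≤ s → F s ≤ G s) : Tk m a k F t ≤ Tk m a k G t := by
  induction k generalizing t with
  | zero => exact hFG t le_rfl
  | succ k ih =>
    rw [Tk_succ, Tk_succ]
    exact Finset.sum_le_sum fun i _ => mul_le_mul_of_nonneg_left
      (ih _ fun s hs => hFG s (by linarith [ha i])) (h0 i)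

lemma Tk_nonneg (h0 : ∀ i, 0 ≤ m i) (k : ℕ) {F : ℝ → ℝ} (hF : ∀ s, 0 ≤ F s) (t : ℝ) :
    0 ≤ Tk m a k F t := by
  induction k generalizing t with
  | zero => exact hF t
  | succ k ih =>
    rw [Tk_succ]
    exact Finset.sum_nonneg fun i _ => mul_nonneg (h0 i) (ih _)

/-- Translation. -/
lemma Tk_shift (k : ℕ) (F : ℝ → ℝ) (b t : ℝ) :
    Tk m a k (fun s => F (s + b)) t = Tk m a k F (t + b) := by
  induction k generalizing t with
  | zero => rfl
  | succ k ih =>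
    rw [Tk_succ, Tk_succ]
    exact Finset.sum_congr rfl fun i _ => by rw [ih]; congr 2; ring

/-- `E[(t + S_{k+1}) G(t + S_{k+1})] = t E G + (k+1) E[X_1 G(t + S_{k+1})]`. -/
lemma Tk_id_mul (k : ℕ) (G : ℝ → ℝ) (t : ℝ) :
    Tk m a (k + 1) (fun s => s * G s) t =
      t * Tk m a (k + 1) G t + (k + 1) * ∑ i, m i * a i * Tk m a k G (t + a i) := by
  induction k generalizing t with
  | zero =>
    simp only [Tk_succ, Tk_zero, Nat.cast_zero, zero_add, one_mul, Finset.mul_sum]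
    rw [← Finset.sum_add_distrib]
    exact Finset.sum_congr rfl fun i _ => by ring
  | succ k ih =>
    rw [Tk_succ]
    simp only [ih]
    have e1 : ∑ i, m i * ((t + a i) * Tk m a (k + 1) G (t + a i) +
        ((k : ℝ) + 1) * ∑ j, m j * a j * Tk m a k G (t + a i + a j)) =
        t * Tk m a (k + 1 + 1) G t + ∑ i, m i * a i * Tk m a (k + 1) G (t + a i) +
        ((k : ℝ) + 1) * ∑ i, ∑ j, m i * (m j * a j * Tk m a k G (t + a i + a j)) := by
      rw [Tk_succ (k + 1), Finset.mul_sum, ← Finset.sum_add_distrib, Finset.mul_sum,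
        ← Finset.sum_add_distrib]
      refine Finset.sum_congr rfl fun i _ => ?_
      rw [← Finset.mul_sum]
      ring
    rw [e1]
    have e2 : ∑ i, ∑ j, m i * (m j * a j * Tk m a k G (t + a i + a j)) =
        ∑ j, m j * a j * Tk m a (k + 1) G (t + a j) := by
      rw [Finset.sum_comm]
      refine Finset.sum_congr rfl fun j _ => ?_
      rw [Tk_succ, Finset.mul_sum]
      refine Finset.sum_congr rfl fun i _ => ?_
      rw [show t + a i + a j = t + a j + a i by ring]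
      ring
    rw [e2]
    push_cast
    ring

lemma ind_nonneg (M s : ℝ) : 0 ≤ ind M s := by unfold ind; split_ifs <;> norm_num

lemma ind_le_one (M s : ℝ) : ind M s ≤ 1 := by unfold ind; split_ifs <;> norm_num

lemma ind_mono (M : ℝ) {s t : ℝ} (h : s ≤ t) : ind M s ≤ ind M t := by
  unfold ind
  split_ifs with h1 h2
  · exact le_rfl
  · exact absurd (h1.trans h) h2
  · exact zero_le_one
  · exact le_rfl

lemma hh_nonneg (h0 : ∀ i, 0 ≤ m i) (R : ℕ) (M x : ℝ) : 0 ≤ hh R M m a x :=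
  Tk_nonneg h0 _ (ind_nonneg M) _

lemma hh_le_one (h0 : ∀ i, 0 ≤ m i) (h1 : ∑ i, m i = 1) (R : ℕ) (M x : ℝ) :
    hh R M m a x ≤ 1 := by
  have := Tk_mono (a := a) h0 (R - 1) (ind_le_one M) x
  rwa [Tk_const h1] at this

lemma hh_mono (h0 : ∀ i, 0 ≤ m i) (R : ℕ) (M : ℝ) {x y : ℝ} (h : x ≤ y) :
    hh R M m a x ≤ hh R M m a y := by
  unfold hh
  have e1 := Tk_shift (m := m) (a := a) (R - 1) (ind M) x 0
  have e2 := Tk_shift (m := m) (a := a) (R - 1) (ind M) y 0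
  rw [zero_add] at e1 e2
  rw [← e1, ← e2]
  exact Tk_mono h0 _ (fun s => ind_mono M (by linarith)) _

lemma pp_nonneg (h0 : ∀ i, 0 ≤ m i) (R : ℕ) (M : ℝ) : 0 ≤ pp R M m a :=
  Tk_nonneg h0 _ (ind_nonneg M) _

lemma pp_le_one (h0 : ∀ i, 0 ≤ m i) (h1 : ∑ i, m i = 1) (R : ℕ) (M : ℝ) :
    pp R M m a ≤ 1 := by
  have := Tk_mono (a := a) h0 R (ind_le_one M) 0
  rwa [Tk_const h1] at this

/-- `p = E h(X)`. -/
lemma pp_eq {R : ℕ} (hR : 1 ≤ R) (M : ℝ) : pp R M m a = ∑ i, m i * hh R M m a (a i) := by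
  obtain ⟨r, rfl⟩ : ∃ r, R = r + 1 := ⟨R - 1, by omega⟩
  unfold pp hh
  rw [Tk_succ]
  simp

/-- `q = E (1 - h(X))`. -/
lemma qq_eq {R : ℕ} (hR : 1 ≤ R) (h1 : ∑ i, m i = 1) (M : ℝ) :
    1 - pp R M m a = ∑ i, m i * (1 - hh R M m a (a i)) := by
  rw [pp_eq hR]
  simp only [mul_sub, mul_one, Finset.sum_sub_distrib, h1]

end Pool.Agent.EMCW
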