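import Pool.Agent.EMCW.NumDefs

/-!
Definitions for the probabilistic part of the window theorem: finitely supported laws, random walks
with `k` independent steps, critical laws.
-/

open Finset

namespace Pool.Agent.EMCW

variable {ι : Type} [Fintype ι]

/-- `m` are the masses and `a` the positions of a law on `[0, M]` with mean `x`. -/
structure IsLaw (M x : ℝ) (m a : ι → ℝ) : Prop where
  m0 : ∀ i, 0 ≤ m i
  m1 : ∑ i, m i = 1
  a0 : ∀ i, 0 ≤ a i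
  aM : ∀ i, a i ≤ M
  mean : ∑ i, m i * a i = x

/-- One step of the walk: `E F(t + X)`. -/
noncomputable def cv (m a : ι → ℝ) (F : ℝ → ℝ) : ℝ → ℝ := fun t => ∑ i, m i * F (t + a i)

/-- `k` steps of the walk: `E F(t + S_k)`. -/
noncomputable def Tk (m a : ι → ℝ) (k : ℕ) (F : ℝ → ℝ) : ℝ → ℝ := (cv m a)^[k] F

/-- The indicator of `[M, oo)`. -/
noncomputable def ind (M s : ℝ) : ℝ := if M ≤ s then 1 else 0

/-- `P(S_R ≥ M)`. -/
noncomputable def pp (R : ℕ) (M : ℝ) (m a : ι → ℝ) : ℝ := Tk m a R (ind M) 0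

/-- `P(S_{R-1} + x ≥ M)`. -/
noncomputable def hh (R : ℕ) (M : ℝ) (m a : ι → ℝ) (x : ℝ) : ℝ := Tk m a (R - 1) (ind M) x

/-- The second moment. -/
noncomputable def m2 (m a : ι → ℝ) : ℝ := ∑ i, m i * a i ^ 2

/-- The third moment. -/
noncomputable def m3 (m a : ι → ℝ) : ℝ := ∑ i, m i * a i ^ 3

/-- `R` times the variance (for mean `1`). -/
noncomputable def WW (R : ℕ) (m a : ι → ℝ) : ℝ := R * (m2 m a - 1)

/-- The Laplace transform. -/
noncomputable def ph (m a : ι → ℝ) (s : ℝ) : ℝ := ∑ i, m i * Real.exp (-s * a i)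

/-- The function `Phi(s) = e^{-(R+g)s} phi(s)^{-R}`. -/
noncomputable def Ph (R : ℕ) (g : ℝ) (m a : ι → ℝ) (s : ℝ) : ℝ :=
  Real.exp (-(R + g) * s) / ph m a s ^ R

/-- Laplace transform of the law `{1 - al, 1 + be}` with mean `1`. -/
noncomputable def ph2 (al be s : ℝ) : ℝ :=
  (be * Real.exp (-s * (1 - al)) + al * Real.exp (-s * (1 + be))) / (al + be)

/-- The function `Phi` of the law `{1 - al, 1 + be}`. -/
noncomputable def Ph2 (R : ℕ) (g al be s : ℝ) : ℝ :=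
  Real.exp (-(R + g) * s) / ph2 al be s ^ R

/-- Critical laws with tolerance `s`. -/
structure Crl (R : ℕ) (g K c s : ℝ) (m a : ι → ℝ) : Prop where
  law : IsLaw (R + g) 1 m a
  s0 : 0 ≤ s
  s1 : s < 1
  c0 : 0 < c
  H1 : ∀ i j, 0 < m i → 0 < m j → a i ≤ a j →
    c * (1 - s) * (a j - a i) ≤ hh R (R + g) m a (a j) - hh R (R + g) m a (a i) ∧
    hh R (R + g) m a (a j) - hh R (R + g) m a (a i) ≤ c * (1 + s) * (a j - a i)
  H2 : ∀ i, 0 < m i → 1 - hh R (R + g) m a (a i) ≤ c * (1 + s) * (R + g - a i)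
  H3 : ∃ i, 0 < m i ∧ a i ≤ s
  H4 : K * (1 - s) * (1 - pp R (R + g) m a) ≤ pp R (R + g) m a
  H5 : g - s ≤ WW R m a

/-- The supremum of `P(S_R ≥ M)` over all laws on `[0, M]` with mean `1`. -/
noncomputable def Vh (R : ℕ) (M : ℝ) : ℝ :=
  sSup {p : ℝ | ∃ (ι : Type) (_ : Fintype ι) (m a : ι → ℝ), IsLaw M 1 m a ∧ p = pp R M m a}

/-- The constraints with tolerance `s`. -/
structure ConS (R : ℕ) (g K s W y al be : ℝ) : Prop where
  hW : g - s ≤ W
  hW2 : W ≤ R * (R + g)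
  hal : 0 < al
  hal1 : al ≤ 1
  hbe0 : 0 < be
  hbe : be ≤ y / (1 - s)
  hab : al * be = W / R
  hy : y ≤ (1 + s) * (R + g - 1)
  cb : (1 + g - s) * (K * (1 - s) * y) ≤ (1 + s) * (1 + W)
  cD : (1 - s) ^ 2 * W + (1 - s) * g * y +
    (1 - s) * y * ((1 - al) * (1 + be) / (1 + y / (1 - s))) ≤ y ^ 2 + (1 + s) * y
  cJ0 : ∀ th : ℝ, 0 ≤ th → th < 1 →
    y / (1 - s) + W / (R * (y / (1 - s))) ≤ (1 + W / R) * (1 + th) →
    0 < R * (W - g) / (R + W) + th →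
    (1 - s) * (((R * (W - g) / (R + W) + th + 1) /
      (R * (W - g) / (R + W) + th + R / (R + W))) ^ R - 1) ≤ y
  cN : ∀ th : ℝ, 0 ≤ th → th < 1 →
    y / (1 - s) + W / (R * (y / (1 - s))) ≤ (1 + W / R) * (1 + th) →
    ∀ k : ℕ, (1 - s) * Nser (1 / R) g W th k ≤ y
  cP : al + be ≤ g + R * al → al + g ≤ (R - 1) * be → ∀ Om : ℝ, 0 < Om →
    0 ≤ 1 + (be - al - g) * Om / W / ((R : ℝ) - 2) →
    K * (1 - s) * y ≤ (1 + s) * (1 + max (W - g) 0 *
      ((1 + Om ^ 2 / W * E2 R ((be - al - g) * Om / W)) / (g + Om)))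
  cQ : g + R * al ≤ al + be → ∀ Om : ℝ, 0 < Om →
    K * (1 - s) * y ≤ (1 + s) * (1 + max (W - g) 0 * ((be - g) / (R - 1) / al *
      ((1 + Om ^ 2 / (R * ((be - g) / (R - 1)) * be) *
        E2 R (((R : ℝ) - 2) * ((be - g) / (R - 1)) * Om / (R * ((be - g) / (R - 1)) * be))) /
      (g + Om))))

end Pool.Agent.EMCW
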