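import Pool.Agent.EMCW.NumSt2

/-!
Existence of the critical parameters.
-/

namespace Pool.Agent.EMCW

theorem thm_GKex : St_GKex := by
  intro R hR
  have hR0 : (0 : ℝ) < R := by
    have : 0 < R := by omega
    exact_mod_cast this
  have hR1 : (1 : ℝ) < R := by
    have : 1 < R := by omega
    exact_mod_cast this
  have hRne : R ≠ 0 := by omega
  let F : ℝ → ℝ := fun g => (1 + g / R) ^ R - (1 - (1 - g) / R) ^ R
  have hc : Continuous F := by
    refine Continuous.sub ?_ ?_
    · exact (continuous_const.add (continuous_id.div_const _)).pow _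
    · exact (continuous_const.sub ((continuous_const.sub continuous_id).div_const _)).pow _
  have hF0 : F 0 < 1 := by
    have h1 : 0 < (1 - (1 - 0) / (R : ℝ)) ^ R := by
      apply pow_pos
      rw [sub_zero, sub_pos, div_lt_one hR0]
      exact hR1
    change (1 + 0 / (R : ℝ)) ^ R - (1 - (1 - 0) / (R : ℝ)) ^ R < 1
    rw [zero_div, add_zero, one_pow]
    linarith
  have hF1 : 1 < F 1 := by
    change 1 < (1 + 1 / (R : ℝ)) ^ R - (1 - (1 - 1) / (R : ℝ)) ^ R
    rw [sub_self, zero_div, sub_zero, one_pow]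
    have h1 : 1 + (R : ℝ) * (1 / R) < (1 + 1 / (R : ℝ)) ^ R := by
      have hp : (0 : ℝ) < 1 / R := by positivity
      have h2 := one_add_mul_self_lt_rpow_one_add (s := 1 / (R : ℝ)) (by linarith) hp.ne' hR1
      rwa [Real.rpow_natCast] at h2
    rw [mul_one_div_cancel hR0.ne'] at h1
    linarith
  obtain ⟨g, hg, hFg⟩ := intermediate_value_Ioo (zero_le_one) hc.continuousOn ⟨hF0, hF1⟩
  have hpos : 0 < (1 - (1 - g) / (R : ℝ)) ^ R := by
    apply pow_pos
    rw [sub_pos, div_lt_one hR0]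
    linarith [hg.1]
  refine ⟨g, 1 / (1 - (1 - g) / (R : ℝ)) ^ R, hR, hg.1, hg.2, by positivity, ?_, ?_⟩
  · have : (1 + g / (R : ℝ)) ^ R - (1 - (1 - g) / (R : ℝ)) ^ R = 1 := hFg
    rw [one_div_one_div]
    linarith
  · rw [one_div_one_div]

end Pool.Agent.EMCW
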