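import Pool.Agent.EMCW.StFS

/-!
# The tuple sum `qS` and the walk operator
-/

open Finset

namespace Pool.Agent.EMCW

open Pool.Agent.EMC

/-- The walk operator as a sum over tuples. -/
private lemma Brg_Tk {ι : Type} [Fintype ι] (m a : ι → ℝ) (F : ℝ → ℝ) (k : ℕ) (t : ℝ) :
    Tk m a k F t = ∑ v : Fin k → ι, (∏ i, m (v i)) * F (t + ∑ i, a (v i)) := by
  induction k generalizing t with
  | zero => simp [Tk]
  | succ k ih =>
    have h1 : Tk m a (k + 1) F t = ∑ i, m i * Tk m a k F (t + a i) := by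
      unfold Tk
      rw [Function.iterate_succ_apply']
      rfl
    rw [h1, ← (Fin.consEquiv (fun _ : Fin (k + 1) => ι)).sum_comp, Fintype.sum_prod_type]
    refine Finset.sum_congr rfl fun i _ => ?_
    rw [ih, Finset.mul_sum]
    refine Finset.sum_congr rfl fun v _ => ?_
    simp only [Fin.consEquiv_apply, Fin.prod_univ_succ, Fin.sum_univ_succ, Fin.cons_zero,
      Fin.cons_succ]
    rw [mul_assoc, add_assoc]

private lemma Brg_sum (k : ℕ) (Y : Finset ℕ) (G : (Fin k → ℕ) → ℝ) :
    ∑ v : Fin k → Y, G (fun i => (v i : ℕ)) =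
      ∑ v ∈ Fintype.piFinset (fun _ : Fin k => Y), G v := by
  refine Finset.sum_bij (fun v _ => fun i => (v i : ℕ)) ?_ ?_ ?_ ?_
  · intro v _
    rw [Fintype.mem_piFinset]
    exact fun i => (v i).2
  · intro v _ v' _ h
    funext i
    exact Subtype.ext (congrFun h i)
  · intro v hv
    rw [Fintype.mem_piFinset] at hv
    exact ⟨fun i => ⟨v i, hv i⟩, Finset.mem_univ _, rfl⟩
  · intro v _
    rfl

theorem thm_Brg : St_Brg := by
  intro R M Y w hM hY
  have hc : (0 : ℝ) < (Y.card : ℝ) := by exact_mod_cast hY.card_pos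
  have h1 : pp R M (fun _ : Y => 1 / (Y.card : ℝ)) (fun v : Y => M * w v) =
      (∑ v ∈ Fintype.piFinset (fun _ : Fin R => Y), (if 1 ≤ ∑ i, w (v i) then (1 : ℝ) else 0)) /
        (Y.card : ℝ) ^ R := by
    unfold pp
    rw [Brg_Tk, ← Brg_sum, Finset.sum_div]
    refine Finset.sum_congr rfl fun v _ => ?_
    have h2 : ind M (0 + ∑ i, M * w (v i)) = if 1 ≤ ∑ i, w (v i) then (1 : ℝ) else 0 := by
      unfold ind
      rw [zero_add, ← Finset.mul_sum]
      have h3 : (M ≤ M * ∑ i, w (v i)) ↔ (1 ≤ ∑ i, w (v i)) := by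
        constructor
        · intro h
          by_contra h4
          push Not at h4
          have h5 := mul_lt_mul_of_pos_left h4 hM
          linarith
        · intro h
          have h5 := mul_le_mul_of_nonneg_left h hM.le
          linarith
      simp only [h3]
    rw [h2, Finset.prod_const, Finset.card_univ, Fintype.card_fin]
    rw [one_div, inv_pow, mul_comm, div_eq_mul_inv]
  have h2 : qS R Y w =
      (∑ v ∈ Fintype.piFinset (fun _ : Fin R => Y), (if ∑ i, w (v i) < 1 then (1 : ℝ) else 0)) /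
        (Y.card : ℝ) ^ R := by
    unfold qS ES sw
    congr 1
  rw [h1, h2, eq_sub_iff_add_eq, ← add_div, ← Finset.sum_add_distrib]
  have h3 : ∀ v : Fin R → ℕ, (if ∑ i, w (v i) < 1 then (1 : ℝ) else 0) +
      (if 1 ≤ ∑ i, w (v i) then (1 : ℝ) else 0) = 1 := by
    intro v
    by_cases h : ∑ i, w (v i) < 1
    · rw [if_pos h, if_neg (not_le.2 h), add_zero]
    · rw [if_neg h, if_pos (not_lt.1 h), zero_add]
  simp only [h3]
  rw [Finset.sum_const, Fintype.card_piFinset, nsmul_eq_mul, mul_one]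
  simp only [Finset.prod_const, Finset.card_univ, Fintype.card_fin]
  push_cast
  rw [div_self (pow_ne_zero _ hc.ne')]

end Pool.Agent.EMCW
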