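import Pool.Agent.EMCW.St

/-!
The limit of the constraints with tolerance (compactness).
-/

open Finset

namespace Pool.Agent.EMCW

open Filter Topology

lemma Lim_E2_cont (R : ℕ) : Continuous (E2 R) := by
  have h : Continuous fun v : ℝ =>
      ∫ t in (0 : ℝ)..1, (1 - t) * (1 + v * t / ((R : ℝ) - 2)) ^ (R - 2) := by
    apply intervalIntegral.continuous_parametric_intervalIntegral_of_continuous'
    show Continuous fun p : ℝ × ℝ => (1 - p.2) * (1 + p.1 * p.2 / ((R : ℝ) - 2)) ^ (R - 2)
    fun_prop
  exact h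

/-- Bounded sequences converge along an ultrafilter. -/
lemma Lim_ex (U : Ultrafilter ℕ) (f : ℕ → ℝ) (a b : ℝ) (h : ∀ n, a ≤ f n ∧ f n ≤ b) :
    ∃ x, a ≤ x ∧ x ≤ b ∧ Tendsto f U (𝓝 x) := by
  obtain ⟨x, hx, hx2⟩ := (isCompact_Icc (a := a) (b := b)).ultrafilter_le_nhds
    (Ultrafilter.map f U) (by
      rw [le_principal_iff]
      exact Filter.Eventually.of_forall (f := (U : Filter ℕ)) (p := fun n => f n ∈ Set.Icc a b)
        fun n => h n)
  exact ⟨x, hx.1, hx.2, hx2⟩

lemma Lim_am {U : Filter ℕ} {W th : ℕ → ℝ} {w t e g : ℝ} (hW : Tendsto W U (𝓝 w))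
    (hth : Tendsto th U (𝓝 t)) (he : 0 ≤ e) (hg : 0 < g) (hw : g < w) (ht : 0 ≤ t) (l : ℕ) :
    Tendsto (fun n => am e g (W n) (th n) l) U (𝓝 (am e g w t l)) := by
  unfold am
  apply Tendsto.div
  · exact hW.const_mul _
  · exact ((((hW.sub_const g).add hth).add_const _).add
      (((hth.add_const _).const_mul e).mul hW))
  · have h1 : (0 : ℝ) ≤ l := Nat.cast_nonneg l
    have h2 : 0 ≤ e * (t + l) * w := mul_nonneg (mul_nonneg he (by linarith)) (by linarith)
    have : 0 < w - g + t + l + e * (t + l) * w := by linarith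
    exact this.ne'

lemma Lim_Nt {U : Filter ℕ} {W th : ℕ → ℝ} {w t e g : ℝ} (hW : Tendsto W U (𝓝 w))
    (hth : Tendsto th U (𝓝 t)) (he : 0 ≤ e) (hg : 0 < g) (hw : g < w) (ht : 0 ≤ t) (k : ℕ) :
    Tendsto (fun n => Nt e g (W n) (th n) k) U (𝓝 (Nt e g w t k)) := by
  unfold Nt
  have h1 : (0 : ℝ) ≤ k := Nat.cast_nonneg k
  have h2 : 0 < 1 + e * w := by
    have : 0 ≤ e * w := mul_nonneg he (by linarith)
    linarith
  have h3 : 0 < (w - g) / (1 + e * w) := div_pos (by linarith) h2
  apply Tendsto.mul
  · exact tendsto_finsetProd _ fun l _ => Lim_am hW hth he hg hw ht l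
  · apply Tendsto.const_add
    apply Tendsto.div
    · exact (hth.div_const 2).mul_const _
    · apply Tendsto.add_const
      apply Tendsto.add_const
      apply Tendsto.add _ hth
      apply Tendsto.div (hW.sub_const g) ((hW.const_mul e).const_add 1) h2.ne'
    · have : 0 < (w - g) / (1 + e * w) + t + k + 1 := by linarith
      exact this.ne'

lemma Lim_Nser {U : Filter ℕ} {W th : ℕ → ℝ} {w t e g : ℝ} (hW : Tendsto W U (𝓝 w))
    (hth : Tendsto th U (𝓝 t)) (he : 0 ≤ e) (hg : 0 < g) (hw : g < w) (ht : 0 ≤ t) (m : ℕ) :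
    Tendsto (fun n => Nser e g (W n) (th n) m) U (𝓝 (Nser e g w t m)) := by
  unfold Nser
  exact tendsto_finsetSum _ fun k _ => Lim_Nt hW hth he hg hw ht k

/-- The limit of the bound in (P). -/
lemma Lim_P {U : Filter ℕ} {s W al be : ℕ → ℝ} {w a b g Om : ℝ} (R : ℕ)
    (hs : Tendsto s U (𝓝 0)) (hW : Tendsto W U (𝓝 w)) (hal : Tendsto al U (𝓝 a))
    (hbe : Tendsto be U (𝓝 b)) (hg : 0 < g) (hw : g < w) :
    Tendsto (fun n => (1 + s n) * (1 + max (W n - g) 0 *
      ((1 + Om ^ 2 / W n * E2 R ((be n - al n - g) * Om / W n)) / (g + Om)))) U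
      (𝓝 (Pb R g w (b - a) Om)) := by
  have hw0 : w ≠ 0 := by linarith
  have h1 : Tendsto (fun n => (be n - al n - g) * Om / W n) U (𝓝 ((b - a - g) * Om / w)) :=
    (((hbe.sub hal).sub_const g).mul_const Om).div hW hw0
  have h2 : Tendsto (fun n => E2 R ((be n - al n - g) * Om / W n)) U
      (𝓝 (E2 R ((b - a - g) * Om / w))) := ((Lim_E2_cont R).tendsto _).comp h1
  have h3 : Tendsto (fun n => Om ^ 2 / W n) U (𝓝 (Om ^ 2 / w)) :=
    tendsto_const_nhds.div hW hw0
  have h4 : Tendsto (fun n => max (W n - g) 0) U (𝓝 (max (w - g) 0)) :=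
    (hW.sub_const g).max tendsto_const_nhds
  have h5 := (hs.const_add 1).mul ((h4.mul (((h3.mul h2).const_add 1).div_const (g + Om))).const_add 1)
  have e : (1 + (0 : ℝ)) * (1 + max (w - g) 0 *
      ((1 + Om ^ 2 / w * E2 R ((b - a - g) * Om / w)) / (g + Om))) = Pb R g w (b - a) Om := by
    unfold Pb
    rw [max_eq_left (by linarith)]
    ring
  rw [← e]
  exact h5

/-- The right-hand side of (Q). -/
noncomputable def Lim_Qb (R : ℕ) (g w a b Om : ℝ) : ℝ :=
  1 + (w - g) * ((b - g) / (R - 1) / a) *
      (1 + Om ^ 2 / (R * ((b - g) / (R - 1)) * b) *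
        E2 R (((R : ℝ) - 2) * ((b - g) / (R - 1)) * Om / (R * ((b - g) / (R - 1)) * b))) /
      (g + Om)

/-- The limit of the bound in (Q). -/
lemma Lim_Q {U : Filter ℕ} {s W al be : ℕ → ℝ} {w a b g Om : ℝ} (R : ℕ) (hR : 4 ≤ R)
    (hs : Tendsto s U (𝓝 0)) (hW : Tendsto W U (𝓝 w)) (hal : Tendsto al U (𝓝 a))
    (hbe : Tendsto be U (𝓝 b)) (hg : 0 < g) (hw : g < w) (hb : g < b) (ha : 0 < a) :
    Tendsto (fun n => (1 + s n) * (1 + max (W n - g) 0 * ((be n - g) / (R - 1) / al n *
      ((1 + Om ^ 2 / (R * ((be n - g) / (R - 1)) * be n) *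
        E2 R (((R : ℝ) - 2) * ((be n - g) / (R - 1)) * Om /
          (R * ((be n - g) / (R - 1)) * be n))) / (g + Om))))) U
      (𝓝 (Lim_Qb R g w a b Om)) := by
  have hRr : (4 : ℝ) ≤ R := by exact_mod_cast hR
  have h0 : Tendsto (fun n => (be n - g) / ((R : ℝ) - 1)) U (𝓝 ((b - g) / ((R : ℝ) - 1))) :=
    (hbe.sub_const g).div_const _
  have hp : 0 < (b - g) / ((R : ℝ) - 1) := div_pos (by linarith) (by linarith)
  have hd : Tendsto (fun n => (R : ℝ) * ((be n - g) / ((R : ℝ) - 1)) * be n) U
      (𝓝 ((R : ℝ) * ((b - g) / ((R : ℝ) - 1)) * b)) := (h0.const_mul _).mul hbe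
  have hd0 : (R : ℝ) * ((b - g) / ((R : ℝ) - 1)) * b ≠ 0 := by
    have : 0 < (R : ℝ) * ((b - g) / ((R : ℝ) - 1)) * b :=
      mul_pos (mul_pos (by linarith) hp) (by linarith)
    exact this.ne'
  have h1 : Tendsto (fun n => ((R : ℝ) - 2) * ((be n - g) / ((R : ℝ) - 1)) * Om /
      ((R : ℝ) * ((be n - g) / ((R : ℝ) - 1)) * be n)) U
      (𝓝 (((R : ℝ) - 2) * ((b - g) / ((R : ℝ) - 1)) * Om /
        ((R : ℝ) * ((b - g) / ((R : ℝ) - 1)) * b))) :=
    ((h0.const_mul _).mul_const Om).div hd hd0
  have h2 := ((Lim_E2_cont R).tendsto _).comp h1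
  have h3 : Tendsto (fun n => Om ^ 2 / ((R : ℝ) * ((be n - g) / ((R : ℝ) - 1)) * be n)) U
      (𝓝 (Om ^ 2 / ((R : ℝ) * ((b - g) / ((R : ℝ) - 1)) * b))) :=
    tendsto_const_nhds.div hd hd0
  have h4 : Tendsto (fun n => max (W n - g) 0) U (𝓝 (max (w - g) 0)) :=
    (hW.sub_const g).max tendsto_const_nhds
  have h5 : Tendsto (fun n => (be n - g) / ((R : ℝ) - 1) / al n) U
      (𝓝 ((b - g) / ((R : ℝ) - 1) / a)) := h0.div hal ha.ne'
  have h6 := (hs.const_add 1).mul ((h4.mul (h5.mul
    (((h3.mul h2).const_add 1).div_const (g + Om)))).const_add 1)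
  have e : (1 + (0 : ℝ)) * (1 + max (w - g) 0 * ((b - g) / ((R : ℝ) - 1) / a *
      ((1 + Om ^ 2 / ((R : ℝ) * ((b - g) / ((R : ℝ) - 1)) * b) *
        E2 R (((R : ℝ) - 2) * ((b - g) / ((R : ℝ) - 1)) * Om /
          ((R : ℝ) * ((b - g) / ((R : ℝ) - 1)) * b))) / (g + Om)))) = Lim_Qb R g w a b Om := by
    unfold Lim_Qb
    rw [max_eq_left (by linarith)]
    ring
  rw [← e]
  exact h6

/-- In the case of equality both bounds agree. -/
lemma Lim_PQ {R : ℕ} (hR : 4 ≤ R) {w a b g Om : ℝ} (hab : a * b = w / R)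
    (ha : 0 < a) (he : (b - g) / ((R : ℝ) - 1) = a) :
    Lim_Qb R g w a b Om = Pb R g w (b - a) Om := by
  have hRr : (4 : ℝ) ≤ R := by exact_mod_cast hR
  have e1 : (R : ℝ) * a * b = w := by
    have : (R : ℝ) ≠ 0 := by linarith
    rw [mul_assoc, hab]
    field_simp
  have e2 : b - a - g = ((R : ℝ) - 2) * a := by
    have h1 : (R : ℝ) - 1 ≠ 0 := by
      have : (0 : ℝ) < (R : ℝ) - 1 := by linarith
      exact this.ne'
    rw [div_eq_iff h1] at he
    linarith
  unfold Lim_Qb Pb
  rw [he, e1, e2, div_self ha.ne']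
  ring

theorem thm_Lim (hN : St_NUM) : St_Lim := by
  intro R g K tau hGK htau
  by_contra hcon
  push Not at hcon
  have h1 : ∀ n : ℕ, ∃ s W y al be : ℝ, 0 ≤ s ∧ s < 1 / ((n : ℝ) + 2) ∧
      ConS R g K s W y al be ∧ g + tau < W ∧ W < R * (R + g - 1) - tau := by
    intro n
    have hn : (0 : ℝ) ≤ n := Nat.cast_nonneg n
    apply hcon
    · positivity
    · rw [div_lt_one (by linarith)]
      linarith
  choose s W y al be hs0 hs1 hC hW1 hW2 using h1
  have hR := hGK.hR
  have hRr : (4 : ℝ) ≤ R := by exact_mod_cast hR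
  have hg0 := hGK.g0
  have hg1 := hGK.g1
  have hK0 := hGK.K0
  have hs2 : ∀ n, s n < 1 / 2 := by
    intro n
    have hn : (0 : ℝ) ≤ n := Nat.cast_nonneg n
    refine (hs1 n).trans_le ?_
    rw [div_le_div_iff₀ (by linarith) (by norm_num)]
    linarith
  have hyp : ∀ n, 0 < y n := by
    intro n
    have h2 := (hC n).hbe0.trans_le (hC n).hbe
    have h3 : 0 < 1 - s n := by linarith [hs2 n]
    by_contra h4
    push Not at h4
    have := div_nonpos_of_nonpos_of_nonneg h4 h3.le
    linarith
  have hy2 : ∀ n, y n ≤ 2 * (R + g) := by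
    intro n
    refine (hC n).hy.trans ?_
    nlinarith [hs2 n, hs0 n]
  have hbe2 : ∀ n, be n ≤ 4 * (R + g) := by
    intro n
    refine (hC n).hbe.trans ?_
    rw [div_le_iff₀ (by linarith [hs2 n])]
    nlinarith [hs2 n, hs0 n, hy2 n]
  let U : Ultrafilter ℕ := hyperfilter ℕ
  have hU : (U : Filter ℕ) ≤ atTop := Nat.hyperfilter_le_atTop
  have hst : Tendsto s atTop (𝓝 0) := by
    refine squeeze_zero hs0 (fun n => (hs1 n).le) ?_
    have h5 : Tendsto (fun n : ℕ => (n : ℝ) + 2) atTop atTop :=
      tendsto_atTop_add_const_right _ _ tendsto_natCast_atTop_atTop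
    simpa using (tendsto_const_nhds (x := (1 : ℝ))).div_atTop h5
  have hs : Tendsto s U (𝓝 0) := hst.mono_left hU
  obtain ⟨w, hw1, hw2, hW⟩ := Lim_ex U W (g + tau) (R * (R + g - 1) - tau)
    fun n => ⟨(hW1 n).le, (hW2 n).le⟩
  obtain ⟨yl, hyl1, hyl2, hY⟩ := Lim_ex U y 0 (2 * (R + g)) fun n => ⟨(hyp n).le, hy2 n⟩
  obtain ⟨a, ha1, ha2, hA⟩ := Lim_ex U al 0 1 fun n => ⟨(hC n).hal.le, (hC n).hal1⟩
  obtain ⟨b, hb1, hb2, hB⟩ := Lim_ex U be 0 (4 * (R + g)) fun n => ⟨(hC n).hbe0.le, hbe2 n⟩
  have hab : a * b = w / R :=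
    tendsto_nhds_unique (hA.mul hB) ((hW.div_const (R : ℝ)).congr fun n => ((hC n).hab).symm)
  have hwR : 0 < w / R := div_pos (by linarith) (by linarith)
  have ha : 0 < a := by
    rcases ha1.lt_or_eq with h | h
    · exact h
    · rw [← h, zero_mul] at hab
      linarith
  have hb : 0 < b := by
    rcases hb1.lt_or_eq with h | h
    · exact h
    · rw [← h, mul_zero] at hab
      linarith
  have hs1' : Tendsto (fun n => 1 - s n) U (𝓝 1) := by
    simpa using hs.const_sub 1
  have hs2' : Tendsto (fun n => 1 + s n) U (𝓝 1) := by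
    simpa using hs.const_add 1
  have hYs : Tendsto (fun n => y n / (1 - s n)) U (𝓝 yl) := by
    have h2 := hY.div hs1' one_ne_zero
    rw [div_one] at h2
    exact h2
  have hbyl : b ≤ yl := le_of_tendsto_of_tendsto' hB hYs fun n => (hC n).hbe
  have hyl0 : 0 < yl := hb.trans_le hbyl
  have hw0 : 0 < w := by linarith
  have hgw : g < w := by linarith
  -- the choice of th
  have hth : ∀ th : ℝ, 0 ≤ th → th < 1 → yl + w / (R * yl) ≤ (1 + w / R) * (1 + th) →
      ∃ t : ℕ → ℝ, Tendsto t U (𝓝 th) ∧ ∀ᶠ n in (U : Filter ℕ), 0 ≤ t n ∧ t n < 1 ∧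
        y n / (1 - s n) + W n / (R * (y n / (1 - s n))) ≤ (1 + W n / R) * (1 + t n) := by
    intro th h0 h2 h3
    refine ⟨fun n => max th ((y n / (1 - s n) + W n / (R * (y n / (1 - s n)))) /
      (1 + W n / R) - 1), ?_, ?_⟩
    · have h4 : Tendsto (fun n => (y n / (1 - s n) + W n / (R * (y n / (1 - s n)))) /
          (1 + W n / R) - 1) U (𝓝 ((yl + w / (R * yl)) / (1 + w / R) - 1)) := by
        apply Tendsto.sub_const
        apply Tendsto.div
        · apply hYs.add
          apply hW.div (hYs.const_mul _)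
          have : 0 < (R : ℝ) * yl := mul_pos (by linarith) hyl0
          exact this.ne'
        · exact (hW.div_const _).const_add 1
        · have : 0 < 1 + w / R := by linarith
          exact this.ne'
      have h5 := (tendsto_const_nhds (x := th) (f := (U : Filter ℕ))).max h4
      have h6 : (yl + w / (R * yl)) / (1 + w / R) - 1 ≤ th := by
        have h7 : (yl + w / (R * yl)) / (1 + w / R) ≤ 1 + th := by
          rw [div_le_iff₀ (by linarith)]
          linarith
        linarith
      rw [max_eq_left h6] at h5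
      exact h5
    · have h4 : Tendsto (fun n => max th ((y n / (1 - s n) + W n / (R * (y n / (1 - s n)))) /
          (1 + W n / R) - 1)) U (𝓝 th) := by
        have h4 : Tendsto (fun n => (y n / (1 - s n) + W n / (R * (y n / (1 - s n)))) /
            (1 + W n / R) - 1) U (𝓝 ((yl + w / (R * yl)) / (1 + w / R) - 1)) := by
          apply Tendsto.sub_const
          apply Tendsto.div
          · apply hYs.add
            apply hW.div (hYs.const_mul _)
            have : 0 < (R : ℝ) * yl := mul_pos (by linarith) hyl0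
            exact this.ne'
          · exact (hW.div_const _).const_add 1
          · have : 0 < 1 + w / R := by linarith
            exact this.ne'
        have h5 := (tendsto_const_nhds (x := th) (f := (U : Filter ℕ))).max h4
        have h6 : (yl + w / (R * yl)) / (1 + w / R) - 1 ≤ th := by
          have h7 : (yl + w / (R * yl)) / (1 + w / R) ≤ 1 + th := by
            rw [div_le_iff₀ (by linarith)]
            linarith
          linarith
        rw [max_eq_left h6] at h5
        exact h5
      filter_upwards [h4.eventually (gt_mem_nhds h2)] with n hn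
      refine ⟨h0.trans (le_max_left _ _), hn, ?_⟩
      have hWp : 0 < 1 + W n / R := by
        have : 0 ≤ W n / R := div_nonneg (by linarith [hW1 n]) (by linarith)
        linarith
      have h8 : (y n / (1 - s n) + W n / (R * (y n / (1 - s n)))) / (1 + W n / R) ≤
          1 + max th ((y n / (1 - s n) + W n / (R * (y n / (1 - s n)))) /
          (1 + W n / R) - 1) := by
        linarith [le_max_right th ((y n / (1 - s n) + W n / (R * (y n / (1 - s n)))) /
          (1 + W n / R) - 1)]
      rw [div_le_iff₀ hWp] at h8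
      linarith
  have hRe : (0 : ℝ) ≤ 1 / R := by positivity
  have hcon2 : Con R g K w yl a b := by
    refine ⟨by linarith, ha, ha2, hbyl, hab, ?_, ?_, ?_, ?_, ?_, ?_, ?_⟩
    · -- hy
      have h2 : Tendsto (fun n => (1 + s n) * ((R : ℝ) + g - 1)) U (𝓝 ((R : ℝ) + g - 1)) := by
        simpa using hs2'.mul_const ((R : ℝ) + g - 1)
      exact le_of_tendsto_of_tendsto' hY h2 fun n => (hC n).hy
    · -- cb
      have h2 : Tendsto (fun n => (1 + g - s n) * (K * (1 - s n) * y n)) U
          (𝓝 ((1 + g) * (K * yl))) := by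
        have := (hs.const_sub (1 + g)).mul ((hs1'.const_mul K).mul hY)
        simpa using this
      have h3 : Tendsto (fun n => (1 + s n) * (1 + W n)) U (𝓝 (1 + w)) := by
        simpa using hs2'.mul (hW.const_add 1)
      have h4 := le_of_tendsto_of_tendsto' h2 h3 fun n => (hC n).cb
      linarith
    · -- cD
      have h2 : Tendsto (fun n => (1 - s n) ^ 2 * W n + (1 - s n) * g * y n +
          (1 - s n) * y n * ((1 - al n) * (1 + be n) / (1 + y n / (1 - s n)))) U
          (𝓝 (1 ^ 2 * w + 1 * g * yl + 1 * yl * ((1 - a) * (1 + b) / (1 + yl)))) := by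
        apply Tendsto.add
        · exact ((hs1'.pow 2).mul hW).add ((hs1'.mul_const g).mul hY)
        · apply (hs1'.mul hY).mul
          apply Tendsto.div
          · exact (hA.const_sub 1).mul (hB.const_add 1)
          · exact hYs.const_add 1
          · have : 0 < 1 + yl := by linarith
            exact this.ne'
      have h3 : Tendsto (fun n => y n ^ 2 + (1 + s n) * y n) U (𝓝 (yl ^ 2 + 1 * yl)) :=
        (hY.pow 2).add (hs2'.mul hY)
      have h4 := le_of_tendsto_of_tendsto' h2 h3 fun n => (hC n).cD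
      have e : (1 - a) * (1 + b) * yl / (1 + yl) = 1 * yl * ((1 - a) * (1 + b) / (1 + yl)) := by
        ring
      rw [e]
      nlinarith
    · -- cJ0
      intro hy1 _
      have hyV : w / R ≤ yl := by
        rw [← hab]
        nlinarith
      have hcond : yl + w / (R * yl) ≤ (1 + w / R) * (1 + 0) := by
        have e : w / (R * yl) = (w / R) / yl := by rw [div_div]
        have h5 : (w / R) / yl ≤ 1 + w / R - yl := by
          rw [div_le_iff₀ hyl0]
          nlinarith
        rw [e]
        linarith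
      obtain ⟨t, ht, hte⟩ := hth 0 le_rfl one_pos hcond
      have hipos : 0 < (R : ℝ) * (w - g) / (R + w) :=
        div_pos (mul_pos (by linarith) (by linarith)) (by linarith)
      have hi : Tendsto (fun n => (R : ℝ) * (W n - g) / (R + W n) + t n) U
          (𝓝 ((R : ℝ) * (w - g) / (R + w) + 0)) := by
        apply Tendsto.add _ ht
        apply Tendsto.div ((hW.sub_const g).const_mul _) (hW.const_add _)
        have : 0 < (R : ℝ) + w := by linarith
        exact this.ne'
      have hq : Tendsto (fun n => (R : ℝ) / (R + W n)) U (𝓝 ((R : ℝ) / (R + w))) := by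
        apply tendsto_const_nhds.div (hW.const_add _)
        have : 0 < (R : ℝ) + w := by linarith
        exact this.ne'
      have hqp : 0 < (R : ℝ) / (R + w) := div_pos (by linarith) (by linarith)
      have hl : Tendsto (fun n => (1 - s n) * (((R * (W n - g) / (R + W n) + t n + 1) /
          (R * (W n - g) / (R + W n) + t n + R / (R + W n))) ^ R - 1)) U
          (𝓝 (1 * ((((R : ℝ) * (w - g) / (R + w) + 0 + 1) /
          (R * (w - g) / (R + w) + 0 + R / (R + w))) ^ R - 1))) := by
        apply hs1'.mul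
        apply Tendsto.sub_const
        apply Tendsto.pow
        apply (hi.add_const 1).div (hi.add hq)
        have : 0 < (R : ℝ) * (w - g) / (R + w) + 0 + R / (R + w) := by linarith
        exact this.ne'
      have hev : ∀ᶠ n in (U : Filter ℕ), (1 - s n) * (((R * (W n - g) / (R + W n) + t n + 1) /
          (R * (W n - g) / (R + W n) + t n + R / (R + W n))) ^ R - 1) ≤ y n := by
        filter_upwards [hte] with n hn
        refine (hC n).cJ0 (t n) hn.1 hn.2.1 hn.2.2 ?_
        have : 0 < (R : ℝ) * (W n - g) / (R + W n) :=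
          div_pos (mul_pos (by linarith) (by linarith [hW1 n])) (by linarith [hW1 n])
        linarith [hn.1]
      have h6 := le_of_tendsto_of_tendsto hl hY hev
      have e : ((R : ℝ) * (w - g) / (R + w) + 0 + 1) /
          (R * (w - g) / (R + w) + 0 + R / (R + w)) = 1 + w / (R * (w + 1 - g)) := by
        have h7 : (R : ℝ) + w ≠ 0 := by
          have : 0 < (R : ℝ) + w := by linarith
          exact this.ne'
        have h8 : (R : ℝ) * (w + 1 - g) ≠ 0 := by
          have : 0 < (R : ℝ) * (w + 1 - g) := mul_pos (by linarith) (by linarith)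
          exact this.ne'
        have h9 : (R : ℝ) * (w - g) / (R + w) + 0 + R / (R + w) =
            R * (w + 1 - g) / (R + w) := by
          rw [add_zero, ← add_div]
          congr 1
          ring
        have h10 : (R : ℝ) * (w - g) / (R + w) + 0 + 1 =
            (R * (w + 1 - g) + w) / (R + w) := by
          rw [add_zero, div_add_one h7]
          congr 1
          ring
        rw [h9, h10, div_div_div_cancel_right₀ h7, add_div, div_self h8]
      rw [e, one_mul] at h6
      exact h6
    · -- cN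
      intro th hth0 hth1 hcond m
      obtain ⟨t, ht, hte⟩ := hth th hth0 hth1 hcond
      have h2 := Lim_Nser (e := 1 / (R : ℝ)) hW ht hRe hg0 hgw hth0 m
      have h3 : Tendsto (fun n => (1 - s n) * Nser (1 / R) g (W n) (t n) m) U
          (𝓝 (Nser (1 / R) g w th m)) := by
        simpa using hs1'.mul h2
      refine le_of_tendsto_of_tendsto h3 hY ?_
      filter_upwards [hte] with n hn
      exact (hC n).cN (t n) hn.1 hn.2.1 hn.2.2 m
    · -- cP
      intro hc1 hc2 Om hOm hc3
      have hL : Tendsto (fun n => K * (1 - s n) * y n) U (𝓝 (K * yl)) := by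
        simpa using (hs1'.const_mul K).mul hY
      rcases U.eventually_or.1 (Eventually.of_forall fun n =>
        le_or_gt (al n + be n) (g + R * al n)) with hE | hE
      · have e1 : ∀ᶠ n in (U : Filter ℕ), al n + g < (R - 1) * be n :=
          (hA.add_const g).eventually_lt (hB.const_mul _) hc2
        have e2 : ∀ᶠ n in (U : Filter ℕ),
            0 < 1 + (be n - al n - g) * Om / W n / ((R : ℝ) - 2) := by
          have h2 : Tendsto (fun n => 1 + (be n - al n - g) * Om / W n / ((R : ℝ) - 2)) U
              (𝓝 (1 + (b - a - g) * Om / w / ((R : ℝ) - 2))) :=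
            (((((hB.sub hA).sub_const g).mul_const Om).div hW hw0.ne').div_const _).const_add 1
          exact h2.eventually (lt_mem_nhds hc3)
        refine le_of_tendsto_of_tendsto hL (Lim_P R hs hW hA hB hg0 hgw) ?_
        filter_upwards [hE, e1, e2] with n h3 h4 h5
        exact (hC n).cP h3 h4.le Om hOm h5.le
      · have h2 : g + R * a ≤ a + b :=
          le_of_tendsto_of_tendsto ((hA.const_mul _).const_add g) (hA.add hB)
            (hE.mono fun n hn => hn.le)
        have h3 : (b - g) / ((R : ℝ) - 1) = a := by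
          have : (R : ℝ) - 1 ≠ 0 := by
            have : (0 : ℝ) < (R : ℝ) - 1 := by linarith
            exact this.ne'
          rw [div_eq_iff this]
          linarith
        have hgb : g < b := by nlinarith
        rw [← Lim_PQ hR hab ha h3]
        refine le_of_tendsto_of_tendsto hL (Lim_Q R hR hs hW hA hB hg0 hgw hgb ha) ?_
        filter_upwards [hE] with n h4
        exact (hC n).cQ h4.le Om hOm
    · -- cQ
      intro hc1 Om hOm
      have hL : Tendsto (fun n => K * (1 - s n) * y n) U (𝓝 (K * yl)) := by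
        simpa using (hs1'.const_mul K).mul hY
      have hgb : g < b := by nlinarith
      show K * yl ≤ Lim_Qb R g w a b Om
      rcases U.eventually_or.1 (Eventually.of_forall fun n =>
        le_or_gt (g + R * al n) (al n + be n)) with hE | hE
      · refine le_of_tendsto_of_tendsto hL (Lim_Q R hR hs hW hA hB hg0 hgw hgb ha) ?_
        filter_upwards [hE] with n h4
        exact (hC n).cQ h4 Om hOm
      · have h2 : a + b ≤ g + R * a :=
          le_of_tendsto_of_tendsto (hA.add hB) ((hA.const_mul _).const_add g)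
            (hE.mono fun n hn => hn.le)
        have h3' : b = g + (R - 1) * a := by linarith
        have h3 : (b - g) / ((R : ℝ) - 1) = a := by
          have : (R : ℝ) - 1 ≠ 0 := by
            have : (0 : ℝ) < (R : ℝ) - 1 := by linarith
            exact this.ne'
          rw [div_eq_iff this]
          linarith
        have hc2 : a + g < (R - 1) * b := by
          rw [h3']
          nlinarith [mul_pos ha (show (0 : ℝ) < (R : ℝ) - 1 by linarith)]
        have hc3 : 0 < 1 + (b - a - g) * Om / w / ((R : ℝ) - 2) := by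
          have h5 : b - a - g = (R - 2) * a := by rw [h3']; ring
          have h6 : 0 < (b - a - g) * Om / w / ((R : ℝ) - 2) := by
            rw [h5]
            have : (0 : ℝ) < (R : ℝ) - 2 := by linarith
            positivity
          linarith
        have e1 : ∀ᶠ n in (U : Filter ℕ), al n + g < (R - 1) * be n :=
          (hA.add_const g).eventually_lt (hB.const_mul _) hc2
        have e2 : ∀ᶠ n in (U : Filter ℕ),
            0 < 1 + (be n - al n - g) * Om / W n / ((R : ℝ) - 2) := by
          have h2 : Tendsto (fun n => 1 + (be n - al n - g) * Om / W n / ((R : ℝ) - 2)) U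
              (𝓝 (1 + (b - a - g) * Om / w / ((R : ℝ) - 2))) :=
            (((((hB.sub hA).sub_const g).mul_const Om).div hW hw0.ne').div_const _).const_add 1
          exact h2.eventually (lt_mem_nhds hc3)
        rw [Lim_PQ hR hab ha h3]
        refine le_of_tendsto_of_tendsto hL (Lim_P R hs hW hA hB hg0 hgw) ?_
        filter_upwards [hE, e1, e2] with n h3 h4 h5
        exact (hC n).cP h3.le h4.le Om hOm h5.le
  rcases hN R g K w yl a b hGK hcon2 with h | h
  · linarith
  · linarith

end Pool.Agent.EMCW
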