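import Mathlib

/-!
Definitions for the numerical part of the window theorem of the Erdős matching conjecture
(`k` large, every uniformity).
-/

open Finset

namespace Pool.Agent.EMCW

/-- The critical parameters: `1 / (R + g)` is the mean at which the star and the clique have the
same value. -/
structure GK (R : ℕ) (g K : ℝ) : Prop where
  hR : 4 ≤ R
  g0 : 0 < g
  g1 : g < 1
  K0 : 0 < K
  e1 : (1 + g / R) ^ R = 1 + 1 / K
  e2 : (1 - (1 - g) / R) ^ R = 1 / K

/-- `∫_0^1 (1-t) (1 + v t / (R-2))^(R-2) dt`. -/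
noncomputable def E2 (R : ℕ) (v : ℝ) : ℝ :=
  ∫ t in (0 : ℝ)..1, (1 - t) * (1 + v * t / ((R : ℝ) - 2)) ^ (R - 2)

/-- The bound for the right-hand side of (I) obtained by duality. -/
noncomputable def Pb (R : ℕ) (g W j Om : ℝ) : ℝ :=
  1 + (W - g) * (1 + Om ^ 2 / W * E2 R ((j - g) * Om / W)) / (g + Om)

/-- The factors of the series for the lower bound (II*); `e` stands for `1 / R`. -/
noncomputable def am (e g W th : ℝ) (l : ℕ) : ℝ :=
  (1 + ((l : ℝ) - 1) * e) * W / (W - g + th + l + e * (th + l) * W)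

/-- The terms of the series for the lower bound (II*). -/
noncomputable def Nt (e g W th : ℝ) (k : ℕ) : ℝ :=
  (∏ l ∈ Icc 1 k, am e g W th l) *
    (1 + th / 2 * k / ((W - g) / (1 + e * W) + th + k + 1))

/-- The partial sums of the series for the lower bound (II*). -/
noncomputable def Nser (e g W th : ℝ) (m : ℕ) : ℝ := ∑ k ∈ Icc 1 m, Nt e g W th k

/-- The end of the zone in which (II*) is used. -/
noncomputable def W2 (R : ℕ) : ℝ := if R ≤ 8 then 57 / 20 else 3

/-- The constraints satisfied by the limits of critical laws. Here `W` is `R` times the variance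
(the mean is `1`), `{1 - al, 1 + be}` is the matched two-point law and `y = q / (c x)`. -/
structure Con (R : ℕ) (g K W y al be : ℝ) : Prop where
  hW : g ≤ W
  hal : 0 < al
  hal1 : al ≤ 1
  hbe : be ≤ y
  hab : al * be = W / R
  hy : y ≤ R + g - 1
  cb : (1 + g) * K * y ≤ 1 + W
  cD : W + (1 - al) * (1 + be) * y / (1 + y) ≤ y ^ 2 + (1 - g) * y
  cJ0 : y ≤ 1 → g < W → (1 + W / (R * (W + 1 - g))) ^ R - 1 ≤ y
  cN : ∀ th : ℝ, 0 ≤ th → th < 1 → y + W / (R * y) ≤ (1 + W / R) * (1 + th) →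
    ∀ m : ℕ, Nser (1 / R) g W th m ≤ y
  cP : al + be ≤ g + R * al → al + g < (R - 1) * be → ∀ Om : ℝ, 0 < Om →
    0 < 1 + (be - al - g) * Om / W / ((R : ℝ) - 2) → K * y ≤ Pb R g W (be - al) Om
  cQ : g + R * al ≤ al + be → ∀ Om : ℝ, 0 < Om →
    K * y ≤ 1 + (W - g) * ((be - g) / (R - 1) / al) *
      (1 + Om ^ 2 / (R * ((be - g) / (R - 1)) * be) *
        E2 R (((R : ℝ) - 2) * ((be - g) / (R - 1)) * Om / (R * ((be - g) / (R - 1)) * be))) /
      (g + Om)

end Pool.Agent.EMCW
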