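import Pool.Agent.EMCW.NumSt

/-!
Auxiliary statements for the numerical part. Below `d = 1 - g`, `e = 1 / R`, `ys = R + g - 1`.
-/

open Finset

namespace Pool.Agent.EMCW

/-! ## The function `E2` -/

/-- Closed form. Integrate by parts twice, or: the derivative in `t` of
`(1-t) (1+ut)^(R-1) / (u (R-1)) + (1+ut)^R / (u^2 R (R-1))` is `(1-t) (1+ut)^(R-2)`. -/
def St_E2cf : Prop := ∀ (R : ℕ) (u : ℝ), 3 ≤ R →
  E2 R (((R : ℝ) - 2) * u) * (R * (R - 1) * u ^ 2) = (1 + u) ^ R - 1 - R * u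

/-- Value at `0`, nonnegativity and monotonicity. -/
def St_E2mono : Prop := (∀ R : ℕ, 3 ≤ R → E2 R 0 = 1 / 2) ∧
  ∀ (R : ℕ) (v w : ℝ), 3 ≤ R → -((R : ℝ) - 2) ≤ v → v ≤ w → 0 ≤ E2 R v ∧ E2 R v ≤ E2 R w

/-- Convexity. -/
def St_E2conv : Prop := ∀ R : ℕ, 3 ≤ R → ConvexOn ℝ (Set.Ici (-((R : ℝ) - 2))) (E2 R)

/-- Lipschitz bound. Pointwise `a^m - b^m ≤ m (a-b) a^(m-1)` for `0 ≤ b ≤ a`, with
`a = 1 + w t / (R-2)`, `m = R - 2`, `a^(m-1) ≤ exp (w t) ≤ exp (7/5 t) ≤ 1 + 3.06 t` on `[0,1]`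
(convexity of `exp`, `exp (7/5) ≤ 4.06`), and `∫ t (1-t) (1 + 3.06 t) = 1/6 + 3.06/12 < .43`. -/
def St_E2lip : Prop := ∀ (R : ℕ) (v w : ℝ), 4 ≤ R → -((R : ℝ) - 2) ≤ v → v ≤ w → w ≤ 7 / 5 →
  E2 R w - E2 R v ≤ 43 / 100 * (w - v)

/-- Upper bounds for negative `v`: the chord on `[-1,0]` (`(1 - t/(R-2))^(R-2) ≤ exp (-t)`, so
`E2 R (-1) ≤ ∫ (1-t) exp (-t) = exp (-1) < .3679`; directly: for `v ∈ [-1,0]`
`(1+vt/(R-2))^(R-2) ≤ exp (v t) ≤ 1 + |v| (exp (-t) - 1)`), and, for `v ∈ [-(R-2), 0]`,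
`(1-s)^m ≤ 1 - m s + m(m-1)/2 s^2` for `s ∈ [0,1]` (with `s = -v t/(R-2)`, `m = R-2`). -/
def St_E2neg : Prop :=
  (∀ (R : ℕ) (v : ℝ), 4 ≤ R → -1 ≤ v → v ≤ 0 → E2 R v ≤ 1 / 2 + 1321 / 10000 * v) ∧
  ∀ (R : ℕ) (v : ℝ), 4 ≤ R → -((R : ℝ) - 2) ≤ v → v ≤ 0 →
    E2 R v ≤ 1 / 2 + v / 6 + ((R : ℝ) - 3) / (R - 2) * v ^ 2 / 24

/-! ## Critical parameters -/

/-- Enclosures for `R ≤ 24`, one `R` at a time (`interval_cases`, `norm_num`).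
`F g = (1+g/R)^R - (1-(1-g)/R)^R` is increasing, `F g = 1` by (e1), (e2), so the bounds for `g` follow
from `F gl ≤ 1 ≤ F gu`. For `K`: dividing (e1) by (e2): `K + 1 = (1 + 1/(R+g-1))^R`, decreasing in `g`
(the constants are such that this works with the bounds for `g`). -/
def St_GKs : Prop := ∀ (R : ℕ) (g K : ℝ), GK R g K → R ≤ 24 →
  4586 / 10000 + 81 / 1000 / R ≤ g ∧ g ≤ 4588 / 10000 + 822 / 10000 / R ∧
  17182 / 10000 + 112 / 1000 / R ≤ K ∧ K ≤ 17184 / 10000 + 1165 / 10000 / R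

/-- Enclosures of `g` for `R ≥ 25`: as before, `F gl ≤ 1 ≤ F gu`, with
`R log (1+g/R) ∈ [g - g^2 e/2 + g^3 e^2/3 - g^4 e^3/4, g - g^2 e/2 + g^3 e^2/3]`,
`-R log (1-d/R) ∈ [d + d^2 e/2 + d^3 e^2/3, d + d^2 e/2 + d^3 e^2/3 + d^4 e^3/(4 (1 - d e))]`. -/
def St_GKlg : Prop := ∀ (R : ℕ) (g K : ℝ), GK R g K → 25 ≤ R →
  4586 / 10000 + 81 / 1000 / R ≤ g ∧ g ≤ 4588 / 10000 + 822 / 10000 / R

/-- Enclosures of `K` for `R ≥ 25` from those of `g`: `K + 1 = (1 + 1/(R+g-1))^R`. -/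
def St_GKlK : Prop := St_GKlg → ∀ (R : ℕ) (g K : ℝ), GK R g K → 25 ≤ R →
  17182 / 10000 + 112 / 1000 / R ≤ K ∧ K ≤ 17184 / 10000 + 1165 / 10000 / R

/-! ## The ridge -/

/-- The quadratic in `St_Ridge` is positive: `A2 > 0` and `A1 ^ 2 < 4 A2 A0`, where
`A2 = K(2R+1+g)-2(K+1)dR`, `A1 = -(2R+1+g)-Kd(R-d)+2(K+1)dRg`, `A0 = d(R-d)+2(K+1)dg(R-1)`. -/
def St_RidgeQ : Prop := ∀ (R : ℕ) (g K y : ℝ), GK R g K →
  2 * (K + 1) * (1 - g) * (R * y ^ 2 - R * g * y - g * (R - 1)) <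
    (K * y - 1) * ((2 * R + 1 + g) * y - (1 - g) * (R - (1 - g)))

/-! ## The end `al = 1` of the curve -/

/-- The inequality for `v ≥ 0` (see `St_Alpha1` in the notes: chord of the convex function `E2` on
`[0, v*]`, `v* = (R-2)/ys`, and the cubic `C`). -/
def St_A1pos : Prop := ∀ (R : ℕ) (g K y : ℝ), GK R g K → 13 / 10 ≤ y → y < R + g - 1 →
  0 ≤ (y + 1 - g) / R - (1 + g) / y →
  (y - g) * (y + 1 - g) * E2 R ((y + 1 - g) / R - (1 + g) / y) < y * ((K - 1) * y - (1 - g))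

/-- The coefficients of the cubic; `ka` is the slope of the chord. All bounds follow from those of
`St_GKnum` (over the boxes of `St_GKnum`: `2 ka ∈ [.3530, .4368]`, `C2 ≥ -.5425`, third `≥ .2817`,
last `≤ .1583`; worst case `R = 4` for `2 ka`, `C2`, third, `R = ∞` for the last). For large `R` the
terms of order `R` in `C2` cancel, so multiply by `(R-1)(R-2)` and simplify first. -/
def St_A1cub : Prop := ∀ (R : ℕ) (g K : ℝ), GK R g K →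
  ∀ ys ka C2 c2 : ℝ, ys = R + g - 1 →
    ka = (ys * (K * ys - R) / (R * (R - 1)) - 1 / 2) * ys / (R - 2) →
    C2 = 2 * ka * (R + 1 - 2 * g) - R * (2 * K - 3) →
    c2 = -(2 * R * (1 - g)) + 2 * ka * R * (1 + g) - (1 - 2 * g) * (R + 2 * ka * (1 - g)) +
      2 * ka * g * (1 - g) →
    352 / 1000 ≤ 2 * ka ∧ 2 * ka ≤ 438 / 1000 ∧ -(545 / 1000) ≤ C2 ∧ 28 / 100 ≤ ys * C2 - c2 ∧
      2 * ka * R * (1 + g) * g * (1 - g) / ys ≤ 16 / 100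

/-- The inequality for `v ≤ 0`, `R ≥ 17`: by `St_E2neg` (first bound, `v ≥ -1`) it is enough that
`(y-g)(y+d)(1/2 + .1321 v) < y((K-1)y-d)` for `y(y+d) ≥ 3` (`y ≥ 1.48`), `y ≤ 5/2` (margin `.63%`
or more over the boxes of `St_GKnum`; a polynomial inequality in `y`, `e = 1/R ∈ (0, 1/17]`, `g`,
after multiplication by `y`), and for `y ≥ 5/2` already `E2 ≤ 1/2` is enough (margin `1%`). -/
def St_A1negL : Prop := ∀ (R : ℕ) (g K y : ℝ), GK R g K → 17 ≤ R → 0 < y →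
  3 ≤ y * (y + 1 - g) → (y + 1 - g) / R - (1 + g) / y ≤ 0 →
  (y - g) * (y + 1 - g) * E2 R ((y + 1 - g) / R - (1 + g) / y) < y * ((K - 1) * y - (1 - g))

/-- The inequality for `v ≤ 0`, `9 ≤ R ≤ 16`, one `R` at a time: second bound of `St_E2neg`; margins
`1.6%` (`R = 9`) to `.9%` (`R = 16`), worst at the left end `y = 1.486`. -/
def St_A1negM : Prop := ∀ (R : ℕ) (g K y : ℝ), GK R g K → 9 ≤ R → R ≤ 16 → 0 < y →
  3 ≤ y * (y + 1 - g) → (y + 1 - g) / R - (1 + g) / y ≤ 0 →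
  (y - g) * (y + 1 - g) * E2 R ((y + 1 - g) / R - (1 + g) / y) < y * ((K - 1) * y - (1 - g))

/-- The inequality for `v ≤ 0`, `4 ≤ R ≤ 8`, one `R` at a time: second bound of `St_E2neg`; margins
`1.6, 1.4, 1.1, .8, .5` percent for `R = 4, 5, 6, 7, 8`, worst at the left end `y = 1.443..1.448`. -/
def St_A1negS : Prop := ∀ (R : ℕ) (g K y : ℝ), GK R g K → R ≤ 8 → 0 < y →
  57 / 20 ≤ y * (y + 1 - g) → (y + 1 - g) / R - (1 + g) / y ≤ 0 →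
  (y - g) * (y + 1 - g) * E2 R ((y + 1 - g) / R - (1 + g) / y) < y * ((K - 1) * y - (1 - g))

end Pool.Agent.EMCW
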