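import Pool.Agent.EMCW.Bas
import Pool.Agent.EMCW.NumSt

/-!
The statements of the probabilistic part of the window theorem.
-/

open Finset

namespace Pool.Agent.EMCW

/-! ### A. Constraints for critical laws -/

/-- (c1), (IV). -/
def St_ConA : Prop := ∀ (R : ℕ) (g K c s : ℝ) (ι : Type) [Fintype ι] (m a : ι → ℝ),
  GK R g K → Crl R g K c s m a →
  1 - pp R (R + g) m a ≤ c * (1 + s) * (R + g - 1) ∧
  ∀ i, 0 < m i → c * (1 - s) * (a i - 1) ≤ 1 - pp R (R + g) m a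

/-- (b). -/
def St_ConB : Prop := ∀ (R : ℕ) (g K c s : ℝ) (ι : Type) [Fintype ι] (m a : ι → ℝ),
  GK R g K → Crl R g K c s m a →
  (1 + g - s) * pp R (R + g) m a ≤ c * (1 + s) * (1 + WW R m a)

/-- `E (M - x - S_{R-1})_+`. -/
noncomputable def HH {ι : Type} [Fintype ι] (R : ℕ) (M : ℝ) (m a : ι → ℝ) (x : ℝ) : ℝ :=
  Tk m a (R - 1) (fun s => max (M - s) 0) x

/-- `E [S; S < M]`. -/
noncomputable def mq {ι : Type} [Fintype ι] (R : ℕ) (M : ℝ) (m a : ι → ℝ) : ℝ :=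
  R * ∑ i, m i * a i * (1 - hh R M m a (a i))

/-- Identities and Cauchy-Schwarz for (D). -/
def St_DA : Prop := ∀ (R : ℕ) (M : ℝ) (ι : Type) [Fintype ι] (m a : ι → ℝ), 1 ≤ R →
  IsLaw M 1 m a →
  ∑ i, m i * HH R M m a (a i) = M * (1 - pp R M m a) - mq R M m a ∧
  mq R M m a ^ 2 ≤ (1 - pp R M m a) *
    (R * ∑ i, m i * a i * (M * (1 - hh R M m a (a i)) - HH R M m a (a i)))

/-- The upper bound for the covariance in (D). -/
def St_DB : Prop := ∀ (R : ℕ) (g K c s : ℝ) (ι : Type) [Fintype ι] (m a : ι → ℝ),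
  GK R g K → Crl R g K c s m a →
  ∑ i, m i * HH R (R + g) m a (a i) - ∑ i, m i * a i * HH R (R + g) m a (a i) ≤
    (m2 m a - 1) * (1 - pp R (R + g) m a + c * (1 + s)) -
      c * (1 - s) * ∑ i, ∑ j, m i * m j * (if a j < a i then (a i - a j) ^ 2 * a j else 0)

/-- (D). -/
def St_D : Prop := ∀ (R : ℕ) (g K c s B : ℝ) (ι : Type) [Fintype ι] (m a : ι → ℝ),
  GK R g K → Crl R g K c s m a → 0 < 1 - pp R (R + g) m a → 0 < WW R m a →
  (∀ i, 0 < m i → a i ≤ B) → 0 < B →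
  ∀ y : ℝ, y = (1 - pp R (R + g) m a) / c →
  (1 - s) ^ 2 * WW R m a + (1 - s) * g * y +
    (1 - s) * y * ((m3 m a - m2 m a ^ 2) / ((m2 m a - 1) * B)) ≤ y ^ 2 + (1 + s) * y

/-! ### B. Positive tilts -/

/-- `E [e^{-s(x + S_{R-1})}; x + S_{R-1} < M]`. -/
noncomputable def Gs {ι : Type} [Fintype ι] (R : ℕ) (M : ℝ) (m a : ι → ℝ) (s x : ℝ) : ℝ :=
  Tk m a (R - 1) (fun v => if v < M then Real.exp (-s * v) else 0) x

/-- `q(s) = P_s(S < M)`. -/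
noncomputable def qs {ι : Type} [Fintype ι] (R : ℕ) (M : ℝ) (m a : ι → ℝ) (s : ℝ) : ℝ :=
  (∑ i, m i * Gs R M m a s (a i)) / ph m a s ^ R

/-- The derivative of `q(s)`. -/
def St_Der : Prop := ∀ (R : ℕ) (M s : ℝ) (ι : Type) [Fintype ι] (m a : ι → ℝ), 1 ≤ R →
  IsLaw M 1 m a →
  HasDerivAt (qs R M m a)
    (R / ph m a s ^ (R + 1) * ∑ i, ∑ j, m i * m j * (if a j < a i then
      (a i - a j) * (Real.exp (-s * a i) * Gs R M m a s (a j) -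
        Real.exp (-s * a j) * Gs R M m a s (a i)) else 0)) s ∧
  qs R M m a 0 = 1 - pp R M m a ∧ 0 ≤ qs R M m a s ∧ qs R M m a s ≤ 1

/-- The inequality `V_0(s) ≤ V + 1 - m_s`. -/
def St_Chi : Prop := ∀ (M s : ℝ) (ι : Type) [Fintype ι] (m a : ι → ℝ), IsLaw M 1 m a → 0 ≤ s →
  ∑ i, ∑ j, m i * m j * (if a j < a i then (a i - a j) ^ 2 * Real.exp (-s * a j) else 0) ≤
    m2 m a * ph m a s - ∑ i, m i * a i * Real.exp (-s * a i)

/-- (I). -/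
def St_TP : Prop := ∀ (R : ℕ) (g K c s J : ℝ) (ι : Type) [Fintype ι] (m a : ι → ℝ),
  GK R g K → Crl R g K c s m a → (∀ T : ℝ, 0 ≤ T → ∫ u in (0 : ℝ)..T, Ph R g m a u ≤ J) →
  pp R (R + g) m a ≤ c * (1 + s) * (1 + max (WW R m a - g) 0 * J)

/-! ### C. Negative tilts -/

/-- The cut kernel. -/
def St_Cut : Prop := ∀ (R : ℕ) (g K c s de t : ℝ) (ι : Type) [Fintype ι] (m a : ι → ℝ),
  GK R g K → Crl R g K c s m a → 0 < de → 0 < t →
  (∀ i j, 0 < m i → 0 < m j → a i < a j → (∀ k, 0 < m k → ¬ (a i < a k ∧ a k < a j)) →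
    a j - a i ≤ de) →
  ∀ i j, 0 < m i → 0 < m j → a i ≤ a j →
    c * (1 - s) * (de / (Real.exp (de * t) - 1)) * Real.exp (t * (R + g)) *
      (Real.exp (-t * a i) - Real.exp (-t * a j)) ≤
    Real.exp (-t * a i) * Gs R (R + g) m a (-t) (a i) -
      Real.exp (-t * a j) * Gs R (R + g) m a (-t) (a j)

/-- `Psi(t) = (e^{-t} E e^{tX})^{-R}`. -/
noncomputable def Ps {ι : Type} [Fintype ι] (R : ℕ) (m a : ι → ℝ) (t : ℝ) : ℝ :=
  Real.exp (R * t) / ph m a (-t) ^ R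

/-- The differential inequality for negative tilts. -/
def St_TN : Prop := ∀ (R : ℕ) (g K c s de t : ℝ) (ι : Type) [Fintype ι] (m a : ι → ℝ),
  GK R g K → Crl R g K c s m a → 0 < de → 0 < t →
  (∀ i j, 0 < m i → 0 < m j → a i < a j → (∀ k, 0 < m k → ¬ (a i < a k ∧ a k < a j)) →
    a j - a i ≤ de) →
  ∃ D P : ℝ, HasDerivAt (fun u => qs R (R + g) m a (-u)) D t ∧ HasDerivAt (Ps R m a) P t ∧
    P ≤ 0 ∧ D ≤ c * (1 - s) * (de / (Real.exp (de * t) - 1)) * Real.exp (g * t) * P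

/-- The kernel inequality. -/
def St_Ker : Prop := ∀ b th t : ℝ, 0 < b → 0 ≤ th → th ≤ 1 → 0 < t →
  b * Real.exp (-((1 + th) * b * t)) * (1 + th / 2 * (1 - Real.exp (-(b * t)))) /
      (1 - Real.exp (-(b * t))) ≤
    b * (1 + th) / (Real.exp (b * (1 + th) * t) - 1)

/-- Third order Hermite interpolation. -/
def St_L3 : Prop := ∀ (M t : ℝ) (ι : Type) [Fintype ι] (m a : ι → ℝ), IsLaw M 1 m a → 0 ≤ t →
  1 - 1 / m2 m a + 1 / m2 m a * Real.exp (m2 m a * t) ≤ ph m a (-t)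

/-- The primitive for the series. -/
def St_Sm : Prop := ∀ (R : ℕ) (g W th : ℝ) (k : ℕ), 1 ≤ R → 0 < g → g < 1 → 0 < W →
  0 ≤ th → th < 1 → 0 < (W - g) / (1 + W / R) + th + 1 →
  ∃ S S' : ℝ → ℝ, ContinuousOn S (Set.Icc 0 1) ∧ S 0 = 0 ∧ S 1 = Nser (1 / R) g W th k ∧
    ∀ r : ℝ, 0 < r → r < 1 → HasDerivAt S (S' r) r ∧
      S' r ≤ R * (W / (R + W)) * r ^ ((W - g) / (1 + W / R) + th) * (1 + th / 2 * (1 - r)) /
        (R / (R + W) + W / (R + W) * r) ^ (R + 1)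

/-- The primitive for the bound from Jensen's inequality. -/
def St_SJ : Prop := ∀ (R : ℕ) (g W th : ℝ), 1 ≤ R → 0 < g → g < 1 → 0 < W →
  0 ≤ th → th < 1 → 0 < R * (W - g) / (R + W) + th →
  ∃ S S' : ℝ → ℝ, ContinuousOn S (Set.Icc 0 1) ∧ S 0 = 0 ∧
    S 1 = ((R * (W - g) / (R + W) + th + 1) /
      (R * (W - g) / (R + W) + th + R / (R + W))) ^ R - 1 ∧
    ∀ r : ℝ, 0 < r → r < 1 → HasDerivAt S (S' r) r ∧
      S' r ≤ R * (W / (R + W)) * r ^ ((W - g) / (1 + W / R) + th) * (1 + th / 2 * (1 - r)) /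
        (R / (R + W) + W / (R + W) * r) ^ (R + 1)

/-- (II*). -/
def St_NG : Prop := ∀ (R : ℕ) (g K c s W th : ℝ) (S S' : ℝ → ℝ) (ι : Type) [Fintype ι]
  (m a : ι → ℝ), GK R g K → Crl R g K c s m a → W = WW R m a → 0 < W → 0 ≤ th → th < 1 →
  (∀ i j, 0 < m i → 0 < m j → a i < a j → (∀ k, 0 < m k → ¬ (a i < a k ∧ a k < a j)) →
    a j - a i ≤ (1 + W / R) * (1 + th)) →
  ContinuousOn S (Set.Icc 0 1) → S 0 = 0 →
  (∀ r : ℝ, 0 < r → r < 1 → HasDerivAt S (S' r) r ∧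
      S' r ≤ R * (W / (R + W)) * r ^ ((W - g) / (1 + W / R) + th) * (1 + th / 2 * (1 - r)) /
        (R / (R + W) + W / (R + W) * r) ^ (R + 1)) →
  c * (1 - s) * S 1 ≤ 1 - pp R (R + g) m a

/-- The gap bound. -/
def St_Gap : Prop := ∀ (V Y : ℝ) (M : ℝ) (ι : Type) [Fintype ι] (m a : ι → ℝ),
  IsLaw M 1 m a → V = m2 m a - 1 → 0 < V → 0 < Y → (∀ i, 0 < m i → a i - 1 ≤ Y) →
  ∀ i j, 0 < m i → 0 < m j → a i < a j → (∀ k, 0 < m k → ¬ (a i < a k ∧ a k < a j)) →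
    a j - a i ≤ max (1 + V) (Y + V / Y)

/-! ### D. The matched two-point law -/

/-- The matched two-point law. -/
def St_Match : Prop := ∀ (M : ℝ) (ι : Type) [Fintype ι] (m a : ι → ℝ), IsLaw M 1 m a →
  0 < m2 m a - 1 → ∃ al be : ℝ, 0 < al ∧ al ≤ 1 ∧ 0 < be ∧ al * be = m2 m a - 1 ∧
    (be - al) * (m2 m a - 1) = m3 m a - 3 * m2 m a + 2 ∧
    (1 - al) * (1 + be) * (m2 m a - 1) = m3 m a - m2 m a ^ 2 ∧
    (∀ B : ℝ, (∀ i, 0 < m i → a i ≤ B) → 1 + be ≤ B) ∧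
    ∀ u : ℝ, 0 ≤ u → ph2 al be u ≤ ph m a u

/-- The duality bound. -/
def St_JP : Prop := ∀ (R : ℕ) (g al be Om T : ℝ), 3 ≤ R → 0 < g → 0 < al → 0 < be →
  al + be ≤ g + R * al → al + g ≤ (R - 1) * be → 0 < Om →
  0 ≤ 1 + (be - al - g) * Om / (R * al * be) / ((R : ℝ) - 2) → 0 ≤ T →
  ∫ u in (0 : ℝ)..T, Ph2 R g al be u ≤
    (1 + Om ^ 2 / (R * al * be) * E2 R ((be - al - g) * Om / (R * al * be))) / (g + Om)

/-- Monotonicity of `al J(al, be)` in `al`. -/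
def St_JQ : Prop := ∀ (R : ℕ) (g al al1 be T : ℝ), 1 ≤ R → 0 < g → 0 < al → al ≤ al1 → 0 < be →
  0 ≤ T → ∫ u in (0 : ℝ)..T, Ph2 R g al be u ≤
    al1 / al * ∫ u in (0 : ℝ)..(al * T / al1), Ph2 R g al1 be u

/-! ### E. All constraints -/

/-- All constraints with tolerance. -/
def St_ConS : Prop := ∀ (R : ℕ) (g K c s : ℝ) (ι : Type) [Fintype ι] (m a : ι → ℝ),
  GK R g K → Crl R g K c s m a → s < g → ∃ al be : ℝ,
    ConS R g K s (WW R m a) ((1 - pp R (R + g) m a) / c) al be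

/-- The limit. -/
def St_Lim : Prop := ∀ (R : ℕ) (g K tau : ℝ), GK R g K → 0 < tau → ∃ sg : ℝ, 0 < sg ∧ sg < 1 ∧
  ∀ s W y al be : ℝ, 0 ≤ s → s < sg → ConS R g K s W y al be →
    W ≤ g + tau ∨ R * (R + g - 1) - tau ≤ W

/-! ### G. Maximisation -/

/-- Existence of a maximiser over the masses. -/
def St_Max : Prop := ∀ (R : ℕ) (M x ka w0 : ℝ) (ι : Type) [Fintype ι] (m a : ι → ℝ),
  IsLaw M x m a → ∃ m' : ι → ℝ, IsLaw M x m' a ∧ ∀ m'' : ι → ℝ, IsLaw M x m'' a →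
    pp R M m'' a - ka * (m2 m'' a - w0) ^ 2 ≤ pp R M m' a - ka * (m2 m' a - w0) ^ 2

/-- The first order condition. -/
def St_Var : Prop := ∀ (R : ℕ) (M x ka w0 : ℝ) (ι : Type) [Fintype ι] (m m' a : ι → ℝ), 1 ≤ R →
  IsLaw M x m a → IsLaw M x m' a →
  (∀ m'' : ι → ℝ, IsLaw M x m'' a →
    pp R M m'' a - ka * (m2 m'' a - w0) ^ 2 ≤ pp R M m a - ka * (m2 m a - w0) ^ 2) →
  ∑ i, m' i * (R * hh R M m a (a i) - 2 * ka * (m2 m a - w0) * a i ^ 2) ≤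
    ∑ i, m i * (R * hh R M m a (a i) - 2 * ka * (m2 m a - w0) * a i ^ 2)

/-- The supporting line. -/
def St_Line : Prop := ∀ (M x : ℝ) (ι : Type) [Fintype ι] (m a G : ι → ℝ),
  IsLaw M x m a → (∃ i, x < a i) →
  (∀ m' : ι → ℝ, IsLaw M x m' a → ∑ i, m' i * G i ≤ ∑ i, m i * G i) →
  ∃ l0 l1 : ℝ, ∀ i, G i ≤ l0 + l1 * a i ∧ (0 < m i → G i = l0 + l1 * a i)

/-- Facts on the supremum. -/
def St_Vh : Prop := ∀ (R : ℕ) (g K : ℝ), GK R g K →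
  (∀ (ι : Type) [Fintype ι] (m a : ι → ℝ), IsLaw (R + g) 1 m a →
    pp R (R + g) m a ≤ Vh R (R + g)) ∧
  (∀ et : ℝ, 0 < et → ∃ (ι : Type) (_ : Fintype ι) (m a : ι → ℝ), IsLaw (R + g) 1 m a ∧
    Vh R (R + g) - et < pp R (R + g) m a) ∧
  Vh R (R + g) < 1 ∧ 1 - (1 - 1 / (R + g)) ^ R ≤ Vh R (R + g) ∧
  (R / (R + g)) ^ R = 1 - (1 - 1 / (R + g)) ^ R

/-- Mixing with the point `M`. -/
def St_Mix : Prop := ∀ (R : ℕ) (g K x : ℝ) (ι : Type) [Fintype ι] (m a : ι → ℝ),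
  GK R g K → IsLaw (R + g) x m a → x ≤ 1 →
  pp R (R + g) m a ≤ 1 - (1 - Vh R (R + g)) * ((R + g - x) / (R + g - 1)) ^ R

/-- The truncation inequality for nearly optimal laws. -/
def St_Trunc : Prop := ∀ (R : ℕ) (g K et t : ℝ) (ι : Type) [Fintype ι] (m a : ι → ℝ),
  GK R g K → IsLaw (R + g) 1 m a → 0 ≤ et → Vh R (R + g) - et ≤ pp R (R + g) m a →
  0 ≤ t → t < (R + g) / R →
  ∑ i, m i * min (a i) t ≤ R * t / (R + g) + et * (R + g) / (1 - Vh R (R + g))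

/-- Nearly optimal laws satisfying a perturbed line condition are critical. -/
def St_Crit : Prop := ∀ (R : ℕ) (g K s : ℝ), GK R g K → 0 < s → s < 1 → ∃ et : ℝ, 0 < et ∧
  ∀ (ι : Type) [Fintype ι] (m a : ι → ℝ) (c0 c1 e : ℝ), IsLaw (R + g) 1 m a →
    Vh R (R + g) - et ≤ pp R (R + g) m a → |e| ≤ et →
    (∀ i, 0 < m i → hh R (R + g) m a (a i) = c0 + c1 * a i + e * a i ^ 2) →
    1 ≤ c0 + c1 * (R + g) + e * (R + g) ^ 2 →
    Crl R g K c1 s m a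

/-- There are no nearly optimal laws with intermediate variance. -/
def St_U : Prop := ∀ (R : ℕ) (g K tau : ℝ), GK R g K → 0 < tau → ∃ et : ℝ, 0 < et ∧
  ∀ (ι : Type) [Fintype ι] (m a : ι → ℝ), IsLaw (R + g) 1 m a →
    Vh R (R + g) - et ≤ pp R (R + g) m a →
    WW R m a ≤ g + tau ∨ R * (R + g - 1) - tau ≤ WW R m a

/-- Near the clique. -/
def St_NC : Prop := ∀ (R : ℕ) (g K tau : ℝ), GK R g K → 0 < tau → ∃ et : ℝ, 0 < et ∧
  ∀ (ι : Type) [Fintype ι] (m a : ι → ℝ), IsLaw (R + g) 1 m a →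
    Vh R (R + g) - et ≤ pp R (R + g) m a → WW R m a ≤ g + et →
    ∑ i, m i * a i * |a i - (R + g) / R| ≤ tau

/-- Near the star. -/
def St_NS : Prop := ∀ (R : ℕ) (g K tau : ℝ), GK R g K → 0 < tau → ∃ et : ℝ, 0 < et ∧
  ∀ (ι : Type) [Fintype ι] (m a : ι → ℝ), IsLaw (R + g) 1 m a →
    R * (R + g - 1) - et ≤ WW R m a → ∑ i, m i * a i * (R + g - a i) ≤ tau

/-- The value near the clique and near the star. -/
def St_Val : Prop := ∀ (R : ℕ) (g K et : ℝ), GK R g K → 0 < et → ∃ tau : ℝ, 0 < tau ∧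
  ∀ (ι : Type) [Fintype ι] (m a : ι → ℝ), IsLaw (R + g) 1 m a →
    (∑ i, m i * a i * |a i - (R + g) / R| ≤ tau ∨ ∑ i, m i * a i * (R + g - a i) ≤ tau) →
    pp R (R + g) m a ≤ 1 - (1 - 1 / (R + g)) ^ R + et

/-- The theorem on identically distributed variables at the critical mean, with stability. -/
def St_S : Prop := ∀ (R : ℕ) (g K tau : ℝ), GK R g K → 0 < tau → ∃ et : ℝ, 0 < et ∧
  ∀ (ι : Type) [Fintype ι] (m a : ι → ℝ), IsLaw (R + g) 1 m a →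
    1 - (1 - 1 / (R + g)) ^ R - et ≤ pp R (R + g) m a →
    ∑ i, m i * a i * |a i - (R + g) / R| ≤ tau ∨ ∑ i, m i * a i * (R + g - a i) ≤ tau

end Pool.Agent.EMCW
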